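import Pool.Agent.H88.SS.Df

/-!
ROW Sa (project MP_78d38b_SS, about 100 lines): semisimplicity passes from the algebraic closure to every Galois extension of the
rationals which contains the conjugates of `K`.

PROOF. Modification of the PROVED theorem `H90T8.simple_transfer` (`Pool/Agent/H90/T8/Tr.lean`): there a bijection `e : (K →ₐ[ℚ] M) ≃ (K →ₐ[ℚ] AlgebraicClosure ℚ)`, `e σ = i.comp σ`, is constructed with: for every `g` of the closure there is `g' : M ≃ₐ[ℚ] M` with `e (g' • σ) = g • e σ` (restriction). Moreover every `g' : M ≃ₐ[ℚ] M` is such a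
restriction: `g'` extends to the algebraic closure (`AlgEquiv.liftNormal` or `AlgEquiv.restrictNormalHom_surjective` for the normal extension `AlgebraicClosure ℚ / M / ℚ`, with `Algebra M (AlgebraicClosure ℚ)` given by `i`). Let `U` be stable under `M ≃ₐ[ℚ] M`. `U₁ = {u | u ∘ e ∈ U}` is stable under the big group (restriction), so it has a stable
complement `U₁'`; `U' = {u | u ∘ e.symm ∈ U₁'}` is stable under `M ≃ₐ[ℚ] M` (extension), and `IsCompl U U'` since `u ↦ u ∘ e` is a linear isomorphism (`LinearMap.funLeft`, `Submodule.map`/`comap` under a `LinearEquiv`: `Submodule.orderIsoMapComap`, `isCompl` is preserved by order isomorphisms).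
-/

set_option autoImplicit false
set_option linter.unusedSectionVars false
open scoped Classical

open WithZero NumberField IsDedekindDomain H38RT H88T7 H88T8 H90T8
open H38T1 (SC sc scu scu_surj sc_mul sc_of_ne sc_surj rep rep_ne sc_rep sc_eq_zero eo la si Pri tp OddP
  LD XX XX' NS ov rp SqMod)

namespace H88D8.SS

variable {K M : Type} [Field K] [NumberField K] [Field M] [NumberField M]

private theorem Sa_normal (a : Algebra ℚ (AlgebraicClosure ℚ)) :
    @Normal ℚ (AlgebraicClosure ℚ) _ _ a := by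
  obtain rfl : a = AlgebraicClosure.instAlgebra ℚ := Subsingleton.elim _ _
  exact IsAlgClosure.normal _ _

theorem semi_transfer (hL : BigL K M) (h : SemiK K) : SemiSimple (M ≃ₐ[ℚ] M) (K →ₐ[ℚ] M) := by
  let i : M →ₐ[ℚ] AlgebraicClosure ℚ := IsAlgClosed.lift
  have hinj : Function.Injective i := i.toRingHom.injective
  have hinj2 : Function.Injective (fun σ : K →ₐ[ℚ] M => i.comp σ) := by
    intro σ τ h
    ext x
    exact hinj (congrArg (fun f : K →ₐ[ℚ] AlgebraicClosure ℚ => f x) h)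
  have hbij : Function.Bijective (fun σ : K →ₐ[ℚ] M => i.comp σ) := by
    rw [Fintype.bijective_iff_injective_and_card]
    refine ⟨hinj2, ?_⟩
    rw [hL.card, AlgHom.card]
  obtain ⟨e, he⟩ : ∃ e : (K →ₐ[ℚ] M) ≃ (K →ₐ[ℚ] AlgebraicClosure ℚ), ∀ σ, e σ = i.comp σ :=
    ⟨Equiv.ofBijective _ hbij, fun σ => rfl⟩
  let alg : Algebra M (AlgebraicClosure ℚ) := i.toRingHom.toAlgebra
  have htow : IsScalarTower ℚ M (AlgebraicClosure ℚ) := IsScalarTower.of_algHom i
  have hn : Normal ℚ M := hL.gal.to_normal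
  have hγ : ∀ (g : AlgebraicClosure ℚ ≃ₐ[ℚ] AlgebraicClosure ℚ) (x : M),
      i (g.restrictNormal M x) = g (i x) := fun g x =>
    AlgEquiv.restrictNormal_commutes g M x
  have hr0 : ∀ (g : AlgebraicClosure ℚ ≃ₐ[ℚ] AlgebraicClosure ℚ) (σ : K →ₐ[ℚ] M),
      e (g.restrictNormal M • σ) = g • e σ := by
    intro g σ
    rw [he, he]
    ext x
    exact hγ g (σ x)
  have hr : ∀ g : AlgebraicClosure ℚ ≃ₐ[ℚ] AlgebraicClosure ℚ, ∃ g' : M ≃ₐ[ℚ] M,
      ∀ σ : K →ₐ[ℚ] M, e (g' • σ) = g • e σ := fun g => ⟨g.restrictNormal M, hr0 g⟩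
  have hr' : ∀ g' : M ≃ₐ[ℚ] M, ∃ g : AlgebraicClosure ℚ ≃ₐ[ℚ] AlgebraicClosure ℚ,
      ∀ σ : K →ₐ[ℚ] M, e (g' • σ) = g • e σ := by
    intro g'
    have hnΩ : Normal ℚ (AlgebraicClosure ℚ) := Sa_normal _
    obtain ⟨g, hg⟩ := AlgEquiv.restrictNormalHom_surjective (F := ℚ) (K₁ := M)
      (AlgebraicClosure ℚ) g'
    refine ⟨g, fun σ => ?_⟩
    rw [← hr0 g σ, ← hg]
    rfl
  obtain ⟨L, hLa⟩ : ∃ L : ((K →ₐ[ℚ] AlgebraicClosure ℚ) → ZMod 2) ≃ₗ[ZMod 2]
      ((K →ₐ[ℚ] M) → ZMod 2), ∀ u s, L u s = u (e s) :=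
    ⟨LinearEquiv.funCongrLeft (ZMod 2) (ZMod 2) e, fun _ _ => rfl⟩
  intro U hU
  obtain ⟨U₁', hst, hc⟩ := h (U.comap (L : ((K →ₐ[ℚ] AlgebraicClosure ℚ) → ZMod 2) →ₗ[ZMod 2]
      ((K →ₐ[ℚ] M) → ZMod 2))) (by
    intro g u hu
    obtain ⟨g', hg'⟩ := hr g
    rw [Submodule.mem_comap] at hu ⊢
    have h1 := hU g' _ hu
    have h2 : (fun s => L u (g' • s)) = L (fun s => u (g • s)) := by
      funext s
      rw [hLa, hLa, hg']
    change L (fun s => u (g • s)) ∈ U
    rw [← h2]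
    exact h1)
  refine ⟨U₁'.map (L : ((K →ₐ[ℚ] AlgebraicClosure ℚ) → ZMod 2) →ₗ[ZMod 2]
      ((K →ₐ[ℚ] M) → ZMod 2)), ?_, ?_⟩
  · intro g' u hu
    obtain ⟨u₁, hu₁, rfl⟩ := hu
    obtain ⟨g, hg⟩ := hr' g'
    refine ⟨fun s => u₁ (g • s), hst g u₁ hu₁, ?_⟩
    funext s
    change L (fun s => u₁ (g • s)) s = L u₁ (g' • s)
    rw [hLa, hLa, hg]
  · have h1 := (Submodule.orderIsoMapComap L).isCompl hc
    have h2 : (Submodule.orderIsoMapComap L) (U.comap
        (L : ((K →ₐ[ℚ] AlgebraicClosure ℚ) → ZMod 2) →ₗ[ZMod 2] ((K →ₐ[ℚ] M) → ZMod 2))) = U :=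
      Submodule.map_comap_eq_of_surjective L.surjective U
    rw [h2] at h1
    exact h1

end H88D8.SS
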