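import Pool.Agent.H88.SS.Kf
import Pool.Agent.H88.SS.Sa
import Pool.Agent.H90.T8.Ad

/-!
ROW Ad (project MP_78d38b_SS, about 80 lines): the primes given by the density theorem.

PROOF. Modification of the PROVED theorem `H90T8.adm8` in `Pool/Agent/H90/T8/Ad.lean`: `cR`, `cE` are the same (they do not use the condition on the group; `Ad_R` is private, copy it), `cS` is like `cB` with `exists_kapS` (row Kf) in place of `exists_kap`, `hS' = semi_transfer hL hS` (row Sa).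
-/

set_option autoImplicit false
set_option linter.unusedSectionVars false
open scoped Classical

open WithZero NumberField IsDedekindDomain H38RT H88T7 H88T8 H90T8
open H38T1 (SC sc scu scu_surj sc_mul sc_of_ne sc_surj rep rep_ne sc_rep sc_eq_zero eo la si Pri tp OddP
  LD XX XX' NS ov rp SqMod)

namespace H88D8.SS

variable {K M : Type} [Field K] [NumberField K] [Field M] [NumberField M]

private theorem Ad_R {Φ : SC M →+ ZMod 2} {Ψ : SC ℚ →+ ZMod 2} {R : Finset (SC ℚ)}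
    {Z : Finset (SC K)} (hZ : R.image (res K) ⊆ Z) (hΦ : ∀ r ∈ R, Φ (res M r) = Ψ r) {p : ℕ}
    {w : HeightOneSpectrum (𝓞 M)}
    (hb : Set.BijOn (fun σ : K →ₐ[ℚ] M => pl σ w) Set.univ (ov K {p}))
    (hz : ∀ z ∈ Z, ∀ σ : K →ₐ[ℚ] M, la (pl σ w) z = Φ (em σ z)) :
    ∀ r ∈ R, ∀ v ∈ ov K {p}, la v (res K r) = Ψ r := by
  intro r hr v hv
  obtain ⟨σ, -, rfl⟩ := hb.surjOn hv
  rw [hz _ (hZ (Finset.mem_image_of_mem _ hr)), em_res, hΦ r hr]

theorem admS (hodd : Odd (Module.finrank ℚ K)) (hL : BigL K M) (hS : SemiK K) :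
    AdmS K M hL := by
  have hS' := semi_transfer hL hS
  have hne : Nonempty (K →ₐ[ℚ] M) := by
    rw [← Fintype.card_pos_iff, hL.card]
    exact hodd.pos
  obtain ⟨σ₀⟩ := hne
  have hcE : ∀ w : SC K, nm K w = 0 → w ∉ E0m K M → ∀ (e : ZMod 2) (R : Finset (SC ℚ))
      (Ψ : SC ℚ →+ ZMod 2), (∀ d ∈ QKm M, Ψ d = 0) →
      {p : ℕ | Tot K p ∧ (∀ r ∈ R, ∀ v ∈ ov K {p}, la v (res K r) = Ψ r) ∧
        ∃ v ∈ ov K {p}, la v w = e}.Infinite := by
    intro w hw hwE e R Ψ hΨ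
    obtain ⟨Φ, hΦ, hΦe⟩ := ext1 hΨ (y := em σ₀ w)
      (fun r hr => hwE (E0_of_inv hodd hL hw hr)) e
    refine (cheb_tot hodd hL Φ (insert w (R.image (res K)))).mono ?_
    rintro p ⟨hp, w', -, hb, hz⟩
    refine ⟨hp, Ad_R (Finset.subset_insert _ _) (fun r _ => hΦ r) hb hz, pl σ₀ w',
      hb.mapsTo (Set.mem_univ _), ?_⟩
    rw [hz _ (Finset.mem_insert_self _ _), hΦe]
  refine { cR := ?_, cE := hcE, cS := ?_ }
  · intro R Ψ hΨ
    obtain ⟨Φ, hΦ⟩ := ext0 hΨ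
    refine (cheb_tot hodd hL Φ (R.image (res K))).mono ?_
    rintro p ⟨hp, w', -, hb, hz⟩
    exact ⟨hp, Ad_R (Finset.Subset.refl _) (fun r _ => hΦ r) hb hz⟩
  · intro X hfin hnm hE hst hc R Ψ hΨ
    obtain ⟨Φ, hΦ, hΦu⟩ := exists_kapS hodd hL hS' X hfin hnm hE hst hc R hΨ
    refine (cheb_tot hodd hL Φ (hfin.toFinset ∪ R.image (res K))).mono ?_
    rintro p ⟨hp, w', -, hb, hz⟩
    refine ⟨hp, Ad_R Finset.subset_union_right hΦ hb hz, ?_⟩
    intro f hf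
    have hsum : ∑ σ : K →ₐ[ℚ] M, f (pl σ w') = 0 := by
      rw [← hf, ← finsum_mem_eq_of_bijOn (fun σ : K →ₐ[ℚ] M => pl σ w') (f := fun σ => f (pl σ w'))
        (g := f) hb (fun σ _ => rfl), finsum_mem_univ, finsum_eq_sum_of_fintype]
    obtain ⟨x, hx, hxu⟩ := hΦu (fun σ => f (pl σ w')) hsum
    refine ⟨x, hx, ?_⟩
    intro v hv
    obtain ⟨σ, -, rfl⟩ := hb.surjOn hv
    change la (pl σ w') x = f (pl σ w')
    rw [hz x (Finset.mem_union_left _ (hfin.mem_toFinset.2 hx)), hxu]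

end H88D8.SS
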