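import Pool.Agent.H88.SS.Fb

/-!
ROW Cb (project MP_78d38b_SS, about 120 lines, pure linear algebra over ZMod 2): the numbers `fb t π`.

PROOF. fb_congr: the two sets are equal. fb_perm: `u ↦ u ∘ e.symm` is a bijection from the first set onto the second one (`(t u)(σ) = ∑ τ, t σ τ u τ`; substitute `τ = e.symm τ'`).
fb_inj: the condition on the fibres is void; `{u | t u = u}` is the range of `t.mulVecLin` (as `t * t = t`), a vector space of dimension `t.rank` (`Matrix.rank` is defined as the finrank of
the range), so its cardinality is `2 ^ t.rank` (`Module.natCard_eq_pow_finrank`, `Nat.card_zmod`). fb_pos: `u = 0` is in the set, which is finite.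
fb_transpose: let `F` be the permutation matrix of `s`, `(F u) σ = u (s σ)` (`F σ τ = if τ = s σ then 1 else 0`). `hs` says `t * F = F * t`. The set `{u | t u = u, u constant on the fibres}` is
`{u | t u = u ∧ F u = u}` by `hπ` (`u (s σ) = u σ` for all `σ` iff `u` is constant on the cycles: `Equiv.Perm.SameCycle`, `zpow` induction), and this is `{u | (t * F) u = u}`: if `t F u = u` then `t u = t t F u = u`,
`F u = F t F u`..., precisely: `u = t (F u)` gives `t u = u`; `F u = F t F u = t F F u`; from `u = t F u = F t u = F u`. So `fb t π = Nat.card (ker (1 - t * F))`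
`= 2 ^ (card H - rank (1 - t * F))`. For the transpose: `t.transpose` commutes with `F` too (`F.transpose` is the matrix of `s⁻¹`), `{u | tᵀ u = u ∧ F u = u} = {u | tᵀ u = u ∧ Fᵀ u = u} =
ker (1 - tᵀ Fᵀ) = ker ((1 - t F)ᵀ)` (as `t F = F t`), and `Matrix.rank_transpose`. (The kernel of a matrix has dimension `card - rank`: `LinearMap.finrank_range_add_finrank_ker` for `mulVecLin`.)
-/

/-!
ROW Cb (project MP_78d38b_SS, about 120 lines, pure linear algebra over ZMod 2): the numbers `fb t π`.

PROOF. fb_congr: the two sets are equal. fb_perm: `u ↦ u ∘ e.symm` is a bijection from the first set onto the second one (`(t u)(σ) = ∑ τ, t σ τ u τ`; substitute `τ = e.symm τ'`).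
fb_inj: the condition on the fibres is void; `{u | t u = u}` is the range of `t.mulVecLin` (as `t * t = t`), a vector space of dimension `t.rank` (`Matrix.rank` is defined as the finrank of
the range), so its cardinality is `2 ^ t.rank` (`Module.natCard_eq_pow_finrank`, `Nat.card_zmod`). fb_pos: `u = 0` is in the set, which is finite.
fb_transpose: let `F` be the permutation matrix of `s`, `(F u) σ = u (s σ)` (`F σ τ = if τ = s σ then 1 else 0`). `hs` says `t * F = F * t`. The set `{u | t u = u, u constant on the fibres}` is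
`{u | t u = u ∧ F u = u}` by `hπ` (`u (s σ) = u σ` for all `σ` iff `u` is constant on the cycles: `Equiv.Perm.SameCycle`, `zpow` induction), and this is `{u | (t * F) u = u}`: if `t F u = u` then `t u = t t F u = u`,
`F u = F t F u`..., precisely: `u = t (F u)` gives `t u = u`; `F u = F t F u = t F F u`; from `u = t F u = F t u = F u`. So `fb t π = Nat.card (ker (1 - t * F))`
`= 2 ^ (card H - rank (1 - t * F))`. For the transpose: `t.transpose` commutes with `F` too (`F.transpose` is the matrix of `s⁻¹`), `{u | tᵀ u = u ∧ F u = u} = {u | tᵀ u = u ∧ Fᵀ u = u} =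
ker (1 - tᵀ Fᵀ) = ker ((1 - t F)ᵀ)` (as `t F = F t`), and `Matrix.rank_transpose`. (The kernel of a matrix has dimension `card - rank`: `LinearMap.finrank_range_add_finrank_ker` for `mulVecLin`.)
-/

set_option autoImplicit false
set_option linter.unusedSectionVars false
open scoped Classical

namespace H88D8.SS

theorem fb_congr {H P P' : Type*} [Fintype H] (t : Matrix H H (ZMod 2)) {π : H → P} {π' : H → P'}
    (h : ∀ σ τ, π σ = π τ ↔ π' σ = π' τ) : fb t π = fb t π' := by
  simp only [fb, h]

theorem fb_perm {H P P' : Type*} [Fintype H] (t : Matrix H H (ZMod 2)) {π : H → P} {π' : H → P'}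
    (e : Equiv.Perm H) (he : ∀ σ τ, t (e σ) (e τ) = t σ τ)
    (h : ∀ σ τ, π σ = π τ ↔ π' (e σ) = π' (e τ)) : fb t π = fb t π' := by
  unfold fb
  refine Nat.card_congr (Equiv.subtypeEquiv (e.arrowCongr (Equiv.refl (ZMod 2))) ?_)
  intro u
  obtain ⟨u', hu'⟩ : ∃ u' : H → ZMod 2, u' = (e.arrowCongr (Equiv.refl (ZMod 2))) u := ⟨_, rfl⟩
  have h1 : ∀ a, u' a = u (e.symm a) := by
    intro a
    rw [hu']
    rfl
  have h2 : ∀ a, t.mulVec u' a = t.mulVec u (e.symm a) := by
    intro a
    show ∑ τ, t a τ * u' τ = ∑ τ, t (e.symm a) τ * u τ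
    rw [← Equiv.sum_comp e]
    refine Finset.sum_congr rfl fun τ _ => ?_
    have h3 := he (e.symm a) τ
    rw [Equiv.apply_symm_apply] at h3
    rw [h3, h1, Equiv.symm_apply_apply]
  rw [← hu']
  constructor
  · rintro ⟨h3, h4⟩
    refine ⟨?_, ?_⟩
    · funext a
      rw [h2, h3, h1]
    · intro σ τ hστ
      rw [h1, h1]
      apply h4
      rw [h, Equiv.apply_symm_apply, Equiv.apply_symm_apply]
      exact hστ
  · rintro ⟨h3, h4⟩
    refine ⟨?_, ?_⟩
    · funext a
      have h5 := h2 (e a)
      rw [h3, h1, Equiv.symm_apply_apply] at h5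
      exact h5.symm
    · intro σ τ hστ
      have h5 := h4 (e σ) (e τ) ((h σ τ).1 hστ)
      rw [h1, h1, Equiv.symm_apply_apply, Equiv.symm_apply_apply] at h5
      exact h5

theorem fb_pos {H P : Type*} [Fintype H] (t : Matrix H H (ZMod 2)) (π : H → P) : 0 < fb t π := by
  unfold fb
  have : Nonempty {u : H → ZMod 2 // t.mulVec u = u ∧ ∀ σ τ, π σ = π τ → u σ = u τ} :=
    ⟨⟨0, Matrix.mulVec_zero _, fun _ _ _ => rfl⟩⟩
  exact Nat.card_pos

theorem fb_inj {H P : Type*} [Fintype H] {t : Matrix H H (ZMod 2)} (ht : t * t = t) {π : H → P}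
    (hπ : Function.Injective π) : fb t π = 2 ^ t.rank := by
  have h1 : fb t π = Nat.card (LinearMap.range t.mulVecLin) := by
    unfold fb
    refine Nat.card_congr (Equiv.subtypeEquiv (Equiv.refl _) ?_)
    intro u
    constructor
    · rintro ⟨h2, _⟩
      exact ⟨u, h2⟩
    · rintro ⟨w, hw⟩
      have hw' : t.mulVec w = u := hw
      refine ⟨?_, ?_⟩
      · rw [← hw', Matrix.mulVec_mulVec, ht]
      · intro σ τ h3
        rw [hπ h3]
  rw [h1, Module.natCard_eq_pow_finrank (K := ZMod 2), Nat.card_zmod]
  rfl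

private theorem Cb_card {H : Type*} [Fintype H] (M : Matrix H H (ZMod 2)) :
    Nat.card {u : H → ZMod 2 // M.mulVec u = u} = 2 ^ (Fintype.card H - (1 - M).rank) := by
  have h1 : Nat.card {u : H → ZMod 2 // M.mulVec u = u} =
      Nat.card (LinearMap.ker (1 - M).mulVecLin) := by
    refine Nat.card_congr (Equiv.subtypeEquiv (Equiv.refl _) ?_)
    intro u
    rw [LinearMap.mem_ker]
    show M.mulVec u = u ↔ (1 - M).mulVec u = 0
    rw [Matrix.sub_mulVec, Matrix.one_mulVec, sub_eq_zero]
    exact eq_comm
  have h2 := LinearMap.finrank_range_add_finrank_ker (1 - M).mulVecLin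
  rw [Module.finrank_fintype_fun_eq_card] at h2
  have h3 : (1 - M).rank = Module.finrank (ZMod 2) (LinearMap.range (1 - M).mulVecLin) := rfl
  rw [h1, Module.natCard_eq_pow_finrank (K := ZMod 2), Nat.card_zmod, h3]
  congr 1
  omega

private theorem Cb_fix {H : Type*} [Fintype H] {t F : Matrix H H (ZMod 2)} (ht : t * t = t)
    (hF : t * F = F * t) (u : H → ZMod 2) :
    (t.mulVec u = u ∧ F.mulVec u = u) ↔ (t * F).mulVec u = u := by
  constructor
  · rintro ⟨h1, h2⟩
    rw [← Matrix.mulVec_mulVec, h2, h1]
  · intro h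
    have h1 : t.mulVec u = u := by
      calc t.mulVec u = t.mulVec ((t * F).mulVec u) := by rw [h]
        _ = (t * F).mulVec u := by
          rw [Matrix.mulVec_mulVec, ← Matrix.mul_assoc, ht]
        _ = u := h
    refine ⟨h1, ?_⟩
    calc F.mulVec u = F.mulVec (t.mulVec u) := by rw [h1]
      _ = (t * F).mulVec u := by rw [Matrix.mulVec_mulVec, hF]
      _ = u := h

private theorem Cb_const {H P : Type*} {π : H → P} (s : Equiv.Perm H)
    (hπ : ∀ σ τ, π σ = π τ ↔ s.SameCycle σ τ) (u : H → ZMod 2) :
    (∀ σ τ, π σ = π τ → u σ = u τ) ↔ ∀ σ, u (s σ) = u σ := by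
  constructor
  · intro h σ
    exact h (s σ) σ ((hπ _ _).2 ⟨-1, by simp⟩)
  · intro h
    have key : ∀ i : ℤ, ∀ σ, u ((s ^ i) σ) = u σ := by
      intro i
      induction i using Int.induction_on with
      | zero =>
        intro σ
        rw [zpow_zero, Equiv.Perm.one_apply]
      | succ i ih =>
        intro σ
        rw [zpow_add_one, Equiv.Perm.mul_apply, ih, h]
      | pred i ih =>
        intro σ
        rw [zpow_sub_one, Equiv.Perm.mul_apply, ih]
        have h1 := h (s⁻¹ σ)
        have h2 : s (s⁻¹ σ) = σ := s.apply_symm_apply σ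
        rw [h2] at h1
        exact h1.symm
    intro σ τ hστ
    obtain ⟨i, hi⟩ := (hπ σ τ).1 hστ
    rw [← hi, key]

theorem fb_transpose {H P : Type*} [Fintype H] {t : Matrix H H (ZMod 2)} (ht : t * t = t) {π : H → P}
    (s : Equiv.Perm H) (hs : ∀ σ τ, t (s σ) (s τ) = t σ τ)
    (hπ : ∀ σ τ, π σ = π τ ↔ s.SameCycle σ τ) : fb t.transpose π = fb t π := by
  obtain ⟨F, hFdef⟩ : ∃ F : Matrix H H (ZMod 2), ∀ σ τ, F σ τ = if τ = s σ then 1 else 0 :=
    ⟨Matrix.of fun σ τ => if τ = s σ then 1 else 0, fun _ _ => rfl⟩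
  have hFu : ∀ u : H → ZMod 2, ∀ σ, F.mulVec u σ = u (s σ) := by
    intro u σ
    show ∑ τ, F σ τ * u τ = _
    rw [Finset.sum_eq_single (s σ)]
    · rw [hFdef, if_pos rfl, one_mul]
    · intro b _ hb
      rw [hFdef, if_neg hb, zero_mul]
    · intro h
      exact absurd (Finset.mem_univ _) h
  have hFtu : ∀ u : H → ZMod 2, ∀ σ, F.transpose.mulVec u (s σ) = u σ := by
    intro u σ
    show ∑ τ, F τ (s σ) * u τ = _
    rw [Finset.sum_eq_single σ]
    · rw [hFdef, if_pos rfl, one_mul]
    · intro b _ hb
      rw [hFdef, if_neg (fun h => hb (s.injective h).symm), zero_mul]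
    · intro h
      exact absurd (Finset.mem_univ _) h
  have hcomm : t * F = F * t := by
    ext σ τ
    rw [Matrix.mul_apply, Matrix.mul_apply, Finset.sum_eq_single (s.symm τ), Finset.sum_eq_single (s σ)]
    · rw [hFdef, hFdef, if_pos rfl, if_pos (Equiv.apply_symm_apply s τ).symm, mul_one, one_mul]
      have h1 := hs σ (s.symm τ)
      rw [Equiv.apply_symm_apply] at h1
      exact h1.symm
    · intro b _ hb
      rw [hFdef, if_neg hb, zero_mul]
    · intro h
      exact absurd (Finset.mem_univ _) h
    · intro b _ hb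
      rw [hFdef, if_neg, mul_zero]
      intro h
      apply hb
      rw [h, Equiv.symm_apply_apply]
    · intro h
      exact absurd (Finset.mem_univ _) h
  have e1 : fb t π = Nat.card {u : H → ZMod 2 // (t * F).mulVec u = u} := by
    unfold fb
    refine Nat.card_congr (Equiv.subtypeEquiv (Equiv.refl _) ?_)
    intro u
    show _ ↔ (t * F).mulVec u = u
    rw [← Cb_fix ht hcomm, Cb_const s hπ]
    refine and_congr_right fun _ => ?_
    constructor
    · intro h
      funext σ
      rw [hFu, h]
    · intro h σ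
      have h1 := hFu u σ
      rw [h] at h1
      exact h1.symm
  have ht' : t.transpose * t.transpose = t.transpose := by
    rw [← Matrix.transpose_mul, ht]
  have hcomm' : t.transpose * F.transpose = F.transpose * t.transpose := by
    rw [← Matrix.transpose_mul, ← Matrix.transpose_mul, hcomm]
  have e2 : fb t.transpose π =
      Nat.card {u : H → ZMod 2 // (t.transpose * F.transpose).mulVec u = u} := by
    unfold fb
    refine Nat.card_congr (Equiv.subtypeEquiv (Equiv.refl _) ?_)
    intro u
    show _ ↔ (t.transpose * F.transpose).mulVec u = u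
    rw [← Cb_fix ht' hcomm', Cb_const s hπ]
    refine and_congr_right fun _ => ?_
    constructor
    · intro h
      funext σ
      have h1 := hFtu u (s.symm σ)
      rw [Equiv.apply_symm_apply] at h1
      rw [h1]
      have h2 := h (s.symm σ)
      rw [Equiv.apply_symm_apply] at h2
      exact h2.symm
    · intro h σ
      have h1 := hFtu u σ
      rw [h] at h1
      exact h1
  have h4 : t.transpose * F.transpose = (t * F).transpose := by
    rw [← Matrix.transpose_mul, hcomm]
  have h5 : (1 : Matrix H H (ZMod 2)) - (t * F).transpose = (1 - t * F).transpose := by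
    rw [Matrix.transpose_sub, Matrix.transpose_one]
  rw [e1, e2, h4, Cb_card, Cb_card, h5, Matrix.rank_transpose]

end H88D8.SS
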