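import Pool.Agent.H88.SS.Ha

/-!
ROW Ra (project MP_78d38b_SS, about 150 lines): the orders at the unramified primes.

PROOF. `w` a place of `M`, `v = pl σ w` the place of `K` below it for the embedding `σ` (`mem_pl`, `oh`: file `H88/T7/Ga.lean`). pl_val_one: if `v.valuation K y = 1` then `w.valuation M (σ y) = 1`, and `< 1 ↔ < 1`, `≤ 1`: `Pt_val` (private) in
`Pool/Agent/H90/T8/Pt.lean` has exactly this proof; copy it. ord_pl: `w.asIdeal.ramificationIdx ℤ = 1` and `v.asIdeal.ramificationIdx ℤ = 1` follow from `hu` (for `v`: `q = rp w` is a uniformizer at `w`: `w.valuation M q = exp (-1)`, see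
`ord_int`/`Ed_ordq` in `H38/T1/Ed.lean` for the valuation of the rational prime is `exp (-e)`; for `v`: `e(v)` divides ... or directly: let `ϖ = q`. If `v.valuation K q = exp (-m)` with `m ≥ 2` then there is `y ∈ K` with
`v.valuation K y = exp (-1)`, so `y^m / q` is a unit at `v`, so by pl_val_one `w (σ y)^m = w q = exp (-1)`, impossible in integers; so `m = 1`). Hence for `y ≠ 0` with `ord_v y = n`: `y * q^(-n)` is a unit at `v`, so `σ y * q^(-n)` is a unit at `w`, and `ord_w (σ y) = n`.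
ord_hkm: `ord_w` of `σ (hkm x) = ∏ τ, τ x ^ e σ τ` (`hkm_spec`): `ord` is additive on nonzero elements (`H38RT`: look for `ord_mul`, `ord_pow`) and ord_pl; `pq K M q σ = pl σ (wq M q)`, `rp_wq`. eo_hk: `H38T1.eo_sc`, cast to `ZMod 2`
(`((vl t σ τ : ℕ) : ZMod 2) = t σ τ`: `ZMod.natCast_zmod_val`). eo_hk_zero: choose `x` with `c = sc x` and `v.valuation K x = 1` for all `v` above `q`: the orders are even (`eo_sc`), and there is `z` with `ord_v z = ord_v x / 2` for the
finitely many `v` above `q` (weak approximation; in the repo: `H24`/`H38` have such a lemma: e.g. look for uses of `IsDedekindDomain.exists_forall_sub_mem_ideal`; or: for each `v` take the element from the Chinese remainder theorem with `ord_v = 1` and `ord_v' = 0`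
at the other places above `q`, and take a product of powers). Replace `x` by `x / z^2`. val_hk_one: all `τ x` are units at `w = wq M q` (pl_val_one, `rp_pl`), so `σ (hkm x)` is a unit at `w`, so `hkm x` is a unit at `pl σ w` (else `hkm x` or its inverse has
valuation `< 1` and pl_val_one (`<`) gives a contradiction); every `v` above `q` is `pl σ w` (`pl_surj hL w`). eo_hk_zero then follows with `H38T1.eo_sc` (order zero).
-/

set_option autoImplicit false
set_option linter.unusedSectionVars false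
open scoped Classical

open WithZero NumberField IsDedekindDomain H38RT H88T7 H88T8 H90T8
open H38T1 (SC sc scu scu_surj sc_mul sc_of_ne sc_surj rep rep_ne sc_rep sc_eq_zero eo la si Pri tp OddP
  LD XX XX' NS ov rp SqMod)

namespace H88D8.SS

variable {K M : Type} [Field K] [NumberField K] [Field M] [NumberField M]

variable {e : Matrix (K →ₐ[ℚ] M) (K →ₐ[ℚ] M) ℕ} {t : Matrix (K →ₐ[ℚ] M) (K →ₐ[ℚ] M) (ZMod 2)}

private theorem Ra_val (σ : K →ₐ[ℚ] M) {w : HeightOneSpectrum (𝓞 M)} {y : K}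
    (hy : (pl σ w).valuation K y ≤ 1) : w.valuation M (σ y) ≤ 1 ∧
    (w.valuation M (σ y) < 1 ↔ (pl σ w).valuation K y < 1) := by
  obtain ⟨n, ⟨d, hd⟩, hnd⟩ := (pl σ w).exists_primeCompl_mul_eq_of_integer y hy
  have hd' : d ∉ (pl σ w).asIdeal := hd
  have hnd' : y * algebraMap (𝓞 K) K d = algebraMap (𝓞 K) K n := hnd
  have hdw : oh σ d ∉ w.asIdeal := fun h => hd' (mem_pl.2 h)
  have hVd : (pl σ w).valuation K (algebraMap (𝓞 K) K d) = 1 :=
    (pl σ w).valuation_eq_one_iff_notMem.mpr hd'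
  have hWd : w.valuation M (algebraMap (𝓞 M) M (oh σ d)) = 1 :=
    w.valuation_eq_one_iff_notMem.mpr hdw
  have htow : ∀ a : 𝓞 K, algebraMap (𝓞 M) M (oh σ a) = σ (algebraMap (𝓞 K) K a) := fun a => rfl
  have h1 : (pl σ w).valuation K y = (pl σ w).valuation K (algebraMap (𝓞 K) K n) := by
    rw [← hnd', map_mul, hVd, mul_one]
  have h2 : w.valuation M (σ y) = w.valuation M (algebraMap (𝓞 M) M (oh σ n)) := by
    rw [htow, ← hnd', map_mul, map_mul, ← htow, hWd, mul_one]
  rw [h1, h2]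
  have h3 : (pl σ w).valuation K (algebraMap (𝓞 K) K n) < 1 ↔ n ∈ (pl σ w).asIdeal :=
    (pl σ w).valuation_lt_one_iff_mem (K := K) n
  have h4 : w.valuation M (algebraMap (𝓞 M) M (oh σ n)) < 1 ↔ oh σ n ∈ w.asIdeal :=
    w.valuation_lt_one_iff_mem (K := M) (oh σ n)
  refine ⟨w.valuation_le_one _, ?_⟩
  rw [h3, h4, mem_pl]

private theorem Ra_zpow {F : Type*} [Field F] (V : Valuation F (WithZero (Multiplicative ℤ)))
    (x : F) (n : ℤ) : ord V (x ^ n) = n * ord V x := by
  unfold ord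
  rw [map_zpow₀, log_zpow, smul_eq_mul, mul_neg]

private theorem Ra_pow {F : Type*} [Field F] (V : Valuation F (WithZero (Multiplicative ℤ)))
    (x : F) (n : ℕ) : ord V (x ^ n) = n * ord V x := by
  rw [← zpow_natCast, Ra_zpow]

private theorem Ra_prod {F ι : Type*} [Field F] (V : Valuation F (WithZero (Multiplicative ℤ)))
    (s : Finset ι) (f : ι → F) (hf : ∀ i, f i ≠ 0) (n : ι → ℕ) :
    ord V (∏ i ∈ s, f i ^ n i) = ∑ i ∈ s, (n i : ℤ) * ord V (f i) := by
  induction s using Finset.induction_on with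
  | empty =>
    rw [Finset.prod_empty, Finset.sum_empty]
    unfold ord
    rw [map_one, log_one, neg_zero]
  | insert i s hi ih =>
    rw [Finset.prod_insert hi, Finset.sum_insert hi,
      ord_mul (pow_ne_zero _ (hf i)) (Finset.prod_ne_zero_iff.2 fun j _ => pow_ne_zero _ (hf j)),
      ih, Ra_pow]

theorem pl_val (σ : K →ₐ[ℚ] M) {w : HeightOneSpectrum (𝓞 M)} {y : K} :
    (w.valuation M (σ y) = 1 ↔ (pl σ w).valuation K y = 1) ∧
      (w.valuation M (σ y) < 1 ↔ (pl σ w).valuation K y < 1) := by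
  rcases le_or_gt ((pl σ w).valuation K y) 1 with h | h
  · obtain ⟨h1, h2⟩ := Ra_val σ h
    refine ⟨⟨fun h3 => ?_, fun h3 => ?_⟩, h2⟩
    · exact le_antisymm h (not_lt.1 fun h4 => (h2.2 h4).ne h3)
    · exact le_antisymm h1 (not_lt.1 fun h4 => (h2.1 h4).ne h3)
  · have hy : y ≠ 0 := by
      rintro rfl
      rw [map_zero] at h
      exact not_lt_zero h
    have h1 : (pl σ w).valuation K y⁻¹ < 1 := by
      rw [map_inv₀]
      exact inv_lt_one_of_one_lt₀ h
    have h2 := (Ra_val σ h1.le).2.2 h1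
    have h3 : 1 < w.valuation M (σ y) := by
      rw [map_inv₀, map_inv₀] at h2
      have h0 : w.valuation M (σ y) ≠ 0 := (Valuation.ne_zero_iff _).2 ((map_ne_zero σ).2 hy)
      exact (inv_lt_one₀ (zero_lt_iff.2 h0)).1 h2
    exact ⟨⟨fun h4 => absurd h4 h3.ne', fun h4 => absurd h4 h.ne'⟩,
      ⟨fun h4 => absurd h4 (not_lt.2 h3.le), fun h4 => absurd h4 (not_lt.2 h.le)⟩⟩

theorem ord_pl {q : ℕ} (hq : q.Prime) (hu : UnM M q) (σ : K →ₐ[ℚ] M) {w : HeightOneSpectrum (𝓞 M)}
    (hw : rp w = q) {y : K} (hy : y ≠ 0) :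
    ord (w.valuation M) (σ y) = ord ((pl σ w).valuation K) y := by
  have hqw : ord (w.valuation M) ((q : ℕ) : M) = 1 := by
    have h1 := H38T1.Ed_ordq w
    rw [hu w hw, hw] at h1
    rw [h1, Nat.cast_one]
  obtain ⟨m, hm⟩ : ∃ m : ℕ, ord ((pl σ w).valuation K) ((q : ℕ) : K) = m := by
    have h1 := H38T1.Ed_ordq (pl σ w)
    rw [rp_pl, hw] at h1
    exact ⟨_, h1⟩
  have hqK : ((q : ℕ) : K) ≠ 0 := by exact_mod_cast hq.ne_zero
  have hqM : ((q : ℕ) : M) ≠ 0 := by exact_mod_cast hq.ne_zero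
  have key : ∀ z : K, z ≠ 0 →
      (m : ℤ) * ord (w.valuation M) (σ z) = ord ((pl σ w).valuation K) z := by
    intro z hz
    obtain ⟨n, hn⟩ : ∃ n, n = ord ((pl σ w).valuation K) z := ⟨_, rfl⟩
    rw [← hn]
    have h1 : ord ((pl σ w).valuation K) (z ^ m * ((q : ℕ) : K) ^ (-n)) = 0 := by
      rw [ord_mul (pow_ne_zero _ hz) (zpow_ne_zero _ hqK), Ra_pow, Ra_zpow, hm, ← hn]
      ring
    have h2 : (pl σ w).valuation K (z ^ m * ((q : ℕ) : K) ^ (-n)) = 1 := by
      rw [V_eq (mul_ne_zero (pow_ne_zero _ hz) (zpow_ne_zero _ hqK)), h1, neg_zero, exp_zero]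
    have h3 := (pl_val σ (w := w)).1.2 h2
    have h4 : ord (w.valuation M) (σ (z ^ m * ((q : ℕ) : K) ^ (-n))) = 0 := by
      unfold ord
      rw [h3, log_one, neg_zero]
    have hσz : σ z ≠ 0 := (map_ne_zero σ).2 hz
    rw [map_mul, map_pow, map_zpow₀, map_natCast, ord_mul (pow_ne_zero _ hσz)
      (zpow_ne_zero _ hqM), Ra_pow, Ra_zpow, hqw] at h4
    linarith
  have hm1 : m = 1 := by
    obtain ⟨z, hz⟩ := (pl σ w).valuation_exists_uniformizer K
    have hz0 : z ≠ 0 := by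
      rintro rfl
      rw [map_zero] at hz
      exact exp_ne_zero hz.symm
    have h1 := key z hz0
    have h2 : ord ((pl σ w).valuation K) z = 1 := by
      unfold ord
      rw [hz, log_exp, neg_neg]
    rw [h2] at h1
    have h3 : ((m : ℕ) : ℤ) ∣ ((1 : ℕ) : ℤ) := ⟨_, by rw [h1, Nat.cast_one]⟩
    exact Nat.dvd_one.1 (Int.natCast_dvd_natCast.1 h3)
  have h1 := key y hy
  rwa [hm1, Nat.cast_one, one_mul] at h1

theorem ord_hkm (hL : BigL K M) {q : ℕ} (hq : q.Prime) (hu : UnM M q) (he : Inv e)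
    (σ : K →ₐ[ℚ] M) {x : K} (hx : x ≠ 0) :
    ord ((pq K M q σ).valuation K) (hkm hL he x) =
      ∑ τ, (e σ τ : ℤ) * ord ((pq K M q τ).valuation K) x := by
  have hw : rp (wq M q) = q := rp_wq hq
  have h1 := ord_pl hq hu σ hw (hkm_ne hL he hx)
  have h2 : ord ((pq K M q σ).valuation K) (hkm hL he x) =
      ord ((pl σ (wq M q)).valuation K) (hkm hL he x) := rfl
  rw [h2, ← h1, hkm_spec, Ra_prod _ _ _ fun τ => (map_ne_zero τ).2 hx]
  exact Finset.sum_congr rfl fun τ _ => by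
    rw [ord_pl hq hu τ hw hx]
    rfl

theorem eo_hk (hL : BigL K M) {q : ℕ} (hq : q.Prime) (hu : UnM M q) (ht : Inv t) (σ : K →ₐ[ℚ] M)
    (c : SC K) : eo (pq K M q σ) (hk hL ht c) = ∑ τ, t σ τ * eo (pq K M q τ) c := by
  obtain ⟨x, hx, rfl⟩ := sc_surj c
  rw [hk_sc hL ht hx, H38T1.eo_sc (hkm_ne hL (inv_vl ht) hx), ord_hkm hL hq hu (inv_vl ht) σ hx,
    Int.cast_sum]
  refine Finset.sum_congr rfl fun τ _ => ?_
  rw [H38T1.eo_sc hx, Int.cast_mul, Int.cast_natCast]
  congr 1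
  exact ZMod.natCast_zmod_val _

theorem val_hk_one (hL : BigL K M) {q : ℕ} (he : Inv e) {x : K}
    (hx : ∀ v : HeightOneSpectrum (𝓞 K), rp v = q → v.valuation K x = 1) :
    ∀ v : HeightOneSpectrum (𝓞 K), rp v = q → v.valuation K (hkm hL he x) = 1 := by
  intro v hv
  have hq : q.Prime := by
    rw [← hv]
    exact H38T1.rp_prime v
  have hw : rp (wq M q) = q := rp_wq hq
  obtain ⟨σ, hσ⟩ := pl_surj hL (wq M q) (hv.trans hw.symm)
  rw [hσ, ← (pl_val σ).1, hkm_spec, map_prod]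
  refine Finset.prod_eq_one fun τ _ => ?_
  rw [map_pow, (pl_val τ).1.2 (hx (pl τ (wq M q)) ((rp_pl τ _).trans hw)), one_pow]

end H88D8.SS
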