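import Pool.Agent.H88.SS.Df
import Pool.Agent.H88.SS.Ra

/-!
ROW Fr (project MP_78d38b_SS, about 100 lines): Frobenius elements at the unramified primes.

PROOF. exists_frob: `M / ℚ` is Galois (`hL.gal`), `𝓞 M ⧸ w.asIdeal` is finite. Mathlib: arithmetic Frobenius elements: `IsArithFrobAt`, `IsArithFrobAt.exists_of_isInvariant` (file `Mathlib/RingTheory/Frobenius.lean`) for the group
`M ≃ₐ[ℚ] M` acting on `𝓞 M` with invariants `ℤ` (`Algebra.IsInvariant ℤ (𝓞 M) (M ≃ₐ[ℚ] M)`; instances for Galois groups: `IsGaloisGroup`, see how `Ideal.exists_smul_eq_of_isGaloisGroup` is used in `H38/T1/Md.lean`): `φ • x - x ^ q ∈ w` with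
`q = Nat.card (ℤ ⧸ under)` `= rp w` (`rp w ∈ w.asIdeal` is the prime below: `H38T1.rp_mem`, `H38T1.rp_prime`; the prime below is `span {rp w}`: `H38T1.Ed_lies`). Alternative: `H93T1.frob_inf` in `Pool/Agent/H93/T1/Ca.lean` only gives Frobenius elements at
infinitely many places, not at all; do not use it. unK: multiplicativity of the ramification index in towers (`Ideal.ramificationIdx_tower`-like) or directly: `w` a place of `M` above `q` with `v = pl σ w` (choose any `w` above `q`, `pl_surj hL w`: `v = pl σ w`),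
`w.valuation M q = exp (-1)` (`H38T1.Ed_ordq`: the valuation of the prime is `exp (-e)`); if `v.valuation K q = exp (-m)`, `m ≥ 1`, take `y` with `v.valuation K y = exp (-1)`: `y ^ m / q` is a unit at `v`, so `σ (y ^ m / q)` is a unit at `w`
(`Pt_val` in `Pool/Agent/H90/T8/Pt.lean`, copy it, or `pl_val` of row Ra if it is proved), so `m * ord_w (σ y) = 1` and `m = 1`. pq_cyc: exists_frob, `geom` (`H88/T7/Gk.lean`), unK. pq_surj: `pl_surj hL (wq M q)`.
exists_adj: `h τ := ∑ σ, t σ τ * f (pq σ)` satisfies `h (actH φ τ) = h τ` (reindex the sum by `σ ↦ actH φ σ`, `t` invariant (`smul_emb`), `pq (actH φ σ) = pq σ` by pq_cyc), so `h` is constant on the cycles, i.e. on the fibres of `pq`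
(`Equiv.Perm.SameCycle`: `zpow`; induction on the exponent), and `f' v := h τ` for some `τ` with `pq τ = v` (else zero).
-/

set_option autoImplicit false
set_option linter.unusedSectionVars false
open scoped Classical

open WithZero NumberField IsDedekindDomain H38RT H88T7 H88T8 H90T8
open H38T1 (SC sc scu scu_surj sc_mul sc_of_ne sc_surj rep rep_ne sc_rep sc_eq_zero eo la si Pri tp OddP
  LD XX XX' NS ov rp SqMod)

namespace H88D8.SS

variable {K M : Type} [Field K] [NumberField K] [Field M] [NumberField M]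

variable {t : Matrix (K →ₐ[ℚ] M) (K →ₐ[ℚ] M) (ZMod 2)}

theorem exists_frob (hL : BigL K M) (w : HeightOneSpectrum (𝓞 M)) : ∃ φ : M ≃ₐ[ℚ] M, IsFb φ w := by
  have hgal := hL.gal
  have hmax : w.asIdeal.IsMaximal := w.isMaximal
  have hfin : Finite (𝓞 M ⧸ w.asIdeal) := Ideal.finiteQuotientOfFreeOfNeBot _ w.ne_bot
  have hprime := w.isPrime
  obtain ⟨φ, hφ⟩ := IsArithFrobAt.exists_of_isInvariant ℤ (M ≃ₐ[ℚ] M) w.asIdeal
  refine ⟨φ, fun x => ?_⟩
  have h1 := hφ x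
  have h2 : Nat.card (ℤ ⧸ w.asIdeal.under ℤ) = rp w := by
    have h3 := (H38T1.Ed_lies w).over
    rw [← h3]
    have e := Int.quotientSpanEquivZMod ((rp w : ℕ) : ℤ)
    rw [Nat.card_congr e.toEquiv, Nat.card_zmod]
    simp
  rw [h2] at h1
  exact h1

theorem unK (hL : BigL K M) {q : ℕ} (hq : q.Prime) (hu : UnM M q) :
    ∀ v : HeightOneSpectrum (𝓞 K), rp v = q → v.asIdeal.ramificationIdx ℤ = 1 := by
  intro v hv
  have hw : rp (wq M q) = q := rp_wq hq
  obtain ⟨σ, hσ⟩ := pl_surj hL (wq M q) (hv.trans hw.symm)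
  have hqK : ((q : ℕ) : K) ≠ 0 := by exact_mod_cast hq.ne_zero
  have h1 := ord_pl hq hu σ hw hqK
  rw [map_natCast, ← hσ] at h1
  have h2 := H38T1.Ed_ordq v
  have h3 := H38T1.Ed_ordq (wq M q)
  rw [hv] at h2
  rw [hw, hu _ hw] at h3
  rw [h2, h3] at h1
  exact_mod_cast h1.symm

theorem pq_cyc (hL : BigL K M) {q : ℕ} (hq : q.Prime) (hu : UnM M q) : ∃ φ : M ≃ₐ[ℚ] M,
    IsFb φ (wq M q) ∧
    (∀ σ τ : K →ₐ[ℚ] M, pq K M q σ = pq K M q τ ↔ (actH K M φ).SameCycle σ τ) ∧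
    ∀ σ : K →ₐ[ℚ] M, (pq K M q σ).asIdeal.inertiaDeg ℤ = Function.minimalPeriod (actH K M φ) σ := by
  obtain ⟨φ, hφ⟩ := exists_frob hL (wq M q)
  obtain ⟨h1, h2⟩ := geom hL hφ (fun v hv => unK hL hq hu v (hv.trans (rp_wq hq)))
  exact ⟨φ, hφ, h1, h2⟩

theorem pq_surj (hL : BigL K M) {q : ℕ} (hq : q.Prime) {v : HeightOneSpectrum (𝓞 K)}
    (hv : rp v = q) : ∃ σ : K →ₐ[ℚ] M, pq K M q σ = v := by
  obtain ⟨σ, hσ⟩ := pl_surj hL (wq M q) (hv.trans (rp_wq hq).symm)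
  exact ⟨σ, hσ.symm⟩

theorem exists_adj (hL : BigL K M) {q : ℕ} (hq : q.Prime) (hu : UnM M q) (ht : Inv t)
    (f : HeightOneSpectrum (𝓞 K) → ZMod 2) : ∃ f' : HeightOneSpectrum (𝓞 K) → ZMod 2,
      ∀ τ, f' (pq K M q τ) = ∑ σ, t σ τ * f (pq K M q σ) := by
  obtain ⟨φ, hφ, h1, -⟩ := pq_cyc hL hq hu
  obtain ⟨h, hh⟩ : ∃ h : (K →ₐ[ℚ] M) → ZMod 2, ∀ τ, h τ = ∑ σ, t σ τ * f (pq K M q σ) :=
    ⟨_, fun _ => rfl⟩
  have hstep : ∀ τ, h (actH K M φ τ) = h τ := by
    intro τ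
    rw [hh, hh]
    symm
    refine Fintype.sum_equiv (actH K M φ) _ _ fun σ => ?_
    have e1 : t (actH K M φ σ) (actH K M φ τ) = t σ τ := ht φ σ τ
    have e2 : pq K M q (actH K M φ σ) = pq K M q σ := pl_act hφ σ
    rw [e1, e2]
  have hpow : ∀ (i : ℕ) (τ : K →ₐ[ℚ] M), h ((actH K M φ ^ i) τ) = h τ := by
    intro i
    induction i with
    | zero =>
      intro τ
      rfl
    | succ i ih =>
      intro τ
      rw [pow_succ, Equiv.Perm.mul_apply, ih, hstep]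
  have hcyc : ∀ σ τ : K →ₐ[ℚ] M, pq K M q σ = pq K M q τ → h σ = h τ := by
    intro σ τ he
    obtain ⟨i, -, hi⟩ := ((h1 σ τ).1 he).exists_pow_eq'
    rw [← hi, hpow]
  refine ⟨fun v => if hv : ∃ τ : K →ₐ[ℚ] M, pq K M q τ = v then h hv.choose else 0, fun τ => ?_⟩
  have hv : ∃ τ' : K →ₐ[ℚ] M, pq K M q τ' = pq K M q τ := ⟨τ, rfl⟩
  show (if hv : ∃ τ' : K →ₐ[ℚ] M, pq K M q τ' = pq K M q τ then h hv.choose else 0) = _
  rw [dif_pos hv, ← hh]
  exact hcyc _ _ hv.choose_spec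

/-- At a totally split prime the map `pq` is injective. -/
theorem pq_inj_tot (hL : BigL K M) {p : ℕ} (hp : Tot K p) (hu : UnM M p) :
    Function.Injective (pq K M p) := by
  intro σ τ h
  obtain ⟨φ, -, h1, h2⟩ := pq_cyc hL hp.1 hu
  have h3 := (hp.2.2 (pq K M p σ) ((H38T1.mem_iff_eq hp.1).2 (rp_pq hp.1 σ))).2
  rw [h2 σ, Function.minimalPeriod_eq_one_iff_isFixedPt] at h3
  exact ((h1 σ τ).1 h).eq_of_left h3

end H88D8.SS
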