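import Pool.Agent.H88.SS.Rc

/-!
ROW Rd (project MP_78d38b_SS, about 160 lines): the tame symbols and the Hecke operators.

PROOF. `w = wq M q`, `c = sc x` with `x ≠ 0`; `n v = ord (v.valuation K) x`. `b` has order one at all `v` above `q` (`q` divides `b` exactly once and `q` is unramified in `K`: `unK`; `ord_int7`-type lemmas in `H88/T7/Aa.lean`, or `H38T1.Ed_ord`), and at `w` (`ord_pl` of row Ra
or directly), also `-b`. tp_unit: `tp v (sc x) (sc b) = eo x * la b + 1 * la x + eo x * la (-1)` (`tp`, `eo b = 1`), and `la v (sc (x * (-b)^(-n))) = la x + n • (la b + la (-1))` (`H38T1.la_add`, `sc_mul`, `v` odd: `H38T1.oddP_iff`; split into the parity of `n`: `x * (-b)^(-n)` differs from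
`x * (-b)^(eo)` by a square). tp_hk: `e = vl t`, `X τ = τ x * (-b)^(-n (pq τ)) ∈ M`, a unit at `w`; for `T`: `X' σ = σ (hkm x) * (-b)^(-n' (pq σ))`, `n' v = ord_v (hkm x)`, and `n' (pq σ) = ∑ τ, e σ τ * n (pq τ)` (`ord_hkm`), so `X' σ = ∏ τ, X τ ^ e σ τ` (`hkm_spec`).
For `v = pq σ`: `y = x * (-b)^(-n v) ∈ K` is a unit at `v`, `τ y = X τ` for all `τ` in the fibre of `v`, so by `la_prod` and tp_unit: `∏_{τ, pq τ = v} X τ ^ m ≡ sg2 (tp v c (sc b))` modulo `w`, `m = (q-1)/2`; the same for `X'` and `hk c` (`hk_sc`).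
Let `A = ∏_{σ, f (pq σ) = 1} X' σ ^ m`. Grouping by `v`: `A ≡ ∏_{v ∈ ov K {q}, f v = 1} sg2 (tp v (hk c) (sc b)) = sg2 (∑ f v * tp v (hk c) (sc b))`. On the other hand `A = ∏ τ, X τ ^ (m * N τ)`, `N τ = ∑_{σ, f (pq σ) = 1} e σ τ`, and `N τ` depends only on `pq τ` (`N (actH φ τ) = N τ`
by invariance, `pq_cyc`; as in `exists_adj`, row Fr, but with values in `ℕ`), so `A = ∏ v, (∏_{τ, pq τ = v} X τ ^ m) ^ N v ≡ ∏ v, sg2 (tp v c (sc b)) ^ N v = sg2 (∑ N v * tp v c (sc b))` and `(N v : ZMod 2) = f' v` (`hf`; `(e σ τ : ZMod 2) = t σ τ`). `sg2 a ≡ sg2 b` modulo `w`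
implies `a = b` since `w 2 = 1` (`q ≠ 2`). The finsums over `ov K {q}` are finite sums (`H38T1.fin_ov`, `finsum_mem_eq_finite_toFinset_sum`), `ov K {q}` is the image of `pq` (`pq_surj`, `pq_mem`).
la_hk: `b = q`: for even classes `tp v c (sc q) = la v c`. tp_hk_zero: `f = Pi.single v 1`, `f'` from `exists_adj`.
-/

/-!
ROW Rd (project MP_78d38b_SS, about 160 lines): the tame symbols and the Hecke operators.

PROOF. `w = wq M q`, `c = sc x` with `x ≠ 0`; `n v = ord (v.valuation K) x`. `b` has order one at all `v` above `q` (`q` divides `b` exactly once and `q` is unramified in `K`: `unK`; `ord_int7`-type lemmas in `H88/T7/Aa.lean`, or `H38T1.Ed_ord`), and at `w` (`ord_pl` of row Ra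
or directly), also `-b`. tp_unit: `tp v (sc x) (sc b) = eo x * la b + 1 * la x + eo x * la (-1)` (`tp`, `eo b = 1`), and `la v (sc (x * (-b)^(-n))) = la x + n • (la b + la (-1))` (`H38T1.la_add`, `sc_mul`, `v` odd: `H38T1.oddP_iff`; split into the parity of `n`: `x * (-b)^(-n)` differs from
`x * (-b)^(eo)` by a square). tp_hk: `e = vl t`, `X τ = τ x * (-b)^(-n (pq τ)) ∈ M`, a unit at `w`; for `T`: `X' σ = σ (hkm x) * (-b)^(-n' (pq σ))`, `n' v = ord_v (hkm x)`, and `n' (pq σ) = ∑ τ, e σ τ * n (pq τ)` (`ord_hkm`), so `X' σ = ∏ τ, X τ ^ e σ τ` (`hkm_spec`).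
For `v = pq σ`: `y = x * (-b)^(-n v) ∈ K` is a unit at `v`, `τ y = X τ` for all `τ` in the fibre of `v`, so by `la_prod` and tp_unit: `∏_{τ, pq τ = v} X τ ^ m ≡ sg2 (tp v c (sc b))` modulo `w`, `m = (q-1)/2`; the same for `X'` and `hk c` (`hk_sc`).
Let `A = ∏_{σ, f (pq σ) = 1} X' σ ^ m`. Grouping by `v`: `A ≡ ∏_{v ∈ ov K {q}, f v = 1} sg2 (tp v (hk c) (sc b)) = sg2 (∑ f v * tp v (hk c) (sc b))`. On the other hand `A = ∏ τ, X τ ^ (m * N τ)`, `N τ = ∑_{σ, f (pq σ) = 1} e σ τ`, and `N τ` depends only on `pq τ` (`N (actH φ τ) = N τ`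
by invariance, `pq_cyc`; as in `exists_adj`, row Fr, but with values in `ℕ`), so `A = ∏ v, (∏_{τ, pq τ = v} X τ ^ m) ^ N v ≡ ∏ v, sg2 (tp v c (sc b)) ^ N v = sg2 (∑ N v * tp v c (sc b))` and `(N v : ZMod 2) = f' v` (`hf`; `(e σ τ : ZMod 2) = t σ τ`). `sg2 a ≡ sg2 b` modulo `w`
implies `a = b` since `w 2 = 1` (`q ≠ 2`). The finsums over `ov K {q}` are finite sums (`H38T1.fin_ov`, `finsum_mem_eq_finite_toFinset_sum`), `ov K {q}` is the image of `pq` (`pq_surj`, `pq_mem`).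
la_hk: `b = q`: for even classes `tp v c (sc q) = la v c`. tp_hk_zero: `f = Pi.single v 1`, `f'` from `exists_adj`.
-/

set_option autoImplicit false
set_option linter.unusedSectionVars false
open scoped Classical

open WithZero NumberField IsDedekindDomain H38RT H88T7 H88T8 H90T8
open H38T1 (SC sc scu scu_surj sc_mul sc_of_ne sc_surj rep rep_ne sc_rep sc_eq_zero eo la si Pri tp OddP
  LD XX XX' NS ov rp SqMod)

namespace H88D8.SS

variable {K M : Type} [Field K] [NumberField K] [Field M] [NumberField M]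

variable {t : Matrix (K →ₐ[ℚ] M) (K →ₐ[ℚ] M) (ZMod 2)}

private theorem Rd_zpow {F : Type*} [Field F] (V : Valuation F (WithZero (Multiplicative ℤ)))
    (x : F) (n : ℤ) : ord V (x ^ n) = n * ord V x := by
  unfold ord
  rw [map_zpow₀, log_zpow, smul_eq_mul, mul_neg]

private theorem Rd_neg {F : Type*} [Field F] (V : Valuation F (WithZero (Multiplicative ℤ)))
    (x : F) : ord V (-x) = ord V x := by
  unfold ord
  rw [Valuation.map_neg]

private theorem Rd_la_zpow {v : HeightOneSpectrum (𝓞 K)} (hv : OddP v) {x : K} (hx : x ≠ 0)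
    (n : ℤ) : la v (sc (x ^ n)) = (n : ZMod 2) * la v (sc x) := by
  have h1 : sc (x ^ n) = n • sc x := by
    rw [sc_of_ne (zpow_ne_zero n hx), sc_of_ne hx, ← map_zsmul]
    refine congrArg (scu K) ?_
    apply Additive.toMul.injective
    ext
    simp
  have h2 : ∀ c, (AddMonoidHom.mk' (la v) (H38T1.la_add hv)) c = la v c := fun _ => rfl
  rw [h1, ← h2, map_zsmul, h2, zsmul_eq_mul]

private theorem Rd_neg_one : ((-1 : ℤ) : ZMod 2) = 1 := by decide

theorem tp_unit {v : HeightOneSpectrum (𝓞 K)} (hv : OddP v) {b x : K} (hb0 : b ≠ 0)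
    (hb : ord (v.valuation K) b = 1) (hx : x ≠ 0) :
    v.valuation K (x * (-b) ^ (-(ord (v.valuation K) x))) = 1 ∧
      tp v (sc x) (sc b) = la v (sc (x * (-b) ^ (-(ord (v.valuation K) x)))) := by
  have hnb : -b ≠ 0 := neg_ne_zero.2 hb0
  obtain ⟨n, hn⟩ : ∃ n, n = ord (v.valuation K) x := ⟨_, rfl⟩
  rw [← hn]
  have hz : (-b) ^ (-n) ≠ 0 := zpow_ne_zero _ hnb
  constructor
  · rw [V_eq (mul_ne_zero hx hz), ord_mul hx hz, Rd_zpow, Rd_neg, hb, ← hn]
    have : -(n + -n * 1) = 0 := by ring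
    rw [this, exp_zero]
  · have h1 : la v (sc (-b)) = la v (sc (-1)) + la v (sc b) := by
      rw [← H38T1.la_add hv, ← sc_mul (neg_ne_zero.2 one_ne_zero) hb0, neg_one_mul]
    have h2 : eo v (sc x) = (n : ZMod 2) := by rw [H38T1.eo_sc hx, hn]
    have h3 : eo v (sc b) = 1 := by rw [H38T1.eo_sc hb0, hb, Int.cast_one]
    have h4 : ((-n : ℤ) : ZMod 2) = (n : ZMod 2) := by
      rw [Int.cast_neg, CharTwo.neg_eq]
    rw [sc_mul hx hz, H38T1.la_add hv, Rd_la_zpow hv hnb, h1, h4]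
    unfold tp
    rw [h2, h3]
    ring

private theorem Rd_sg_add (a b : ZMod 2) : sg2 M (a + b) = sg2 M a * sg2 M b := by
  have h11 : (1 : ZMod 2) + 1 = 0 := by decide
  have h10 : (1 : ZMod 2) ≠ 0 := by decide
  have key : ∀ a : ZMod 2, a = 0 ∨ a = 1 := by decide
  unfold sg2
  rcases key a with rfl | rfl <;> rcases key b with rfl | rfl
  · simp
  · simp
  · simp
  · rw [h11, if_pos rfl, if_neg h10]
    ring

private theorem Rd_sg_zero : sg2 M 0 = 1 := by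
  unfold sg2
  rw [if_pos rfl]

private theorem Rd_sg_one : sg2 M 1 = -1 := by
  unfold sg2
  rw [if_neg (by decide)]

private theorem Rd_sg_pow (n : ℕ) (a : ZMod 2) : sg2 M a ^ n = sg2 M ((n : ZMod 2) * a) := by
  induction n with
  | zero => rw [pow_zero, Nat.cast_zero, zero_mul, Rd_sg_zero]
  | succ n ih =>
    rw [pow_succ, ih, Nat.cast_succ, add_mul, one_mul, Rd_sg_add]

private theorem Rd_sg_sum {ι : Type*} (s : Finset ι) (f : ι → ZMod 2) :
    sg2 M (∑ i ∈ s, f i) = ∏ i ∈ s, sg2 M (f i) := by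
  induction s using Finset.induction_on with
  | empty => rw [Finset.sum_empty, Finset.prod_empty, Rd_sg_zero]
  | insert i s hi ih => rw [Finset.sum_insert hi, Finset.prod_insert hi, Rd_sg_add, ih]

private theorem Rd_sg_val (w : HeightOneSpectrum (𝓞 M)) (a : ZMod 2) :
    w.valuation M (sg2 M a) = 1 := by
  unfold sg2
  split_ifs
  · exact map_one _
  · rw [Valuation.map_neg, map_one]

private theorem Rd_sg_inj {w : HeightOneSpectrum (𝓞 M)} (hw : w.valuation M 2 = 1) {a b : ZMod 2}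
    (h : w.valuation M (sg2 M a - sg2 M b) < 1) : a = b := by
  have key : ∀ a : ZMod 2, a = 0 ∨ a = 1 := by decide
  rcases key a with rfl | rfl <;> rcases key b with rfl | rfl
  · rfl
  · rw [Rd_sg_zero, Rd_sg_one, sub_neg_eq_add, one_add_one_eq_two, hw] at h
    exact absurd h (lt_irrefl _)
  · rw [Rd_sg_zero, Rd_sg_one, ← neg_add', Valuation.map_neg, one_add_one_eq_two, hw] at h
    exact absurd h (lt_irrefl _)
  · rfl

/-- Congruence of integral elements modulo the maximal ideal. -/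
private def Rd_Cg (w : HeightOneSpectrum (𝓞 M)) (a b : M) : Prop :=
  w.valuation M a ≤ 1 ∧ w.valuation M b ≤ 1 ∧ w.valuation M (a - b) < 1

private theorem Rd_Cg_mul {w : HeightOneSpectrum (𝓞 M)} {a b c d : M} (h : Rd_Cg w a b)
    (h' : Rd_Cg w c d) : Rd_Cg w (a * c) (b * d) := by
  obtain ⟨h1, h2, h3⟩ := h
  obtain ⟨h1', h2', h3'⟩ := h'
  refine ⟨?_, ?_, ?_⟩
  · rw [map_mul]
    exact mul_le_one' h1 h1'
  · rw [map_mul]
    exact mul_le_one' h2 h2'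
  · have e1 : a * c - b * d = a * (c - d) + (a - b) * d := by ring
    rw [e1]
    refine (Valuation.map_add _ _ _).trans_lt (max_lt ?_ ?_)
    · rw [map_mul, mul_comm]
      exact mul_lt_one_of_lt_of_le h3' h1
    · rw [map_mul]
      exact mul_lt_one_of_lt_of_le h3 h2'

private theorem Rd_Cg_one (w : HeightOneSpectrum (𝓞 M)) : Rd_Cg w 1 1 := by
  refine ⟨(map_one _).le, (map_one _).le, ?_⟩
  rw [sub_self, map_zero]
  exact zero_lt_one

private theorem Rd_Cg_pow {w : HeightOneSpectrum (𝓞 M)} {a b : M} (h : Rd_Cg w a b) (n : ℕ) :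
    Rd_Cg w (a ^ n) (b ^ n) := by
  induction n with
  | zero =>
    rw [pow_zero, pow_zero]
    exact Rd_Cg_one w
  | succ n ih =>
    rw [pow_succ, pow_succ]
    exact Rd_Cg_mul ih h

private theorem Rd_Cg_prod {w : HeightOneSpectrum (𝓞 M)} {ι : Type*} (s : Finset ι) (f g : ι → M)
    (h : ∀ i ∈ s, Rd_Cg w (f i) (g i)) : Rd_Cg w (∏ i ∈ s, f i) (∏ i ∈ s, g i) := by
  induction s using Finset.induction_on with
  | empty =>
    rw [Finset.prod_empty, Finset.prod_empty]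
    exact Rd_Cg_one w
  | insert i s hi ih =>
    rw [Finset.prod_insert hi, Finset.prod_insert hi]
    exact Rd_Cg_mul (h i (Finset.mem_insert_self _ _))
      (ih fun j hj => h j (Finset.mem_insert_of_mem hj))

private theorem Rd_val_prod {w : HeightOneSpectrum (𝓞 M)} {ι : Type*} (s : Finset ι) (f : ι → M)
    (h : ∀ i ∈ s, w.valuation M (f i) = 1) : w.valuation M (∏ i ∈ s, f i) = 1 := by
  rw [map_prod]
  exact Finset.prod_eq_one h

/-- Grouping a product over the embeddings by the places. -/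
private theorem Rd_grp {q : ℕ} {w : HeightOneSpectrum (𝓞 M)} (m : ℕ) (z : (K →ₐ[ℚ] M) → M)
    (hz : ∀ τ, w.valuation M (z τ) = 1) (g : HeightOneSpectrum (𝓞 K) → ZMod 2)
    (h : ∀ σ : K →ₐ[ℚ] M, w.valuation M (∏ τ ∈ Finset.univ.filter
      (fun τ : K →ₐ[ℚ] M => pq K M q τ = pq K M q σ), z τ ^ m - sg2 M (g (pq K M q σ))) < 1)
    (N : (K →ₐ[ℚ] M) → ℕ) (f : HeightOneSpectrum (𝓞 K) → ZMod 2)
    (hN : ∀ σ τ, pq K M q σ = pq K M q τ → N σ = N τ)
    (hf : ∀ σ, f (pq K M q σ) = (N σ : ZMod 2)) :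
    w.valuation M (∏ τ, (z τ ^ m) ^ N τ -
      sg2 M (∑ v ∈ Finset.univ.image (pq K M q), f v * g v)) < 1 := by
  have h1 : ∏ τ, (z τ ^ m) ^ N τ = ∏ v ∈ Finset.univ.image (pq K M q),
      ∏ τ ∈ Finset.univ.filter (fun τ : K →ₐ[ℚ] M => pq K M q τ = v), (z τ ^ m) ^ N τ :=
    (Finset.prod_fiberwise_of_maps_to (fun τ hτ => Finset.mem_image_of_mem _ hτ) _).symm
  rw [h1, Rd_sg_sum]
  refine (Rd_Cg_prod _ _ _ ?_).2.2
  intro v hv
  obtain ⟨σ, -, rfl⟩ := Finset.mem_image.1 hv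
  have h2 : ∏ τ ∈ Finset.univ.filter (fun τ : K →ₐ[ℚ] M => pq K M q τ = pq K M q σ),
      (z τ ^ m) ^ N τ = (∏ τ ∈ Finset.univ.filter
        (fun τ : K →ₐ[ℚ] M => pq K M q τ = pq K M q σ), z τ ^ m) ^ N σ := by
    rw [← Finset.prod_pow]
    refine Finset.prod_congr rfl fun τ hτ => ?_
    rw [Finset.mem_filter] at hτ
    rw [hN τ σ hτ.2]
  rw [h2, hf σ, ← Rd_sg_pow]
  refine Rd_Cg_pow ⟨?_, (Rd_sg_val w _).le, h σ⟩ _
  refine (Rd_val_prod _ _ fun τ _ => ?_).le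
  rw [map_pow, hz, one_pow]

private theorem Rd_b0 {q : ℕ} {b : ℤ} (hb2 : ¬ (q : ℤ) * q ∣ b) : b ≠ 0 := by
  rintro rfl
  exact hb2 (dvd_zero _)

private theorem Rd_padic {q : ℕ} (hq : q.Prime) {b : ℤ} (hb : (q : ℤ) ∣ b)
    (hb2 : ¬ (q : ℤ) * q ∣ b) : padicValInt q b = 1 := by
  have hF : Fact q.Prime := ⟨hq⟩
  have hb0 := Rd_b0 hb2
  have h1 : 1 ≤ padicValInt q b := by
    have h := (padicValInt_dvd_iff (p := q) 1 b).1 (by rwa [pow_one])
    rcases h with h | h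
    · exact absurd h hb0
    · exact h
  have h2 : ¬ 2 ≤ padicValInt q b := by
    intro h
    apply hb2
    have h3 := (padicValInt_dvd_iff (p := q) 2 b).2 (Or.inr h)
    rwa [sq] at h3
  omega

private theorem Rd_ordb (hL : BigL K M) {q : ℕ} (hq : q.Prime) (hu : UnM M q) {b : ℤ}
    (hb : (q : ℤ) ∣ b) (hb2 : ¬ (q : ℤ) * q ∣ b) {v : HeightOneSpectrum (𝓞 K)} (hv : rp v = q) :
    ord (v.valuation K) (b : K) = 1 := by
  rw [H38T1.Ed_ord v (Rd_b0 hb2), unK hL hq hu v hv, hv, Rd_padic hq hb hb2]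
  rfl

private theorem Rd_ordbM {q : ℕ} (hq : q.Prime) (hu : UnM M q) {b : ℤ}
    (hb : (q : ℤ) ∣ b) (hb2 : ¬ (q : ℤ) * q ∣ b) {w : HeightOneSpectrum (𝓞 M)} (hw : rp w = q) :
    ord (w.valuation M) (b : M) = 1 := by
  rw [H38T1.Ed_ord w (Rd_b0 hb2), hu w hw, hw, Rd_padic hq hb hb2]
  rfl

private theorem Rd_ov (hL : BigL K M) {q : ℕ} (hq : q.Prime) :
    ov K {q} = ((Finset.univ.image (pq K M q) : Finset (HeightOneSpectrum (𝓞 K))) :
      Set (HeightOneSpectrum (𝓞 K))) := by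
  ext v
  rw [Finset.mem_coe, Finset.mem_image]
  constructor
  · rintro ⟨q', hq', hv⟩
    rw [Set.mem_singleton_iff] at hq'
    subst hq'
    obtain ⟨σ, hσ⟩ := pq_surj hL hq ((H38T1.mem_iff_eq hq).1 hv)
    exact ⟨σ, Finset.mem_univ _, hσ⟩
  · rintro ⟨σ, -, rfl⟩
    exact pq_mem hq σ

/-- The units `τ x * (-b) ^ (-n)` and the congruences for their products. -/
private theorem Rd_cong (hL : BigL K M) {q : ℕ} (hq : q.Prime) (h2 : q ≠ 2) (hu : UnM M q) {b : ℤ}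
    (hb : (q : ℤ) ∣ b) (hb2 : ¬ (q : ℤ) * q ∣ b) {x : K} (hx : x ≠ 0) :
    (∀ τ : K →ₐ[ℚ] M, (wq M q).valuation M
      (τ x * (-(b : M)) ^ (-(ord ((pq K M q τ).valuation K) x))) = 1) ∧
    ∀ σ : K →ₐ[ℚ] M, (wq M q).valuation M (∏ τ ∈ Finset.univ.filter
      (fun τ : K →ₐ[ℚ] M => pq K M q τ = pq K M q σ),
        (τ x * (-(b : M)) ^ (-(ord ((pq K M q τ).valuation K) x))) ^ ((q - 1) / 2) -
        sg2 M (tp (pq K M q σ) (sc x) (sc (b : K)))) < 1 := by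
  have hbK : (b : K) ≠ 0 := by exact_mod_cast Rd_b0 hb2
  have hodd : ∀ σ : K →ₐ[ℚ] M, OddP (pq K M q σ) := fun σ =>
    H38T1.oddP_iff.2 (by rwa [rp_pq hq σ])
  have hτ : ∀ σ τ : K →ₐ[ℚ] M, pq K M q τ = pq K M q σ →
      τ (x * (-(b : K)) ^ (-(ord ((pq K M q σ).valuation K) x))) =
        τ x * (-(b : M)) ^ (-(ord ((pq K M q τ).valuation K) x)) := by
    intro σ τ h
    rw [h, map_mul, map_zpow₀, map_neg, map_intCast]
  have hun : ∀ σ : K →ₐ[ℚ] M, (pq K M q σ).valuation K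
      (x * (-(b : K)) ^ (-(ord ((pq K M q σ).valuation K) x))) = 1 := fun σ =>
    (tp_unit (hodd σ) hbK (Rd_ordb hL hq hu hb hb2 (rp_pq hq σ)) hx).1
  constructor
  · intro τ
    rw [← hτ τ τ rfl]
    exact (pl_val τ).1.2 (hun τ)
  · intro σ
    have h1 := la_prod hL hq h2 hu σ (hun σ)
    rw [← (tp_unit (hodd σ) hbK (Rd_ordb hL hq hu hb hb2 (rp_pq hq σ)) hx).2] at h1
    have h3 : ∏ τ ∈ Finset.univ.filter (fun τ : K →ₐ[ℚ] M => pq K M q τ = pq K M q σ),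
        (τ x * (-(b : M)) ^ (-(ord ((pq K M q τ).valuation K) x))) ^ ((q - 1) / 2) =
        ∏ τ ∈ Finset.univ.filter (fun τ : K →ₐ[ℚ] M => pq K M q τ = pq K M q σ),
          (τ (x * (-(b : K)) ^ (-(ord ((pq K M q σ).valuation K) x)))) ^ ((q - 1) / 2) := by
      refine Finset.prod_congr rfl fun τ hh => ?_
      rw [Finset.mem_filter] at hh
      rw [hτ σ τ hh.2]
    rw [h3]
    exact h1

private theorem Rd_zsum {ι : Type*} (y : M) (hy : y ≠ 0) (s : Finset ι) (f : ι → ℤ) :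
    ∏ i ∈ s, y ^ f i = y ^ ∑ i ∈ s, f i := by
  induction s using Finset.induction_on with
  | empty => rw [Finset.prod_empty, Finset.sum_empty, zpow_zero]
  | insert i s hi ih => rw [Finset.prod_insert hi, Finset.sum_insert hi, zpow_add₀ hy, ih]

theorem tp_hk (hL : BigL K M) {q : ℕ} (hq : q.Prime) (h2 : q ≠ 2) (hu : UnM M q) {b : ℤ}
    (hb : (q : ℤ) ∣ b) (hb2 : ¬ (q : ℤ) * q ∣ b) (ht : Inv t) (c : SC K)
    {f f' : HeightOneSpectrum (𝓞 K) → ZMod 2}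
    (hf : ∀ τ, f' (pq K M q τ) = ∑ σ, t σ τ * f (pq K M q σ)) :
    ∑ᶠ v ∈ ov K {q}, f v * tp v (hk hL ht c) (sc (b : K)) =
      ∑ᶠ v ∈ ov K {q}, f' v * tp v c (sc (b : K)) := by
  obtain ⟨x, hx, rfl⟩ := sc_surj c
  have hX0 : hkm hL (inv_vl ht) x ≠ 0 := hkm_ne hL (inv_vl ht) hx
  have hbM : (-(b : M)) ≠ 0 := neg_ne_zero.2 (by exact_mod_cast Rd_b0 hb2)
  rw [hk_sc hL ht hx, Rd_ov hL hq, finsum_mem_coe_finset, finsum_mem_coe_finset]
  obtain ⟨hz, hc⟩ := Rd_cong hL hq h2 hu hb hb2 hx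
  obtain ⟨hz', hc'⟩ := Rd_cong hL hq h2 hu hb hb2 hX0
  obtain ⟨φ, hφ, hcyc, -⟩ := pq_cyc hL hq hu
  obtain ⟨n, hn⟩ : ∃ n : (K →ₐ[ℚ] M) → ℕ, ∀ σ, n σ = (f (pq K M q σ)).val := ⟨_, fun σ => rfl⟩
  have hnf : ∀ σ, f (pq K M q σ) = (n σ : ZMod 2) := fun σ => by
    rw [hn, ZMod.natCast_zmod_val]
  obtain ⟨N, hNd⟩ : ∃ N : (K →ₐ[ℚ] M) → ℕ, ∀ τ, N τ = ∑ σ, vl t σ τ * n σ := ⟨_, fun τ => rfl⟩
  have hNf : ∀ τ, f' (pq K M q τ) = (N τ : ZMod 2) := by
    intro τ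
    rw [hf, hNd, Nat.cast_sum]
    refine Finset.sum_congr rfl fun σ _ => ?_
    rw [Nat.cast_mul, ← hnf]
    exact congrArg (fun y => y * f (pq K M q σ)) (ZMod.natCast_zmod_val (t σ τ)).symm
  have hn1 : ∀ σ, n (actH K M φ σ) = n σ := by
    intro σ
    have h1 : pq K M q (actH K M φ σ) = pq K M q σ :=
      (hcyc _ _).2 (Equiv.Perm.SameCycle.symm ⟨1, by rw [zpow_one]⟩)
    rw [hn, hn, h1]
  have hN1 : ∀ τ, N (actH K M φ τ) = N τ := by
    intro τ
    rw [hNd, hNd]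
    refine (Fintype.sum_equiv (actH K M φ) _ _ fun σ => ?_).symm
    rw [hn1]
    have h1 := inv_vl ht φ σ τ
    rw [smul_emb, smul_emb] at h1
    rw [h1]
  have hN2 : ∀ (k : ℕ) (τ : K →ₐ[ℚ] M), N ((actH K M φ ^ k) τ) = N τ := by
    intro k
    induction k with
    | zero => intro τ; rw [pow_zero, Equiv.Perm.one_apply]
    | succ k ih =>
      intro τ
      rw [pow_succ, Equiv.Perm.mul_apply, ih, hN1]
  have hN3 : ∀ (k : ℤ) (τ : K →ₐ[ℚ] M), N ((actH K M φ ^ k) τ) = N τ := by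
    intro k τ
    obtain ⟨k, rfl | rfl⟩ := k.eq_nat_or_neg
    · rw [zpow_natCast, hN2]
    · have h1 := hN2 k ((actH K M φ ^ (-(k : ℤ))) τ)
      rw [← h1, ← zpow_natCast, ← Equiv.Perm.mul_apply, ← zpow_add, add_neg_cancel, zpow_zero,
        Equiv.Perm.one_apply]
  have hN4 : ∀ σ τ, pq K M q σ = pq K M q τ → N σ = N τ := by
    intro σ τ h
    obtain ⟨k, hk⟩ := (hcyc _ _).1 h
    rw [← hk, hN3]
  have hn4 : ∀ σ τ, pq K M q σ = pq K M q τ → n σ = n τ := by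
    intro σ τ h
    rw [hn, hn, h]
  have g1 := Rd_grp ((q - 1) / 2) _ hz (fun v => tp v (sc x) (sc (b : K))) hc N f' hN4 hNf
  have g2 := Rd_grp ((q - 1) / 2) _ hz'
    (fun v => tp v (sc (hkm hL (inv_vl ht) x)) (sc (b : K))) hc' n f hn4 hnf
  have hXX : ∀ σ : K →ₐ[ℚ] M, σ (hkm hL (inv_vl ht) x) *
      (-(b : M)) ^ (-(ord ((pq K M q σ).valuation K) (hkm hL (inv_vl ht) x))) =
      ∏ τ, (τ x * (-(b : M)) ^ (-(ord ((pq K M q τ).valuation K) x))) ^ vl t σ τ := by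
    intro σ
    rw [ord_hkm hL hq hu (inv_vl ht) σ hx, hkm_spec, ← Finset.sum_neg_distrib,
      ← Rd_zsum _ hbM, ← Finset.prod_mul_distrib]
    refine Finset.prod_congr rfl fun τ _ => ?_
    rw [mul_pow]
    refine congrArg (fun y => τ x ^ vl t σ τ * y) ?_
    rw [← zpow_natCast, ← zpow_mul]
    refine congrArg (fun k : ℤ => (-(b : M)) ^ k) ?_
    ring
  have hA : ∏ σ : K →ₐ[ℚ] M, ((σ (hkm hL (inv_vl ht) x) *
      (-(b : M)) ^ (-(ord ((pq K M q σ).valuation K) (hkm hL (inv_vl ht) x)))) ^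
        ((q - 1) / 2)) ^ n σ =
      ∏ τ : K →ₐ[ℚ] M, ((τ x * (-(b : M)) ^ (-(ord ((pq K M q τ).valuation K) x))) ^
        ((q - 1) / 2)) ^ N τ := by
    have e1 : ∀ σ : K →ₐ[ℚ] M, ((σ (hkm hL (inv_vl ht) x) *
        (-(b : M)) ^ (-(ord ((pq K M q σ).valuation K) (hkm hL (inv_vl ht) x)))) ^
          ((q - 1) / 2)) ^ n σ =
        ∏ τ : K →ₐ[ℚ] M, ((τ x * (-(b : M)) ^ (-(ord ((pq K M q τ).valuation K) x))) ^
          ((q - 1) / 2)) ^ (vl t σ τ * n σ) := by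
      intro σ
      rw [hXX, ← Finset.prod_pow, ← Finset.prod_pow]
      refine Finset.prod_congr rfl fun τ _ => ?_
      rw [← pow_mul, ← pow_mul, ← pow_mul]
      refine congrArg (fun k : ℕ => _ ^ k) ?_
      ring
    rw [Finset.prod_congr rfl fun σ _ => e1 σ, Finset.prod_comm]
    refine Finset.prod_congr rfl fun τ _ => ?_
    rw [Finset.prod_pow_eq_pow_sum, ← hNd]
  rw [hA] at g2
  have hw2 : (wq M q).valuation M (2 : M) = 1 := H38T1.oddP_iff.2 (by rwa [rp_wq hq])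
  refine Rd_sg_inj hw2 ?_
  have e2 : ∀ a b c : M, a - b = (c - b) - (c - a) := fun a b c => by ring
  rw [e2 _ _ (∏ τ : K →ₐ[ℚ] M, ((τ x * (-(b : M)) ^ (-(ord ((pq K M q τ).valuation K) x))) ^
        ((q - 1) / 2)) ^ N τ)]
  exact (Valuation.map_sub _ _ _).trans_lt (max_lt g1 g2)

theorem tp_hk_zero (hL : BigL K M) {q : ℕ} (hq : q.Prime) (h2 : q ≠ 2) (hu : UnM M q) {b : ℤ}
    (hb : (q : ℤ) ∣ b) (hb2 : ¬ (q : ℤ) * q ∣ b) (ht : Inv t) {c : SC K}
    (hc : ∀ v, rp v = q → tp v c (sc (b : K)) = 0) :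
    ∀ v, rp v = q → tp v (hk hL ht c) (sc (b : K)) = 0 := by
  intro v hv
  obtain ⟨f', hf'⟩ := exists_adj hL hq hu ht (fun v' => if v' = v then (1 : ZMod 2) else 0)
  have h1 := tp_hk hL hq h2 hu hb hb2 ht c
    (f := fun v' => if v' = v then (1 : ZMod 2) else 0) hf'
  have hov : ∀ v', v' ∈ ov K {q} → rp v' = q := by
    rintro v' ⟨q', hq', hv'⟩
    rw [Set.mem_singleton_iff] at hq'
    subst hq'
    exact (H38T1.mem_iff_eq hq).1 hv'
  have h3 : ∑ᶠ v' ∈ ov K {q}, f' v' * tp v' c (sc (b : K)) = 0 := by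
    refine finsum_mem_eq_zero_of_forall_eq_zero fun v' hv' => ?_
    rw [hc v' (hov v' hv'), mul_zero]
  rw [h3, Rd_ov hL hq, finsum_mem_coe_finset] at h1
  obtain ⟨σ, hσ⟩ := pq_surj hL hq hv
  rw [Finset.sum_eq_single v] at h1
  · rw [if_pos rfl, one_mul] at h1
    exact h1
  · intro v' _ hne
    rw [if_neg hne, zero_mul]
  · intro hne
    exact absurd (Finset.mem_image.2 ⟨σ, Finset.mem_univ _, hσ⟩) hne

/-- For classes of even order the symbol with `q` is the Legendre class. -/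
theorem tp_even (hL : BigL K M) {q : ℕ} (hq : q.Prime) (hu : UnM M q) {v : HeightOneSpectrum (𝓞 K)}
    (hv : rp v = q) {c : SC K} (hc : eo v c = 0) : tp v c (sc ((q : ℤ) : K)) = la v c := by
  have hb : (q : ℤ) ∣ (q : ℤ) := dvd_rfl
  have hb2 : ¬ (q : ℤ) * q ∣ (q : ℤ) := by
    intro h
    have h1 : q * q ∣ q := by exact_mod_cast h
    have h3 := Nat.le_of_dvd hq.pos h1
    have h4 := hq.two_le
    nlinarith
  have h1 : eo v (sc ((q : ℤ) : K)) = 1 := by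
    have hq0 : ((q : ℤ) : K) ≠ 0 := by exact_mod_cast hq.ne_zero
    rw [H38T1.eo_sc hq0, Rd_ordb hL hq hu hb hb2 hv, Int.cast_one]
  unfold tp
  rw [hc, h1]
  ring

end H88D8.SS
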