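import Pool.Agent.H88.SS.Ca
import Pool.Agent.H88.SS.Cb
import Pool.Agent.H88.SS.Rd
import Pool.Agent.H88.SS.Fr

/-!
ROW Ba (project MP_78d38b_SS, about 130 lines): the index of the local conditions at one prime.

PROOF. `P = ↥(ov K {q})` (finite: `H38T1.fin_ov`; give it a `Fintype`), `π : H → P`, `σ ↦ ⟨pq K M q σ, pq_mem hq σ⟩`, onto by `pq_surj` (row Fr). The map `Θ : A → (P → ZMod 2)`, `c ↦ (v ↦ tp v c (sc b))` is additive (`H38T1.tp_add_left`; `v` is odd: `H38T1.oddP_iff`), its kernel is the set in the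
statement, so `A.ncard = |range Θ| * |kernel|` (`AddSubgroup.card_eq_card_quotient_mul_card_addSubgroup`; see `idx2` in `H88/D8/P2.lean`). For `Λ = range Θ` the hypothesis of `card_le_fb` (row Ca): for `f : P → ZMod 2` (extended by zero to all places) `exists_adj` (row Fr) gives `f'`, and
for `c ∈ A` `hk c = c`, so `tp_hk` (row Rd) says `∑ f v * tp v c (sc b) = ∑ f' v * tp v c (sc b)` (the finsum over `ov K {q}` is the sum over `P`: `finsum_mem_eq_finite_toFinset_sum` or `finsum_subtype...`). So `|Λ| ≤ fb t.transpose π`, and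
`fb t.transpose π = fb t π` (`fb_transpose`, row Cb, with `s = actH K M φ` from `pq_cyc`, `ht.inv` and `smul_emb`) `= fb t (pq K M q)` (`fb_congr`). idx_tps: induction on `Q` (`Finset.induction_on`) with the subgroups `{c ∈ A | conditions at the primes of Q}`.
-/

set_option autoImplicit false
set_option linter.unusedSectionVars false
open scoped Classical

open WithZero NumberField IsDedekindDomain H38RT H88T7 H88T8 H90T8
open H38T1 (SC sc scu scu_surj sc_mul sc_of_ne sc_surj rep rep_ne sc_rep sc_eq_zero eo la si Pri tp OddP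
  LD XX XX' NS ov rp SqMod)

namespace H88D8.SS

variable {K M : Type} [Field K] [NumberField K] [Field M] [NumberField M]

variable {t : Matrix (K →ₐ[ℚ] M) (K →ₐ[ℚ] M) (ZMod 2)}

private theorem Ba_ov {q : ℕ} (hq : q.Prime) (v : HeightOneSpectrum (𝓞 K)) :
    v ∈ ov K {q} ↔ rp v = q := by
  constructor
  · rintro ⟨q', hq', hv⟩
    rw [Set.mem_singleton_iff] at hq'
    subst hq'
    exact (H38T1.mem_iff_eq hq).1 hv
  · intro hv
    exact ⟨q, rfl, (H38T1.mem_iff_eq hq).2 hv⟩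

/-- The kernel of the local symbols at the places above `q`. -/
private theorem Ba_ker {q : ℕ} (h2 : q ≠ 2) (b : K) (A : AddSubgroup (SC K)) :
    ∃ A' : AddSubgroup (SC K), ∀ c, c ∈ A' ↔ c ∈ A ∧ ∀ v, rp v = q → tp v c (sc b) = 0 := by
  have hodd : ∀ v : HeightOneSpectrum (𝓞 K), rp v = q → OddP v := fun v hv =>
    H38T1.oddP_iff.2 (by rwa [hv])
  have h0 : ∀ v : HeightOneSpectrum (𝓞 K), rp v = q → tp v 0 (sc b) = 0 := by
    intro v hv
    have h1 := H38T1.tp_add_left (hodd v hv) 0 0 (sc b)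
    rw [add_zero] at h1
    exact (left_eq_add.1 h1)
  refine ⟨{ carrier := {c | c ∈ A ∧ ∀ v, rp v = q → tp v c (sc b) = 0}
            add_mem' := ?_
            zero_mem' := ?_
            neg_mem' := ?_ }, fun c => Iff.rfl⟩
  · rintro c d ⟨hc, hc'⟩ ⟨hd, hd'⟩
    refine ⟨A.add_mem hc hd, fun v hv => ?_⟩
    rw [H38T1.tp_add_left (hodd v hv), hc' v hv, hd' v hv, add_zero]
  · exact ⟨A.zero_mem, h0⟩
  · rintro c ⟨hc, hc'⟩
    refine ⟨A.neg_mem hc, fun v hv => ?_⟩
    have h1 := H38T1.tp_add_left (hodd v hv) c (-c) (sc b)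
    rw [add_neg_cancel, h0 v hv, hc' v hv, zero_add] at h1
    exact h1.symm

theorem idx_tp (hL : BigL K M) {q : ℕ} (hq : q.Prime) (h2 : q ≠ 2) (hu : UnM M q) {b : ℤ}
    (hb : (q : ℤ) ∣ b) (hb2 : ¬ (q : ℤ) * q ∣ b) (ht : Pr t) (A : AddSubgroup (SC K))
    (hA : (A : Set (SC K)).Finite) (hfix : ∀ c ∈ A, hk hL ht.inv c = c) :
    (A : Set (SC K)).ncard ≤ fb t (pq K M q) *
      {c | c ∈ A ∧ ∀ v, rp v = q → tp v c (sc (b : K)) = 0}.ncard := by
  have hfp : (ov K {q}).Finite := H38T1.fin_ov (Set.finite_singleton q) (by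
    intro q' hq'
    rw [Set.mem_singleton_iff.1 hq']
    exact hq)
  have hodd : ∀ v ∈ ov K {q}, OddP v := by
    intro v hv
    rw [H38T1.oddP_iff, (Ba_ov hq v).1 hv]
    exact h2
  have hfi : Finite (ov K {q}) := hfp.to_subtype
  have hft : Fintype (ov K {q}) := Fintype.ofFinite _
  let φ : A →+ (ov K {q} → ZMod 2) :=
    AddMonoidHom.mk' (fun x v => tp v.1 (x : SC K) (sc (b : K))) (by
      intro x y
      funext v
      exact H38T1.tp_add_left (hodd v.1 v.2) _ _ _)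
  have hφ : ∀ (x : A) (v : ov K {q}), φ x v = tp v.1 (x : SC K) (sc (b : K)) := fun _ _ => rfl
  have hcard : Nat.card φ.ker * Nat.card φ.range = Nat.card A := by
    rw [← AddSubgroup.card_mul_index φ.ker, AddSubgroup.index_ker]
  have hset : {c | c ∈ A ∧ ∀ v, rp v = q → tp v c (sc (b : K)) = 0} =
      (fun x : A => (x : SC K)) '' (φ.ker : Set A) := by
    ext y
    constructor
    · rintro ⟨hy, hy'⟩
      refine ⟨⟨y, hy⟩, ?_, rfl⟩
      rw [SetLike.mem_coe, AddMonoidHom.mem_ker]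
      funext v
      exact hy' v.1 ((Ba_ov hq v.1).1 v.2)
    · rintro ⟨x, hx, rfl⟩
      rw [SetLike.mem_coe, AddMonoidHom.mem_ker] at hx
      exact ⟨x.2, fun v hv => congrFun hx ⟨v, (Ba_ov hq v).2 hv⟩⟩
  have hle : Nat.card φ.range ≤ fb t (pq K M q) := by
    let π : (K →ₐ[ℚ] M) → ov K {q} := fun σ => ⟨pq K M q σ, pq_mem hq σ⟩
    have hπ : Function.Surjective π := by
      rintro ⟨v, hv⟩
      obtain ⟨σ, hσ⟩ := pq_surj hL hq ((Ba_ov hq v).1 hv)
      exact ⟨σ, Subtype.ext hσ⟩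
    obtain ⟨ψ, -, hcyc, -⟩ := pq_cyc hL hq hu
    have hππ : ∀ σ τ, π σ = π τ ↔ pq K M q σ = pq K M q τ := fun σ τ =>
      ⟨fun h => congrArg Subtype.val h, fun h => Subtype.ext h⟩
    have h1 : Nat.card φ.range ≤ fb t.transpose π := by
      refine card_le_fb t ht.idem π hπ φ.range ?_
      intro f
      obtain ⟨F, hF⟩ : ∃ F : HeightOneSpectrum (𝓞 K) → ZMod 2, ∀ v : ov K {q}, F v.1 = f v := by
        refine ⟨fun v => if h : v ∈ ov K {q} then f ⟨v, h⟩ else 0, ?_⟩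
        rintro ⟨v, hv⟩
        show (if h : v ∈ ov K {q} then f ⟨v, h⟩ else 0) = f ⟨v, hv⟩
        rw [dif_pos hv]
      obtain ⟨F', hF'⟩ := exists_adj hL hq hu ht.inv F
      refine ⟨fun v => F' v.1, ?_, ?_⟩
      · intro τ
        show F' (pq K M q τ) = _
        rw [hF' τ]
        refine Finset.sum_congr rfl fun σ _ => ?_
        rw [← hF (π σ)]
      · rintro l ⟨c, rfl⟩
        have h3 := tp_hk hL hq h2 hu hb hb2 ht.inv (c : SC K) hF'
        rw [hfix _ c.2, ← finsum_set_coe_eq_finsum_mem, ← finsum_set_coe_eq_finsum_mem,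
          finsum_eq_sum_of_fintype, finsum_eq_sum_of_fintype] at h3
        have h4 : ∑ p : ov K {q}, f p * φ c p =
            ∑ v : ov K {q}, F v.1 * tp v.1 (c : SC K) (sc (b : K)) := by
          refine Finset.sum_congr rfl fun v _ => ?_
          rw [hF v, hφ]
        rw [h4]
        exact h3
    rw [fb_transpose ht.idem (actH K M ψ) (fun σ τ => ht.inv ψ σ τ)
      (fun σ τ => (hππ σ τ).trans (hcyc σ τ)), fb_congr t hππ] at h1
    exact h1
  rw [hset, Set.ncard_image_of_injective _ Subtype.val_injective, ← Nat.card_coe_set_eq,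
    ← Nat.card_coe_set_eq, mul_comm]
  show Nat.card A ≤ _
  rw [← hcard]
  exact Nat.mul_le_mul_left _ hle

theorem idx_tps (hL : BigL K M) (Q : Finset ℕ) (b : ℕ → ℤ) (hQ : ∀ q ∈ Q, q.Prime ∧ q ≠ 2 ∧
      UnM M q ∧ (q : ℤ) ∣ b q ∧ ¬ (q : ℤ) * q ∣ b q) (ht : Pr t) (A : AddSubgroup (SC K))
    (hA : (A : Set (SC K)).Finite) (hfix : ∀ c ∈ A, hk hL ht.inv c = c) :
    ∃ A' : AddSubgroup (SC K), (∀ c, c ∈ A' ↔ c ∈ A ∧ ∀ q ∈ Q, ∀ v, rp v = q →
      tp v c (sc ((b q : ℤ) : K)) = 0) ∧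
      (A : Set (SC K)).ncard ≤ (∏ q ∈ Q, fb t (pq K M q)) * (A' : Set (SC K)).ncard := by
  induction Q using Finset.induction_on with
  | empty =>
    refine ⟨A, fun c => ⟨fun h => ⟨h, fun q hq => absurd hq (Finset.notMem_empty q)⟩, fun h => h.1⟩, ?_⟩
    rw [Finset.prod_empty, one_mul]
  | insert q Q hqQ ih =>
    obtain ⟨A1, hA1, hle1⟩ := ih fun q' hq' => hQ q' (Finset.mem_insert_of_mem hq')
    obtain ⟨hq, h2, hu, hb, hb2⟩ := hQ q (Finset.mem_insert_self _ _)
    have hsub : (A1 : Set (SC K)) ⊆ A := fun c hc => ((hA1 c).1 hc).1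
    have hfix1 : ∀ c ∈ A1, hk hL ht.inv c = c := fun c hc => hfix c ((hA1 c).1 hc).1
    have hle2 := idx_tp hL hq h2 hu hb hb2 ht A1 (hA.subset hsub) hfix1
    obtain ⟨A2, hA2⟩ := Ba_ker h2 ((b q : ℤ) : K) A1
    have hset : {c | c ∈ A1 ∧ ∀ v, rp v = q → tp v c (sc ((b q : ℤ) : K)) = 0} =
        (A2 : Set (SC K)) := by
      ext c
      exact (hA2 c).symm
    rw [hset] at hle2
    refine ⟨A2, fun c => ?_, ?_⟩
    · rw [hA2, hA1]
      constructor
      · rintro ⟨⟨h3, h4⟩, h5⟩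
        refine ⟨h3, fun q' hq' => ?_⟩
        rcases Finset.mem_insert.1 hq' with rfl | hq'
        · exact h5
        · exact h4 q' hq'
      · rintro ⟨h3, h4⟩
        exact ⟨⟨h3, fun q' hq' => h4 q' (Finset.mem_insert_of_mem hq')⟩,
          h4 q (Finset.mem_insert_self _ _)⟩
    · rw [Finset.prod_insert hqQ]
      calc (A : Set (SC K)).ncard ≤ (∏ q ∈ Q, fb t (pq K M q)) * (A1 : Set (SC K)).ncard := hle1
        _ ≤ (∏ q ∈ Q, fb t (pq K M q)) * (fb t (pq K M q) * (A2 : Set (SC K)).ncard) :=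
          Nat.mul_le_mul_left _ hle2
        _ = fb t (pq K M q) * (∏ q ∈ Q, fb t (pq K M q)) * (A2 : Set (SC K)).ncard := by ring

end H88D8.SS
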