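import Pool.Agent.H88.SS.Ha
import Pool.Agent.H30.T8.Fb

/-!
ROW Re (project MP_78d38b_SS, about 150 lines): signs and archimedean absolute values.

PROOF. `ι = io M`. conj: `fb_exists_conj hL ι` (`Pool/Agent/H30/T8/Fb.lean`, namespace `H30T8`; import that file) gives `g : M ≃ₐ[ℚ] M` with `ι (g x) = conj (ι x)`. pinf_cyc: `InfinitePlace.mk_eq_iff`: `mk φ = mk ψ ↔ φ = ψ ∨ conjugate φ = ψ`; `ι.comp (g • σ) = conjugate (ι.comp σ)`
(see `fbT_act`, `fbT_inj`, `fb_invol`, `fb_card` in that file, which prove exactly this). real_iff: `RealE σ ↔ g • σ = σ`. pinf_surj: `fbT_bij hL ι`. abs_hkm: `(pinf K M σ) x = ‖ι (σ x)‖` (`InfinitePlace.apply`), `hkm_spec`, `map_prod`, `norm_prod`, `map_pow`.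
sr_sc: for real `σ` and `x ≠ 0`: `sr σ (sc x) = if (ι (σ x)).re < 0 then 1 else 0` (`H38T1.si_sc`, `sw`, `ComplexEmbedding.IsReal.coe_embedding_apply`). sr_hk: `c = sc x`; `σ` real. `ι (σ (hkm x)) = ∏ τ, (ι (τ x)) ^ e σ τ`, `e = vl t`. The factors for complex `τ` (`g • τ ≠ τ`) come in pairs `τ, g • τ` with the same exponent
(`t σ (g • τ) = t (g • σ) (g • τ) = t σ τ`), and `ι (τ x) * ι ((g • τ) x) = ‖ι (τ x)‖^2 > 0`. So the product over the complex `τ` is a positive real number (e.g. `Finset.prod_involution`-like argument: show that the product `P` over the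
complex `τ` satisfies: `P = ∏ over a half of them of |.|^(2 e)`; or: let `s` be a linear order on `H` and split the complex `τ` into `τ < g • τ` and `g • τ < τ`), and the sign of the product of the real factors is the sum of the signs times
`t σ τ` in `ZMod 2` (induction over the finset). `sr τ c = 0` for complex `τ` by definition. si_iff: every `w : K →+* ℝ` composed with `ℝ → ℂ` is `ι.comp σ` for a `σ` (`fbT_bij`), which is real, and `si w = si (embedding)` (the embedding is equal to `w`); conversely clear.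
-/

set_option autoImplicit false
set_option linter.unusedSectionVars false
open scoped Classical

open WithZero NumberField IsDedekindDomain H38RT H88T7 H88T8 H90T8
open H38T1 (SC sc scu scu_surj sc_mul sc_of_ne sc_surj rep rep_ne sc_rep sc_eq_zero eo la si Pri tp OddP
  LD XX XX' NS ov rp SqMod)

namespace H88D8.SS

variable {K M : Type} [Field K] [NumberField K] [Field M] [NumberField M]

variable {e : Matrix (K →ₐ[ℚ] M) (K →ₐ[ℚ] M) ℕ} {t : Matrix (K →ₐ[ℚ] M) (K →ₐ[ℚ] M) (ZMod 2)}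

theorem Re_cyc_mk (ι : M →+* ℂ) (g : M ≃ₐ[ℚ] M)
    (hg : ι.comp (g : M →+* M) = ComplexEmbedding.conjugate ι) (σ τ : K →ₐ[ℚ] M) :
    InfinitePlace.mk (H30T8.fbT ι σ) = InfinitePlace.mk (H30T8.fbT ι τ) ↔ σ = τ ∨ g • σ = τ := by
  rw [InfinitePlace.mk_eq_iff, ← H30T8.fbT_act ι g hg, (H30T8.fbT_inj ι).eq_iff,
    (H30T8.fbT_inj ι).eq_iff]
  exact Iff.rfl

theorem pinf_cyc (hL : BigL K M) : ∃ g : M ≃ₐ[ℚ] M, (∀ σ : K →ₐ[ℚ] M, g • g • σ = σ) ∧
    (∀ σ τ : K →ₐ[ℚ] M, pinf K M σ = pinf K M τ ↔ σ = τ ∨ g • σ = τ) ∧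
    (∀ σ : K →ₐ[ℚ] M, RealE σ ↔ g • σ = σ) ∧ ∀ x : M, io M (g x) = starRingEnd ℂ (io M x) := by
  obtain ⟨g, hg⟩ := H30T8.fb_exists_conj hL (io M)
  refine ⟨g, fun σ => H30T8.fb_invol (io M) g hg σ, fun σ τ => Re_cyc_mk (io M) g hg σ τ,
    fun σ => ?_, fun x => RingHom.congr_fun hg x⟩
  have h1 : RealE σ ↔ ComplexEmbedding.conjugate (H30T8.fbT (io M) σ) = H30T8.fbT (io M) σ :=
    ComplexEmbedding.isReal_iff
  rw [h1, ← H30T8.fbT_act (io M) g hg, (H30T8.fbT_inj (io M)).eq_iff]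
  exact Iff.rfl

theorem pinf_surj (hL : BigL K M) (w : InfinitePlace K) : ∃ σ : K →ₐ[ℚ] M, pinf K M σ = w := by
  obtain ⟨σ, hσ⟩ := (H30T8.fbT_bij hL (io M)).2 w.embedding
  refine ⟨σ, ?_⟩
  change InfinitePlace.mk (H30T8.fbT (io M) σ) = w
  rw [hσ, InfinitePlace.mk_embedding]

theorem Re_pinf_apply (σ : K →ₐ[ℚ] M) (x : K) : pinf K M σ x = ‖io M (σ x)‖ := rfl

theorem log_hkm (hL : BigL K M) (he : Inv e) (σ : K →ₐ[ℚ] M) {x : K} (hx : x ≠ 0) :
    Real.log (pinf K M σ (hkm hL he x)) = ∑ τ, (e σ τ : ℝ) * Real.log (pinf K M τ x) := by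
  rw [Re_pinf_apply, hkm_spec, map_prod, _root_.norm_prod, Real.log_prod]
  · refine Finset.sum_congr rfl fun τ _ => ?_
    rw [map_pow, norm_pow, Real.log_pow, Re_pinf_apply]
  · intro τ _
    have h1 : τ x ≠ 0 := (map_ne_zero τ).2 hx
    exact norm_ne_zero_iff.2 ((map_ne_zero (io M)).2 (pow_ne_zero _ h1))

theorem sr_add (σ : K →ₐ[ℚ] M) (c c' : SC K) : sr σ (c + c') = sr σ c + sr σ c' := by
  unfold sr
  split_ifs with h
  · exact H38T1.si_add _ _ _
  · rw [add_zero]

theorem si_iff (hL : BigL K M) (c : SC K) :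
    (∀ w : K →+* ℝ, si w c = 0) ↔ ∀ σ : K →ₐ[ℚ] M, sr σ c = 0 := by
  constructor
  · intro h σ
    unfold sr
    split_ifs with h1
    · exact h _
    · rfl
  · intro h w
    obtain ⟨σ, hσ⟩ := (H30T8.fbT_bij hL (io M)).2 ((algebraMap ℝ ℂ).comp w)
    have h1 : RealE σ := by
      change ComplexEmbedding.IsReal (H30T8.fbT (io M) σ)
      rw [hσ, ComplexEmbedding.isReal_iff]
      ext x
      rw [ComplexEmbedding.conjugate_coe_eq]
      exact Complex.conj_ofReal _
    have h2 := h σ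
    unfold sr at h2
    rw [dif_pos h1] at h2
    have h3 : ComplexEmbedding.IsReal.embedding h1 = w := by
      ext x
      have h4 := ComplexEmbedding.IsReal.coe_embedding_apply h1 x
      have h5 : ((io M).comp (σ : K →+* M)) x = ((w x : ℝ) : ℂ) := RingHom.congr_fun hσ x
      rw [h5] at h4
      exact Complex.ofReal_injective h4
    rwa [h3] at h2

/-- The sign of the real part. -/
noncomputable def Re_s (z : ℂ) : ZMod 2 := if z.re < 0 then 1 else 0

theorem Re_s_mul {z w : ℂ} (hz : z.im = 0) (hw : w.im = 0) (hz0 : z ≠ 0) (hw0 : w ≠ 0) :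
    Re_s (z * w) = Re_s z + Re_s w := by
  have h1 : z.re ≠ 0 := fun h => hz0 (Complex.ext h hz)
  have h2 : w.re ≠ 0 := fun h => hw0 (Complex.ext h hw)
  have h3 : (z * w).re = z.re * w.re := by rw [Complex.mul_re, hz, zero_mul, sub_zero]
  have h11 : (1 : ZMod 2) + 1 = 0 := by decide
  unfold Re_s
  rw [h3]
  rcases lt_or_gt_of_ne h1 with h1 | h1 <;> rcases lt_or_gt_of_ne h2 with h2 | h2
  · rw [if_pos h1, if_pos h2, h11, if_neg (not_lt.2 (mul_pos_of_neg_of_neg h1 h2).le)]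
  · rw [if_pos h1, if_neg (not_lt.2 h2.le), add_zero, if_pos (mul_neg_of_neg_of_pos h1 h2)]
  · rw [if_pos h2, if_neg (not_lt.2 h1.le), zero_add, if_pos (mul_neg_of_pos_of_neg h1 h2)]
  · rw [if_neg (not_lt.2 h1.le), if_neg (not_lt.2 h2.le), add_zero,
      if_neg (not_lt.2 (mul_pos h1 h2).le)]

theorem Re_prod {H : Type*} (π : H → H) (hπ : ∀ a, π (π a) = a) (f : H → ℂ)
    (hf0 : ∀ a, f a ≠ 0) (hf : ∀ a, f (π a) = starRingEnd ℂ (f a)) : ∀ (n : ℕ) (s : Finset H),
    s.card ≤ n → (∀ a ∈ s, π a ∈ s) → (∏ a ∈ s, f a).im = 0 ∧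
      Re_s (∏ a ∈ s, f a) = ∑ a ∈ s, if π a = a then Re_s (f a) else 0 := by
  intro n
  induction n with
  | zero =>
    intro s hs _
    rw [Nat.le_zero, Finset.card_eq_zero] at hs
    subst hs
    refine ⟨by simp, ?_⟩
    rw [Finset.prod_empty, Finset.sum_empty]
    unfold Re_s
    rw [if_neg]
    simp
  | succ n ih =>
    intro s hs hst
    rcases s.eq_empty_or_nonempty with rfl | ⟨a, ha⟩
    · refine ⟨by simp, ?_⟩
      rw [Finset.prod_empty, Finset.sum_empty]
      unfold Re_s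
      rw [if_neg]
      simp
    · have hinj : Function.Injective π := fun x y h => by rw [← hπ x, h, hπ]
      by_cases hpa : π a = a
      · have h1 := ih (s.erase a) (by rw [Finset.card_erase_of_mem ha]; omega) (by
          intro b hb
          rw [Finset.mem_erase] at hb ⊢
          exact ⟨fun h => hb.1 (hinj (h.trans hpa.symm)), hst b hb.2⟩)
        have h2 : (f a).im = 0 := by
          have h3 := hf a
          rw [hpa] at h3
          exact Complex.conj_eq_iff_im.1 h3.symm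
        have h4 : ∏ b ∈ s.erase a, f b ≠ 0 := Finset.prod_ne_zero_iff.2 fun b _ => hf0 b
        rw [← Finset.mul_prod_erase s f ha, ← Finset.add_sum_erase s _ ha, if_pos hpa]
        refine ⟨?_, ?_⟩
        · rw [Complex.mul_im, h2, h1.1, mul_zero, zero_mul, add_zero]
        · rw [Re_s_mul h2 h1.1 (hf0 a) h4, h1.2]
      · have ha' : π a ∈ s.erase a := Finset.mem_erase.2 ⟨hpa, hst a ha⟩
        have h1 := ih ((s.erase a).erase (π a)) (by
            rw [Finset.card_erase_of_mem ha', Finset.card_erase_of_mem ha]; omega) (by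
          intro b hb
          rw [Finset.mem_erase, Finset.mem_erase] at hb ⊢
          refine ⟨fun h => hb.2.1 (hinj h), fun h => hb.1 ?_, hst b hb.2.2⟩
          rw [← h, hπ])
        have h4 : ∏ b ∈ (s.erase a).erase (π a), f b ≠ 0 :=
          Finset.prod_ne_zero_iff.2 fun b _ => hf0 b
        rw [← Finset.mul_prod_erase s f ha, ← Finset.mul_prod_erase _ f ha',
          ← Finset.add_sum_erase s _ ha, ← Finset.add_sum_erase _ _ ha', if_neg hpa,
          if_neg (fun h => hpa (hinj h)), zero_add, zero_add, ← mul_assoc, hf a,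
          Complex.mul_conj]
        have h5 : (((Complex.normSq (f a) : ℝ) : ℂ)).im = 0 := Complex.ofReal_im _
        have h6 : 0 < Complex.normSq (f a) := Complex.normSq_pos.2 (hf0 a)
        have h7 : ((Complex.normSq (f a) : ℝ) : ℂ) ≠ 0 := Complex.ofReal_ne_zero.2 h6.ne'
        have h8 : Re_s ((Complex.normSq (f a) : ℝ) : ℂ) = 0 := by
          unfold Re_s
          rw [Complex.ofReal_re, if_neg (not_lt.2 h6.le)]
        refine ⟨?_, ?_⟩
        · rw [Complex.mul_im, h5, h1.1, mul_zero, zero_mul, add_zero]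
        · rw [Re_s_mul h5 h1.1 h7 h4, h1.2, h8, zero_add]

theorem Re_sr_sc {σ : K →ₐ[ℚ] M} (hσ : RealE σ) {x : K} (hx : x ≠ 0) :
    sr σ (sc x) = Re_s (io M (σ x)) := by
  unfold sr
  rw [dif_pos hσ, H38T1.si_sc _ hx]
  have h1 := ComplexEmbedding.IsReal.coe_embedding_apply hσ x
  have h2 : ((io M).comp (σ : K →+* M)) x = io M (σ x) := rfl
  rw [h2] at h1
  unfold sw Re_s
  rw [← h1, Complex.ofReal_re]

theorem sr_hk (hL : BigL K M) (ht : Inv t) {σ : K →ₐ[ℚ] M} (hσ : RealE σ) (c : SC K) :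
    sr σ (hk hL ht c) = ∑ τ, t σ τ * sr τ c := by
  obtain ⟨x, hx, rfl⟩ := sc_surj c
  obtain ⟨g, hg1, hg2, hg3, hg4⟩ := pinf_cyc (K := K) hL
  rw [hk_sc hL ht hx, Re_sr_sc hσ (hkm_ne hL _ hx), hkm_spec, map_prod]
  have hgσ : g • σ = σ := (hg3 σ).1 hσ
  have h0 : ∀ τ : K →ₐ[ℚ] M, τ x ≠ 0 := fun τ => (map_ne_zero τ).2 hx
  have h1 := Re_prod (fun τ : K →ₐ[ℚ] M => g • τ) hg1 (fun τ => io M (τ x ^ vl t σ τ))
    (fun τ => (map_ne_zero (io M)).2 (pow_ne_zero _ (h0 τ))) (by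
      intro τ
      have h2 : vl t σ (g • τ) = vl t σ τ := by
        have h3 := inv_vl ht g σ τ
        rwa [hgσ] at h3
      change io M ((g • τ) x ^ vl t σ (g • τ)) = _
      rw [h2, smul_emb_apply, map_pow, map_pow, map_pow, hg4])
    (Finset.univ : Finset (K →ₐ[ℚ] M)).card Finset.univ le_rfl (fun _ _ => Finset.mem_univ _)
  rw [h1.2]
  refine Finset.sum_congr rfl fun τ _ => ?_
  by_cases hτ : RealE τ
  · rw [if_pos ((hg3 τ).1 hτ), Re_sr_sc hτ hx]
    have h01 : t σ τ = 0 ∨ t σ τ = 1 := by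
      have : ∀ a : ZMod 2, a = 0 ∨ a = 1 := by decide
      exact this _
    rcases h01 with h | h
    · have h2 : vl t σ τ = 0 := by unfold vl; rw [h]; rfl
      rw [h, h2, pow_zero, map_one, zero_mul]
      unfold Re_s
      rw [if_neg]
      simp
    · have h2 : vl t σ τ = 1 := by unfold vl; rw [h]; rfl
      rw [h, h2, pow_one, one_mul]
  · rw [if_neg (fun h => hτ ((hg3 τ).2 h))]
    have h3 : sr τ (sc x) = 0 := by
      unfold sr
      rw [dif_neg hτ]
    rw [h3, mul_zero]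

end H88D8.SS
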