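import Pool.Agent.H88.SS.Cc
import Pool.Agent.H88.SS.Cb
import Pool.Agent.H88.SS.Re

/-!
ROW Bb (project MP_78d38b_SS, about 90 lines): the index of the sign conditions.

PROOF. `Θ : A → (H → ZMod 2)`, `c ↦ (σ ↦ sr σ c)` is additive (`sr_add`, row Re), with kernel the set in the statement (`si_iff`), so `A.ncard = |range Θ| * |kernel|`. With `g` from `pinf_cyc` (row Re) and `s = actH K M g`: `range Θ ⊆ {u | (∀ σ, s σ ≠ σ → u σ = 0) ∧ ∀ σ, s σ = σ → u σ = (t.mulVec u) σ}`: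
`sr σ c = 0` for non-real `σ` (definition of `sr`; `RealE σ ↔ g • σ = σ`), and for real `σ`: `sr σ c = sr σ (hk c) = ∑ τ, t σ τ * sr τ c` (`sr_hk`, `hfix`; `Matrix.mulVec`, `dotProduct`). The number of elements of this set times `2 ^ t.rank` is `fb t (pinf K M) ^ 2` by
`card_sign` (row Cc; `hs` is `ht.inv g` with `smul_emb`).
-/

set_option autoImplicit false
set_option linter.unusedSectionVars false
open scoped Classical

open WithZero NumberField IsDedekindDomain H38RT H88T7 H88T8 H90T8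
open H38T1 (SC sc scu scu_surj sc_mul sc_of_ne sc_surj rep rep_ne sc_rep sc_eq_zero eo la si Pri tp OddP
  LD XX XX' NS ov rp SqMod)

namespace H88D8.SS

variable {K M : Type} [Field K] [NumberField K] [Field M] [NumberField M]

variable {t : Matrix (K →ₐ[ℚ] M) (K →ₐ[ℚ] M) (ZMod 2)}

theorem Bb_map (A : AddSubgroup (SC K)) : ∃ Θ : A →+ ((K →ₐ[ℚ] M) → ZMod 2),
    ∀ (c : A) (σ : K →ₐ[ℚ] M), Θ c σ = sr σ c.1 := by
  refine ⟨{ toFun := fun c σ => sr σ c.1, map_zero' := ?_, map_add' := ?_ }, fun _ _ => rfl⟩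
  · funext σ
    have h := sr_add (K := K) (M := M) σ 0 0
    rw [add_zero] at h
    change sr σ (0 : SC K) = 0
    exact left_eq_add.1 h
  · intro c c'
    funext σ
    exact sr_add σ _ _

theorem idx_si (hL : BigL K M) (ht : Pr t) (A : AddSubgroup (SC K))
    (hA : (A : Set (SC K)).Finite) (hfix : ∀ c ∈ A, hk hL ht.inv c = c) :
    (A : Set (SC K)).ncard * 2 ^ t.rank ≤ fb t (pinf K M) ^ 2 *
      {c | c ∈ A ∧ ∀ w : K →+* ℝ, si w c = 0}.ncard := by
  obtain ⟨g, hg1, hg2, hg3, -⟩ := pinf_cyc (K := K) hL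
  have hfin : Finite A := hA
  obtain ⟨Θ, hΘ⟩ := Bb_map (K := K) (M := M) A
  have h1 : Nat.card Θ.ker * Nat.card Θ.range = Nat.card A := Cc_card Θ
  have h2 : {c | c ∈ A ∧ ∀ w : K →+* ℝ, si w c = 0}.ncard = Nat.card Θ.ker := by
    rw [← Nat.card_coe_set_eq]
    refine Nat.card_congr ⟨fun c => ⟨⟨c.1, c.2.1⟩, ?_⟩, fun c => ⟨c.1.1, c.1.2, ?_⟩,
      fun c => rfl, fun c => rfl⟩
    · rw [AddMonoidHom.mem_ker]
      funext σ
      rw [hΘ]
      exact (si_iff hL c.1).1 c.2.2 σ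
    · refine (si_iff hL c.1.1).2 fun σ => ?_
      have h := congrFun (AddMonoidHom.mem_ker.1 c.2) σ
      rw [hΘ] at h
      exact h
  have h3 : (A : Set (SC K)).ncard = Nat.card A := (Nat.card_coe_set_eq _).symm
  have hs : ∀ σ τ : K →ₐ[ℚ] M, t (MulAction.toPerm g σ) (MulAction.toPerm g τ) = t σ τ :=
    fun σ τ => ht.inv g σ τ
  have h5 := card_sign ht.idem (π := pinf K M) (MulAction.toPerm g) hs (fun σ => hg1 σ)
    (fun σ τ => hg2 σ τ)
  have h4 : Nat.card Θ.range ≤ Nat.card {u : (K →ₐ[ℚ] M) → ZMod 2 //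
      (∀ σ, MulAction.toPerm g σ ≠ σ → u σ = 0) ∧
        ∀ σ, MulAction.toPerm g σ = σ → u σ = t.mulVec u σ} := by
    have key : ∀ u ∈ Θ.range, (∀ σ : K →ₐ[ℚ] M, MulAction.toPerm g σ ≠ σ → u σ = 0) ∧
        ∀ σ : K →ₐ[ℚ] M, MulAction.toPerm g σ = σ → u σ = t.mulVec u σ := by
      rintro u ⟨c, rfl⟩
      refine ⟨fun σ h => ?_, fun σ h => ?_⟩
      · rw [hΘ]
        unfold sr
        rw [dif_neg fun h' => h ((hg3 σ).1 h')]
      · have h' : RealE σ := (hg3 σ).2 h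
        have h6 := sr_hk hL ht.inv h' c.1
        rw [hfix c.1 c.2] at h6
        rw [hΘ, h6]
        simp only [Matrix.mulVec, dotProduct]
        exact Finset.sum_congr rfl fun τ _ => by rw [hΘ]
    refine Nat.card_le_card_of_injective
      (fun u : Θ.range => (⟨u.1, key u.1 u.2⟩ : {u : (K →ₐ[ℚ] M) → ZMod 2 //
      (∀ σ, MulAction.toPerm g σ ≠ σ → u σ = 0) ∧
        ∀ σ, MulAction.toPerm g σ = σ → u σ = t.mulVec u σ})) ?_
    intro u v huv
    exact Subtype.ext (Subtype.mk.inj huv)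
  rw [h2, h3, ← h1, ← h5]
  calc Nat.card Θ.ker * Nat.card Θ.range * 2 ^ t.rank
      = Nat.card Θ.range * 2 ^ t.rank * Nat.card Θ.ker := by ring
    _ ≤ _ := Nat.mul_le_mul_right _ (Nat.mul_le_mul_right _ h4)

end H88D8.SS
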