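import Pool.Agent.H88.SS.Ha

/-!
ROW Hb (project MP_78d38b_SS, about 130 lines): Hecke operators, norm and restriction.

PROOF. Row Ha (`hkm_sq`, `hk_mul`, `em_hk`, ...). hk_idem: `t * t = t` and `hk_mul` (rewrite the matrix: `subst`/`congr`, the proof of invariance is irrelevant; state a small lemma `hk_eq (h : t = t') : hk hL ht c = hk hL ht' c`).
hk_J: for `t = fun _ _ => 1`: `σ (hkm x) = ∏ τ, τ x = algebraMap ℚ M (norm x)` (`norm_prod hL`, H88T7) `= σ (algebraMap ℚ K (norm x))`, so `hkm x = algebraMap ℚ K (norm x)` (`emb_inj`); `nm_sc`, `res_sc`.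
hk_res: for a rational `x ≠ 0`: `σ (hkm (x : K)) = x ^ (∑ τ, (t σ τ).val)` and the exponent is even (`∑ τ, t σ τ = 0` in `ZMod 2`): `= (x ^ k)^2` where the exponent does not depend on `σ` (both sides are the image of a rational number: choose
`σ₀`), so `sc (hkm x) = 0`. row_const: for invariant `t` the sums `∑ τ, t σ τ` and `∑ σ, t σ τ` do not depend on `σ` resp. `τ` (`trans_emb hL`: `τ = g • τ'`; reindex by `g`). Pr.col: the sum of all entries is zero (row sums), and it is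
`card H * (column sum)`, `card H = finrank` odd (`hL.card`). nm_hk_zero: `res K (nm K (hk t c)) = hk_J (hk t c) = hk (J * t) c`, `J * t = (column sum) • J`: so it is `0` or `hk_J c = res K (nm K c) = 0`; `res_inj hodd`
(H88T7; injective). nm_of_fix: `c = hk t c`: `res K (nm K c) = hk (J * t) c` and `J * t = 0` by Pr.col, `hk 0 c = 0` (`hkm_sq` with the zero exponents, or `hk_add`: `hk 0 = hk 0 + hk 0`).
-/

set_option autoImplicit false
set_option linter.unusedSectionVars false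
open scoped Classical

open WithZero NumberField IsDedekindDomain H38RT H88T7 H88T8 H90T8
open H38T1 (SC sc scu scu_surj sc_mul sc_of_ne sc_surj rep rep_ne sc_rep sc_eq_zero eo la si Pri tp OddP
  LD XX XX' NS ov rp SqMod)

namespace H88D8.SS

variable {K M : Type} [Field K] [NumberField K] [Field M] [NumberField M]

variable {t t' : Matrix (K →ₐ[ℚ] M) (K →ₐ[ℚ] M) (ZMod 2)}

theorem Hb_row {R : Type*} [AddCommMonoid R] (hL : BigL K M)
    {a : Matrix (K →ₐ[ℚ] M) (K →ₐ[ℚ] M) R} (ha : Inv a) (σ σ' : K →ₐ[ℚ] M) :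
    ∑ τ, a σ τ = ∑ τ, a σ' τ := by
  obtain ⟨g, hg⟩ := trans_emb hL σ σ'
  have h3 : g • σ = σ' := by rw [smul_emb]; exact hg
  rw [← h3]
  refine Fintype.sum_equiv (MulAction.toPerm g) _ _ fun τ => ?_
  rw [MulAction.toPerm_apply, ha g σ τ]

theorem Hb_col {R : Type*} [AddCommMonoid R] (hL : BigL K M)
    {a : Matrix (K →ₐ[ℚ] M) (K →ₐ[ℚ] M) R} (ha : Inv a) (τ τ' : K →ₐ[ℚ] M) :
    ∑ σ, a σ τ = ∑ σ, a σ τ' := by
  obtain ⟨g, hg⟩ := trans_emb hL τ τ'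
  have h3 : g • τ = τ' := by rw [smul_emb]; exact hg
  rw [← h3]
  refine Fintype.sum_equiv (MulAction.toPerm g) _ _ fun σ => ?_
  rw [MulAction.toPerm_apply, ha g σ τ]

theorem Hb_eq (hL : BigL K M) (h : t = t') (ht : Inv t) (ht' : Inv t') (c : SC K) :
    hk hL ht c = hk hL ht' c := by
  subst h
  rfl

theorem Hb_zero (hL : BigL K M)
    (h0 : Inv (0 : Matrix (K →ₐ[ℚ] M) (K →ₐ[ℚ] M) (ZMod 2))) (c : SC K) : hk hL h0 c = 0 := by
  have h1 := hk_add hL h0 h0 c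
  rw [Hb_eq hL (add_zero _) (inv_addN h0 h0) h0 c] at h1
  exact left_eq_add.1 h1

theorem Hb_nonempty (hL : BigL K M) : Nonempty (K →ₐ[ℚ] M) := by
  rw [← Fintype.card_pos_iff, hL.card]
  exact Module.finrank_pos

theorem Hb_z : Inv (0 : Matrix (K →ₐ[ℚ] M) (K →ₐ[ℚ] M) (ZMod 2)) := fun _ _ _ => rfl

theorem Hb_zero' (hL : BigL K M) (h : t = 0) (ht : Inv t) (c : SC K) : hk hL ht c = 0 :=
  (Hb_eq hL h ht Hb_z c).trans (Hb_zero hL Hb_z c)

theorem hk_idem (hL : BigL K M) (ht : Pr t) (c : SC K) :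
    hk hL ht.inv (hk hL ht.inv c) = hk hL ht.inv c := by
  rw [← hk_mul hL ht.inv ht.inv c]
  exact Hb_eq hL ht.idem _ _ c

theorem hk_J (hL : BigL K M) (h : Inv (fun _ _ => 1 : Matrix (K →ₐ[ℚ] M) (K →ₐ[ℚ] M) (ZMod 2)))
    (c : SC K) : hk hL h c = res K (nm K c) := by
  obtain ⟨x, hx, rfl⟩ := sc_surj c
  have hn : Algebra.norm ℚ x ≠ 0 := Algebra.norm_ne_zero_iff.2 hx
  rw [hk_sc hL h hx, nm_sc hx, res_sc hn]
  congr 1
  refine emb_inj hL fun σ => ?_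
  rw [hkm_spec, AlgHom.commutes, ← norm_prod hL]
  refine Finset.prod_congr rfl fun τ _ => ?_
  have h1 : vl (fun _ _ => 1 : Matrix (K →ₐ[ℚ] M) (K →ₐ[ℚ] M) (ZMod 2)) σ τ = 1 := rfl
  rw [h1, pow_one]

theorem hk_res (hL : BigL K M) (ht : Pr t) (r : SC ℚ) : hk hL ht.inv (res K r) = 0 := by
  obtain ⟨x, hx, rfl⟩ := sc_surj r
  have h1 : algebraMap ℚ K x ≠ 0 := (map_ne_zero _).2 hx
  rw [res_sc hx, hk_sc hL ht.inv h1, H38T1.sc_eq_zero (scm_ne _ h1)]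
  obtain ⟨σ₀⟩ := Hb_nonempty hL
  have h2 : ((∑ τ, vl t σ₀ τ : ℕ) : ZMod 2) = 0 := by
    rw [Nat.cast_sum, ← ht.zero σ₀]
    exact Finset.sum_congr rfl fun τ _ => ZMod.natCast_zmod_val (t σ₀ τ)
  have h3 : 2 ∣ ∑ τ, vl t σ₀ τ := (ZMod.natCast_eq_zero_iff _ _).1 h2
  obtain ⟨k, hk'⟩ := h3
  refine ⟨algebraMap ℚ K (x ^ k), emb_inj hL fun σ => ?_⟩
  rw [hkm_spec, map_mul, AlgHom.commutes]
  have h4 : ∀ τ : K →ₐ[ℚ] M, τ (algebraMap ℚ K x) ^ vl t σ τ = (algebraMap ℚ M x) ^ vl t σ τ :=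
    fun τ => by rw [AlgHom.commutes]
  rw [Finset.prod_congr rfl fun τ _ => h4 τ, Finset.prod_pow_eq_pow_sum,
    Hb_row hL (inv_vl ht.inv) σ σ₀, hk', map_pow, ← pow_add, two_mul]

theorem Pr.col (hodd : Odd (Module.finrank ℚ K)) (hL : BigL K M) (ht : Pr t) (τ : K →ₐ[ℚ] M) :
    ∑ σ, t σ τ = 0 := by
  have h1 : ∑ τ', ∑ σ, t σ τ' = 0 := by
    rw [Finset.sum_comm]
    exact Finset.sum_eq_zero fun σ _ => ht.zero σ
  have h2 : ∑ τ', ∑ σ, t σ τ' = Fintype.card (K →ₐ[ℚ] M) • ∑ σ, t σ τ := by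
    rw [Finset.sum_congr rfl fun τ' _ => Hb_col hL ht.inv τ' τ, Finset.sum_const, Finset.card_univ]
  rw [h2, hL.card] at h1
  obtain ⟨m, hm⟩ := hodd
  rw [hm, nsmul_eq_mul] at h1
  have h3 : (((2 * m + 1 : ℕ)) : ZMod 2) = 1 := by
    push_cast
    have : (2 : ZMod 2) = 0 := rfl
    rw [this, zero_mul, zero_add]
  rwa [h3, one_mul] at h1

/-- The all-one matrix. -/
def Hb_Jm (K M : Type) [Field K] [NumberField K] [Field M] [NumberField M] :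
    Matrix (K →ₐ[ℚ] M) (K →ₐ[ℚ] M) (ZMod 2) := fun _ _ => 1

theorem Hb_J : Inv (Hb_Jm K M) := fun _ _ _ => rfl

theorem Hb_hkJ (hL : BigL K M) (c : SC K) : hk hL (Hb_J (K := K) (M := M)) c = res K (nm K c) :=
  hk_J hL _ c

theorem Hb_Jmul (σ τ : K →ₐ[ℚ] M) : (Hb_Jm K M * t) σ τ = ∑ ρ, t ρ τ := by
  rw [Matrix.mul_apply]
  exact Finset.sum_congr rfl fun ρ _ => one_mul _

theorem nm_hk_zero (hodd : Odd (Module.finrank ℚ K)) (hL : BigL K M) (ht : Inv t) {c : SC K}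
    (hc : nm K c = 0) : nm K (hk hL ht c) = 0 := by
  apply res_inj hodd
  rw [map_zero, ← Hb_hkJ hL, ← hk_mul hL Hb_J ht c]
  obtain ⟨σ₀⟩ := Hb_nonempty hL
  have h1 : ∀ σ τ, (Hb_Jm K M * t) σ τ = ∑ ρ, t ρ σ₀ := fun σ τ => by
    rw [Hb_Jmul, Hb_col hL ht τ σ₀]
  rcases (by decide : ∀ s : ZMod 2, s = 0 ∨ s = 1) (∑ ρ, t ρ σ₀) with h2 | h2
  · have h3 : Hb_Jm K M * t = 0 := by
      ext σ τ
      rw [h1, h2]
      rfl
    exact Hb_zero' hL h3 _ c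
  · have h3 : Hb_Jm K M * t = Hb_Jm K M := by
      ext σ τ
      rw [h1, h2]
      rfl
    rw [Hb_eq hL h3 _ Hb_J c, Hb_hkJ, hc, map_zero]

theorem nm_of_fix (hodd : Odd (Module.finrank ℚ K)) (hL : BigL K M) (ht : Pr t) {c : SC K}
    (hc : hk hL ht.inv c = c) : nm K c = 0 := by
  apply res_inj hodd
  rw [map_zero, ← Hb_hkJ hL, ← hc, ← hk_mul hL Hb_J ht.inv c]
  have h3 : Hb_Jm K M * t = 0 := by
    ext σ τ
    rw [Hb_Jmul, ht.col hodd hL τ]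
    rfl
  exact Hb_zero' hL h3 _ c

end H88D8.SS
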