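import Pool.Agent.H88.SS.Lt

/-!
ROW Lc (project MP_78d38b_SS, about 90 lines): generators of powers of the places.

PROOF. `h = NumberField.classNumber K` (the cardinality of the finite class group): `v.asIdeal ^ h` is principal (`ClassGroup.mk0`, `pow_card_eq_one'`; `ClassGroup.mk0_eq_one_iff`; compare other uses of the class number in the repo, e.g. grep `mk0_eq_one`), generated by some
`a ∈ 𝓞 K`, `a ≠ 0`. Then `v.valuation K a = exp (-h)`, i.e. `ord = h`, and `v'.valuation K a = 1` for `v' ≠ v` since `a ∉ v'.asIdeal` (otherwise `v.asIdeal ^ h ≤ v'.asIdeal`, so `v.asIdeal ≤ v'.asIdeal` (prime), equal by maximality): `valuation_eq_one_iff_notMem`,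
`HeightOneSpectrum.valuation_of_algebraMap`, `intValuation` and the count of `v` in the factorization of `span {a} = v.asIdeal ^ h` (`intValuation_def`/`intValuation_if_neg`), or use `v.valuation_exists_uniformizer` and compare ideals.
-/

set_option autoImplicit false
set_option linter.unusedSectionVars false
open scoped Classical

open WithZero NumberField IsDedekindDomain H38RT H88T7 H88T8 H90T8
open H38T1 (SC sc scu scu_surj sc_mul sc_of_ne sc_surj rep rep_ne sc_rep sc_eq_zero eo la si Pri tp OddP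
  LD XX XX' NS ov rp SqMod)

namespace H88D8.SS

variable {K M : Type} [Field K] [NumberField K] [Field M] [NumberField M]

theorem exists_pv (K : Type) [Field K] [NumberField K] : ∃ h : ℕ, 0 < h ∧
    ∃ p : HeightOneSpectrum (𝓞 K) → K, ∀ v, p v ≠ 0 ∧ (∀ v', v' ≠ v → v'.valuation K (p v) = 1) ∧
      ord (v.valuation K) (p v) = h := by
  obtain ⟨h, hh⟩ : ∃ h, h = Fintype.card (ClassGroup (𝓞 K)) := ⟨_, rfl⟩
  have hpos : 0 < h := by
    rw [hh]
    exact Fintype.card_pos
  have key : ∀ v : HeightOneSpectrum (𝓞 K), ∃ a : 𝓞 K, v.asIdeal ^ h = Ideal.span {a} := by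
    intro v
    have hv0 : v.asIdeal ∈ nonZeroDivisors (Ideal (𝓞 K)) :=
      mem_nonZeroDivisors_iff_ne_zero.2 v.ne_bot
    have h1 : ClassGroup.mk0 ((⟨v.asIdeal, hv0⟩ : nonZeroDivisors (Ideal (𝓞 K))) ^ h) = 1 := by
      rw [map_pow, hh, pow_card_eq_one]
    have h2 := (ClassGroup.mk0_eq_one_iff _).1 h1
    obtain ⟨a, ha⟩ := h2.principal
    exact ⟨a, ha⟩
  choose a ha using key
  refine ⟨h, hpos, fun v => ((a v : 𝓞 K) : K), fun v => ?_⟩
  have hb : v.asIdeal ≠ 0 := v.ne_bot
  have ha0 : a v ≠ 0 := by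
    intro h0
    have h1 := ha v
    rw [h0, Ideal.span_singleton_eq_bot.2 rfl] at h1
    exact hb ((pow_eq_zero_iff hpos.ne').1 h1)
  refine ⟨?_, ?_, ?_⟩
  · intro h0
    exact ha0 (RingOfIntegers.coe_eq_zero_iff.1 h0)
  · intro v' hv'
    refine v'.valuation_eq_one_iff_notMem.mpr fun hm => hv' ?_
    have h1 : v.asIdeal ^ h ≤ v'.asIdeal := by
      rw [ha v, Ideal.span_singleton_le_iff_mem]
      exact hm
    have h2 : v.asIdeal ≤ v'.asIdeal := v'.isPrime.le_of_pow_le h1
    exact HeightOneSpectrum.ext (v.isMaximal.eq_of_le v'.isPrime.ne_top h2).symm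
  · have h1 := v.intValuation_eq_exp_neg_multiplicity ha0
    rw [← v.valuation_of_algebraMap (K := K), ← ha v,
      multiplicity_pow_self hb v.prime.not_isUnit] at h1
    change v.valuation K ((a v : 𝓞 K) : K) = _ at h1
    change ord (v.valuation K) ((a v : 𝓞 K) : K) = _
    unfold ord
    rw [h1, log_exp, neg_neg]

end H88D8.SS
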