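import Pool.Agent.H88.SS.Lt
import Mathlib.NumberTheory.NumberField.CanonicalEmbedding.NormLeOne

/-!
ROW Ld (project MP_78d38b_SS, about 150 lines): a basis of `ℝ^(InfinitePlace K ⊕ T)` of vectors `ell x`.

PROOF. `w₀ = NumberField.Units.dirichletUnitTheorem.w₀`. Mathlib (`Mathlib/NumberTheory/NumberField/CanonicalEmbedding/NormLeOne.lean`, namespace `NumberField.mixedEmbedding.fundamentalCone`): `completeFamily K : InfinitePlace K → (InfinitePlace K → ℝ)` is linearly independent
(`linearIndependent_completeFamily`); `completeFamily K w₀ = fun w => mult w` and for `i ≠ w₀` it is `expMap.symm (normAtAllPlaces (mixedEmbedding K (fundSystem K (equivFinRank.symm i))))`, whose value at `w` is `mult w * Real.log (w u_i)` (`expMap_symm_apply`, `normAtPlace_apply`),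
`u_i` the fundamental unit. Dividing the coordinates by `mult w` (an invertible diagonal map) and multiplying the vector for `w₀` by `log 2 ≠ 0` one gets: the family `f i = (w ↦ log (w u_i))` for `i ≠ w₀`, `f w₀ = (w ↦ log 2)` is linearly independent in `InfinitePlace K → ℝ`.
Let `g : InfinitePlace K ⊕ T → (InfinitePlace K ⊕ T → ℝ)`: `g (inl i) = ell u_i` (`i ≠ w₀`), `g (inl w₀) = ell 2`, `g (inr v) = ell (p v)`. Coordinates at `inr v`: `ord_v` of a unit and of `2` (as `rp v ≠ 2`: `v.valuation K 2 = 1`, `H38T1.oddP_iff`) is zero, `ord_v (p v) = h`,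
`ord_v (p v') = 0` for `v' ≠ v`. Linear independence: a relation `∑ a_i g i = 0`; coordinate `inr v`: `a_v * h = 0`; then the coordinates `inl w`: all the other coefficients are zero. `basisOfLinearIndependentOfCardEqFinrank` gives `b` with `b i = g i`.
Membership in `Lat`: units: `k = 0`; `2`: `gam_two`; `p v`, `v ∈ T`: `k = 0`. A unit `u`: `NumberField.Units.exist_unique_eq_mul_prod`: `u = ζ * ∏ fundSystem ^ e` with `ζ` a root of unity: `ell ζ = 0` (all absolute values are one: `NumberField.Units.mem_torsion`), `ell_mul` and powers.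
-/

set_option autoImplicit false
set_option linter.unusedSectionVars false
open scoped Classical

open WithZero NumberField IsDedekindDomain H38RT H88T7 H88T8 H90T8
open H38T1 (SC sc scu scu_surj sc_mul sc_of_ne sc_surj rep rep_ne sc_rep sc_eq_zero eo la si Pri tp OddP
  LD XX XX' NS ov rp SqMod)

namespace H88D8.SS

variable {K M : Type} [Field K] [NumberField K] [Field M] [NumberField M]

variable {T : Finset (HeightOneSpectrum (𝓞 K))}

lemma Ld_unit (v : HeightOneSpectrum (𝓞 K)) (u : (𝓞 K)ˣ) :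
    v.valuation K ((u : 𝓞 K) : K) = 1 := by
  have h1 : v.valuation K ((u : 𝓞 K) : K) ≤ 1 := v.valuation_le_one _
  have h2 : v.valuation K (((u⁻¹ : (𝓞 K)ˣ) : 𝓞 K) : K) ≤ 1 := v.valuation_le_one _
  have h3 : ((u : 𝓞 K) : K) * (((u⁻¹ : (𝓞 K)ˣ) : 𝓞 K) : K) = 1 := by
    rw [← map_mul, Units.mul_inv, map_one]
  have h4 : v.valuation K ((u : 𝓞 K) : K) * v.valuation K (((u⁻¹ : (𝓞 K)ˣ) : 𝓞 K) : K) = 1 := by
    rw [← map_mul, h3, map_one]
  refine le_antisymm h1 ?_
  calc (1 : WithZero (Multiplicative ℤ)) =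
      v.valuation K ((u : 𝓞 K) : K) * v.valuation K (((u⁻¹ : (𝓞 K)ˣ) : 𝓞 K) : K) := h4.symm
    _ ≤ v.valuation K ((u : 𝓞 K) : K) * 1 := mul_le_mul' le_rfl h2
    _ = v.valuation K ((u : 𝓞 K) : K) := mul_one _

lemma Ld_ord (v : HeightOneSpectrum (𝓞 K)) {x : K} (h : v.valuation K x = 1) :
    ord (v.valuation K) x = 0 := by
  unfold ord
  rw [h, WithZero.log_one, neg_zero]

lemma Ld_two (w : InfinitePlace K) : w (2 : K) = 2 := by
  rw [← InfinitePlace.norm_embedding_eq w (2 : K), map_ofNat]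
  norm_num

lemma Ld_gam_unit (u : (𝓞 K)ˣ) : ((u : 𝓞 K) : K) ∈ Gam K T :=
  ⟨NumberField.Units.coe_ne_zero u, 0, fun v _ => by rw [zpow_zero, mul_one, Ld_unit]⟩

lemma Ld_ell_tor {u : (𝓞 K)ˣ} (hu : u ∈ NumberField.Units.torsion K) :
    ell K T ((u : 𝓞 K) : K) = 0 := by
  rw [NumberField.Units.mem_torsion] at hu
  funext i
  rcases i with w | v
  · rw [ell_inl, Pi.zero_apply]
    have h1 := hu w
    change w ((u : 𝓞 K) : K) = 1 at h1
    rw [h1, Real.log_one]
  · rw [ell_inr, Pi.zero_apply, Ld_ord v.1 (Ld_unit v.1 u), Int.cast_zero]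

/-- The units whose vector is in a given subgroup. -/
def Ld_sub (N : AddSubgroup (InfinitePlace K ⊕ T → ℝ)) : Subgroup (𝓞 K)ˣ where
  carrier := {u | ell K T ((u : 𝓞 K) : K) ∈ N}
  mul_mem' := by
    intro x y hx hy
    change ell K T (((x * y : (𝓞 K)ˣ) : 𝓞 K) : K) ∈ N
    have e : (((x * y : (𝓞 K)ˣ) : 𝓞 K) : K) = ((x : 𝓞 K) : K) * ((y : 𝓞 K) : K) := by
      rw [Units.val_mul]
      exact map_mul (algebraMap (𝓞 K) K) _ _
    rw [e, ell_mul (NumberField.Units.coe_ne_zero x) (NumberField.Units.coe_ne_zero y)]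
    exact N.add_mem hx hy
  one_mem' := by
    change ell K T (((1 : (𝓞 K)ˣ) : 𝓞 K) : K) ∈ N
    have e : (((1 : (𝓞 K)ˣ) : 𝓞 K) : K) = 1 := by
      rw [Units.val_one]
      exact map_one (algebraMap (𝓞 K) K)
    rw [e, ell_one]
    exact N.zero_mem
  inv_mem' := by
    intro x hx
    change ell K T (((x⁻¹ : (𝓞 K)ˣ) : 𝓞 K) : K) ∈ N
    have h3 : (((x⁻¹ : (𝓞 K)ˣ) : 𝓞 K) : K) = (((x : 𝓞 K) : K))⁻¹ := by
      refine eq_inv_of_mul_eq_one_left ?_
      rw [← map_mul, Units.inv_mul, map_one]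
    rw [h3, ell_inv (NumberField.Units.coe_ne_zero x)]
    exact N.neg_mem hx

/-- The fundamental unit of a place. -/
noncomputable def Ld_u (K : Type) [Field K] [NumberField K]
    (i : {w : InfinitePlace K // w ≠ NumberField.Units.dirichletUnitTheorem.w₀}) : (𝓞 K)ˣ :=
  NumberField.Units.fundSystem K (NumberField.mixedEmbedding.fundamentalCone.equivFinRank.symm i)

/-- The elements for the archimedean places. -/
noncomputable def Ld_x (K : Type) [Field K] [NumberField K] (i : InfinitePlace K) : K :=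
  if hi : i = NumberField.Units.dirichletUnitTheorem.w₀ then 2
  else ((Ld_u K ⟨i, hi⟩ : 𝓞 K) : K)

lemma Ld_cf (i w : InfinitePlace K) :
    (if i = NumberField.Units.dirichletUnitTheorem.w₀ then Real.log 2 else 1) *
      NumberField.mixedEmbedding.fundamentalCone.completeFamily K i w =
      (w.mult : ℝ) * Real.log (w (Ld_x K i)) := by
  unfold NumberField.mixedEmbedding.fundamentalCone.completeFamily Ld_x
  by_cases hi : i = NumberField.Units.dirichletUnitTheorem.w₀
  · rw [if_pos hi, dif_pos hi, dif_pos hi, Ld_two, mul_comm]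
  · rw [if_neg hi, dif_neg hi, dif_neg hi, one_mul,
      NumberField.mixedEmbedding.fundamentalCone.expMap_symm_apply,
      NumberField.mixedEmbedding.normAtAllPlaces_mixedEmbedding]
    rfl

/-- The family. -/
noncomputable def Ld_g (T : Finset (HeightOneSpectrum (𝓞 K)))
    (p : HeightOneSpectrum (𝓞 K) → K) : InfinitePlace K ⊕ T → (InfinitePlace K ⊕ T → ℝ) :=
  Sum.elim (fun i => ell K T (Ld_x K i)) (fun v => ell K T (p v.1))

lemma Ld_ord_x (hT : ∀ v ∈ T, rp v ≠ 2) (i : InfinitePlace K) (v : T) :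
    ord (v.1.valuation K) (Ld_x K i) = 0 := by
  unfold Ld_x
  by_cases hi : i = NumberField.Units.dirichletUnitTheorem.w₀
  · rw [dif_pos hi]
    exact Ld_ord v.1 (H38T1.oddP_iff.2 (hT v.1 v.2))
  · rw [dif_neg hi]
    exact Ld_ord v.1 (Ld_unit v.1 _)

lemma Ld_lin (hT : ∀ v ∈ T, rp v ≠ 2) {h : ℕ} (hh : 0 < h)
    {p : HeightOneSpectrum (𝓞 K) → K}
    (hp : ∀ v, p v ≠ 0 ∧ (∀ v', v' ≠ v → v'.valuation K (p v) = 1) ∧
      ord (v.valuation K) (p v) = h) : LinearIndependent ℝ (Ld_g T p) := by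
  rw [Fintype.linearIndependent_iff]
  intro a ha
  have hsum : ∀ j, (∑ i, a (Sum.inl i) * Ld_g T p (Sum.inl i) j) +
      (∑ v, a (Sum.inr v) * Ld_g T p (Sum.inr v) j) = 0 := by
    intro j
    have h1 := congrFun ha j
    rw [Fintype.sum_sum_type, Pi.add_apply, Finset.sum_apply, Finset.sum_apply,
      Pi.zero_apply] at h1
    exact h1
  have hr : ∀ v : T, a (Sum.inr v) = 0 := by
    intro v
    have h1 := hsum (Sum.inr v)
    have h2 : (∑ i, a (Sum.inl i) * Ld_g T p (Sum.inl i) (Sum.inr v)) = 0 := by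
      refine Finset.sum_eq_zero fun i _ => ?_
      show a (Sum.inl i) * ell K T (Ld_x K i) (Sum.inr v) = 0
      rw [ell_inr, Ld_ord_x hT, Int.cast_zero, mul_zero]
    have h3 : (∑ v', a (Sum.inr v') * Ld_g T p (Sum.inr v') (Sum.inr v)) =
        a (Sum.inr v) * h := by
      rw [Finset.sum_eq_single v]
      · show a (Sum.inr v) * ell K T (p v.1) (Sum.inr v) = _
        rw [ell_inr, (hp v.1).2.2, Int.cast_natCast]
      · intro v' _ hv'
        show a (Sum.inr v') * ell K T (p v'.1) (Sum.inr v) = 0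
        rw [ell_inr, Ld_ord v.1 ((hp v'.1).2.1 v.1 (fun h4 => hv' (Subtype.ext h4.symm))),
          Int.cast_zero, mul_zero]
      · intro h4
        exact absurd (Finset.mem_univ v) h4
    rw [h2, h3, zero_add] at h1
    rcases mul_eq_zero.1 h1 with h5 | h5
    · exact h5
    · exact absurd (Nat.cast_eq_zero.1 h5) hh.ne'
  have hl : ∀ w : InfinitePlace K, ∑ i, a (Sum.inl i) * Real.log (w (Ld_x K i)) = 0 := by
    intro w
    have h1 := hsum (Sum.inl w)
    have h3 : (∑ v', a (Sum.inr v') * Ld_g T p (Sum.inr v') (Sum.inl w)) = 0 :=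
      Finset.sum_eq_zero fun v _ => by rw [hr v, zero_mul]
    rw [h3, add_zero] at h1
    exact h1
  have hcf := Fintype.linearIndependent_iff.1
    (NumberField.mixedEmbedding.fundamentalCone.linearIndependent_completeFamily K)
    (fun i => a (Sum.inl i) *
      (if i = NumberField.Units.dirichletUnitTheorem.w₀ then Real.log 2 else 1)) (by
      funext w
      rw [Finset.sum_apply, Pi.zero_apply]
      have h1 : ∀ i, ((a (Sum.inl i) *
          (if i = NumberField.Units.dirichletUnitTheorem.w₀ then Real.log 2 else 1)) •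
          NumberField.mixedEmbedding.fundamentalCone.completeFamily K i) w =
          (w.mult : ℝ) * (a (Sum.inl i) * Real.log (w (Ld_x K i))) := by
        intro i
        rw [Pi.smul_apply, smul_eq_mul, mul_assoc, Ld_cf]
        ring
      rw [Finset.sum_congr rfl fun i _ => h1 i, ← Finset.mul_sum, hl w, mul_zero])
  intro i
  rcases i with i | v
  · have h1 := hcf i
    change a (Sum.inl i) *
      (if i = NumberField.Units.dirichletUnitTheorem.w₀ then Real.log 2 else 1) = 0 at h1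
    rcases mul_eq_zero.1 h1 with h2 | h2
    · exact h2
    · exfalso
      by_cases hi : i = NumberField.Units.dirichletUnitTheorem.w₀
      · rw [if_pos hi] at h2
        exact (Real.log_pos one_lt_two).ne' h2
      · rw [if_neg hi] at h2
        exact one_ne_zero h2
  · exact hr v

theorem ell_basis (hT : ∀ v ∈ T, rp v ≠ 2) {h : ℕ} (hh : 0 < h)
    {p : HeightOneSpectrum (𝓞 K) → K}
    (hp : ∀ v, p v ≠ 0 ∧ (∀ v', v' ≠ v → v'.valuation K (p v) = 1) ∧
      ord (v.valuation K) (p v) = h) :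
    ∃ b : Module.Basis (InfinitePlace K ⊕ T) ℝ (InfinitePlace K ⊕ T → ℝ),
      (∀ i, b i ∈ Lat K T) ∧
      (∀ u : (𝓞 K)ˣ, ell K T ((u : 𝓞 K) : K) ∈ Submodule.span ℤ (Set.range b)) ∧
      ell K T 2 ∈ Submodule.span ℤ (Set.range b) ∧
      ∀ v ∈ T, ell K T (p v) ∈ Submodule.span ℤ (Set.range b) := by
  have hne : Nonempty (InfinitePlace K ⊕ T) :=
    ⟨Sum.inl NumberField.Units.dirichletUnitTheorem.w₀⟩
  have hcard : Fintype.card (InfinitePlace K ⊕ T) =
      Module.finrank ℝ (InfinitePlace K ⊕ T → ℝ) :=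
    (Module.finrank_fintype_fun_eq_card ℝ).symm
  obtain ⟨b, hb⟩ : ∃ b : Module.Basis (InfinitePlace K ⊕ T) ℝ (InfinitePlace K ⊕ T → ℝ),
      ⇑b = Ld_g T p :=
    ⟨basisOfLinearIndependentOfCardEqFinrank (Ld_lin hT hh hp) hcard,
      coe_basisOfLinearIndependentOfCardEqFinrank _ _⟩
  have hin : ∀ i, b i ∈ Submodule.span ℤ (Set.range b) := fun i =>
    Submodule.subset_span ⟨i, rfl⟩
  refine ⟨b, ?_, ?_, ?_, ?_⟩
  · intro i
    rw [hb]
    rcases i with i | v
    · refine mem_Lat.2 ⟨Ld_x K i, ?_, rfl⟩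
      unfold Ld_x
      by_cases hi : i = NumberField.Units.dirichletUnitTheorem.w₀
      · rw [dif_pos hi]
        exact gam_two
      · rw [dif_neg hi]
        exact Ld_gam_unit _
    · refine mem_Lat.2 ⟨p v.1, ⟨(hp v.1).1, 0, fun v' hv' => ?_⟩, rfl⟩
      rw [zpow_zero, mul_one]
      exact (hp v.1).2.1 v' (fun h1 => hv' (h1 ▸ v.2))
  · intro u
    obtain ⟨N, hN⟩ : ∃ N : AddSubgroup (InfinitePlace K ⊕ T → ℝ),
        N = (Submodule.span ℤ (Set.range b)).toAddSubgroup := ⟨_, rfl⟩
    have hNm : ∀ x, x ∈ N ↔ x ∈ Submodule.span ℤ (Set.range b) := by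
      intro x
      rw [hN]
      rfl
    have hfs : ∀ i, NumberField.Units.fundSystem K i ∈ Ld_sub N := by
      intro i
      change ell K T (((NumberField.Units.fundSystem K i : (𝓞 K)ˣ) : 𝓞 K) : K) ∈ N
      rw [hNm]
      have h1 := hin (Sum.inl
        (NumberField.mixedEmbedding.fundamentalCone.equivFinRank (K := K) i).1)
      rw [hb] at h1 ⊢
      have h2 : Ld_g T p (Sum.inl
          (NumberField.mixedEmbedding.fundamentalCone.equivFinRank (K := K) i).1) =
          ell K T (((NumberField.Units.fundSystem K i : (𝓞 K)ˣ) : 𝓞 K) : K) := by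
        show ell K T (Ld_x K _) = _
        unfold Ld_x
        rw [dif_neg (NumberField.mixedEmbedding.fundamentalCone.equivFinRank (K := K) i).2]
        unfold Ld_u
        rw [Subtype.coe_eta, Equiv.symm_apply_apply]
      rw [h2] at h1
      exact h1
    obtain ⟨ζe, hζ, -⟩ := NumberField.Units.exist_unique_eq_mul_prod K u
    have h2 : u ∈ Ld_sub N := by
      rw [hζ]
      refine Subgroup.mul_mem _ ?_ (Subgroup.prod_mem _ fun i _ => Subgroup.zpow_mem _ (hfs i) _)
      change ell K T ((((ζe.1 : (𝓞 K)ˣ) : 𝓞 K)) : K) ∈ N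
      rw [Ld_ell_tor ζe.1.2]
      exact N.zero_mem
    exact (hNm _).1 h2
  · have h1 := hin (Sum.inl NumberField.Units.dirichletUnitTheorem.w₀)
    rw [hb] at h1 ⊢
    have h2 : Ld_g T p (Sum.inl NumberField.Units.dirichletUnitTheorem.w₀) = ell K T 2 := by
      show ell K T (Ld_x K _) = _
      unfold Ld_x
      rw [dif_pos rfl]
    rw [h2] at h1
    exact h1
  · intro v hv
    have h1 := hin (Sum.inr ⟨v, hv⟩)
    rw [hb] at h1 ⊢
    exact h1

end H88D8.SS
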