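import Pool.Agent.H88.SS.Lt

/-!
ROW Le (project MP_78d38b_SS, about 90 lines): multiples of the lattice vectors.

PROOF. Let `x = ell y`, `y ∈ Gam K T`, `u = y * 2 ^ k` of valuation one outside `T`. `z = u ^ h * ∏ v ∈ T, p v ^ (-(ord (v.valuation K) u))`. All its valuations are one: outside `T` clear; at `v ∈ T`: `ord_v z = h * ord_v u - ord_v u * h = 0` (`ord_mul`, `ord` of powers:
`H38RT`; `ord = 0` iff the valuation is one for nonzero elements). So `z` is (the image of) a unit of `𝓞 K`: `z` and `z⁻¹` are integral (`HeightOneSpectrum.mem_integers_of_valuation_le_one`). Hence `(h : ℤ) • ell u = ell z + ∑ v ∈ T, ord_v u • ell (p v)` is in the span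
(`ell_mul`, `ell_inv`, powers by induction), and `(h : ℤ) • ell y = (h : ℤ) • ell u - (h * k) • ell 2`.
-/

set_option autoImplicit false
set_option linter.unusedSectionVars false
open scoped Classical

open WithZero NumberField IsDedekindDomain H38RT H88T7 H88T8 H90T8
open H38T1 (SC sc scu scu_surj sc_mul sc_of_ne sc_surj rep rep_ne sc_rep sc_eq_zero eo la si Pri tp OddP
  LD XX XX' NS ov rp SqMod)

namespace H88D8.SS

variable {K M : Type} [Field K] [NumberField K] [Field M] [NumberField M]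

variable {T : Finset (HeightOneSpectrum (𝓞 K))}

theorem ell_zpow {x : K} (hx : x ≠ 0) (n : ℤ) : ell K T (x ^ n) = n • ell K T x := by
  funext i
  rcases i with w | v
  · rw [Pi.smul_apply, ell_inl, ell_inl, map_zpow₀, Real.log_zpow, zsmul_eq_mul]
  · rw [Pi.smul_apply, ell_inr, ell_inr, zsmul_eq_mul, ← Int.cast_mul]
    congr 1
    unfold ord
    rw [map_zpow₀, log_zpow]
    simp

private theorem Le_prod {ι : Type*} (s : Finset ι) (f : ι → K) (hf : ∀ i ∈ s, f i ≠ 0) :
    ell K T (∏ i ∈ s, f i) = ∑ i ∈ s, ell K T (f i) := by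
  induction s using Finset.induction_on with
  | empty => rw [Finset.prod_empty, Finset.sum_empty, ell_one]
  | insert a s ha ih =>
    have h1 : ∀ i ∈ s, f i ≠ 0 := fun i hi => hf i (Finset.mem_insert_of_mem hi)
    rw [Finset.prod_insert ha, Finset.sum_insert ha, ell_mul (hf a (Finset.mem_insert_self _ _))
      (Finset.prod_ne_zero_iff.2 h1), ih h1]

/-- A nonzero element all of whose valuations are one is a unit. -/
private theorem Le_unit {z : K} (hz : z ≠ 0)
    (h : ∀ v : HeightOneSpectrum (𝓞 K), v.valuation K z = 1) :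
    ∃ u : (𝓞 K)ˣ, ((u : 𝓞 K) : K) = z := by
  obtain ⟨a, ha⟩ := HeightOneSpectrum.mem_integers_of_valuation_le_one K z fun v => (h v).le
  obtain ⟨b, hb⟩ := HeightOneSpectrum.mem_integers_of_valuation_le_one K z⁻¹ fun v => by
    rw [map_inv₀, h v, inv_one]
  have hab : a * b = 1 := by
    apply FaithfulSMul.algebraMap_injective (𝓞 K) K
    rw [map_mul, ha, hb, mul_inv_cancel₀ hz, map_one]
  exact ⟨⟨a, b, hab, by rw [mul_comm, hab]⟩, ha⟩

private theorem Le_val (v : HeightOneSpectrum (𝓞 K)) {u p : K} (hu : u ≠ 0) (hp : p ≠ 0) {h : ℕ}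
    (h1 : ord (v.valuation K) p = h) :
    v.valuation K u ^ h * v.valuation K p ^ (-(ord (v.valuation K) u)) = 1 := by
  have h2 : u ^ h * p ^ (-(ord (v.valuation K) u)) ≠ 0 :=
    mul_ne_zero (pow_ne_zero _ hu) (zpow_ne_zero _ hp)
  have h3 : ord (v.valuation K) (u ^ h * p ^ (-(ord (v.valuation K) u))) = 0 := by
    rw [ord_mul (pow_ne_zero _ hu) (zpow_ne_zero _ hp)]
    have h4 : ord (v.valuation K) (u ^ h) = h * ord (v.valuation K) u := by
      unfold ord
      rw [map_pow, log_pow]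
      simp
    have h5 : ord (v.valuation K) (p ^ (-(ord (v.valuation K) u))) =
        (-(ord (v.valuation K) u)) * ord (v.valuation K) p := by
      generalize -(ord (v.valuation K) u) = n
      unfold ord
      rw [map_zpow₀, log_zpow]
      simp
    rw [h4, h5, h1]
    ring
  have h4 := V_eq (V := v.valuation K) h2
  rw [h3, neg_zero, exp_zero, map_mul, map_pow, map_zpow₀] at h4
  exact h4

theorem ell_mult {h : ℕ} {p : HeightOneSpectrum (𝓞 K) → K}
    (hp : ∀ v, p v ≠ 0 ∧ (∀ v', v' ≠ v → v'.valuation K (p v) = 1) ∧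
      ord (v.valuation K) (p v) = h) {S : Submodule ℤ (InfinitePlace K ⊕ T → ℝ)}
    (h1 : ∀ u : (𝓞 K)ˣ, ell K T ((u : 𝓞 K) : K) ∈ S) (h2 : ell K T 2 ∈ S)
    (h3 : ∀ v ∈ T, ell K T (p v) ∈ S) : ∀ x ∈ Lat K T, (h : ℤ) • x ∈ S := by
  rintro x hx
  obtain ⟨y, ⟨hy0, k, hk⟩, rfl⟩ := mem_Lat.1 hx
  have hu0 : y * 2 ^ k ≠ 0 := mul_ne_zero hy0 (zpow_ne_zero _ two_ne')
  have hyu : ell K T (y * 2 ^ k) = ell K T y + k • ell K T 2 := by
    rw [ell_mul hy0 (zpow_ne_zero _ two_ne'), ell_zpow two_ne']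
  generalize y * 2 ^ k = u at hk hu0 hyu
  have hq0 : ∀ v ∈ T, p v ^ (-(ord (v.valuation K) u)) ≠ 0 := fun v _ =>
    zpow_ne_zero _ (hp v).1
  have hP0 : (∏ v ∈ T, p v ^ (-(ord (v.valuation K) u))) ≠ 0 := Finset.prod_ne_zero_iff.2 hq0
  have hz0 : u ^ h * ∏ v ∈ T, p v ^ (-(ord (v.valuation K) u)) ≠ 0 :=
    mul_ne_zero (pow_ne_zero _ hu0) hP0
  have hz1 : ∀ v' : HeightOneSpectrum (𝓞 K),
      v'.valuation K (u ^ h * ∏ v ∈ T, p v ^ (-(ord (v.valuation K) u))) = 1 := by
    intro v'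
    rw [map_mul, map_pow, map_prod]
    by_cases hv : v' ∈ T
    · rw [Finset.prod_eq_single_of_mem v' hv, map_zpow₀]
      · exact Le_val v' hu0 (hp v').1 (hp v').2.2
      · intro b _ hb
        rw [map_zpow₀, (hp b).2.1 v' hb.symm, one_zpow]
    · rw [hk v' hv, one_pow, one_mul]
      refine Finset.prod_eq_one fun b hb => ?_
      rw [map_zpow₀, (hp b).2.1 v' (fun h => hv (h ▸ hb)), one_zpow]
  obtain ⟨w, hw⟩ := Le_unit hz0 hz1
  have hw1 := h1 w
  rw [hw, ell_mul (pow_ne_zero _ hu0) hP0, Le_prod T _ hq0, ← zpow_natCast, ell_zpow hu0] at hw1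
  have hs : ∑ v ∈ T, ell K T (p v ^ (-(ord (v.valuation K) u))) ∈ S := by
    refine S.sum_mem fun v hv => ?_
    rw [ell_zpow (hp v).1]
    exact S.smul_mem _ (h3 v hv)
  have hu1 : (h : ℤ) • ell K T u ∈ S := (S.add_mem_iff_left hs).1 hw1
  rw [hyu, smul_add] at hu1
  exact (S.add_mem_iff_left (S.smul_mem _ (S.smul_mem _ h2))).1 hu1

end H88D8.SS
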