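import Pool.Agent.H88.SS.Lt

/-!
ROW Lf (project MP_78d38b_SS, about 60 lines): square roots in `Gam`.

PROOF. gam_sq: `k` with `v (z^2 * 2^k) = 1` outside `T`. All places above two are outside `T` (`hT`). If `k` were odd then for every `v` above two `2 * ord_v z + k * e_v = 0` (`ord_v 2 = e_v`: `H38T1.Ed_ordq`/`ord_int`) and `e_v` would be even for
all `v` above two, so `finrank = ∑ e_v f_v` would be even (`Ideal.sum_ramification_inertia`, see `Gk_sum` in `H88/T7/Gk.lean` or `H38T1`), a contradiction. `k = 2 k'`: `v (z * 2^k')^2 = 1`, so `v (z * 2^k') = 1`.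
-/

set_option autoImplicit false
set_option linter.unusedSectionVars false
open scoped Classical

open WithZero NumberField IsDedekindDomain H38RT H88T7 H88T8 H90T8
open H38T1 (SC sc scu scu_surj sc_mul sc_of_ne sc_surj rep rep_ne sc_rep sc_eq_zero eo la si Pri tp OddP
  LD XX XX' NS ov rp SqMod)

namespace H88D8.SS

variable {K M : Type} [Field K] [NumberField K] [Field M] [NumberField M]

variable {T : Finset (HeightOneSpectrum (𝓞 K))}

theorem Lf_even (h : ∀ v : HeightOneSpectrum (𝓞 K), rp v = 2 → Even (v.asIdeal.ramificationIdx ℤ)) :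
    Even (Module.finrank ℚ K) := by
  have hq : Prime ((2 : ℕ) : ℤ) := Nat.prime_iff_prime_int.1 Nat.prime_two
  have hpi : (Ideal.span {((2 : ℕ) : ℤ)}).IsPrime :=
    (Ideal.span_singleton_prime hq.ne_zero).2 hq
  have hex : ∀ Q : (Ideal.span {((2 : ℕ) : ℤ)}).primesOver (𝓞 K),
      ∃ v : HeightOneSpectrum (𝓞 K), rp v = 2 ∧ v.asIdeal = Q.1 := by
    rintro ⟨Q, h1, h2⟩
    have h3 : ((2 : ℕ) : 𝓞 K) ∈ Q := by
      have h4 := h2.over
      have h5 : ((2 : ℕ) : ℤ) ∈ Ideal.span {((2 : ℕ) : ℤ)} := Ideal.mem_span_singleton_self _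
      rw [h4, Ideal.under_def, Ideal.mem_comap] at h5
      simpa using h5
    have h4 : Q ≠ ⊥ := by
      intro h0
      rw [h0, Ideal.mem_bot] at h3
      exact Nat.prime_two.ne_zero (by exact_mod_cast h3)
    exact ⟨⟨Q, h1, h4⟩, (H38T1.mem_iff_eq Nat.prime_two).1 h3, rfl⟩
  have hfin : (ov K {2}).Finite := H38T1.fin_ov (Set.finite_singleton 2) (by
    intro q hq1
    rw [Set.mem_singleton_iff] at hq1
    rw [hq1]
    exact Nat.prime_two)
  have hfin' : ((Ideal.span {((2 : ℕ) : ℤ)}).primesOver (𝓞 K)).Finite := by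
    refine (hfin.image HeightOneSpectrum.asIdeal).subset ?_
    intro Q hQ
    obtain ⟨v, hv, hv'⟩ := hex ⟨Q, hQ⟩
    exact ⟨v, ⟨2, rfl, (H38T1.mem_iff_eq Nat.prime_two).2 hv⟩, hv'⟩
  let := hfin'.fintype
  have hsum := Ideal.sum_ramification_inertia_eq_finrank (Ideal.span {((2 : ℕ) : ℤ)}) (𝓞 K)
  rw [RingOfIntegers.rank] at hsum
  rw [← hsum]
  refine Finset.even_sum _ fun Q _ => ?_
  obtain ⟨v, hv, hv'⟩ := hex Q
  rw [← hv']
  exact (h v hv).mul_right _

theorem Lf_ord {v : HeightOneSpectrum (𝓞 K)} {x : K} (hx : v.valuation K x = 1) :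
    ord (v.valuation K) x = 0 := by
  unfold ord
  rw [hx, log_one, neg_zero]

theorem Lf_zpow {v : HeightOneSpectrum (𝓞 K)} (k : ℤ) :
    ord (v.valuation K) ((2 : K) ^ k) = k * ord (v.valuation K) (2 : K) := by
  unfold ord
  rw [map_zpow₀, log_zpow, smul_eq_mul]
  ring

theorem gam_sq (hodd : Odd (Module.finrank ℚ K)) (hT : ∀ v ∈ T, rp v ≠ 2) {z : K} (hz : z ≠ 0)
    (h : z ^ 2 ∈ Gam K T) : z ∈ Gam K T := by
  obtain ⟨-, k, hk⟩ := h
  have hke : Even k := by
    by_contra hko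
    rw [Int.not_even_iff_odd] at hko
    have hev : Even (Module.finrank ℚ K) := by
      refine Lf_even fun v hv => ?_
      have h1 := Lf_ord (hk v fun hvT => hT v hvT hv)
      have h2z : (2 : K) ^ k ≠ 0 := zpow_ne_zero k two_ne'
      rw [ord_mul (pow_ne_zero 2 hz) h2z, pow_two, ord_mul hz hz, Lf_zpow] at h1
      have h3 := H38T1.Ed_ordq v
      rw [hv] at h3
      have h4 : (((2 : ℕ) : K)) = 2 := by norm_num
      rw [h4] at h3
      rw [h3] at h1
      have h5 : Even (k * (v.asIdeal.ramificationIdx ℤ : ℤ)) := by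
        refine ⟨-(ord (v.valuation K) z), ?_⟩
        linarith
      rw [Int.even_mul] at h5
      rcases h5 with h5 | h5
      · exact absurd h5 (Int.not_even_iff_odd.2 hko)
      · exact_mod_cast h5
    exact (Nat.not_even_iff_odd.2 hodd) hev
  obtain ⟨l, rfl⟩ := hke
  refine ⟨hz, l, fun v hv => ?_⟩
  have h1 := hk v hv
  have h2 : z ^ 2 * 2 ^ (l + l) = (z * 2 ^ l) ^ 2 := by
    rw [zpow_add₀ two_ne']
    ring
  rw [h2, map_pow] at h1
  exact (pow_eq_one_iff.1 h1).resolve_right two_ne_zero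

end H88D8.SS
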