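import Pool.Agent.H88.SS.Lt
import Pool.Agent.H88.SS.Ra

/-!
ROW Lg (project MP_78d38b_SS, about 80 lines): the Hecke operators preserve `Gam`.

PROOF. `u = x * 2 ^ k` has valuation one outside `TQ K Q`, i.e. at all `v` with `rp v ∉ Q` (`mem_TQ hQ`). hkm_two: `σ (hkm 2) = ∏ τ, 2 ^ e σ τ = 2 ^ (∑ τ, e σ τ)`, which is the image of the natural number `2 ^ s`, `s = ∑ τ, e σ₀ τ` (the sum does not depend on `σ`: or: `σ₀ (hkm 2) = σ₀ (2 ^ s)` and `σ₀` is injective).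
`hkm u = hkm x * (hkm 2) ^ k = hkm x * 2 ^ (s k)` (`hkm` is a monoid homomorphism; for negative `k`: `hkm (y⁻¹) = (hkm y)⁻¹` for `y ≠ 0`, from `map_mul` and `map_one`), and `hkm u` has valuation one at all `v` with `rp v ∉ Q` by `val_hk_one` (row Ra) (all `v'` with `rp v' = rp v` are outside).
-/

set_option autoImplicit false
set_option linter.unusedSectionVars false
open scoped Classical

open WithZero NumberField IsDedekindDomain H38RT H88T7 H88T8 H90T8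
open H38T1 (SC sc scu scu_surj sc_mul sc_of_ne sc_surj rep rep_ne sc_rep sc_eq_zero eo la si Pri tp OddP
  LD XX XX' NS ov rp SqMod)

namespace H88D8.SS

variable {K M : Type} [Field K] [NumberField K] [Field M] [NumberField M]

variable {e : Matrix (K →ₐ[ℚ] M) (K →ₐ[ℚ] M) ℕ}

theorem hkm_two (hL : BigL K M) (he : Inv e) : ∃ s : ℕ, hkm hL he (2 : K) = 2 ^ s := by
  have hne : Nonempty (K →ₐ[ℚ] M) := by
    rw [← Fintype.card_pos_iff, hL.card]
    exact Module.finrank_pos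
  obtain ⟨σ₀⟩ := hne
  refine ⟨∑ τ : K →ₐ[ℚ] M, e σ₀ τ, σ₀.toRingHom.injective ?_⟩
  change σ₀ (hkm hL he 2) = σ₀ (2 ^ _)
  rw [hkm_spec, map_pow, map_ofNat, ← Finset.prod_pow_eq_pow_sum]
  refine Finset.prod_congr rfl fun τ _ => ?_
  rw [map_ofNat]

theorem gam_hkm (hL : BigL K M) {Q : Finset ℕ} (hQ : ∀ q ∈ Q, q.Prime) (he : Inv e) {x : K}
    (hx : x ∈ Gam K (TQ K Q)) : hkm hL he x ∈ Gam K (TQ K Q) := by
  obtain ⟨hx0, k, hk⟩ := hx
  obtain ⟨s, hs⟩ := hkm_two hL he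
  have hinv : ∀ y : K, y ≠ 0 → hkm hL he y⁻¹ = (hkm hL he y)⁻¹ := by
    intro y hy
    refine eq_inv_of_mul_eq_one_left ?_
    rw [← map_mul, inv_mul_cancel₀ hy, map_one]
  have hne : ∀ y : K, y ≠ 0 → hkm hL he y ≠ 0 := by
    intro y hy h
    have h1 : hkm hL he (y * y⁻¹) = 1 := by rw [mul_inv_cancel₀ hy, map_one]
    rw [map_mul, h, zero_mul] at h1
    exact zero_ne_one h1
  have hz : hkm hL he ((2 : K) ^ k) = 2 ^ ((s : ℤ) * k) := by
    rw [zpow_mul, zpow_natCast]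
    rcases k with k | k
    · rw [Int.ofNat_eq_natCast, zpow_natCast, zpow_natCast, map_pow, hs]
    · rw [zpow_negSucc, zpow_negSucc, hinv _ (pow_ne_zero _ two_ne_zero), map_pow, hs]
  refine ⟨hne x hx0, (s : ℤ) * k, fun v hv => ?_⟩
  rw [← hz, ← map_mul]
  refine val_hk_one hL (q := rp v) he (fun v' hv' => hk v' ?_) v rfl
  intro h
  apply hv
  rw [mem_TQ hQ] at h ⊢
  rwa [hv'] at h

end H88D8.SS
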