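import Pool.Agent.H88.SS.Fb

/-!
ROW Cd (project MP_78d38b_SS, about 110 lines, pure linear algebra over ZMod 2): the matrix on a quotient; block matrices.
`qm t π r p p' = ∑_{ρ, π ρ = p'} t (r p) ρ`.

PROOF. qm_fix: for `f : P → ZMod 2`: `((qm t π r).mulVec f) p = ∑_{p'} ∑_{ρ, π ρ = p'} t (r p) ρ * f p' = ∑_ρ t (r p) ρ * f (π ρ) = (t.mulVec (f ∘ π)) (r p)` (`Finset.sum_fiberwise`), and by `hc` the number
`(t.mulVec (f ∘ π)) σ` depends only on `π σ`, so `((qm t π r).mulVec f) (π σ) = (t.mulVec (f ∘ π)) σ` (as `π (r (π σ)) = π σ`). So `f ↦ f ∘ π` is injective (`π` is onto by `hr`) and intertwines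
`qm` and `t`. From `t * t = t`: `N (N f) = N f` for all `f`, so `N * N = N` (`Matrix.mulVec_injective`/`Matrix.ext_of_mulVec_single`). `{f | N f = f} ≃ {u | t u = u, constant on the fibres}` (constant on the
fibres iff of the form `f ∘ π`), and `|{f | N f = f}| = |range| = 2 ^ N.rank`.
fb_blk: the functions on `H × J` are families `(u_j)`; `(blk t u)(σ, j) = (t u_j) σ`; the fibre condition splits by `hsep`; `Nat.card_pi`/`Fintype.card_pi` (`Equiv.curry`-like).
blk_idem: compute (`Finset.sum` over the product, `Fintype.sum_prod_type`).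
-/

set_option autoImplicit false
set_option linter.unusedSectionVars false
open scoped Classical

namespace H88D8.SS

theorem SSCd_exp {H P : Type*} [Fintype H] [Fintype P] (t : Matrix H H (ZMod 2)) (π : H → P)
    (f : P → ZMod 2) (σ : H) :
    t.mulVec (f ∘ π) σ = ∑ p, (∑ ρ ∈ Finset.univ.filter (fun ρ => π ρ = p), t σ ρ) * f p := by
  have h1 : t.mulVec (f ∘ π) σ = ∑ ρ, t σ ρ * f (π ρ) := rfl
  rw [h1, ← Finset.sum_fiberwise Finset.univ π]
  apply Finset.sum_congr rfl
  intro p _
  rw [Finset.sum_mul]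
  apply Finset.sum_congr rfl
  intro ρ hρ
  rw [(Finset.mem_filter.mp hρ).2]

theorem SSCd_r {H P : Type*} [Fintype H] [Fintype P] (t : Matrix H H (ZMod 2)) (π : H → P)
    (r : P → H) (f : P → ZMod 2) (p : P) :
    (qm t π r).mulVec f p = t.mulVec (f ∘ π) (r p) := by
  rw [SSCd_exp]
  rfl

theorem SSCd_s {H P : Type*} [Fintype H] [Fintype P] (t : Matrix H H (ZMod 2)) (π : H → P)
    (r : P → H) (hr : ∀ p, π (r p) = p)
    (hc : ∀ σ τ p, π σ = π τ → ∑ ρ ∈ Finset.univ.filter (fun ρ => π ρ = p), t σ ρ =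
      ∑ ρ ∈ Finset.univ.filter (fun ρ => π ρ = p), t τ ρ)
    (f : P → ZMod 2) (σ : H) :
    (qm t π r).mulVec f (π σ) = t.mulVec (f ∘ π) σ := by
  rw [SSCd_r, SSCd_exp, SSCd_exp]
  apply Finset.sum_congr rfl
  intro p _
  rw [hc (r (π σ)) σ p (hr (π σ))]

theorem SSCd_blk {H J : Type*} [Fintype H] [Fintype J] (t : Matrix H H (ZMod 2))
    (w : H × J → ZMod 2) (σ : H) (j : J) :
    (blk J t).mulVec w (σ, j) = t.mulVec (fun ρ => w (ρ, j)) σ := by
  have h1 : (blk J t).mulVec w (σ, j) = ∑ b : H × J, blk J t (σ, j) b * w b := rfl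
  have h2 : t.mulVec (fun ρ => w (ρ, j)) σ = ∑ ρ, t σ ρ * w (ρ, j) := rfl
  rw [h1, h2, Fintype.sum_prod_type]
  apply Finset.sum_congr rfl
  intro ρ _
  rw [Finset.sum_eq_single j]
  · simp [blk]
  · intro i _ hi
    have h3 : blk J t (σ, j) (ρ, i) = 0 := by
      unfold blk
      exact if_neg (fun h => hi h.symm)
    rw [h3, zero_mul]
  · intro h
    exact absurd (Finset.mem_univ j) h

theorem qm_fix {H P : Type*} [Fintype H] [Fintype P] {t : Matrix H H (ZMod 2)} (ht : t * t = t)
    {π : H → P} {r : P → H} (hr : ∀ p, π (r p) = p)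
    (hc : ∀ σ τ p, π σ = π τ → ∑ ρ ∈ Finset.univ.filter (fun ρ => π ρ = p), t σ ρ =
      ∑ ρ ∈ Finset.univ.filter (fun ρ => π ρ = p), t τ ρ) :
    qm t π r * qm t π r = qm t π r ∧ 2 ^ (qm t π r).rank = fb t π := by
  have hr' : ∀ f p, (qm t π r).mulVec f p = t.mulVec (f ∘ π) (r p) := SSCd_r t π r
  have hs : ∀ f σ, (qm t π r).mulVec f (π σ) = t.mulVec (f ∘ π) σ := SSCd_s t π r hr hc
  have hcomp : ∀ f, (qm t π r).mulVec f ∘ π = t.mulVec (f ∘ π) := by
    intro f
    funext σ
    exact hs f σ
  have hNN : ∀ f, (qm t π r).mulVec ((qm t π r).mulVec f) = (qm t π r).mulVec f := by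
    intro f
    funext p
    rw [hr' ((qm t π r).mulVec f) p, hcomp, Matrix.mulVec_mulVec, ht, ← hr' f p]
  refine ⟨?_, ?_⟩
  · apply Matrix.mulVec_injective
    funext f
    rw [← Matrix.mulVec_mulVec]
    exact hNN f
  · have h1 : Nat.card (LinearMap.range (qm t π r).mulVecLin) = 2 ^ (qm t π r).rank := by
      rw [Module.natCard_eq_pow_finrank (K := ZMod 2)]
      rw [Nat.card_zmod]
      rfl
    rw [← h1]
    unfold fb
    apply Nat.card_congr
    have hmem : ∀ f : P → ZMod 2, f ∈ LinearMap.range (qm t π r).mulVecLin ↔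
        (qm t π r).mulVec f = f := by
      intro f
      constructor
      · rintro ⟨g, hg⟩
        rw [← hg]
        exact hNN g
      · intro h
        exact ⟨f, h⟩
    exact
      { toFun := fun f => ⟨f.1 ∘ π, by
          constructor
          · rw [← hcomp, (hmem f.1).mp f.2]
          · intro σ τ h
            show f.1 (π σ) = f.1 (π τ)
            rw [h]⟩
        invFun := fun u => ⟨u.1 ∘ r, by
          rw [hmem]
          have h2 : (u.1 ∘ r) ∘ π = u.1 := by
            funext σ
            exact u.2.2 _ _ (hr (π σ))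
          funext p
          rw [hr', h2, u.2.1]
          rfl⟩
        left_inv := by
          intro f
          apply Subtype.ext
          funext p
          show f.1 (π (r p)) = f.1 p
          rw [hr]
        right_inv := by
          intro u
          apply Subtype.ext
          funext σ
          exact u.2.2 _ _ (hr (π σ)) }

theorem blk_idem {H J : Type*} [Fintype H] [Fintype J] {t : Matrix H H (ZMod 2)} (ht : t * t = t) :
    blk J t * blk J t = blk J t := by
  apply Matrix.mulVec_injective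
  funext w
  rw [← Matrix.mulVec_mulVec]
  funext a
  obtain ⟨σ, j⟩ := a
  rw [SSCd_blk, SSCd_blk]
  have h1 : (fun ρ => (blk J t).mulVec w (ρ, j)) = t.mulVec (fun ρ => w (ρ, j)) := by
    funext ρ
    exact SSCd_blk t w ρ j
  rw [h1, Matrix.mulVec_mulVec, ht]

theorem fb_blk {H J P : Type*} [Fintype H] [Fintype J] (t : Matrix H H (ZMod 2)) (π : H × J → P)
    (hsep : ∀ σ τ i j, π (σ, i) = π (τ, j) → i = j) :
    fb (blk J t) π = ∏ j, fb t (fun σ => π (σ, j)) := by
  unfold fb
  rw [← Nat.card_pi]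
  apply Nat.card_congr
  exact
    { toFun := fun w j => ⟨fun σ => w.1 (σ, j), by
        constructor
        · funext σ
          rw [← SSCd_blk, w.2.1]
        · intro σ τ h
          exact w.2.2 _ _ h⟩
      invFun := fun u => ⟨fun p => (u p.2).1 p.1, by
        constructor
        · funext a
          obtain ⟨σ, j⟩ := a
          rw [SSCd_blk]
          exact congrFun (u j).2.1 σ
        · intro a b h
          obtain ⟨σ, i⟩ := a
          obtain ⟨τ, j⟩ := b
          have hij : i = j := hsep σ τ i j h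
          subst hij
          exact (u i).2.2 σ τ h⟩
      left_inv := by
        intro w
        apply Subtype.ext
        rfl
      right_inv := by
        intro u
        rfl }

end H88D8.SS
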