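import Pool.Agent.H88.SS.Lt
import Pool.Agent.H88.SS.Ra
import Pool.Agent.H88.SS.Re
import Pool.Agent.H88.SS.Fr
import Pool.Agent.H88.SS.Cd
import Pool.Agent.H88.SS.Cb

/-!
ROW Lh (project MP_78d38b_SS, about 150 lines): the integer matrix of a Hecke operator on the vectors `ell x`.

PROOF. `H = (K →ₐ[ℚ] M)`, `t' = blk (Option Q) t`, `π = ppi`. ppi_fb: `fb_blk` (row Cd; the hypothesis `hsep`: the value of `ppi` determines the second component: `rp (pq q σ) = q`), `Fintype.prod_option`, `Finset.prod_coe_sort`, `fb_congr` (row Cb; the subtype and `Sum.inl`, `Sum.inr` are injective).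
exists_N: `π` is onto (`pinf_surj`, row Re; `pq_surj`, row Fr, with `mem_TQ hQ`): choose `r` with `π (r p) = p`. `N p p' = ∑_{ρ, π ρ = p'} ((t' (r p) ρ).val : ℤ)`. Modulo two it is `qm t' π r` (`Int.cast_sum`, `ZMod.natCast_zmod_val`), so `qm_fix` (row Cd, with `blk_idem`) gives the
first two claims. Its hypothesis `hc`: if `π (σ, i) = π (τ, j)` then `i = j` and `τ` is obtained from `σ` by an element `g` of the Galois group which preserves the fibres of `π(·, i)`: for `i = none` the `g` of `pinf_cyc` (`σ = τ` or `g • σ = τ`; `g` preserves `pinf`), for `i = some q` a power of the Frobenius element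
of `pq_cyc` (`SameCycle`; `actH K M φ` preserves `pq K M q`); reindex the sum over the fibre by `g` and use the invariance of `t`. Last claim: `((N_ℝ).mulVec (ell x)) p = ∑ ρ, (t' (r p) ρ).val * ell x (π ρ)` (`Finset.sum_fiberwise`); for `r p = (σ, none)` this is
`∑ τ, (t σ τ).val * log (pinf τ x) = log (pinf σ (hkm x))` (`log_hkm`), for `r p = (σ, some q)`: `∑ τ, (t σ τ).val * ord_{pq τ} x = ord_{pq σ} (hkm x)` (`ord_hkm`, row Ra).
-/

set_option autoImplicit false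
set_option linter.unusedSectionVars false
open scoped Classical

open WithZero NumberField IsDedekindDomain H38RT H88T7 H88T8 H90T8
open H38T1 (SC sc scu scu_surj sc_mul sc_of_ne sc_surj rep rep_ne sc_rep sc_eq_zero eo la si Pri tp OddP
  LD XX XX' NS ov rp SqMod)

namespace H88D8.SS

variable {K M : Type} [Field K] [NumberField K] [Field M] [NumberField M]

variable {t : Matrix (K →ₐ[ℚ] M) (K →ₐ[ℚ] M) (ZMod 2)}

/-- The places as a quotient of copies of the set of the embeddings. -/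
noncomputable def ppi {Q : Finset ℕ} (hQ : ∀ q ∈ Q, q.Prime) :
    (K →ₐ[ℚ] M) × Option Q → InfinitePlace K ⊕ TQ K Q :=
  fun a => match a.2 with
  | none => Sum.inl (pinf K M a.1)
  | some q => Sum.inr ⟨pq K M q a.1, (mem_TQ hQ).2 (by rw [rp_pq (hQ q q.2)]; exact q.2)⟩

private theorem SSLh_none {Q : Finset ℕ} (hQ : ∀ q ∈ Q, q.Prime) (σ : K →ₐ[ℚ] M) :
    ppi hQ (σ, (none : Option Q)) = Sum.inl (pinf K M σ) := rfl

private theorem SSLh_some {Q : Finset ℕ} (hQ : ∀ q ∈ Q, q.Prime) (σ : K →ₐ[ℚ] M) (q : Q) :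
    ppi hQ (σ, (some q : Option Q)) =
      Sum.inr ⟨pq K M q σ, (mem_TQ hQ).2 (by rw [rp_pq (hQ q q.2)]; exact q.2)⟩ := rfl

private theorem SSLh_some_iff {Q : Finset ℕ} (hQ : ∀ q ∈ Q, q.Prime) (σ τ : K →ₐ[ℚ] M) (q : Q) :
    ppi hQ (σ, (some q : Option Q)) = ppi hQ (τ, (some q : Option Q)) ↔
      pq K M q σ = pq K M q τ := by
  rw [SSLh_some, SSLh_some]
  constructor
  · intro h
    exact congrArg Subtype.val (Sum.inr.inj h)
  · intro h
    exact congrArg Sum.inr (Subtype.ext h)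

private theorem SSLh_sep {Q : Finset ℕ} (hQ : ∀ q ∈ Q, q.Prime) (σ τ : K →ₐ[ℚ] M)
    (i j : Option Q) (h : ppi hQ (σ, i) = ppi hQ (τ, j)) : i = j := by
  rcases i with _ | q
  · rcases j with _ | q'
    · rfl
    · rw [SSLh_none, SSLh_some] at h
      cases h
  · rcases j with _ | q'
    · rw [SSLh_none, SSLh_some] at h
      cases h
    · rw [SSLh_some, SSLh_some] at h
      have h1 : pq K M q σ = pq K M q' τ := congrArg Subtype.val (Sum.inr.inj h)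
      have h2 : (q : ℕ) = q' := by
        rw [← rp_pq (K := K) (M := M) (hQ q q.2) σ, h1, rp_pq (hQ q' q'.2)]
      exact congrArg some (Subtype.ext h2)

theorem ppi_fb {Q : Finset ℕ} (hQ : ∀ q ∈ Q, q.Prime) :
    fb (blk (Option Q) t) (ppi (K := K) (M := M) hQ) =
      fb t (pinf K M) * ∏ q ∈ Q, fb t (pq K M q) := by
  rw [fb_blk t _ (SSLh_sep hQ), Fintype.prod_option]
  have h1 : fb t (fun σ => ppi hQ (σ, (none : Option Q))) = fb t (pinf K M) := by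
    refine fb_congr t fun σ τ => ?_
    rw [SSLh_none, SSLh_none]
    exact ⟨fun h => Sum.inl.inj h, fun h => congrArg Sum.inl h⟩
  have h2 : ∀ q : Q, fb t (fun σ => ppi hQ (σ, (some q : Option Q))) = fb t (pq K M q) :=
    fun q => fb_congr t fun σ τ => SSLh_some_iff hQ σ τ q
  rw [h1, Finset.prod_congr rfl fun q _ => h2 q,
    Finset.prod_coe_sort Q (fun q => fb t (pq K M q))]

private theorem SSLh_sum {R : Type*} [AddCommMonoid R] {J : Type*} [Fintype J]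
    (F : (K →ₐ[ℚ] M) → ZMod 2 → R) (σ : K →ₐ[ℚ] M) (i : J) :
    ∀ G : (K →ₐ[ℚ] M) × J → ZMod 2 → R, (∀ ρ e, G (ρ, i) e = F ρ e) → (∀ ρ, G ρ 0 = 0) →
    ∑ ρ, G ρ (blk J t (σ, i) ρ) = ∑ ρ, F ρ (t σ ρ) := by
  intro G hG hG0
  rw [Fintype.sum_prod_type]
  refine Finset.sum_congr rfl fun ρ _ => ?_
  rw [Finset.sum_eq_single i]
  · have h : blk J t (σ, i) (ρ, i) = t σ ρ := by
      unfold blk
      exact if_pos rfl
    rw [h, hG]
  · intro j _ hj
    have h : blk J t (σ, i) (ρ, j) = 0 := by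
      unfold blk
      exact if_neg fun h => hj h.symm
    rw [h, hG0]
  · intro h
    exact absurd (Finset.mem_univ i) h

private theorem SSLh_fib {J P : Type*} [Fintype J] (π : (K →ₐ[ℚ] M) × J → P) (p : P)
    (σ : K →ₐ[ℚ] M) (i : J) :
    ∑ ρ ∈ Finset.univ.filter (fun ρ => π ρ = p), blk J t (σ, i) ρ =
      ∑ ρ ∈ Finset.univ.filter (fun ρ => π (ρ, i) = p), t σ ρ := by
  rw [Finset.sum_filter, Finset.sum_filter]
  exact SSLh_sum (fun ρ e => if π (ρ, i) = p then e else 0) σ i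
    (fun ρ e => if π ρ = p then e else 0) (fun ρ e => rfl) (fun ρ => ite_self _)

private theorem SSLh_act {J P : Type*} [Fintype J] (ht : Inv t) (π : (K →ₐ[ℚ] M) × J → P) (p : P)
    (σ : K →ₐ[ℚ] M) (i : J) (g : M ≃ₐ[ℚ] M) (hg : ∀ ρ, π (g • ρ, i) = π (ρ, i)) :
    ∑ ρ ∈ Finset.univ.filter (fun ρ => π ρ = p), blk J t (σ, i) ρ =
      ∑ ρ ∈ Finset.univ.filter (fun ρ => π ρ = p), blk J t (g • σ, i) ρ := by
  rw [SSLh_fib, SSLh_fib, Finset.sum_filter, Finset.sum_filter]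
  refine Fintype.sum_equiv (MulAction.toPerm g) _ _ fun ρ => ?_
  rw [MulAction.toPerm_apply, hg, ht]

private theorem SSLh_hcP {J P : Type*} [Fintype J] (ht : Inv t) (π : (K →ₐ[ℚ] M) × J → P)
    (key : ∀ σ τ i j, π (σ, i) = π (τ, j) → i = j ∧
      ∃ g : M ≃ₐ[ℚ] M, g • σ = τ ∧ ∀ ρ, π (g • ρ, i) = π (ρ, i))
    (a b : (K →ₐ[ℚ] M) × J) (p : P) (h : π a = π b) :
    ∑ ρ ∈ Finset.univ.filter (fun ρ => π ρ = p), blk J t a ρ =
      ∑ ρ ∈ Finset.univ.filter (fun ρ => π ρ = p), blk J t b ρ := by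
  obtain ⟨σ, i⟩ := a
  obtain ⟨τ, j⟩ := b
  obtain ⟨rfl, g, rfl, hg⟩ := key σ τ i j h
  exact SSLh_act ht π p σ i g hg

private theorem SSLh_key (hL : BigL K M) {Q : Finset ℕ} (hQ : ∀ q ∈ Q, q.Prime)
    (hu : ∀ q ∈ Q, UnM M q) (σ τ : K →ₐ[ℚ] M) (i j : Option Q)
    (h : ppi hQ (σ, i) = ppi hQ (τ, j)) : i = j ∧
      ∃ g : M ≃ₐ[ℚ] M, g • σ = τ ∧ ∀ ρ : K →ₐ[ℚ] M, ppi hQ (g • ρ, i) = ppi hQ (ρ, i) := by
  obtain rfl := SSLh_sep hQ σ τ i j h
  refine ⟨rfl, ?_⟩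
  rcases i with _ | q
  · obtain ⟨g, -, h2, -, -⟩ := pinf_cyc (K := K) hL
    rw [SSLh_none, SSLh_none] at h
    rcases (h2 σ τ).1 (Sum.inl.inj h) with h3 | h3
    · exact ⟨1, by rw [one_smul, h3], fun ρ => by rw [one_smul]⟩
    · refine ⟨g, h3, fun ρ => ?_⟩
      rw [SSLh_none, SSLh_none]
      exact congrArg Sum.inl ((h2 ρ (g • ρ)).2 (Or.inr rfl)).symm
  · obtain ⟨φ, -, h2, -⟩ := pq_cyc (K := K) hL (hQ q q.2) (hu q q.2)
    rw [SSLh_some_iff, h2] at h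
    obtain ⟨n, hn⟩ := h
    have hpow : ∀ ρ : K →ₐ[ℚ] M, (φ ^ n) • ρ = (actH K M φ ^ n) ρ := by
      intro ρ
      rw [smul_emb, map_zpow]
    refine ⟨φ ^ n, by rw [hpow, hn], fun ρ => ?_⟩
    rw [SSLh_some_iff, h2, hpow]
    refine ⟨-n, ?_⟩
    rw [zpow_neg]
    show (actH K M φ ^ n).symm ((actH K M φ ^ n) ρ) = ρ
    exact Equiv.symm_apply_apply _ _

private theorem SSLh_N {H P : Type*} [Fintype H] [Fintype P] (T : Matrix H H (ZMod 2)) (π : H → P)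
    (r : P → H) : ∃ N : Matrix P P ℤ, N.map (Int.cast : ℤ → ZMod 2) = qm T π r ∧
      ∀ (f : P → ℝ) (p : P), (N.map (Int.cast : ℤ → ℝ)).mulVec f p =
        ∑ ρ, ((T (r p) ρ).val : ℝ) * f (π ρ) := by
  refine ⟨fun p p' => ∑ ρ ∈ Finset.univ.filter (fun ρ => π ρ = p'),
    ((T (r p) ρ).val : ℤ), ?_, ?_⟩
  · funext p p'
    show (((∑ ρ ∈ Finset.univ.filter (fun ρ => π ρ = p'), ((T (r p) ρ).val : ℤ)) : ℤ) : ZMod 2) = _
    rw [Int.cast_sum]
    unfold qm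
    refine Finset.sum_congr rfl fun ρ _ => ?_
    rw [Int.cast_natCast, ZMod.natCast_zmod_val]
  · intro f p
    show ∑ p', (((∑ ρ ∈ Finset.univ.filter (fun ρ => π ρ = p'), ((T (r p) ρ).val : ℤ)) : ℤ) : ℝ) *
      f p' = _
    rw [← Finset.sum_fiberwise Finset.univ π]
    refine Finset.sum_congr rfl fun p' _ => ?_
    rw [Int.cast_sum, Finset.sum_mul]
    refine Finset.sum_congr rfl fun ρ hρ => ?_
    rw [(Finset.mem_filter.mp hρ).2, Int.cast_natCast]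

private theorem SSLh_ell (hL : BigL K M) {Q : Finset ℕ} (hQ : ∀ q ∈ Q, q.Prime)
    (hu : ∀ q ∈ Q, UnM M q) (ht : Inv t) {x : K} (hx : x ≠ 0) (a : (K →ₐ[ℚ] M) × Option Q) :
    ∑ ρ, ((blk (Option Q) t a ρ).val : ℝ) * ell K (TQ K Q) x (ppi hQ ρ) =
      ell K (TQ K Q) (hkm hL (inv_vl ht) x) (ppi hQ a) := by
  obtain ⟨σ, i⟩ := a
  have h1 : ∑ ρ, ((blk (Option Q) t (σ, i) ρ).val : ℝ) * ell K (TQ K Q) x (ppi hQ ρ) =
      ∑ ρ, ((t σ ρ).val : ℝ) * ell K (TQ K Q) x (ppi hQ (ρ, i)) :=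
    SSLh_sum (fun ρ e => (e.val : ℝ) * ell K (TQ K Q) x (ppi hQ (ρ, i))) σ i
      (fun ρ e => (e.val : ℝ) * ell K (TQ K Q) x (ppi hQ ρ)) (fun ρ e => rfl)
      (fun ρ => by rw [ZMod.val_zero, Nat.cast_zero, zero_mul])
  rw [h1]
  rcases i with _ | q
  · rw [SSLh_none, ell_inl, log_hkm hL (inv_vl ht) σ hx]
    refine Finset.sum_congr rfl fun ρ _ => ?_
    rw [SSLh_none, ell_inl]
    rfl
  · rw [SSLh_some, ell_inr, ord_hkm hL (hQ q q.2) (hu q q.2) (inv_vl ht) σ hx, Int.cast_sum]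
    refine Finset.sum_congr rfl fun ρ _ => ?_
    rw [SSLh_some, ell_inr, Int.cast_mul]
    rfl

theorem exists_N (hL : BigL K M) {Q : Finset ℕ} (hQ : ∀ q ∈ Q, q.Prime) (hu : ∀ q ∈ Q, UnM M q)
    (ht : Pr t) : ∃ N : Matrix (InfinitePlace K ⊕ TQ K Q) (InfinitePlace K ⊕ TQ K Q) ℤ,
      N.map (Int.cast : ℤ → ZMod 2) * N.map (Int.cast : ℤ → ZMod 2) =
        N.map (Int.cast : ℤ → ZMod 2) ∧
      2 ^ (N.map (Int.cast : ℤ → ZMod 2)).rank = fb t (pinf K M) * ∏ q ∈ Q, fb t (pq K M q) ∧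
      ∀ x : K, x ≠ 0 → (N.map (Int.cast : ℤ → ℝ)).mulVec (ell K (TQ K Q) x) =
        ell K (TQ K Q) (hkm hL (inv_vl ht.inv) x) := by
  have hsurj : ∀ p : InfinitePlace K ⊕ TQ K Q, ∃ a : (K →ₐ[ℚ] M) × Option Q, ppi hQ a = p := by
    intro p
    rcases p with w | v
    · obtain ⟨σ, hσ⟩ := pinf_surj (M := M) hL w
      exact ⟨(σ, none), by rw [SSLh_none, hσ]⟩
    · obtain ⟨v, hv⟩ := v
      have hq : rp v ∈ Q := (mem_TQ hQ).1 hv
      obtain ⟨σ, hσ⟩ := pq_surj (M := M) hL (hQ _ hq) (v := v) rfl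
      refine ⟨(σ, some ⟨rp v, hq⟩), ?_⟩
      rw [SSLh_some]
      exact congrArg Sum.inr (Subtype.ext hσ)
  choose r hr using hsurj
  obtain ⟨N, hN, hNr⟩ := SSLh_N (blk (Option Q) t) (ppi hQ) r
  obtain ⟨h1, h2⟩ := qm_fix (blk_idem (J := Option Q) ht.idem) hr
    (fun a b p h => SSLh_hcP ht.inv (ppi hQ) (SSLh_key hL hQ hu) a b p h)
  refine ⟨N, ?_, ?_, ?_⟩
  · rw [hN, h1]
  · rw [hN, h2, ppi_fb hQ]
  · intro x hx
    funext p
    rw [hNr, SSLh_ell hL hQ hu ht.inv hx (r p), hr]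

end H88D8.SS
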