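import Pool.Agent.H88.SS.Ra
import Pool.Agent.H88.T7.Ad

/-!
ROW Rb (project MP_78d38b_SS, about 110 lines): the Hecke operators preserve the classes of even order above a prime.

PROOF. Let `q` be a prime (if `q` is not a prime there is no `v` with `rp v = q`: `H38T1.rp_prime`). Choose `x₀ ≠ 0` with `c = sc x₀` (`sc_surj`). The orders of `x₀` at the places `v` above `q` are even (`H38T1.eo_sc`). unit_rep: there is `z ≠ 0` in `K` with
`2 * ord_v z = ord_v x₀` for all `v` above `q`: there are finitely many such places (`H38T1.fin_ov`), for each of them there is `y_v ∈ K` with `ord_v y_v = 1` and `ord_{v'} y_v = 0` for the other places `v'` above `q` (Chinese remainder theorem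
`IsDedekindDomain.exists_forall_sub_mem_ideal`: an element of `v.asIdeal` not in `v.asIdeal ^ 2` and congruent to one modulo the other `v'`; see similar constructions with valuations in `Pool/Agent/H88/T8/Ac.lean`, `Pool/Agent/H88/T7/Ae.lean`, or
search the repo for `exists_forall_sub_mem_ideal`); `z = ∏ y_v ^ (ord_v x₀ / 2)`. Then `x = x₀ / z^2` has valuation one at all `v` above `q` and `sc x = c`. Now `val_hk_one` (row Ra): `hkm x` has valuation one above `q`, and
`hk hL ht c = sc (hkm hL (inv_vl ht) x)` (`hk_sc`), so `eo v = 0` (`H38T1.eo_sc`, `ord = 0`).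
-/

set_option autoImplicit false
set_option linter.unusedSectionVars false
open scoped Classical

open WithZero NumberField IsDedekindDomain H38RT H88T7 H88T8 H90T8
open H38T1 (SC sc scu scu_surj sc_mul sc_of_ne sc_surj rep rep_ne sc_rep sc_eq_zero eo la si Pri tp OddP
  LD XX XX' NS ov rp SqMod)

namespace H88D8.SS

variable {K M : Type} [Field K] [NumberField K] [Field M] [NumberField M]

variable {t : Matrix (K →ₐ[ℚ] M) (K →ₐ[ℚ] M) (ZMod 2)}

theorem unit_rep {q : ℕ} {c : SC K} (hc : ∀ v : HeightOneSpectrum (𝓞 K), rp v = q → eo v c = 0) :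
    ∃ x : K, x ≠ 0 ∧ sc x = c ∧ ∀ v : HeightOneSpectrum (𝓞 K), rp v = q → v.valuation K x = 1 := by
  by_cases hq : q.Prime
  · have hp : ∀ q' ∈ ({q} : Set ℕ), q'.Prime := fun q' h => by
      rw [Set.mem_singleton_iff.1 h]
      exact hq
    obtain ⟨x, hx, hxc, hxv⟩ := approx_unit (H38T1.fin_ov (K := K) (Set.finite_singleton q) hp) c
      (fun v hv => hc v ((H38T1.mem_ov hp).1 hv))
    exact ⟨x, hx, hxc, fun v hv => hxv v ((H38T1.mem_ov hp).2 hv)⟩
  · obtain ⟨x, hx, hxc⟩ := sc_surj c
    refine ⟨x, hx, hxc, fun v hv => absurd ?_ hq⟩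
    rw [← hv]
    exact H38T1.rp_prime v

theorem eo_hk_zero (hL : BigL K M) {q : ℕ} (ht : Inv t) {c : SC K}
    (hc : ∀ v : HeightOneSpectrum (𝓞 K), rp v = q → eo v c = 0) :
    ∀ v : HeightOneSpectrum (𝓞 K), rp v = q → eo v (hk hL ht c) = 0 := by
  obtain ⟨x, hx, hxc, hxv⟩ := unit_rep hc
  intro v hv
  have h1 := val_hk_one hL (inv_vl ht) hxv v hv
  have h2 : hkm hL (inv_vl ht) x ≠ 0 := by
    intro h0
    rw [h0, map_zero] at h1
    exact zero_ne_one h1
  rw [← hxc, hk_sc hL ht hx, H38T1.eo_sc h2]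
  unfold ord
  rw [h1, log_one, neg_zero, Int.cast_zero]

end H88D8.SS
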