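import Pool.Agent.H88.SS.Lb
import Pool.Agent.H88.SS.Lc
import Pool.Agent.H88.SS.Ld
import Pool.Agent.H88.SS.Le
import Pool.Agent.H88.SS.Lf
import Pool.Agent.H88.SS.Lg
import Pool.Agent.H88.SS.Lh
import Pool.Agent.H88.SS.Hb
import Pool.Agent.H88.SS.Rb

/-!
ROW Li (project MP_78d38b_SS, about 150 lines): the lower bound for the classes of even order outside `Q`.

PROOF. `T = TQ K Q`, `Λ = Lat K T`, `N` from `exists_N` (row Lh). Apply `lat_count` (row Lb) with `b` from `ell_basis` (row Ld; `p`, `h` from `exists_pv`, row Lc; `hT`: `rp v ∈ Q`, `2 ∉ Q`), `hΛ` from `ell_mult` (row Le), `S` = the set in the statement (finite: contained in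
`{c | ∀ v, v ∉ ov K Q → eo v c = 0}`, finite by `H38T1.fin_US`/`H24TD.fin_US` as in `P0_fin` in `H88/D8/P0.lean`), `γ v = if h : v ∈ Λ then hk (sc (chosen y ∈ Gam with ell y = v)) else 0`.
`hst`: `N (ell y) = ell (hkm y)`, `gam_hkm` (row Lg). `hid`: for `e = vl t`: `e * e = e + 2 • E` with `E = (e * e - e) / 2` entrywise: the entries of `e * e` are congruent to those of `e` modulo two (`t * t = t`) and at least those of `e` (`e` has entries 0, 1, and an odd number is at least one); `E` is invariant.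
`hkm (hkm y) = hkm_{e * e} y = hkm y * (hkm_E y)^2` (`hkm_mul`, `hkm_add`; row Ha), so `N (N (ell y)) = ell (hkm y) + 2 • ell (hkm_E y)`, `hkm_E y ∈ Gam` (`gam_hkm`). `hγS`: `y * 2 ^ k = u` of valuation one outside `T`: `hk (sc y) = hk (sc u)` because `hk (sc 2) = 0` (`hk_res`, row Hb: `sc (2 : K) = res K (sc 2)`;
`sc (2 ^ k) = k • sc 2`), `eo v (sc u) = 0` for `rp v ∉ Q` (`H38T1.eo_sc`), so `eo v (hk (sc u)) = 0` for these `v` (`eo_hk_zero`, row Rb), and `hk (hk c) = hk c` (`hk_idem`). `hγ`: if `hk (sc x) = hk (sc y)` then `sc (hkm x) = sc (hkm y)` (`hk_sc`), so `hkm x / hkm y = z ^ 2` (`sc_mul`, `sc_eq_zero`, `c + c = 0`), `z ∈ Gam` by `gam_sq`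
(row Lf), and `N (ell x) - N (ell y) = ell (z ^ 2) = 2 • ell z`. (`ell_zero` is not needed.)
-/

set_option autoImplicit false
set_option linter.unusedSectionVars false
open scoped Classical

open WithZero NumberField IsDedekindDomain H38RT H88T7 H88T8 H90T8
open H38T1 (SC sc scu scu_surj sc_mul sc_of_ne sc_surj rep rep_ne sc_rep sc_eq_zero eo la si Pri tp OddP
  LD XX XX' NS ov rp SqMod)

namespace H88D8.SS

variable {K M : Type} [Field K] [NumberField K] [Field M] [NumberField M]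

variable {t : Matrix (K →ₐ[ℚ] M) (K →ₐ[ℚ] M) (ZMod 2)}

theorem Li_S {Q : Finset ℕ} (hQ : ∀ q ∈ Q, q.Prime) :
    {c : SC K | ∀ v, rp v ∉ Q → eo v c = 0}.Finite := by
  refine (H38T1.fin_US (K := K) (S := ov K (Q : Set ℕ)) (H38T1.fin_ov Q.finite_toSet hQ)).subset ?_
  intro c hc v hv
  refine hc v (fun h => hv ?_)
  rw [H38T1.mem_ov hQ]
  exact Finset.mem_coe.2 h

/-- the class attached to a vector of the lattice -/
noncomputable def Li_g (hL : BigL K M) (ht : Pr t) (T : Finset (HeightOneSpectrum (𝓞 K)))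
    (v : InfinitePlace K ⊕ T → ℝ) : SC K :=
  if h : v ∈ Lat K T then hk hL ht.inv (sc (mem_Lat.1 h).choose) else 0

theorem Li_g_spec (hL : BigL K M) (ht : Pr t) {T : Finset (HeightOneSpectrum (𝓞 K))}
    {v : InfinitePlace K ⊕ T → ℝ} (h : v ∈ Lat K T) :
    ∃ x ∈ Gam K T, ell K T x = v ∧ Li_g hL ht T v = hk hL ht.inv (sc x) := by
  refine ⟨(mem_Lat.1 h).choose, (mem_Lat.1 h).choose_spec.1, (mem_Lat.1 h).choose_spec.2, ?_⟩
  unfold Li_g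
  rw [dif_pos h]

theorem Li_two (k : ℤ) : ∃ r : SC ℚ, sc ((2 : K) ^ k) = res K r := by
  refine ⟨sc ((2 : ℚ) ^ k), ?_⟩
  rw [res_sc (zpow_ne_zero _ two_ne_zero), map_zpow₀, map_ofNat]

theorem Li_hk (hL : BigL K M) {Q : Finset ℕ} (hQ : ∀ q ∈ Q, q.Prime) (ht : Pr t) {x : K}
    (hx : x ∈ Gam K (TQ K Q)) :
    (∀ v, rp v ∉ Q → eo v (hk hL ht.inv (sc x)) = 0) ∧
      hk hL ht.inv (hk hL ht.inv (sc x)) = hk hL ht.inv (sc x) := by
  refine ⟨?_, hk_idem hL ht _⟩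
  obtain ⟨hx0, k, hk1⟩ := hx
  have h2 : ((2 : K) ^ k) ≠ 0 := zpow_ne_zero _ two_ne_zero
  obtain ⟨r, hr⟩ := Li_two (K := K) k
  have h3 : hk hL ht.inv (sc x) = hk hL ht.inv (sc (x * 2 ^ k)) := by
    rw [sc_mul hx0 h2, map_add, hr, hk_res hL ht, add_zero]
  intro v hv
  rw [h3]
  refine eo_hk_zero hL (q := rp v) ht.inv (fun v' hv' => ?_) v rfl
  have h4 : v' ∉ TQ K Q := by
    rw [mem_TQ hQ, hv']
    exact hv
  have h5 := hk1 v' h4
  rw [H38T1.eo_sc (mul_ne_zero hx0 h2)]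
  unfold ord
  rw [h5, log_one, neg_zero, Int.cast_zero]

theorem Li_sq (hodd : Odd (Module.finrank ℚ K)) {T : Finset (HeightOneSpectrum (𝓞 K))}
    (hT : ∀ v ∈ T, rp v ≠ 2) {a b : K} (ha : a ∈ Gam K T) (hb : b ∈ Gam K T) (h : sc a = sc b) :
    ∃ z ∈ Lat K T, ell K T a - ell K T b = (2 : ℤ) • z := by
  have h1 : sc (a * b) = 0 := by
    rw [sc_mul ha.1 hb.1, h, ← two_nsmul]
    exact H38T1.SC.two_smul _
  obtain ⟨w, hw⟩ := (sc_eq_zero (mul_ne_zero ha.1 hb.1)).1 h1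
  have hw0 : w ≠ 0 := by
    intro h0
    rw [h0, mul_zero] at hw
    exact mul_ne_zero ha.1 hb.1 hw
  have hz0 : w * b⁻¹ ≠ 0 := mul_ne_zero hw0 (inv_ne_zero hb.1)
  have h2 : (w * b⁻¹) ^ 2 = a * b⁻¹ := by
    have hb0 := hb.1
    rw [mul_pow, sq w, ← hw]
    field_simp
  have h3 : w * b⁻¹ ∈ Gam K T := by
    refine gam_sq hodd hT hz0 ?_
    rw [h2]
    exact gam_mul ha (gam_inv hb)
  refine ⟨ell K T (w * b⁻¹), mem_Lat.2 ⟨_, h3, rfl⟩, ?_⟩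
  have h4 : ell K T ((w * b⁻¹) ^ 2) = ell K T (w * b⁻¹) + ell K T (w * b⁻¹) := by
    rw [sq, ell_mul hz0 hz0]
  rw [two_zsmul, ← h4, h2, ell_mul ha.1 (inv_ne_zero hb.1), ell_inv hb.1, sub_eq_add_neg]

theorem Li_E (hL : BigL K M) (ht : Pr t) :
    ∃ (E : Matrix (K →ₐ[ℚ] M) (K →ₐ[ℚ] M) ℕ) (hE : Inv E), ∀ x : K,
      hkm hL (inv_vl ht.inv) (hkm hL (inv_vl ht.inv) x) =
        hkm hL (inv_vl ht.inv) x * (hkm hL hE x) ^ 2 := by
  obtain ⟨E, hEd⟩ : ∃ E : Matrix (K →ₐ[ℚ] M) (K →ₐ[ℚ] M) ℕ,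
      ∀ σ τ, E σ τ = ((vl t * vl t) σ τ - vl t σ τ) / 2 :=
    ⟨fun σ τ => ((vl t * vl t) σ τ - vl t σ τ) / 2, fun _ _ => rfl⟩
  have he : Inv (vl t) := inv_vl ht.inv
  have hee : Inv (vl t * vl t) := inv_mulN he he
  have hE : Inv E := by
    intro g σ τ
    rw [hEd, hEd, he g σ τ, hee g σ τ]
  have key : ∀ σ τ, (vl t * vl t) σ τ = vl t σ τ + 2 * E σ τ := by
    intro σ τ
    have h1 : (((vl t * vl t) σ τ : ℕ) : ZMod 2) = ((vl t σ τ : ℕ) : ZMod 2) := by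
      have h2 : ((vl t σ τ : ℕ) : ZMod 2) = t σ τ := ZMod.natCast_zmod_val (t σ τ)
      rw [h2, Matrix.mul_apply, Nat.cast_sum]
      have h3 : ∑ ρ, ((vl t σ ρ * vl t ρ τ : ℕ) : ZMod 2) = (t * t) σ τ := by
        rw [Matrix.mul_apply]
        refine Finset.sum_congr rfl fun ρ _ => ?_
        rw [Nat.cast_mul]
        congr 1
        · exact ZMod.natCast_zmod_val (t σ ρ)
        · exact ZMod.natCast_zmod_val (t ρ τ)
      rw [h3, ht.idem]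
    have h4 : vl t σ τ < 2 := ZMod.val_lt (t σ τ)
    have h5 : (vl t * vl t) σ τ % 2 = vl t σ τ % 2 := (ZMod.natCast_eq_natCast_iff' _ _ 2).1 h1
    rw [hEd]
    omega
  refine ⟨E, hE, fun x => ?_⟩
  rw [← hkm_mul hL he he x]
  refine emb_inj hL fun σ => ?_
  rw [hkm_spec, map_mul, map_pow, hkm_spec, hkm_spec, ← Finset.prod_pow, ← Finset.prod_mul_distrib]
  refine Finset.prod_congr rfl fun τ _ => ?_
  rw [key σ τ, pow_add, mul_comm 2, pow_mul]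

theorem low_U (hodd : Odd (Module.finrank ℚ K)) (hL : BigL K M) {Q : Finset ℕ}
    (hQ : ∀ q ∈ Q, q.Prime) (h2 : 2 ∉ Q) (hu : ∀ q ∈ Q, UnM M q) (ht : Pr t) :
    fb t (pinf K M) * ∏ q ∈ Q, fb t (pq K M q) ≤
      {c : SC K | (∀ v, rp v ∉ Q → eo v c = 0) ∧ hk hL ht.inv c = c}.ncard := by
  obtain ⟨N, hN1, hN2, hN3⟩ := exists_N hL hQ hu ht
  have hT : ∀ v ∈ TQ K Q, rp v ≠ 2 := by
    intro v hv h
    rw [mem_TQ hQ, h] at hv
    exact h2 hv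
  obtain ⟨h, hh, p, hp⟩ := exists_pv K
  obtain ⟨b, hb1, hb2, hb3, hb4⟩ := ell_basis hT hh hp
  have hΛ := ell_mult hp hb2 hb3 hb4
  have he : Inv (vl t) := inv_vl ht.inv
  obtain ⟨E, hE, hEs⟩ := Li_E hL ht
  rw [← hN2]
  refine lat_count N hN1 (Lat K (TQ K Q)) b hb1 hh hΛ ?_ ?_
    ((Li_S hQ).subset fun c hc => hc.1) (Li_g hL ht (TQ K Q)) ?_ ?_
  · intro v hv
    obtain ⟨x, hx, rfl⟩ := mem_Lat.1 hv
    rw [hN3 x hx.1]
    exact mem_Lat.2 ⟨_, gam_hkm hL hQ he hx, rfl⟩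
  · intro v hv
    obtain ⟨x, hx, rfl⟩ := mem_Lat.1 hv
    have h3 := gam_hkm hL hQ he hx
    have h4 := gam_hkm hL hQ hE hx
    refine ⟨ell K (TQ K Q) (hkm hL hE x), mem_Lat.2 ⟨_, h4, rfl⟩, ?_⟩
    rw [hN3 x hx.1, hN3 _ h3.1, hEs x, ell_mul h3.1 (pow_ne_zero 2 h4.1), sq, ell_mul h4.1 h4.1,
      two_zsmul]
  · intro v hv
    obtain ⟨x, hx, _, h3⟩ := Li_g_spec hL ht hv
    rw [h3]
    exact Li_hk hL hQ ht hx
  · intro v hv w hw hvw
    obtain ⟨x, hx, hxv, h3⟩ := Li_g_spec hL ht hv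
    obtain ⟨y, hy, hyw, h4⟩ := Li_g_spec hL ht hw
    rw [h3, h4, hk_sc hL ht.inv hx.1, hk_sc hL ht.inv hy.1] at hvw
    rw [← hxv, ← hyw, hN3 x hx.1, hN3 y hy.1]
    exact Li_sq hodd hT (gam_hkm hL hQ he hx) (gam_hkm hL hQ he hy) hvw

end H88D8.SS
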