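import Pool.Agent.H88.SS.Rb
import Pool.Agent.H88.SS.Rd
import Pool.Agent.H88.SS.Re
import Pool.Agent.H88.D8.Ma
import Pool.Agent.H88.D8.Ah

/-!
ROW Rf (project MP_78d38b_SS, about 130 lines): the first Selmer group is stable under the Hecke operators.

PROOF. `L8 K a β Qa Qb Pp Pp'`: `Sg = ov K (Q0 a β Qa Qb)`, `P = ov K (Qa ∪ Pp)`, `P' = ov K (Qb ∪ Pp')`: all conditions depend only on `q = rp v` (`H38T1.mem_ov`; the primes are primes: `Ah8_pr0`, `Ah8_pr`, `Ah8_pr'` in `D8/Ah.lean`). All primes in these sets are outside `B`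
(`hD.co`, `hD.pa`, `hD.pb`, `hS.nB`), odd (`hD.two`, `Ah8_ne_two`), and `M` is unramified there (`hD.unM`). (1) `v ∉ Sg`, `v ∉ P'`: then all `v'` with `rp v' = rp v` are outside too, so `eo v' c = 0`, and `eo_hk_zero` (row Rb).
(2) `v ∈ Sg`, `q = rp v ∈ Q0`: `g8 K a β v' = sc (b : K)` for all `v'` above `q`, with the integer `b = -β` if `q ∣ β`, else `b = a^2 - 64 β`; `q` divides `b` exactly once (`hD.sqf`; see `Ag_dvd`, `Ag_g8` in `D8/Ag.lean`, `Ah8_gen` in `D8/Ah.lean`): `tp_hk_zero` (row Rd).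
(3) `v ∈ P`, `q = rp v ∈ Qa ∪ Pp`: the places above `q` are not in `Sg`, `P'` (disjointness: `(good8 hD.toDat8 hS).d1`, `.d3`), so `eo v' c = 0` and `tp v' c (sc (q : ℤ)) = la v' c = 0` (`tp_even`) for all `v'` above `q`; `tp_hk_zero` with `b = q`, and `eo v (hk c) = 0` by (1), so `la v (hk c) = tp v (hk c) (sc q) = 0`.
(4) `si_iff`, `sr_hk`: `sr σ (hk c) = ∑ t σ τ * sr τ c = 0` for real `σ`, and `sr σ = 0` for the others.
la_hk_tot: `f = Pi.single (pq K M p σ) 1`: `∑ᶠ v ∈ ov K {p}, f v * tp v (hk c) (sc p) = tp (pq σ) (hk c) (sc p) = la (pq σ) (hk c)` (`tp_even`, `eo_hk_zero`); `pq K M p` is injective (`pq_inj_tot`) with image `ov K {p}`; `f' (pq τ) = t σ τ` (`exists_adj`), and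
`∑ᶠ v, f' v * la v c = ∑ τ, t σ τ * la (pq τ) c` (`tp_hk` for `b = p`; `¬ p * p ∣ p`).
-/

set_option autoImplicit false
set_option linter.unusedSectionVars false
open scoped Classical

open WithZero NumberField IsDedekindDomain H38RT H88T7 H88T8 H90T8
open H38T1 (SC sc scu scu_surj sc_mul sc_of_ne sc_surj rep rep_ne sc_rep sc_eq_zero eo la si Pri tp OddP
  LD XX XX' NS ov rp SqMod)

namespace H88D8.SS

variable {K M : Type} [Field K] [NumberField K] [Field M] [NumberField M]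

variable {B : Finset ℕ} {a β : ℤ} {Qa Qb Pp Pp' : Finset ℕ}
  {t : Matrix (K →ₐ[ℚ] M) (K →ₐ[ℚ] M) (ZMod 2)}

theorem Rf_mem {Q : Set ℕ} (hp : ∀ q ∈ Q, q.Prime) {v v' : HeightOneSpectrum (𝓞 K)} (h : rp v' = rp v) :
    v' ∈ ov K Q ↔ v ∈ ov K Q := by
  rw [H38T1.mem_ov hp, H38T1.mem_ov hp, h]

theorem Rf_nsq {q : ℕ} (hq : q.Prime) {m : ℤ} (hs : Squarefree m) : ¬ (q : ℤ) * q ∣ m := fun h =>
  (Nat.prime_iff_prime_int.1 hq).not_isUnit (hs _ h)

theorem Rf_nsq' {q : ℕ} (hq : q.Prime) : ¬ (q : ℤ) * q ∣ (q : ℤ) :=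
  Rf_nsq hq (Nat.prime_iff_prime_int.1 hq).irreducible.squarefree

theorem hk_XX (hL : BigL K M) (hD : DatS K M B a β Qa Qb) (hS : St8 K B a β Pp Pp') (ht : Inv t)
    {c : SC K} (hc : c ∈ XX (L8 K a β Qa Qb Pp Pp')) :
    hk hL ht c ∈ XX (L8 K a β Qa Qb Pp Pp') := by
  have hD8 := hD.toDat8
  have hG := good8 hD8 hS
  obtain ⟨h1, h2, h3, h4⟩ := hc
  have hp0 := Ah8_pr0 (a := a) (β := β) (Qa := Qa) (Qb := Qb)
  have hpP := Ah8_pr hD8 hS
  have hpP' := Ah8_pr' hD8 hS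
  have key1 : ∀ v : HeightOneSpectrum (𝓞 K), v ∉ (L8 K a β Qa Qb Pp Pp').Sg →
      v ∉ (L8 K a β Qa Qb Pp Pp').P' → eo v (hk hL ht c) = 0 := by
    intro v hv hv'
    refine eo_hk_zero hL (q := rp v) ht (c := c) (fun v' hv2 => h1 v' ?_ ?_) v rfl
    · intro h
      exact hv ((Rf_mem hp0 hv2).1 h)
    · intro h
      exact hv' ((Rf_mem hpP' hv2).1 h)
  refine ⟨key1, ?_, ?_, ?_⟩
  · intro v hv
    obtain ⟨hr2, -, -, -, -⟩ := Ah8_S hD8 hv
    have hq : (rp v).Prime := H38T1.rp_prime v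
    have hd : ((rp v : ℕ) : ℤ) ∣ β * (a ^ 2 - 64 * β) := ((H38T1.mem_ov hp0).1 hv).1.2
    have hu : UnM M (rp v) := hD.unM _ hq (hD8.co _ hq hd)
    change tp v (hk hL ht c) (g8 K a β v) = 0
    by_cases hb : ((rp v : ℕ) : ℤ) ∣ β
    · have hg : ∀ v' : HeightOneSpectrum (𝓞 K), rp v' = rp v → g8 K a β v' = sc ((-β : ℤ) : K) := by
        intro v' hv'
        unfold g8
        rw [hv', if_pos hb]
      rw [hg v rfl]
      refine tp_hk_zero hL hq hr2 hu (b := -β) ((dvd_neg).2 hb) ?_ ht (c := c) ?_ v rfl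
      · intro h
        exact Rf_nsq hq (Ah8_sb hD8) ((dvd_neg).1 h)
      · intro v' hv'
        have h5 : tp v' c (g8 K a β v') = 0 := h2 v' ((Rf_mem hp0 hv').2 hv)
        rwa [hg v' hv'] at h5
    · have hg : ∀ v' : HeightOneSpectrum (𝓞 K), rp v' = rp v →
          g8 K a β v' = sc ((a ^ 2 - 64 * β : ℤ) : K) := by
        intro v' hv'
        unfold g8
        rw [hv', if_neg hb]
      rw [hg v rfl]
      refine tp_hk_zero hL hq hr2 hu (b := a ^ 2 - 64 * β)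
        (((Nat.prime_iff_prime_int.1 hq).dvd_or_dvd hd).resolve_left hb) ?_ ht (c := c) ?_ v rfl
      · exact Rf_nsq hq (Ah8_sd hD8)
      · intro v' hv'
        have h5 : tp v' c (g8 K a β v') = 0 := h2 v' ((Rf_mem hp0 hv').2 hv)
        rwa [hg v' hv'] at h5
  · intro v hv
    obtain ⟨hr2, -, -⟩ := Ah8_P hD8 hS hv
    have hq : (rp v).Prime := H38T1.rp_prime v
    have hu : UnM M (rp v) := by
      refine hD.unM _ hq ?_
      rcases (H38T1.mem_ov hpP).1 hv with h | h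
      · exact hD8.co _ hq (Dvd.dvd.mul_left (hD8.pa _ (Finset.mem_coe.1 h)).2 β)
      · exact hS.nB _ (Finset.mem_union_left _ (Finset.mem_coe.1 h))
    have hout : ∀ v' : HeightOneSpectrum (𝓞 K), rp v' = rp v →
        v' ∉ (L8 K a β Qa Qb Pp Pp').Sg ∧ v' ∉ (L8 K a β Qa Qb Pp Pp').P' := by
      intro v' hv'
      have h5 : v' ∈ (L8 K a β Qa Qb Pp Pp').P := (Rf_mem hpP hv').2 hv
      exact ⟨fun h => Set.disjoint_left.1 hG.d1 h h5, fun h => Set.disjoint_left.1 hG.d3 h5 h⟩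
    have hz : ∀ v' : HeightOneSpectrum (𝓞 K), rp v' = rp v →
        tp v' c (sc (((rp v : ℕ) : ℤ) : K)) = 0 := by
      intro v' hv'
      rw [tp_even hL hq hu hv' (h1 v' (hout v' hv').1 (hout v' hv').2)]
      exact h3 v' ((Rf_mem hpP hv').2 hv)
    have h5 := tp_hk_zero hL hq hr2 hu (b := ((rp v : ℕ) : ℤ)) dvd_rfl (Rf_nsq' hq) ht hz v rfl
    rwa [tp_even hL hq hu rfl (key1 v (hout v rfl).1 (hout v rfl).2)] at h5
  · intro hτ
    rw [si_iff hL]
    have h5 := (si_iff hL c).1 (h4 hτ)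
    intro σ
    by_cases hσ : RealE σ
    · rw [sr_hk hL ht hσ c]
      refine Finset.sum_eq_zero fun τ _ => ?_
      rw [h5 τ, mul_zero]
    · unfold sr
      rw [dif_neg hσ]

theorem la_hk_tot (hL : BigL K M) {p : ℕ} (hp : Tot K p) (hu : UnM M p) (ht : Inv t) {c : SC K}
    (hc : ∀ v : HeightOneSpectrum (𝓞 K), rp v = p → eo v c = 0) (σ : K →ₐ[ℚ] M) :
    la (pq K M p σ) (hk hL ht c) = ∑ τ, t σ τ * la (pq K M p τ) c := by
  have hpp : p.Prime := hp.1
  have hinj := pq_inj_tot hL hp hu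
  have hran : ov K {p} = Set.range (pq K M p) := by
    ext v
    constructor
    · intro hv
      have h1 := (H38T1.mem_ov (K := K) (v := v) (Q := {p}) (fun q hq => by
        rw [Set.mem_singleton_iff.1 hq]
        exact hpp)).1 hv
      obtain ⟨τ, hτ⟩ := pq_surj hL hpp (Set.mem_singleton_iff.1 h1)
      exact ⟨τ, hτ⟩
    · rintro ⟨τ, rfl⟩
      exact pq_mem hpp τ
  obtain ⟨f', hf'⟩ := exists_adj hL hpp hu ht
    (fun v : HeightOneSpectrum (𝓞 K) => if v = pq K M p σ then (1 : ZMod 2) else 0)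
  have hf2 : ∀ τ, f' (pq K M p τ) = t σ τ := by
    intro τ
    rw [hf', Finset.sum_eq_single σ]
    · rw [if_pos rfl, mul_one]
    · intro ρ _ hρ
      rw [if_neg (fun h => hρ (hinj h)), mul_zero]
    · intro h
      exact absurd (Finset.mem_univ σ) h
  have h1 := tp_hk hL hpp hp.2.1 hu (b := (p : ℤ)) dvd_rfl (Rf_nsq' hpp) ht c
    (f := fun v : HeightOneSpectrum (𝓞 K) => if v = pq K M p σ then (1 : ZMod 2) else 0) (f' := f') hf'
  rw [hran, finsum_mem_range hinj, finsum_mem_range hinj, finsum_eq_sum_of_fintype,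
    finsum_eq_sum_of_fintype, Finset.sum_eq_single σ] at h1
  · rw [if_pos rfl, one_mul, tp_even hL hpp hu (rp_pq hpp σ) (eo_hk_zero hL ht hc _ (rp_pq hpp σ))] at h1
    rw [h1]
    refine Finset.sum_congr rfl fun τ _ => ?_
    rw [hf2, tp_even hL hpp hu (rp_pq hpp τ) (hc _ (rp_pq hpp τ))]
  · intro ρ _ hρ
    rw [if_neg (fun h => hρ (hinj h)), zero_mul]
  · intro h
    exact absurd (Finset.mem_univ σ) h

end H88D8.SS
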