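import Pool.Agent.H88.SS.Ba
import Pool.Agent.H88.SS.Bb
import Pool.Agent.H88.SS.Li
import Pool.Agent.H88.SS.Rf

/-!
ROW Bc (project MP_78d38b_SS, about 150 lines): the lower bound for the parts of the first Selmer group.

PROOF. `Q0f = (β * (a^2 - 64 β)).natAbs.primeFactors \ (Qa ∪ Qb)` (as a finite set it is `Q0 a β Qa Qb`), `Q = Q0f ∪ Qb ∪ Pp'`, a disjoint union (`Qb` divides `β`; `hS.ndvd`); all primes in `Q ∪ Qa` are odd, outside `B`, and `M` is unramified there (as in row Rf); `Qa` is disjoint from `Q` (`Qa` divides `a^2 - 64 β`, `Qb`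
divides `β`, which are coprime away from two: `hD.cop`, `Ah8_cop`; `hS.ndvd`). `A = {c | (∀ v, rp v ∉ Q → eo v c = 0) ∧ hk c = c}` is a finite subgroup (`H38T1.eo_add`, `map_add`; finite as in row Li). `low_U` (row Li): `fb ∞ * ∏_{Q0f} fb * ∏_{Qb} fb * ∏_{Pp'} fb ≤ |A|`, and `fb t (pq K M p) = 2 ^ t.rank` for
`p ∈ Pp'` (`fb_inj`, `pq_inj_tot`, `hS.tot`). `idx_tps` (row Ba) for `Q0f ∪ Qa` and `b q = if q ∈ Qa then q else if (q : ℤ) ∣ β then -β else a^2 - 64 β` (exactly divisible: `hD.sqf`): `|A| ≤ ∏_{Q0f} fb * ∏_{Qa} fb * |A'|`; `idx_si` (row Bb): `|A'| * 2 ^ rank ≤ fb ∞ ^ 2 * |A''|`, and `A''` is the set in the statement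
(for `q ∈ Qa` the classes are even and `tp_even`; `g8 K a β v = sc (b (rp v))` for `v ∈ Sg`; `τ = false`; `L8`: `P = ov K (Qa ∪ ∅)`, `P' = ov K (Qb ∪ Pp')`; `H38T1.mem_ov`; it suffices that `A''` is contained in it). With `hD.balT t ht`: `∏_{Qb} fb * 2^rank = fb ∞ * ∏_{Qa} fb`. So
`fb ∞ * ∏_{Q0f} * ∏_{Qb} * 2^(rank * m) * 2^rank ≤ ∏_{Q0f} * ∏_{Qa} * fb ∞ ^ 2 * |A''|`, the left side is `fb ∞ ^ 2 * ∏_{Q0f} * ∏_{Qa} * 2^(rank * m)`; cancel the positive numbers (`fb_pos`).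
-/

set_option autoImplicit false
set_option linter.unusedSectionVars false
open scoped Classical

open WithZero NumberField IsDedekindDomain H38RT H88T7 H88T8 H90T8
open H38T1 (SC sc scu scu_surj sc_mul sc_of_ne sc_surj rep rep_ne sc_rep sc_eq_zero eo la si Pri tp OddP
  LD XX XX' NS ov rp SqMod)

namespace H88D8.SS

variable {K M : Type} [Field K] [NumberField K] [Field M] [NumberField M]

variable {B : Finset ℕ} {a β : ℤ} {Qa Qb Pp' : Finset ℕ}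
  {t : Matrix (K →ₐ[ℚ] M) (K →ₐ[ℚ] M) (ZMod 2)}

/-- The fixed classes of even order outside `Q`. -/
private noncomputable def Bc_A (hL : BigL K M) (ht : Pr t) (Q : Finset ℕ) : AddSubgroup (SC K) where
  carrier := {c | (∀ v : HeightOneSpectrum (𝓞 K), rp v ∉ Q → eo v c = 0) ∧ hk hL ht.inv c = c}
  zero_mem' := ⟨fun v _ => H38T1.eo_zero v, map_zero _⟩
  add_mem' := by
    rintro c c' ⟨h1, h2⟩ ⟨h3, h4⟩
    refine ⟨fun v hv => ?_, ?_⟩
    · rw [H38T1.eo_add, h1 v hv, h3 v hv, add_zero]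
    · rw [map_add, h2, h4]
  neg_mem' := by
    intro c hc
    have h1 : c + c = 0 := by
      rw [← two_nsmul]
      exact H38T1.SC.two_smul c
    rw [neg_eq_of_add_eq_zero_left h1]
    exact hc

private theorem Bc_mem (hL : BigL K M) (ht : Pr t) (Q : Finset ℕ) (c : SC K) :
    c ∈ Bc_A hL ht Q ↔ (∀ v : HeightOneSpectrum (𝓞 K), rp v ∉ Q → eo v c = 0) ∧
      hk hL ht.inv c = c := Iff.rfl

private theorem Bc_fin (hL : BigL K M) (ht : Pr t) {Q : Finset ℕ} (hQ : ∀ q ∈ Q, q.Prime) :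
    ((Bc_A (K := K) hL ht Q : AddSubgroup (SC K)) : Set (SC K)).Finite := by
  have h1 : (ov K (Q : Set ℕ)).Finite := H38T1.fin_ov (Finset.finite_toSet _) fun q hq => hQ q hq
  refine (H38T1.fin_US (K := K) h1).subset ?_
  intro c hc v hv
  refine hc.1 v fun h => hv ?_
  exact (H38T1.mem_ov fun q hq => hQ q hq).2 h

private theorem Bc_arith {x q0 qa qb R Rm A A' A'' S : ℕ} (hx : 0 < x) (h0 : 0 < q0) (ha : 0 < qa)
    (h1 : x * (q0 * qb * Rm) ≤ A) (h2 : A ≤ (q0 * qa) * A') (h3 : A' * R ≤ x ^ 2 * A'')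
    (h4 : qb * R = x * qa) (h5 : A'' ≤ S) : Rm ≤ S := by
  refine le_trans ?_ h5
  have h6 : x * (q0 * qb * Rm) * R ≤ (q0 * qa) * (x ^ 2 * A'') :=
    calc x * (q0 * qb * Rm) * R ≤ A * R := Nat.mul_le_mul_right _ h1
      _ ≤ (q0 * qa) * A' * R := Nat.mul_le_mul_right _ h2
      _ = (q0 * qa) * (A' * R) := by ring
      _ ≤ _ := Nat.mul_le_mul_left _ h3
  have h7 : x * (q0 * qb * Rm) * R = (x ^ 2 * q0 * qa) * Rm := by
    calc x * (q0 * qb * Rm) * R = x * q0 * Rm * (qb * R) := by ring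
      _ = _ := by rw [h4]; ring
  have h8 : (q0 * qa) * (x ^ 2 * A'') = (x ^ 2 * q0 * qa) * A'' := by ring
  rw [h7, h8] at h6
  exact Nat.le_of_mul_le_mul_left h6 (by positivity)

theorem lowXX (hL : BigL K M) (hD : DatS K M B a β Qa Qb) (hS : St8 K B a β ∅ Pp') (ht : Pr t) :
    2 ^ (t.rank * Pp'.card) ≤
      {c | c ∈ XX (L8 K a β Qa Qb ∅ Pp') ∧ hk hL ht.inv c = c}.ncard := by
  have hD8 := hD.toDat8
  have hG := good8 hD8 hS
  have hβ : β ≠ 0 := Ah8_beta_ne hD8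
  have hd : a ^ 2 - 64 * β ≠ 0 := (Ah8_neg hD8).ne
  have hm : β * (a ^ 2 - 64 * β) ≠ 0 := mul_ne_zero hβ hd
  obtain ⟨Q0f, hQ0f⟩ : ∃ Q0f : Finset ℕ, ∀ q, q ∈ Q0f ↔ q ∈ Q0 a β Qa Qb := by
    refine ⟨(β * (a ^ 2 - 64 * β)).natAbs.primeFactors \ (Qa ∪ Qb), fun q => ?_⟩
    rw [Finset.mem_sdiff, Finset.mem_union, Nat.mem_primeFactors, not_or]
    have hn : (β * (a ^ 2 - 64 * β)).natAbs ≠ 0 := Int.natAbs_ne_zero.2 hm
    constructor
    · rintro ⟨⟨h1, h2, -⟩, h3, h4⟩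
      exact ⟨⟨h1, Int.natCast_dvd.2 h2⟩, h3, h4⟩
    · rintro ⟨⟨h1, h2⟩, h3, h4⟩
      exact ⟨⟨h1, Int.natCast_dvd.1 h2, hn⟩, h3, h4⟩
  have hdv0 : ∀ q ∈ Q0f, q.Prime ∧ (q : ℤ) ∣ β * (a ^ 2 - 64 * β) ∧ q ∉ Qa ∧ q ∉ Qb := by
    intro q hq
    obtain ⟨⟨h1, h2⟩, h3, h4⟩ := (hQ0f q).1 hq
    exact ⟨h1, h2, h3, h4⟩
  have hdvb : ∀ q ∈ Qb, q.Prime ∧ (q : ℤ) ∣ β * (a ^ 2 - 64 * β) := fun q hq =>
    ⟨(hD8.pb q hq).1, (hD8.pb q hq).2.mul_right _⟩
  have hdva : ∀ q ∈ Qa, q.Prime ∧ (q : ℤ) ∣ β * (a ^ 2 - 64 * β) := fun q hq =>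
    ⟨(hD8.pa q hq).1, (hD8.pa q hq).2.mul_left _⟩
  have hPp : ∀ p ∈ Pp', p.Prime ∧ ¬ (p : ℤ) ∣ β * (a ^ 2 - 64 * β) ∧ p ∉ B ∧ Tot K p := by
    intro p hp
    have hp' := Finset.mem_union_right (∅ : Finset ℕ) hp
    exact ⟨(hS.tot p hp').1, fun h => hS.ndvd p hp' (h.mul_left _), hS.nB p hp', hS.tot p hp'⟩
  have hub : ∀ q : ℕ, q.Prime → (q : ℤ) ∣ β * (a ^ 2 - 64 * β) → UnM M q := fun q hq h =>
    hD.unM q hq (hD8.co q hq h)
  obtain ⟨Q, hQd⟩ : ∃ Q : Finset ℕ, Q = Q0f ∪ Qb ∪ Pp' := ⟨_, rfl⟩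
  have hQmem : ∀ q, q ∈ Q ↔ (q ∈ Q0f ∨ q ∈ Qb) ∨ q ∈ Pp' := by
    intro q
    rw [hQd, Finset.mem_union, Finset.mem_union]
  have hQp : ∀ q ∈ Q, q.Prime := by
    intro q hq
    rcases (hQmem q).1 hq with (h | h) | h
    · exact (hdv0 q h).1
    · exact (hdvb q h).1
    · exact (hPp q h).1
  have hQ2 : 2 ∉ Q := by
    intro hq
    rcases (hQmem 2).1 hq with (h | h) | h
    · exact Ah8_ne_two hD8 (hdv0 2 h).1 (hdv0 2 h).2.1 rfl
    · exact Ah8_ne_two hD8 (hdvb 2 h).1 (hdvb 2 h).2 rfl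
    · exact (hPp 2 h).2.2.1 hD8.two
  have hQu : ∀ q ∈ Q, UnM M q := by
    intro q hq
    rcases (hQmem q).1 hq with (h | h) | h
    · exact hub q (hdv0 q h).1 (hdv0 q h).2.1
    · exact hub q (hdvb q h).1 (hdvb q h).2
    · exact hD.unM q (hPp q h).1 (hPp q h).2.2.1
  have hQaQ : ∀ q ∈ Qa, q ∉ Q := by
    intro q hqa hq
    rcases (hQmem q).1 hq with (h | h) | h
    · exact (hdv0 q h).2.2.1 hqa
    · exact Ah8_cop hD8.cop (hdvb q h).1 (hD8.pb q h).2 (hD8.pa q hqa).2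
    · exact (hPp q h).2.1 (hdva q hqa).2
  -- the group of the even classes
  have hA := Bc_fin (K := K) hL ht hQp
  have hfix : ∀ c ∈ Bc_A hL ht Q, hk hL ht.inv c = c := fun c hc => ((Bc_mem hL ht Q c).1 hc).2
  have h1 := low_U hD8.odd hL hQp hQ2 hQu ht
  have hset : {c : SC K | (∀ v, rp v ∉ Q → eo v c = 0) ∧ hk hL ht.inv c = c} =
      ((Bc_A (K := K) hL ht Q : AddSubgroup (SC K)) : Set (SC K)) := rfl
  rw [hset] at h1
  have hprod : ∏ q ∈ Q, fb t (pq K M q) =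
      (∏ q ∈ Q0f, fb t (pq K M q)) * (∏ q ∈ Qb, fb t (pq K M q)) * 2 ^ (t.rank * Pp'.card) := by
    have hd1 : Disjoint Q0f Qb := by
      rw [Finset.disjoint_left]
      exact fun q h => (hdv0 q h).2.2.2
    have hd2 : Disjoint (Q0f ∪ Qb) Pp' := by
      rw [Finset.disjoint_left]
      intro q h h'
      rcases Finset.mem_union.1 h with h | h
      · exact (hPp q h').2.1 (hdv0 q h).2.1
      · exact (hPp q h').2.1 (hdvb q h).2
    rw [hQd, Finset.prod_union hd2, Finset.prod_union hd1]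
    congr 1
    rw [pow_mul, ← Finset.prod_const]
    refine Finset.prod_congr rfl fun p hp => ?_
    exact fb_inj ht.idem (pq_inj_tot hL (hPp p hp).2.2.2 (hD.unM p (hPp p hp).1 (hPp p hp).2.2.1))
  rw [hprod] at h1
  -- the symbols
  obtain ⟨b, hb⟩ : ∃ b : ℕ → ℤ, b = fun q => if q ∈ Qa then (q : ℤ) else
    if (q : ℤ) ∣ β then -β else a ^ 2 - 64 * β := ⟨_, rfl⟩
  have hba : ∀ q ∈ Qa, b q = (q : ℤ) := by
    intro q hq
    rw [hb]
    exact if_pos hq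
  have hb0 : ∀ q ∈ Q0f, b q = if (q : ℤ) ∣ β then -β else a ^ 2 - 64 * β := by
    intro q hq
    rw [hb]
    exact if_neg (hdv0 q hq).2.2.1
  obtain ⟨A', hA'mem, h2⟩ := idx_tps hL (Q0f ∪ Qa) b (by
    intro q hq
    rcases Finset.mem_union.1 hq with h | h
    · obtain ⟨hp, hdd, -, -⟩ := hdv0 q h
      refine ⟨hp, Ah8_ne_two hD8 hp hdd, hub q hp hdd, ?_, ?_⟩
      · rw [hb0 q h]
        split_ifs with h3
        · exact (dvd_neg).2 h3
        · exact ((Nat.prime_iff_prime_int.1 hp).dvd_or_dvd hdd).resolve_left h3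
      · rw [hb0 q h]
        split_ifs with h3
        · intro h4
          exact Rf_nsq hp (Ah8_sb hD8) ((dvd_neg).1 h4)
        · exact Rf_nsq hp (Ah8_sd hD8)
    · obtain ⟨hp, hdd⟩ := hdva q h
      refine ⟨hp, Ah8_ne_two hD8 hp hdd, hub q hp hdd, ?_, ?_⟩
      · rw [hba q h]
      · rw [hba q h]
        exact Rf_nsq' hp) ht (Bc_A hL ht Q) hA hfix
  have hd3 : Disjoint Q0f Qa := by
    rw [Finset.disjoint_left]
    exact fun q h => (hdv0 q h).2.2.1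
  rw [Finset.prod_union hd3] at h2
  have hA' : (A' : Set (SC K)).Finite := hA.subset fun c hc => ((hA'mem c).1 hc).1
  have hfix' : ∀ c ∈ A', hk hL ht.inv c = c := fun c hc => hfix c ((hA'mem c).1 hc).1
  have h3 := idx_si hL ht A' hA' hfix'
  have h4 := hD.balT t ht
  refine Bc_arith (fb_pos t (pinf K M)) (Finset.prod_pos fun q _ => fb_pos t (pq K M q))
    (Finset.prod_pos fun q _ => fb_pos t (pq K M q)) h1 h2 h3 h4 ?_
  refine Set.ncard_le_ncard ?_ ?_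
  · rintro c ⟨hc, hsi⟩
    obtain ⟨hcA, hctp⟩ := (hA'mem c).1 hc
    obtain ⟨hceo, hchk⟩ := (Bc_mem hL ht Q c).1 hcA
    have hp0 := Ah8_pr0 (a := a) (β := β) (Qa := Qa) (Qb := Qb)
    have hpP := Ah8_pr hD8 hS
    have hpP' := Ah8_pr' hD8 hS
    refine ⟨⟨?_, ?_, ?_, fun _ => hsi⟩, hchk⟩
    · intro v hv hv'
      refine hceo v fun hq => ?_
      rcases (hQmem _).1 hq with (h | h) | h
      · exact hv ((H38T1.mem_ov hp0).2 ((hQ0f _).1 h))
      · exact hv' ((H38T1.mem_ov hpP').2 (Or.inl (Finset.mem_coe.2 h)))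
      · exact hv' ((H38T1.mem_ov hpP').2 (Or.inr (Finset.mem_coe.2 h)))
    · intro v hv
      have hq : rp v ∈ Q0f := (hQ0f _).2 ((H38T1.mem_ov hp0).1 hv)
      have h5 := hctp (rp v) (Finset.mem_union_left _ hq) v rfl
      rw [hb0 _ hq] at h5
      change tp v c (g8 K a β v) = 0
      unfold g8
      split_ifs with h6
      · rw [if_pos h6] at h5
        exact h5
      · rw [if_neg h6] at h5
        exact h5
    · intro v hv
      have hq : rp v ∈ Qa := by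
        rcases (H38T1.mem_ov hpP).1 hv with h | h
        · exact Finset.mem_coe.1 h
        · exact absurd (Finset.mem_coe.1 h) (Finset.notMem_empty _)
      have h5 := hctp (rp v) (Finset.mem_union_right _ hq) v rfl
      rw [hba _ hq, tp_even hL (hdva _ hq).1 (hub _ (hdva _ hq).1 (hdva _ hq).2) rfl
        (hceo v (hQaQ _ hq))] at h5
      exact h5
  · refine (H38T1.fin_US (K := K) (hG.finSg.union hG.finP')).subset ?_
    intro c hc v hv
    exact hc.1.1 v (fun h => hv (Or.inl h)) (fun h => hv (Or.inr h))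

end H88D8.SS
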