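import Pool.Agent.H88.SS.Fb

/-!
ROW Ca (project MP_78d38b_SS, about 110 lines, pure linear algebra over ZMod 2): an upper bound for the number of local
vectors. `fb t π` = number of `u : H → ZMod 2` with `t.mulVec u = u` which are constant on the fibres of `π`.

PROOF. `F := {f : P → ZMod 2 | ∀ τ, f (π τ) = ∑ σ, t σ τ * f (π σ)}` is a submodule of `P → ZMod 2`; as `π` is onto, `f ↦ f ∘ π` is a bijection
from `F` onto `{u | t.transpose.mulVec u = u ∧ u constant on the fibres}`, so `Nat.card F = fb t.transpose π` (`Matrix.mulVec_transpose`/`dotProduct`: `(t.transpose.mulVec u) τ =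
∑ σ, t σ τ * u σ`). The pairing `Λ → Module.Dual (ZMod 2) F`, `l ↦ (f ↦ ∑ p, f p * l p)` is injective: let `l ∈ Λ` pair to zero with all of `F`. For every `f : P → ZMod 2` take `f'`
from `h`; `f' ∈ F`: `f' ∘ π = tᵀ (f ∘ π)`, so `tᵀ (f' ∘ π) = tᵀ tᵀ (f ∘ π) = f' ∘ π` as `(t * t)ᵀ = tᵀ`. So `∑ f p * l p = ∑ f' p * l p = 0`; `f = Pi.single p 1` gives `l p = 0`.
Hence `Nat.card Λ ≤ Nat.card (Dual F) = Nat.card F` (everything is finite; `Nat.card_le_card_of_injective`; for the dual: `Module.natCard_eq_pow_finrank`,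
`Subspace.dual_finrank_eq`, or see `card_ann` and `card_two` in `Pool/Agent/H90/T8/Ct.lean`).
-/

set_option autoImplicit false
set_option linter.unusedSectionVars false
open scoped Classical

namespace H88D8.SS

/-- The functions on `P` whose pull-back is fixed by the transpose of `t`. -/
def Ca_F {H P : Type*} [Fintype H] (t : Matrix H H (ZMod 2)) (π : H → P) : Submodule (ZMod 2) (P → ZMod 2) where
  carrier := {f | ∀ τ, f (π τ) = ∑ σ, t σ τ * f (π σ)}
  add_mem' := by
    intro f g hf hg τ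
    have h1 := hf τ
    have h2 := hg τ
    rw [Pi.add_apply, h1, h2, ← Finset.sum_add_distrib]
    refine Finset.sum_congr rfl fun σ _ => ?_
    rw [Pi.add_apply]
    ring
  zero_mem' := by
    intro τ
    simp
  smul_mem' := by
    intro c f hf τ
    have h1 := hf τ
    rw [Pi.smul_apply, h1, smul_eq_mul, Finset.mul_sum]
    refine Finset.sum_congr rfl fun σ _ => ?_
    rw [Pi.smul_apply, smul_eq_mul]
    ring

theorem Ca_card_F_le {H P : Type*} [Fintype H] [Fintype P] (t : Matrix H H (ZMod 2)) (π : H → P)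
    (hπ : Function.Surjective π) : Nat.card (Ca_F t π) ≤ fb t.transpose π := by
  unfold fb
  refine Nat.card_le_card_of_injective (fun f : Ca_F t π => (⟨fun σ => f.1 (π σ), ?_, ?_⟩ :
    {u : H → ZMod 2 // t.transpose.mulVec u = u ∧ ∀ σ τ, π σ = π τ → u σ = u τ})) ?_
  · funext τ
    have h1 := f.2 τ
    rw [h1]
    rfl
  · intro σ τ h
    simp only [h]
  · intro f g hfg
    have h1 : (fun σ => f.1 (π σ)) = fun σ => g.1 (π σ) := congrArg Subtype.val hfg
    apply Subtype.ext
    funext p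
    obtain ⟨σ, rfl⟩ := hπ p
    exact congrFun h1 σ

theorem Ca_card_dual (V : Type*) [AddCommGroup V] [Module (ZMod 2) V] [Finite V] :
    Finite (Module.Dual (ZMod 2) V) ∧ Nat.card (Module.Dual (ZMod 2) V) = Nat.card V := by
  have hf : Finite (Module.Dual (ZMod 2) V) :=
    Finite.of_injective (fun κ : Module.Dual (ZMod 2) V => (κ : V → ZMod 2)) DFunLike.coe_injective
  refine ⟨hf, ?_⟩
  rw [Module.natCard_eq_pow_finrank (K := ZMod 2) (V := Module.Dual (ZMod 2) V),
    Module.natCard_eq_pow_finrank (K := ZMod 2) (V := V), Subspace.dual_finrank_eq]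

theorem card_le_fb {H P : Type*} [Fintype H] [Fintype P] (t : Matrix H H (ZMod 2)) (ht : t * t = t)
    (π : H → P) (hπ : Function.Surjective π) (Λ : AddSubgroup (P → ZMod 2))
    (h : ∀ f : P → ZMod 2, ∃ f' : P → ZMod 2, (∀ τ, f' (π τ) = ∑ σ, t σ τ * f (π σ)) ∧
      ∀ l ∈ Λ, ∑ p, f p * l p = ∑ p, f' p * l p) : Nat.card Λ ≤ fb t.transpose π := by
  have hfin : Finite (Ca_F t π) := inferInstance
  obtain ⟨hd, hc⟩ := Ca_card_dual (Ca_F t π)
  refine le_trans ?_ (Ca_card_F_le t π hπ)
  rw [← hc]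
  let φ : Λ → Module.Dual (ZMod 2) (Ca_F t π) := fun l =>
    { toFun := fun f => ∑ p, f.1 p * l.1 p
      map_add' := by
        intro f g
        rw [← Finset.sum_add_distrib]
        refine Finset.sum_congr rfl fun p _ => ?_
        rw [Submodule.coe_add, Pi.add_apply, add_mul]
      map_smul' := by
        intro c f
        rw [RingHom.id_apply, smul_eq_mul, Finset.mul_sum]
        refine Finset.sum_congr rfl fun p _ => ?_
        rw [Submodule.coe_smul, Pi.smul_apply, smul_eq_mul, mul_assoc] }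
  refine Nat.card_le_card_of_injective φ ?_
  intro l l' hll
  have h1 : ∀ f ∈ Ca_F t π, ∑ p, f p * l.1 p = ∑ p, f p * l'.1 p := fun f hf =>
    congrArg (fun κ : Module.Dual (ZMod 2) (Ca_F t π) => κ ⟨f, hf⟩) hll
  have h2 : ∀ f : P → ZMod 2, ∑ p, f p * l.1 p = ∑ p, f p * l'.1 p := by
    intro f
    obtain ⟨f', hf', hp⟩ := h f
    rw [hp l.1 l.2, hp l'.1 l'.2]
    apply h1
    intro τ
    have h3 : ∀ σ, t σ τ * f' (π σ) = ∑ ρ, t σ τ * (t ρ σ * f (π ρ)) := by
      intro σ
      rw [hf' σ, Finset.mul_sum]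
    rw [hf' τ, Finset.sum_congr rfl fun σ _ => h3 σ, Finset.sum_comm]
    refine Finset.sum_congr rfl fun ρ _ => ?_
    have h4 : t ρ τ = ∑ σ, t ρ σ * t σ τ := by
      conv_lhs => rw [← ht]
      exact Matrix.mul_apply
    rw [h4, Finset.sum_mul]
    refine Finset.sum_congr rfl fun σ _ => ?_
    ring
  apply Subtype.ext
  funext p
  have h5 := h2 (Pi.single p 1)
  simpa [Pi.single_apply] using h5

end H88D8.SS
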