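import Pool.Agent.H88.SS.Fb

/-!
ROW Cc (project MP_78d38b_SS, about 130 lines, pure linear algebra over ZMod 2): the number of sign vectors.

PROOF. `s` is an involution of `H`, `t` an idempotent matrix commuting with it. All sets are finite vector spaces over `ZMod 2` (submodules of `H → ZMod 2`); count with `card = card ker * card range`
(e.g. `AddSubgroup.card_eq_card_quotient_mul_card_addSubgroup` or `LinearMap.finrank_range_add_finrank_ker`, `Module.natCard_eq_pow_finrank`). Let `W = {u | t u = u}`, `|W| = 2 ^ t.rank` (range of the idempotent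
`mulVecLin`), `S u = u ∘ s` (commutes with `t`), `W' = {u ∈ W | S u = u}`, `|W'| = fb t π` by `hπ`. (1) `W → W`, `u ↦ u + S u` has kernel `W'` and range `R ⊆ W'`, so `|W'| * |R| = |W|`.
(2) The restriction `ρ : W' → A`, `u ↦ (u σ if s σ = σ, else 0)`, where `A` is the set in the statement: it maps into `A`: for `s σ = σ`: `(t (ρ u)) σ = ∑_{s τ = τ} t σ τ u τ = (t u) σ - ∑_{s τ ≠ τ} t σ τ u τ`, and the last
sum is zero: `t σ (s τ) = t (s σ) (s τ) = t σ τ`, `u (s τ) = u τ`, so the terms cancel in pairs in characteristic two (`Finset.sum_involution`). It is onto: for `a ∈ A` let `u = t a`; `a ∘ s = a`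
(both are zero off the fixed points), so `S u = u`, `t u = u`, and `ρ u = a` by the definition of `A`. (3) The kernel of `ρ` is `R`: `R ⊆ ker`: at a fixed point `u σ + u (s σ) = 2 u σ = 0`.
Conversely let `u ∈ W'` vanish at the fixed points. Choose one point in every two-element cycle: there is `v` with `u = v + S v`: e.g. take a linear order on `H`
(classically; `Fintype` types embed in `ℕ`/use `Fintype.equivFin`) and `v σ = if σ < s σ then u σ else 0`. Then `u = t u = t v + S (t v) ∈ R`.
So `|W'| = |R| * |A|`, and `|A| * |W| = |A| * |W'| * |R| = |W'| ^ 2`.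
-/

set_option autoImplicit false
set_option linter.unusedSectionVars false
open scoped Classical

namespace H88D8.SS

theorem Cc_card {G G' : Type*} [AddCommGroup G] [AddCommGroup G'] (f : G →+ G') :
    Nat.card f.ker * Nat.card f.range = Nat.card G := by
  rw [← AddSubgroup.index_ker f]
  exact AddSubgroup.card_mul_index _

theorem Cc_card_sub {V : Type*} [AddCommGroup V] {W R : AddSubgroup V} {K : AddSubgroup W}
    (h : ∀ u : V, u ∈ R ↔ ∃ hu : u ∈ W, (⟨u, hu⟩ : W) ∈ K) : Nat.card K = Nat.card R := by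
  refine Nat.card_congr ⟨fun k => ⟨k.1.1, (h _).2 ⟨k.1.2, k.2⟩⟩,
    fun r => ⟨⟨r.1, ((h _).1 r.2).1⟩, ((h _).1 r.2).2⟩, fun k => ?_, fun r => ?_⟩
  · rfl
  · rfl

theorem Cc_two (a : ZMod 2) : a + a = 0 := by
  revert a
  decide

theorem card_sign {H P : Type*} [Fintype H] {t : Matrix H H (ZMod 2)} (ht : t * t = t) {π : H → P}
    (s : Equiv.Perm H) (hs : ∀ σ τ, t (s σ) (s τ) = t σ τ) (h2 : ∀ σ, s (s σ) = σ)
    (hπ : ∀ σ τ, π σ = π τ ↔ σ = τ ∨ s σ = τ) :
    Nat.card {u : H → ZMod 2 // (∀ σ, s σ ≠ σ → u σ = 0) ∧ ∀ σ, s σ = σ → u σ = t.mulVec u σ} *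
      2 ^ t.rank = fb t π ^ 2 := by
  have hS : ∀ (u : H → ZMod 2) (σ : H), t.mulVec (fun τ => u (s τ)) σ = t.mulVec u (s σ) := by
    intro u σ
    simp only [Matrix.mulVec, dotProduct]
    rw [← Equiv.sum_comp s (fun τ => t (s σ) τ * u τ)]
    exact Finset.sum_congr rfl fun τ _ => by rw [hs]
  have htt : ∀ u : H → ZMod 2, t.mulVec (t.mulVec u) = t.mulVec u := by
    intro u
    rw [Matrix.mulVec_mulVec, ht]
  obtain ⟨W, hW⟩ : ∃ W : AddSubgroup (H → ZMod 2), ∀ u, u ∈ W ↔ t.mulVec u = u :=
    ⟨{ carrier := {u | t.mulVec u = u}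
       add_mem' := by
         intro a b ha hb
         change t.mulVec (a + b) = a + b
         rw [Matrix.mulVec_add, show t.mulVec a = a from ha, show t.mulVec b = b from hb]
       zero_mem' := Matrix.mulVec_zero _
       neg_mem' := by
         intro a ha
         change t.mulVec (-a) = -a
         rw [Matrix.mulVec_neg, show t.mulVec a = a from ha] }, fun u => Iff.rfl⟩
  obtain ⟨W', hW'⟩ : ∃ W' : AddSubgroup (H → ZMod 2), ∀ u, u ∈ W' ↔
      t.mulVec u = u ∧ ∀ σ, u (s σ) = u σ :=
    ⟨{ carrier := {u | t.mulVec u = u ∧ ∀ σ, u (s σ) = u σ}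
       add_mem' := by
         rintro a b ⟨ha, ha'⟩ ⟨hb, hb'⟩
         refine ⟨?_, fun σ => ?_⟩
         · rw [Matrix.mulVec_add, ha, hb]
         · simp only [Pi.add_apply, ha', hb']
       zero_mem' := ⟨Matrix.mulVec_zero _, fun σ => rfl⟩
       neg_mem' := by
         rintro a ⟨ha, ha'⟩
         refine ⟨?_, fun σ => ?_⟩
         · rw [Matrix.mulVec_neg, ha]
         · simp only [Pi.neg_apply, ha'] }, fun u => Iff.rfl⟩
  obtain ⟨A, hA⟩ : ∃ A : AddSubgroup (H → ZMod 2), ∀ u, u ∈ A ↔
      (∀ σ, s σ ≠ σ → u σ = 0) ∧ ∀ σ, s σ = σ → u σ = t.mulVec u σ :=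
    ⟨{ carrier := {u | (∀ σ, s σ ≠ σ → u σ = 0) ∧ ∀ σ, s σ = σ → u σ = t.mulVec u σ}
       add_mem' := by
         rintro a b ⟨ha, ha'⟩ ⟨hb, hb'⟩
         refine ⟨fun σ h => ?_, fun σ h => ?_⟩
         · rw [Pi.add_apply, ha σ h, hb σ h, add_zero]
         · rw [Matrix.mulVec_add, Pi.add_apply, Pi.add_apply, ha' σ h, hb' σ h]
       zero_mem' := ⟨fun σ _ => rfl, fun σ _ => by rw [Matrix.mulVec_zero]⟩
       neg_mem' := by
         rintro a ⟨ha, ha'⟩
         refine ⟨fun σ h => ?_, fun σ h => ?_⟩
         · rw [Pi.neg_apply, ha σ h, neg_zero]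
         · rw [Matrix.mulVec_neg, Pi.neg_apply, Pi.neg_apply, ha' σ h] }, fun u => Iff.rfl⟩
  obtain ⟨φ, hφ⟩ : ∃ φ : W →+ (H → ZMod 2), ∀ (x : W) (σ : H), φ x σ = x.1 σ + x.1 (s σ) :=
    ⟨{ toFun := fun x σ => x.1 σ + x.1 (s σ)
       map_zero' := by
         funext σ
         change (0 : ZMod 2) + 0 = 0
         exact add_zero _
       map_add' := by
         intro x y
         funext σ
         change (x.1 σ + y.1 σ) + (x.1 (s σ) + y.1 (s σ)) =
           (x.1 σ + x.1 (s σ)) + (y.1 σ + y.1 (s σ))
         ring }, fun x σ => rfl⟩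
  obtain ⟨ρ, hρ⟩ : ∃ ρ : W' →+ (H → ZMod 2), ∀ (x : W') (σ : H),
      ρ x σ = if s σ = σ then x.1 σ else 0 :=
    ⟨{ toFun := fun x σ => if s σ = σ then x.1 σ else 0
       map_zero' := by
         funext σ
         change (if s σ = σ then (0 : ZMod 2) else 0) = 0
         exact ite_self _
       map_add' := by
         intro x y
         funext σ
         change (if s σ = σ then x.1 σ + y.1 σ else 0) =
           (if s σ = σ then x.1 σ else 0) + (if s σ = σ then y.1 σ else 0)
         by_cases h : s σ = σ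
         · rw [if_pos h, if_pos h, if_pos h]
         · rw [if_neg h, if_neg h, if_neg h, add_zero] }, fun x σ => rfl⟩
  -- the kernel of φ is W'
  have k1 : Nat.card φ.ker = Nat.card W' := by
    refine Cc_card_sub fun u => ?_
    rw [hW']
    constructor
    · rintro ⟨h1, h3⟩
      refine ⟨(hW u).2 h1, ?_⟩
      rw [AddMonoidHom.mem_ker]
      funext σ
      rw [hφ]
      change u σ + u (s σ) = 0
      rw [h3]
      exact Cc_two _
    · rintro ⟨h1, h3⟩
      refine ⟨(hW u).1 h1, fun σ => ?_⟩
      rw [AddMonoidHom.mem_ker] at h3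
      have h4 := congrFun h3 σ
      rw [hφ] at h4
      change u σ + u (s σ) = 0 at h4
      have h5 := Cc_two (u σ)
      calc u (s σ) = (u σ + u (s σ)) - u σ := by ring
        _ = (u σ + u σ) - u σ := by rw [h4, h5]
        _ = u σ := by ring
  have c1 : Nat.card W' * Nat.card φ.range = Nat.card W := by
    rw [← k1]
    exact Cc_card φ
  -- the kernel of ρ is the range of φ
  have k2 : Nat.card ρ.ker = Nat.card φ.range := by
    refine Cc_card_sub fun u => ?_
    constructor
    · rintro ⟨x, hx⟩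
      have hx' : ∀ σ, u σ = x.1 σ + x.1 (s σ) := fun σ => by rw [← hx, hφ]
      have hxW := (hW _).1 x.2
      have hu : u = x.1 + fun σ => x.1 (s σ) := funext hx'
      have huW : u ∈ W' := by
        rw [hW']
        refine ⟨?_, fun σ => ?_⟩
        · rw [hu, Matrix.mulVec_add, hxW]
          congr 1
          funext σ
          rw [hS, hxW]
        · rw [hx', hx', h2, add_comm]
      refine ⟨huW, ?_⟩
      rw [AddMonoidHom.mem_ker]
      funext σ
      rw [hρ]
      by_cases h : s σ = σ
      · rw [if_pos h]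
        change u σ = 0
        rw [hx', h]
        exact Cc_two _
      · rw [if_neg h]
        rfl
    · rintro ⟨h1, h3⟩
      obtain ⟨h1a, h1b⟩ := (hW' u).1 h1
      have h4 : ∀ σ, s σ = σ → u σ = 0 := by
        intro σ hσ
        rw [AddMonoidHom.mem_ker] at h3
        have h5 := congrFun h3 σ
        rw [hρ, if_pos hσ] at h5
        exact h5
      obtain ⟨v, hv⟩ : ∃ v : H → ZMod 2, ∀ σ, u σ = v σ + v (s σ) := by
        refine ⟨fun σ => if Fintype.equivFin H σ < Fintype.equivFin H (s σ) then u σ else 0,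
          fun σ => ?_⟩
        simp only []
        rw [h2 σ]
        rcases lt_trichotomy (Fintype.equivFin H σ) (Fintype.equivFin H (s σ)) with h | h | h
        · rw [if_pos h, if_neg (not_lt.2 h.le), add_zero]
        · rw [h4 σ ((Fintype.equivFin H).injective h).symm, if_neg (by rw [h]; exact lt_irrefl _),
            if_neg (by rw [h]; exact lt_irrefl _), add_zero]
        · rw [if_neg (not_lt.2 h.le), if_pos h, zero_add, h1b]
      refine ⟨⟨t.mulVec v, (hW _).2 (htt v)⟩, ?_⟩
      funext σ
      rw [hφ]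
      change t.mulVec v σ + t.mulVec v (s σ) = u σ
      have hu : u = v + fun σ => v (s σ) := funext hv
      rw [← hS, ← Pi.add_apply, ← Matrix.mulVec_add, ← hu, h1a]
  have k3 : ρ.range = A := by
    ext u
    constructor
    · rintro ⟨x, rfl⟩
      obtain ⟨h1, h3⟩ := (hW' _).1 x.2
      rw [hA]
      refine ⟨fun σ h => by rw [hρ, if_neg h], fun σ h => ?_⟩
      rw [hρ, if_pos h]
      have e0 : (x.1 - ρ x) = fun τ => if s τ = τ then 0 else x.1 τ := by
        funext τ
        rw [Pi.sub_apply, hρ]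
        by_cases h' : s τ = τ
        · rw [if_pos h', if_pos h', sub_self]
        · rw [if_neg h', if_neg h', sub_zero]
      have e1 : t.mulVec (x.1 - ρ x) σ = 0 := by
        rw [e0]
        simp only [Matrix.mulVec, dotProduct]
        refine Finset.sum_involution (fun τ _ => s τ) (fun τ _ => ?_) (fun τ _ hτ => ?_)
          (fun τ _ => Finset.mem_univ _) (fun τ _ => h2 τ)
        · change t σ τ * (if s τ = τ then 0 else x.1 τ) +
            t σ (s τ) * (if s (s τ) = s τ then 0 else x.1 (s τ)) = 0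
          have e2 : t σ (s τ) = t σ τ := by
            rw [← hs σ τ, h]
          rw [e2]
          by_cases h' : s τ = τ
          · rw [if_pos h', h', if_pos h']
            simp
          · rw [if_neg h', if_neg (by rw [h2]; exact fun h'' => h' h''.symm), h3]
            exact Cc_two _
        · intro h'
          apply hτ
          change t σ τ * (if s τ = τ then 0 else x.1 τ) = 0
          rw [if_pos h', mul_zero]
      rw [Matrix.mulVec_sub, Pi.sub_apply, sub_eq_zero, h1] at e1
      exact e1
    · intro hu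
      obtain ⟨h1, h3⟩ := (hA u).1 hu
      have h4 : ∀ σ, u (s σ) = u σ := by
        intro σ
        by_cases h : s σ = σ
        · rw [h]
        · rw [h1 σ h, h1 (s σ) (by rw [h2]; exact fun h' => h h'.symm)]
      have h5 : t.mulVec u ∈ W' := by
        rw [hW']
        refine ⟨htt u, fun σ => ?_⟩
        rw [← hS]
        congr 2
        funext τ
        exact h4 τ
      refine ⟨⟨t.mulVec u, h5⟩, ?_⟩
      funext σ
      rw [hρ]
      by_cases h : s σ = σ
      · rw [if_pos h]
        exact (h3 σ h).symm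
      · rw [if_neg h, h1 σ h]
  have c2 : Nat.card φ.range * Nat.card A = Nat.card W' := by
    rw [← k2, ← k3]
    exact Cc_card ρ
  have c3 : Nat.card {u : H → ZMod 2 // (∀ σ, s σ ≠ σ → u σ = 0) ∧
      ∀ σ, s σ = σ → u σ = t.mulVec u σ} = Nat.card A :=
    Nat.card_congr (Equiv.subtypeEquivRight fun u => (hA u).symm)
  have c4 : fb t π = Nat.card W' := by
    unfold fb
    refine Nat.card_congr (Equiv.subtypeEquivRight fun u => ?_)
    change _ ↔ u ∈ W'
    rw [hW']
    refine and_congr_right fun _ => ⟨fun h σ => ?_, fun h σ τ hστ => ?_⟩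
    · exact (h σ (s σ) ((hπ _ _).2 (Or.inr rfl))).symm
    · rcases (hπ _ _).1 hστ with h' | h'
      · rw [h']
      · rw [← h', h]
  have c5 : 2 ^ t.rank = Nat.card W := by
    have e1 : Nat.card (LinearMap.range t.mulVecLin) = 2 ^ t.rank := by
      rw [Module.natCard_eq_pow_finrank (K := ZMod 2), Nat.card_zmod]
      rfl
    rw [← e1]
    refine Nat.card_congr (Equiv.subtypeEquivRight fun u => ?_)
    change u ∈ LinearMap.range t.mulVecLin ↔ u ∈ W
    rw [hW, LinearMap.mem_range]
    constructor
    · rintro ⟨y, rfl⟩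
      rw [Matrix.mulVecLin_apply]
      exact htt y
    · intro h
      exact ⟨u, by rw [Matrix.mulVecLin_apply]; exact h⟩
  rw [c3, c4, c5, ← c1, pow_two]
  calc Nat.card A * (Nat.card W' * Nat.card φ.range)
      = Nat.card W' * (Nat.card φ.range * Nat.card A) := by ring
    _ = Nat.card W' * Nat.card W' := by rw [c2]


end H88D8.SS
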