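import Pool.Agent.H88.SS.Fb
import Pool.Agent.H90.T8.Ct

/-!
Definitions for the counting lemma for semisimple modules (project MP_78d38b_SS); no row. `SZ H` (in
`Pool/Agent/H90/T8/Ct.lean`): functions `H → ZMod 2` with sum zero.
-/

set_option autoImplicit false
set_option linter.unusedSectionVars false
open scoped Classical

namespace H88D8.SS

open H90T8

/-- Every stable subspace has a stable complement. -/
def SemiSimple (G H : Type*) [Group G] [MulAction G H] : Prop :=
  ∀ U : Submodule (ZMod 2) (H → ZMod 2), (∀ g : G, ∀ u ∈ U, (fun s => u (g • s)) ∈ U) →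
    ∃ U' : Submodule (ZMod 2) (H → ZMod 2), (∀ g : G, ∀ u ∈ U', (fun s => u (g • s)) ∈ U') ∧
      IsCompl U U'

section

variable (G H : Type*) [Group G] [MulAction G H] [Fintype H]

/-- The representation of the group on the functions with sum zero. -/
noncomputable def rhoV : Representation (ZMod 2) G (SZ H) where
  toFun g :=
    { toFun := fun u => ⟨fun s => (u : H → ZMod 2) (g⁻¹ • s), by
        rw [mem_SZ]
        rw [← mem_SZ.1 u.2]
        exact Fintype.sum_equiv (MulAction.toPerm g⁻¹) _ _ fun s => rfl⟩
      map_add' := fun u v => rfl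
      map_smul' := fun c u => rfl }
  map_one' := by
    ext u s
    change (u : H → ZMod 2) ((1 : G)⁻¹ • s) = u.1 s
    rw [inv_one, one_smul]
  map_mul' g g' := by
    ext u s
    change (u : H → ZMod 2) ((g * g')⁻¹ • s) = u.1 (g'⁻¹ • g⁻¹ • s)
    rw [mul_inv_rev, mul_smul]

lemma rhoV_apply (g : G) (u : SZ H) (s : H) :
    ((rhoV G H g u : SZ H) : H → ZMod 2) s = (u : H → ZMod 2) (g⁻¹ • s) := rfl

end

section

variable (G W : Type*) [Group G] [AddCommGroup W] [Module (ZMod 2) W] [DistribMulAction G W]

/-- The representation of the group on a space over `ZMod 2` with additive action. -/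
noncomputable def rhoW : Representation (ZMod 2) G W where
  toFun g :=
    { toFun := fun w => g • w
      map_add' := fun v w => smul_add g v w
      map_smul' := fun c w => smul_smul2 g c w }
  map_one' := by
    ext w
    exact one_smul G w
  map_mul' g g' := by
    ext w
    exact mul_smul g g' w

lemma rhoW_apply (g : G) (w : W) : rhoW G W g w = g • w := rfl

end

end H88D8.SS
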