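import Pool.Agent.H90.T8.Da
import Pool.Agent.H90.T8.Em
import Pool.Agent.H88.D8.Df
import Pool.Agent.H38.T1.Md
import Pool.Agent.H88.T7.Gk
import Pool.Agent.H88.SS.Kt

/-!
Definitions for the project MP_78d38b_SS (fields of odd degree with semisimple permutation module): Hecke operators given
by the invariant matrices; no row. Notation: `H = (K →ₐ[ℚ] M)` (the embeddings), `V` = functions on `H` with values in
`ZMod 2`, `t` a matrix `H × H → ZMod 2` invariant under the Galois group, `g • σ = g ∘ σ` (instance `H90T8.actE`).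
-/

set_option autoImplicit false
set_option linter.unusedSectionVars false
open scoped Classical

open WithZero NumberField IsDedekindDomain H38RT H88T7 H88T8 H90T8
open H38T1 (SC sc scu scu_surj sc_mul sc_of_ne sc_surj rep rep_ne sc_rep sc_eq_zero eo la si Pri tp OddP
  LD XX XX' NS ov rp SqMod)

namespace H88D8.SS

section Hecke

variable {K M : Type} [Field K] [NumberField K] [Field M] [NumberField M]

/-- The matrix is invariant under the Galois group. -/
def Inv {R : Type*} (t : Matrix (K →ₐ[ℚ] M) (K →ₐ[ℚ] M) R) : Prop :=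
  ∀ (g : M ≃ₐ[ℚ] M) (σ τ : K →ₐ[ℚ] M), t (g • σ) (g • τ) = t σ τ

/-- Every invariant family of exponents gives a multiplicative operator on `K`. -/
theorem exists_hk (hL : BigL K M) {e : Matrix (K →ₐ[ℚ] M) (K →ₐ[ℚ] M) ℕ} (he : Inv e) (x : K) :
    ∃ y : K, ∀ σ : K →ₐ[ℚ] M, σ y = ∏ τ : K →ₐ[ℚ] M, τ x ^ e σ τ := by
  have hgal := hL.gal
  have hne : Nonempty (K →ₐ[ℚ] M) := by
    rw [← Fintype.card_pos_iff, hL.card]
    exact Module.finrank_pos
  obtain ⟨σ₀⟩ := hne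
  have key : ∀ (g : M ≃ₐ[ℚ] M) (σ : K →ₐ[ℚ] M), g (∏ τ : K →ₐ[ℚ] M, τ x ^ e σ τ) =
      ∏ τ : K →ₐ[ℚ] M, τ x ^ e (g • σ) τ := by
    intro g σ
    rw [map_prod]
    refine Fintype.prod_equiv (MulAction.toPerm g) _ _ fun τ => ?_
    rw [map_pow, MulAction.toPerm_apply, he g σ τ, smul_emb_apply]
  have h1 : (∏ τ : K →ₐ[ℚ] M, τ x ^ e σ₀ τ) ∈ σ₀.fieldRange := by
    rw [← IsGalois.fixedField_fixingSubgroup σ₀.fieldRange]
    rintro ⟨g, hg⟩
    have h2 : g • σ₀ = σ₀ := by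
      ext y
      rw [smul_emb_apply]
      exact (IntermediateField.mem_fixingSubgroup_iff _ _).1 hg (σ₀ y) ⟨y, rfl⟩
    change g _ = _
    rw [key, h2]
  obtain ⟨y, hy⟩ := h1
  refine ⟨y, fun σ => ?_⟩
  obtain ⟨g, hg⟩ := trans_emb hL σ₀ σ
  have h3 : g • σ₀ = σ := by rw [smul_emb]; exact hg
  rw [← h3, smul_emb_apply, ← key]
  exact congrArg g hy

/-- An element of `K` is determined by its conjugates. -/
theorem emb_inj (hL : BigL K M) {x y : K} (h : ∀ σ : K →ₐ[ℚ] M, σ x = σ y) : x = y := by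
  have hne : Nonempty (K →ₐ[ℚ] M) := by
    rw [← Fintype.card_pos_iff, hL.card]
    exact Module.finrank_pos
  obtain ⟨σ₀⟩ := hne
  exact σ₀.toRingHom.injective (h σ₀)

/-- The Hecke operator on elements: `σ (hkm e x) = ∏ τ, τ x ^ e σ τ`. -/
noncomputable def hkm (hL : BigL K M) {e : Matrix (K →ₐ[ℚ] M) (K →ₐ[ℚ] M) ℕ} (he : Inv e) :
    K →* K where
  toFun x := (exists_hk hL he x).choose
  map_one' := emb_inj hL fun σ => by
    rw [(exists_hk hL he 1).choose_spec σ, map_one]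
    exact Finset.prod_eq_one fun τ _ => by rw [map_one, one_pow]
  map_mul' x y := emb_inj hL fun σ => by
    rw [(exists_hk hL he (x * y)).choose_spec σ, map_mul, (exists_hk hL he x).choose_spec σ,
      (exists_hk hL he y).choose_spec σ, ← Finset.prod_mul_distrib]
    exact Finset.prod_congr rfl fun τ _ => by rw [map_mul, mul_pow]

theorem hkm_spec (hL : BigL K M) {e : Matrix (K →ₐ[ℚ] M) (K →ₐ[ℚ] M) ℕ} (he : Inv e) (x : K)
    (σ : K →ₐ[ℚ] M) : σ (hkm hL he x) = ∏ τ : K →ₐ[ℚ] M, τ x ^ e σ τ :=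
  (exists_hk hL he x).choose_spec σ

/-- The exponents zero and one of a matrix over `ZMod 2`. -/
def vl (t : Matrix (K →ₐ[ℚ] M) (K →ₐ[ℚ] M) (ZMod 2)) : Matrix (K →ₐ[ℚ] M) (K →ₐ[ℚ] M) ℕ :=
  fun σ τ => (t σ τ).val

theorem inv_vl {t : Matrix (K →ₐ[ℚ] M) (K →ₐ[ℚ] M) (ZMod 2)} (ht : Inv t) : Inv (vl t) :=
  fun g σ τ => congrArg ZMod.val (ht g σ τ)

/-- The Hecke operator on the square classes. -/
noncomputable def hk (hL : BigL K M) {t : Matrix (K →ₐ[ℚ] M) (K →ₐ[ℚ] M) (ZMod 2)} (ht : Inv t) :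
    SC K →+ SC K := scm (hkm hL (inv_vl ht))

theorem hk_sc (hL : BigL K M) {t : Matrix (K →ₐ[ℚ] M) (K →ₐ[ℚ] M) (ZMod 2)} (ht : Inv t) {x : K}
    (hx : x ≠ 0) : hk hL ht (sc x) = sc (hkm hL (inv_vl ht) x) := scm_sc _ hx

/-- The projections to parts without the trivial module. -/
structure Pr (t : Matrix (K →ₐ[ℚ] M) (K →ₐ[ℚ] M) (ZMod 2)) : Prop where
  inv : Inv t
  idem : t * t = t
  zero : ∀ σ, ∑ τ, t σ τ = 0

end Hecke

/-- The sign `1` or `-1`. -/
noncomputable def sg2 (F : Type) [Field F] (e : ZMod 2) : F := if e = 0 then 1 else -1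

section Places

variable (K M : Type) [Field K] [NumberField K] [Field M] [NumberField M]

/-- A complex embedding of `M`. -/
noncomputable def io : M →+* ℂ := Classical.choice inferInstance

/-- The archimedean place of `K` given by an embedding into `M`. -/
noncomputable def pinf (σ : K →ₐ[ℚ] M) : InfinitePlace K :=
  InfinitePlace.mk ((io M).comp (σ : K →+* M))

variable {K M} in
/-- The embedding is real (for the chosen complex embedding of `M`). -/
def RealE (σ : K →ₐ[ℚ] M) : Prop := ComplexEmbedding.IsReal ((io M).comp (σ : K →+* M))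

variable {K M} in
/-- The sign at a real embedding, zero for the other embeddings. -/
noncomputable def sr (σ : K →ₐ[ℚ] M) (c : SC K) : ZMod 2 :=
  if h : RealE σ then si (ComplexEmbedding.IsReal.embedding h) c else 0

/-- A place of `M` above `q`. -/
noncomputable def wq (q : ℕ) : HeightOneSpectrum (𝓞 M) :=
  if h : q.Prime then (H38T1.exists_above (K := M) h).choose
  else (H38T1.exists_above (K := M) Nat.prime_two).choose

variable {M} in
theorem rp_wq {q : ℕ} (hq : q.Prime) : rp (wq M q) = q := by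
  unfold wq
  rw [dif_pos hq]
  exact (H38T1.mem_iff_eq hq).1 (H38T1.exists_above (K := M) hq).choose_spec

/-- The place of `K` above `q` given by an embedding into `M`. -/
noncomputable def pq (q : ℕ) (σ : K →ₐ[ℚ] M) : HeightOneSpectrum (𝓞 K) := pl σ (wq M q)

variable {K M} in
theorem rp_pq {q : ℕ} (hq : q.Prime) (σ : K →ₐ[ℚ] M) : rp (pq K M q σ) = q := by
  unfold pq
  rw [rp_pl, rp_wq hq]

variable {K M} in
theorem pq_mem {q : ℕ} (hq : q.Prime) (σ : K →ₐ[ℚ] M) : pq K M q σ ∈ ov K {q} :=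
  ⟨q, rfl, (H38T1.mem_iff_eq hq).2 (rp_pq hq σ)⟩

/-- The field `M` is unramified above `q`. -/
def UnM (q : ℕ) : Prop := ∀ w : HeightOneSpectrum (𝓞 M), rp w = q → w.asIdeal.ramificationIdx ℤ = 1

end Places

/-- The curve and the prescribed primes, together with the equality of the dimensions for all projections. -/
structure DatS (K M : Type) [Field K] [NumberField K] [Field M] [NumberField M] (B : Finset ℕ) (a β : ℤ)
    (Qa Qb : Finset ℕ) : Prop extends Dat8 K B (QKm M) (E0m K M) a β Qa Qb where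
  unM : ∀ q : ℕ, q.Prime → q ∉ B → UnM M q
  balT : ∀ t : Matrix (K →ₐ[ℚ] M) (K →ₐ[ℚ] M) (ZMod 2), Pr t →
    (∏ q ∈ Qb, fb t (pq K M q)) * 2 ^ t.rank = fb t (pinf K M) * ∏ q ∈ Qa, fb t (pq K M q)

/-- The primes given by the density theorem (the part used by the twisting argument). -/
structure AdmW (K : Type) [Field K] [NumberField K] (QK : AddSubgroup (SC ℚ)) (E0 : Set (SC K)) :
    Prop where
  cR : ∀ (R : Finset (SC ℚ)) (Ψ : SC ℚ →+ ZMod 2), (∀ d ∈ QK, Ψ d = 0) →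
    {p : ℕ | Tot K p ∧ ∀ r ∈ R, ∀ v ∈ ov K {p}, la v (res K r) = Ψ r}.Infinite
  cE : ∀ w : SC K, nm K w = 0 → w ∉ E0 → ∀ (e : ZMod 2) (R : Finset (SC ℚ)) (Ψ : SC ℚ →+ ZMod 2),
    (∀ d ∈ QK, Ψ d = 0) → {p : ℕ | Tot K p ∧ (∀ r ∈ R, ∀ v ∈ ov K {p}, la v (res K r) = Ψ r) ∧
      ∃ v ∈ ov K {p}, la v w = e}.Infinite

/-- The primes given by the density theorem and the counting lemma for semisimple modules. -/
structure AdmS (K M : Type) [Field K] [NumberField K] [Field M] [NumberField M] (hL : BigL K M) :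
    Prop extends AdmW K (QKm M) (E0m K M) where
  cS : ∀ X : AddSubgroup (SC K), (X : Set (SC K)).Finite → (∀ x ∈ X, nm K x = 0) →
    (∀ x ∈ X, x ∈ E0m K M → x = 0) →
    (∀ (t : Matrix (K →ₐ[ℚ] M) (K →ₐ[ℚ] M) (ZMod 2)) (ht : Inv t), ∀ x ∈ X, hk hL ht x ∈ X) →
    (∀ (t : Matrix (K →ₐ[ℚ] M) (K →ₐ[ℚ] M) (ZMod 2)) (ht : Pr t),
      2 ^ t.rank ≤ {x | x ∈ X ∧ hk hL ht.inv x = x}.ncard) →
    ∀ (R : Finset (SC ℚ)) (Ψ : SC ℚ →+ ZMod 2), (∀ d ∈ QKm M, Ψ d = 0) →
    {p : ℕ | Tot K p ∧ (∀ r ∈ R, ∀ v ∈ ov K {p}, la v (res K r) = Ψ r) ∧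
      ∀ f : HeightOneSpectrum (𝓞 K) → ZMod 2, ∑ᶠ v ∈ ov K {p}, f v = 0 →
        ∃ x ∈ X, ∀ v ∈ ov K {p}, la v x = f v}.Infinite


/-- The permutation module of the embeddings of `K` into the algebraic closure is semisimple. -/
def SemiK (K : Type) [Field K] [NumberField K] : Prop :=
  SemiSimple (AlgebraicClosure ℚ ≃ₐ[ℚ] AlgebraicClosure ℚ) (K →ₐ[ℚ] AlgebraicClosure ℚ)

end H88D8.SS
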