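import Mathlib

/-!
Definitions for the project MP_78d38b_SS (linear algebra over `ZMod 2`); no row.
-/

set_option autoImplicit false
open scoped Classical

namespace H88D8.SS

/-- The number of functions `u` with `t u = u` which are constant on the fibres of `π`. -/
noncomputable def fb {H P : Type*} [Fintype H] (t : Matrix H H (ZMod 2)) (π : H → P) : ℕ :=
  Nat.card {u : H → ZMod 2 // t.mulVec u = u ∧ ∀ σ τ, π σ = π τ → u σ = u τ}

/-- The block diagonal matrix with all blocks equal to `t`. -/
noncomputable def blk {H : Type*} (J : Type*) (t : Matrix H H (ZMod 2)) : Matrix (H × J) (H × J) (ZMod 2) :=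
  fun a b => if a.2 = b.2 then t a.1 b.1 else 0

/-- The matrix induced on a quotient `π : H → P` with representatives `r`. -/
noncomputable def qm {H P : Type*} [Fintype H] (t : Matrix H H (ZMod 2)) (π : H → P) (r : P → H) :
    Matrix P P (ZMod 2) :=
  fun p p' => ∑ ρ ∈ Finset.univ.filter (fun ρ => π ρ = p'), t (r p) ρ

/-- The functional `Φ` on `W` is good for the endomorphism `e`: all additive functionals on the image of `e` are
obtained from the maps in `X`. -/
def GoodF {A V W : Type*} [Ring A] [AddCommGroup V] [Module A V] [AddCommGroup W] [Module A W]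
    (X : AddSubgroup (V →ₗ[A] W)) (Φ : W →+ ZMod 2) (e : V →ₗ[A] V) : Prop :=
  ∀ l : V →+ ZMod 2, ∃ x ∈ X, ∀ v, Φ (x (e v)) = l (e v)

/-- The submodule generated by the images of the range of `e` under the maps in `X`. -/
def Zm {A V W : Type*} [Ring A] [AddCommGroup V] [Module A V] [AddCommGroup W] [Module A W]
    (X : AddSubgroup (V →ₗ[A] W)) (e : V →ₗ[A] V) : Submodule A W :=
  Submodule.span A {w | ∃ x ∈ X, ∃ v, w = x (e v)}

end H88D8.SS
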