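import Pool.Agent.H88.SS.Pb
import Pool.Agent.H88.D8.Gc

/-!
ROW Gc (project MP_78d38b_SS, about 80 lines): the curves in the progressions.

PROOF. Modification of the PROVED theorem `H88D8.exists_dat8p` in `Pool/Agent/H88/D8/Gc.lean`: `exists_prescS` (row Pb) instead of `H30T8.exists_presc`, and the finite set given to `exists_B` also contains the rational primes `rp w` below the places `w` of `M` with `w.asIdeal ∣ differentIdeal ℤ (𝓞 M)` (finitely many: `Ideal.finite_factors`, see the
private lemmas `Fa_ram`, `Fa_unr` in `Pool/Agent/H30/T8/Fa.lean`), so that `unM` holds: for a prime `q ∉ B` and `rp w = q` the place `w` does not divide the different, so its ramification index is one. `balT` is the last conclusion of `exists_prescS`.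
-/

set_option autoImplicit false
set_option linter.unusedSectionVars false
open scoped Classical

open WithZero NumberField IsDedekindDomain H38RT H88T7 H88T8 H90T8
open H38T1 (SC sc scu scu_surj sc_mul sc_of_ne sc_surj rep rep_ne sc_rep sc_eq_zero eo la si Pri tp OddP
  LD XX XX' NS ov rp SqMod)

namespace H88D8.SS

variable {K M : Type} [Field K] [NumberField K] [Field M] [NumberField M]

private theorem Gc_ram (K : Type) [Field K] [NumberField K] :
    {v : HeightOneSpectrum (𝓞 K) | v.asIdeal ∣ differentIdeal ℤ (𝓞 K)}.Finite := by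
  refine Ideal.finite_factors ?_
  exact differentIdeal_ne_bot

private theorem Gc_unr (K : Type) [Field K] [NumberField K] (v : HeightOneSpectrum (𝓞 K))
    (h : ¬ v.asIdeal ∣ differentIdeal ℤ (𝓞 K)) : v.asIdeal.ramificationIdx ℤ = 1 := by
  have h1 : Algebra.IsUnramifiedAt ℤ v.asIdeal := not_dvd_differentIdeal_iff.1 h
  exact Ideal.ramificationIdx_eq_one v.asIdeal ℤ

theorem exists_datS (hodd : Odd (Module.finrank ℚ K)) (hL : BigL K M) :
    ∃ (B : Finset ℕ) (b m : ℕ), 0 < b ∧ 0 < m ∧ 2 ∣ m ∧ 3 ∣ m ∧ 5 ∣ m ∧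
      (∀ q : ℕ, q.Prime → q ∣ m → ∀ s t : ℕ,
        ¬ (q : ℤ) * q ∣ ((b : ℤ) + m * t) * ((1 + 4 * (m : ℤ) * s) ^ 2 - 64 * (b + m * t))) ∧
      ∀ s t : ℕ, (1 + 4 * (m : ℤ) * s) ^ 2 < 64 * (b + m * t) →
        Squarefree (((b : ℤ) + m * t) * ((1 + 4 * (m : ℤ) * s) ^ 2 - 64 * (b + m * t))) →
        ∃ Qa Qb : Finset ℕ, DatS K M B (1 + 4 * (m : ℤ) * s) ((b : ℤ) + m * t) Qa Qb := by
  obtain ⟨B, hB, hFB, hBp, -⟩ := H88T7.exists_B K hodd
    ({2, 3, 5} ∪ (H30T8.Fg_fin hL).toFinset.image rp ∪ (Gc_ram M).toFinset.image rp) (by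
      intro q hq
      rw [Finset.mem_union, Finset.mem_union, Finset.mem_image, Finset.mem_image] at hq
      rcases hq with (hq | ⟨v, -, rfl⟩) | ⟨v, -, rfl⟩
      · simp only [Finset.mem_insert, Finset.mem_singleton] at hq
        rcases hq with rfl | rfl | rfl
        · exact Nat.prime_two
        · exact Nat.prime_three
        · exact Nat.prime_five
      · exact H38T1.rp_prime v
      · exact H38T1.rp_prime v)
  obtain ⟨Qa, Qb, h1, h2, h3, h4, h5, h6, h7, h8⟩ := exists_prescS hodd hL B
  obtain ⟨b, m, p0, pm, p2, p3, p5, hp⟩ := exists_prog2 B Qa Qb hBp (hFB (by simp)) (hFB (by simp))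
    (hFB (by simp)) h1 (fun q hq => ⟨(h2 q hq).1, (h2 q hq).2.2⟩)
  refine ⟨B, b, m, p0, pm, p2, p3, p5, fun q hq hqm s t => (hp s t).1 q hq hqm,
    fun s t hlt ht => ⟨Qa, Qb, ?_⟩⟩
  obtain ⟨-, b1, b4, b5, b6⟩ := hp s t
  exact
    { odd := hodd
      two := hB.two
      unr := hB.unr
      quad := by
        intro d hd v hv
        by_contra hne
        apply hv
        refine hFB (Finset.mem_union_left _ (Finset.mem_union_right _
          (Finset.mem_image_of_mem _ ?_)))
        exact (Set.Finite.mem_toFinset _).2 ⟨d, hd, hne⟩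
      exo := h6
      a4 := by
        rw [show 1 + 4 * (m : ℤ) * s = 1 + 4 * ((m : ℤ) * s) by ring]
        omega
      bo := b1
      pos := by positivity
      lt := hlt
      cop := cop_of_sqf ht
      sqf := ht
      co := b4
      pa := fun q hq => ⟨(h2 q (Finset.mem_union_left _ hq)).1, b5 q hq⟩
      pb := fun q hq => ⟨(h2 q (Finset.mem_union_right _ hq)).1, b6 q hq⟩
      na := h3
      nb := h4
      card := h5
      bal := h7
      unM := by
        intro q hq hqB w hw
        refine Gc_unr M w fun h => hqB ?_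
        rw [← hw]
        refine hFB (Finset.mem_union_right _ (Finset.mem_image_of_mem _ ?_))
        exact (Set.Finite.mem_toFinset _).2 h
      balT := h8 }

end H88D8.SS
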