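import Pool.Agent.H88.SS.Rf
import Pool.Agent.H88.SS.Hb
import Pool.Agent.H88.SS.Cb
import Pool.Agent.H88.D8.P2

/-!
ROW P2 (project MP_78d38b_SS, about 130 lines): the invariant of phase 2.

PROOF. num2S: `numK`, `numQ`, `card_X8'`, `rat_X8'`, `dat8_rat`, `st8_rat` (`H88/D8/Mb.lean`, `Ah.lean`) exactly as in `num2` in `Pool/Agent/H88/D8/P2.lean`: `2 * 2 ^ (N P') = |XX(K)| * 2 ^ (N P)` and `2 * 2 ^ P' = |XX(ℚ)| * 2 ^ P`; `|XX(ℚ)| ≥ 2` (`two_le8`) gives `P ≤ P'`, then cancel.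
invS_step: `A = {c ∈ XX (L8 .. Pp ..) | hk c = c}` and `A' = {c ∈ XX (L8 .. (insert p Pp) ..) | hk c = c}`; `XX_insP8` (`H88/D8/Ma.lean`): `XX (insert p Pp)` is the set of `c ∈ XX` with `la v c = 0` for `v ∈ ov K {p}`. `A` is a finite subgroup (`sub8`, `fin8`), the map `Θ : A → (H → ZMod 2)`, `c ↦ (σ ↦ la (pq K M p σ) c)` is
additive (`H38T1.la_add`, `p ≠ 2`) with kernel `A'` (`ov K {p}` is the set of the `pq K M p σ`: `pq_surj`, `pq_mem`), and its image lies in `{u | t.mulVec u = u}`, which has `2 ^ t.rank` elements (`fb_inj` with `π = id`, or directly): `la (pq σ) c = la (pq σ) (hk c) = ∑ τ, t σ τ * la (pq τ) c`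
(`la_hk_tot`, row Rf; `eo v c = 0` for `v` above `p` because these are not in `Sg`, `P'`: `Ah8_SP`/`good8` for the state `insert p Pp`, or `p ∤ 2 β D`, `p ∉ Pp'`, `H38T1.mem_ov`; `hu` from `hD.unM`, `hS'.nB`). So `|A| ≤ 2 ^ t.rank * |A'|`, and `(insert p Pp).card = Pp.card + 1 ≤ Pp'.card`.
-/

set_option autoImplicit false
set_option linter.unusedSectionVars false
open scoped Classical

open WithZero NumberField IsDedekindDomain H38RT H88T7 H88T8 H90T8
open H38T1 (SC sc scu scu_surj sc_mul sc_of_ne sc_surj rep rep_ne sc_rep sc_eq_zero eo la si Pri tp OddP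
  LD XX XX' NS ov rp SqMod)

namespace H88D8.SS

variable {K M : Type} [Field K] [NumberField K] [Field M] [NumberField M]

variable {B : Finset ℕ} {a β : ℤ} {Qa Qb Pp Pp' : Finset ℕ}

/-- The invariant: all parts of the first Selmer group have at least the expected size. -/
def InvS (hL : BigL K M) (a β : ℤ) (Qa Qb Pp Pp' : Finset ℕ) : Prop :=
  ∀ (t : Matrix (K →ₐ[ℚ] M) (K →ₐ[ℚ] M) (ZMod 2)) (ht : Pr t),
    2 ^ (t.rank * (Pp'.card - Pp.card)) ≤
      {c | c ∈ XX (L8 K a β Qa Qb Pp Pp') ∧ hk hL ht.inv c = c}.ncard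

private lemma P2_num {N P P' x w : ℕ} (hx : 1 ≤ x)
    (e1 : 1 + N * P' = x + w + N * P) (e2 : 1 + P' = x + P) :
    P ≤ P' ∧ x + w = 1 + N * (P' - P) ∧ x = 1 + (P' - P) := by
  obtain ⟨m, rfl⟩ : ∃ m, x = 1 + m := ⟨x - 1, by omega⟩
  have e3 : P' = m + P := by omega
  subst e3
  refine ⟨by omega, ?_, by omega⟩
  rw [Nat.add_sub_cancel]
  have e4 : N * (m + P) = N * m + N * P := by ring
  rw [e4] at e1
  omega

theorem num2S {QK : AddSubgroup (SC ℚ)} {E0 : Set (SC K)} (hD : Dat8 K B QK E0 a β Qa Qb)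
    (hS : St8 K B a β Pp Pp') (hN : NS (PP8 K a β Qa Qb Pp Pp') ⊆ {(0 : SC K)})
    (h : XX' (L8 K a β Qa Qb Pp Pp') ⊆ {0, sc ((a ^ 2 - 64 * β : ℤ) : K)}) :
    Pp.card ≤ Pp'.card ∧
      (XX (L8 K a β Qa Qb Pp Pp')).ncard =
        2 ^ (1 + Module.finrank ℚ K * (Pp'.card - Pp.card)) ∧
      (XX (L8 ℚ a β Qa Qb Pp Pp')).ncard = 2 ^ (1 + (Pp'.card - Pp.card)) := by
  obtain ⟨⟨x, hx⟩, w, hw⟩ := pow8 hD hS
  have e1 := numK hD hS hN
  rw [card_X8' hD hS h, split8 hD hS, hx, hw] at e1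
  have e2 := numQ hD hS
  rw [card_X8' (dat8_rat hD) (st8_rat hS) (rat_X8' hD hS h), hx] at e2
  have e3 := two_le8 hD hS
  rw [hx] at e3
  have hx1 : 1 ≤ x := by
    rcases Nat.eq_zero_or_pos x with h0 | h0
    · rw [h0, pow_zero] at e3
      omega
    · exact h0
  have e1' : 1 + Module.finrank ℚ K * Pp'.card = x + w + Module.finrank ℚ K * Pp.card := by
    apply Nat.pow_right_injective (le_refl 2)
    show 2 ^ (1 + Module.finrank ℚ K * Pp'.card) = 2 ^ (x + w + Module.finrank ℚ K * Pp.card)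
    rw [pow_add, pow_add, pow_add, pow_one]
    exact e1
  have e2' : 1 + Pp'.card = x + Pp.card := by
    apply Nat.pow_right_injective (le_refl 2)
    show 2 ^ (1 + Pp'.card) = 2 ^ (x + Pp.card)
    rw [pow_add, pow_add, pow_one]
    exact e2
  obtain ⟨h1, h2, h3⟩ := P2_num hx1 e1' e2'
  refine ⟨h1, ?_, ?_⟩
  · rw [split8 hD hS, hx, hw, ← pow_add, h2]
  · rw [hx, h3]

private lemma P2_card {H : Type*} [Fintype H] {t : Matrix H H (ZMod 2)} (ht : t * t = t) :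
    Nat.card {u : H → ZMod 2 // t.mulVec u = u} = 2 ^ t.rank := by
  rw [← fb_inj ht (π := (id : H → H)) Function.injective_id]
  unfold fb
  refine Nat.card_congr (Equiv.subtypeEquiv (Equiv.refl _) ?_)
  intro u
  constructor
  · intro h
    refine ⟨h, ?_⟩
    rintro σ τ hστ
    have h1 : σ = τ := hστ
    rw [h1]
  · intro h
    exact h.1

theorem invS_step (hL : BigL K M) (hD : DatS K M B a β Qa Qb) (hS : St8 K B a β Pp Pp') {p : ℕ}
    (hS' : St8 K B a β (insert p Pp) Pp') (hp : p ∉ Pp) (hlt : Pp.card < Pp'.card)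
    (hI : InvS hL a β Qa Qb Pp Pp') : InvS hL a β Qa Qb (insert p Pp) Pp' := by
  intro t ht
  have hD8 := hD.toDat8
  have hG := good8 hD8 hS'
  have hpm : p ∈ insert p Pp ∪ Pp' := Finset.mem_union_left _ (Finset.mem_insert_self _ _)
  have hT : Tot K p := hS'.tot p hpm
  have hpp : p.Prime := hT.1
  have hu : UnM M p := hD.unM p hpp (hS'.nB p hpm)
  have hsin : ∀ q ∈ ({p} : Set ℕ), q.Prime := by
    intro q hq
    rw [Set.mem_singleton_iff.1 hq]
    exact hpp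
  have hmem : ∀ v : HeightOneSpectrum (𝓞 K), v ∈ ov K {p} ↔ rp v = p := by
    intro v
    rw [H38T1.mem_ov hsin, Set.mem_singleton_iff]
  have hodd : ∀ σ : K →ₐ[ℚ] M, OddP (pq K M p σ) := by
    intro σ
    rw [H38T1.oddP_iff, rp_pq hpp]
    exact hT.2.1
  have hvP : ∀ v : HeightOneSpectrum (𝓞 K), rp v = p →
      v ∈ (L8 K a β Qa Qb (insert p Pp) Pp').P := by
    intro v hv
    rw [P_ins8.1]
    exact Or.inr ((hmem v).2 hv)
  have heo : ∀ c ∈ XX (L8 K a β Qa Qb Pp Pp'), ∀ v : HeightOneSpectrum (𝓞 K), rp v = p →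
      eo v c = 0 := by
    intro c hc v hv
    refine hc.1 v ?_ ?_
    · intro h
      exact Set.disjoint_left.1 hG.d1 h (hvP v hv)
    · intro h
      exact Set.disjoint_left.1 hG.d3 (hvP v hv) h
  obtain ⟨G, hGX⟩ := sub8 hD8 hS
  have hGm : ∀ c, c ∈ G ↔ c ∈ XX (L8 K a β Qa Qb Pp Pp') := by
    intro c
    rw [← hGX]
    rfl
  obtain ⟨H, hH⟩ : ∃ H : AddSubgroup (SC K), H = G ⊓ (hk hL ht.inv - AddMonoidHom.id (SC K)).ker :=
    ⟨_, rfl⟩
  have hHm : ∀ c, c ∈ H ↔ c ∈ XX (L8 K a β Qa Qb Pp Pp') ∧ hk hL ht.inv c = c := by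
    intro c
    rw [hH, AddSubgroup.mem_inf, hGm, AddMonoidHom.mem_ker, AddMonoidHom.sub_apply,
      AddMonoidHom.id_apply, sub_eq_zero]
  have hfX := fin8 hD8 hS
  have hfH : (H : Set (SC K)).Finite := hfX.subset fun c hc => ((hHm c).1 hc).1
  have : Finite H := hfH.to_subtype
  obtain ⟨φ, hφ⟩ : ∃ φ : H →+ ((K →ₐ[ℚ] M) → ZMod 2),
      ∀ (x : H) (σ : K →ₐ[ℚ] M), φ x σ = la (pq K M p σ) (x : SC K) :=
    ⟨AddMonoidHom.mk' (fun x σ => la (pq K M p σ) (x : SC K)) (by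
      intro x y
      funext σ
      exact H38T1.la_add (hodd σ) _ _), fun _ _ => rfl⟩
  have hran : ∀ x : H, t.mulVec (φ x) = φ x := by
    intro x
    obtain ⟨hx1, hx2⟩ := (hHm x).1 x.2
    funext σ
    have h1 := la_hk_tot hL hT hu ht.inv (heo _ hx1) σ
    rw [hx2] at h1
    rw [hφ, h1]
    show ∑ τ, t σ τ * φ x τ = _
    refine Finset.sum_congr rfl fun τ _ => ?_
    rw [hφ]
  have hcr : Nat.card φ.range ≤ 2 ^ t.rank := by
    rw [← P2_card ht.idem]
    refine Nat.card_le_card_of_injective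
      (fun u : φ.range => (⟨u.1, ?_⟩ : {u : (K →ₐ[ℚ] M) → ZMod 2 // t.mulVec u = u})) ?_
    · obtain ⟨x, hx⟩ := u.2
      rw [← hx]
      exact hran x
    · intro u u' h
      exact Subtype.ext (Subtype.mk.inj h)
  have hcard : Nat.card H ≤ 2 ^ t.rank * Nat.card φ.ker := by
    rw [← AddSubgroup.card_mul_index φ.ker, AddSubgroup.index_ker, mul_comm]
    exact Nat.mul_le_mul_right _ hcr
  have hset : {c | c ∈ XX (L8 K a β Qa Qb (insert p Pp) Pp') ∧ hk hL ht.inv c = c} =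
      (fun x : H => (x : SC K)) '' (φ.ker : Set H) := by
    ext y
    constructor
    · rintro ⟨hy, hy'⟩
      rw [XX_insP8] at hy
      obtain ⟨hy1, hy2⟩ := hy
      refine ⟨⟨y, (hHm y).2 ⟨hy1, hy'⟩⟩, ?_, rfl⟩
      rw [SetLike.mem_coe, AddMonoidHom.mem_ker]
      funext σ
      rw [hφ]
      exact hy2 _ (pq_mem hpp σ)
    · rintro ⟨x, hx, rfl⟩
      rw [SetLike.mem_coe, AddMonoidHom.mem_ker] at hx
      obtain ⟨hx1, hx2⟩ := (hHm x).1 x.2
      refine ⟨?_, hx2⟩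
      show (x : SC K) ∈ XX (L8 K a β Qa Qb (insert p Pp) Pp')
      rw [XX_insP8]
      refine ⟨hx1, ?_⟩
      intro v hv
      obtain ⟨σ, hσ⟩ := pq_surj hL hpp ((hmem v).1 hv)
      rw [← hσ, ← hφ, hx]
      rfl
  have hset2 : {c | c ∈ XX (L8 K a β Qa Qb Pp Pp') ∧ hk hL ht.inv c = c} = (H : Set (SC K)) := by
    ext y
    exact (hHm y).symm
  have h1 := hI t ht
  rw [hset2, ← Nat.card_coe_set_eq] at h1
  rw [hset, Set.ncard_image_of_injective _ Subtype.val_injective, ← Nat.card_coe_set_eq,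
    Finset.card_insert_of_notMem hp]
  have h2 : 2 ^ (t.rank * (Pp'.card - Pp.card)) ≤ 2 ^ t.rank * Nat.card φ.ker :=
    h1.trans hcard
  have h3 : Pp'.card - Pp.card = (Pp'.card - (Pp.card + 1)) + 1 := by omega
  rw [h3, mul_add, mul_one, pow_add, mul_comm] at h2
  exact Nat.le_of_mul_le_mul_left h2 (by positivity)

end H88D8.SS
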