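import Pool.Agent.H88.SS.P0
import Pool.Agent.H88.SS.P1
import Pool.Agent.H88.SS.P2
import Pool.Agent.H88.SS.Bc

/-!
ROW P3 (project MP_78d38b_SS, about 150 lines): phase 2 and the algorithm.

PROOF. Modification of the PROVED file `Pool/Agent/H88/D8/P3.lean` (`sub_XW`, `step2`, `phase2`, `algo8`): replace the invariant on the cardinality by `InvS` (row P2). step2S: let `m = Pp'.card - Pp.card`. By `num2S` `|XX(K)| = 2 ^ (1 + N m)`; if `m = 0` then `|XX(K)| = 2` and `XX(K) = {0, sc β}` (`sub8`, `beta_mem8`, `ne8`; as in the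
proof of `num2` in `D8/P2.lean`), contradiction to `hX`. So `m ≥ 1`, `|XX(ℚ)| ≥ 4`, and there is `r ∈ XX(ℚ)`, `r ≠ 0, sc β`. `X` with `(X : Set) = XW8` (`sub_XW`; it is in `Pool/Agent/H88/D8/P3.lean`, copy it). `hA.cS X`: finite, `nm = 0`, `E0` (`exo_X8`) as in `step2`; stable: `hk_XX` (row Rf) and `nm_hk_zero` (row Hb); the bound:
`{x | x ∈ X ∧ hk x = x} = {c | c ∈ XX ∧ hk c = c}` by `nm_of_fix` (row Hb), and `hI t ht` with `m ≥ 1` (`2 ^ rank ≤ 2 ^ (rank * m)`). The rest of `step2` is unchanged (`sepP8`, `exists_new8`, `st_insP8`, `NS_mono`, `idx2`, `XX_insP8`, `numK`, `card_X8'`, `eq_X8'`); the new state has `InvS` by `invS_step`. phase2S: induction on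
`(XX (L8 ..)).ncard` as in `phase2`, carrying `InvS`. algoS: `phase0`, `phase1` (files `P0`, `P1` of this folder), `NS_mono` as in `algo8`; `InvS` for `Pp = ∅` is `lowXX` (row Bc).
-/

set_option autoImplicit false
set_option linter.unusedSectionVars false
open scoped Classical

open WithZero NumberField IsDedekindDomain H38RT H88T7 H88T8 H90T8
open H38T1 (SC sc scu scu_surj sc_mul sc_of_ne sc_surj rep rep_ne sc_rep sc_eq_zero eo la si Pri tp OddP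
  LD XX XX' NS ov rp SqMod)

namespace H88D8.SS

variable {K M : Type} [Field K] [NumberField K] [Field M] [NumberField M]

variable {B : Finset ℕ} {a β : ℤ} {Qa Qb Pp Pp' : Finset ℕ}

/-- The norm-zero part as a subgroup. -/
theorem P3_sub_XW {QK : AddSubgroup (SC ℚ)} {E0 : Set (SC K)} (hD : Dat8 K B QK E0 a β Qa Qb)
    (hS : St8 K B a β Pp Pp') :
    ∃ X : AddSubgroup (SC K), (X : Set (SC K)) = XW8 K a β Qa Qb Pp Pp' := by
  obtain ⟨H, hH⟩ := sub8 hD hS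
  refine ⟨H ⊓ (nm K).ker, ?_⟩
  ext c
  constructor
  · rintro ⟨h1, h2⟩
    refine ⟨?_, h2⟩
    rw [← hH]
    exact h1
  · rintro ⟨h1, h2⟩
    rw [← hH] at h1
    exact ⟨h1, h2⟩

theorem P3_lt {QK : AddSubgroup (SC ℚ)} {E0 : Set (SC K)} (hD : Dat8 K B QK E0 a β Qa Qb)
    (hS : St8 K B a β Pp Pp') (hN : NS (PP8 K a β Qa Qb Pp Pp') ⊆ {(0 : SC K)})
    (h : XX' (L8 K a β Qa Qb Pp Pp') ⊆ {0, sc ((a ^ 2 - 64 * β : ℤ) : K)})
    (hX : ¬ XX (L8 K a β Qa Qb Pp Pp') ⊆ {0, sc (β : K)}) :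
    Pp.card < Pp'.card ∧ 4 ≤ (XX (L8 ℚ a β Qa Qb Pp Pp')).ncard := by
  obtain ⟨h1, h2, h3⟩ := num2S hD hS hN h
  have hlt : Pp.card < Pp'.card := by
    by_contra hcon
    have h4 : Pp'.card - Pp.card = 0 := by omega
    apply hX
    have hc : (XX (L8 K a β Qa Qb Pp Pp')).ncard = 2 := by
      rw [h2, h4, mul_zero, add_zero, pow_one]
    obtain ⟨H, hH⟩ := sub8 hD hS
    have h0 : (0 : SC K) ∈ XX (L8 K a β Qa Qb Pp Pp') := by
      rw [← hH]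
      exact H.zero_mem
    have hs : ({(0 : SC K), sc (β : K)} : Set (SC K)) ⊆ XX (L8 K a β Qa Qb Pp Pp') := by
      rintro y (rfl | hy)
      · exact h0
      · rw [Set.mem_singleton_iff] at hy
        rw [hy]
        exact beta_mem8 hD hS
    have h1 := Set.eq_of_subset_of_ncard_le hs
      (by rw [hc, Set.ncard_pair (ne8 hD).1.symm]) (fin8 hD hS)
    rw [← h1]
  refine ⟨hlt, ?_⟩
  rw [h3]
  calc 4 = 2 ^ 2 := by norm_num
    _ ≤ _ := Nat.pow_le_pow_right (by norm_num) (by omega)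

theorem step2S (hL : BigL K M) (hD : DatS K M B a β Qa Qb) (hA : AdmS K M hL)
    (hS : St8 K B a β Pp Pp') (hN : NS (PP8 K a β Qa Qb Pp Pp') ⊆ {(0 : SC K)})
    (h : XX' (L8 K a β Qa Qb Pp Pp') ⊆ {0, sc ((a ^ 2 - 64 * β : ℤ) : K)})
    (hI : InvS hL a β Qa Qb Pp Pp')
    (hX : ¬ XX (L8 K a β Qa Qb Pp Pp') ⊆ {0, sc (β : K)}) :
    ∃ p, St8 K B a β (insert p Pp) Pp' ∧ NS (PP8 K a β Qa Qb (insert p Pp) Pp') ⊆ {(0 : SC K)} ∧
      XX' (L8 K a β Qa Qb (insert p Pp) Pp') ⊆ {0, sc ((a ^ 2 - 64 * β : ℤ) : K)} ∧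
      InvS hL a β Qa Qb (insert p Pp) Pp' ∧
      (XX (L8 K a β Qa Qb (insert p Pp) Pp')).ncard < (XX (L8 K a β Qa Qb Pp Pp')).ncard := by
  have hD8 := hD.toDat8
  obtain ⟨hlt, h4⟩ := P3_lt hD8 hS hN h hX
  have hβ : β ≠ 0 := hD8.pos.ne'
  obtain ⟨r, hr, hr0, hrb⟩ : ∃ r ∈ XX (L8 ℚ a β Qa Qb Pp Pp'), r ≠ 0 ∧ r ≠ sc (β : ℚ) := by
    by_contra hcon
    push Not at hcon
    have h5 : XX (L8 ℚ a β Qa Qb Pp Pp') ⊆ {0, sc (β : ℚ)} := by
      intro r hr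
      by_cases h0 : r = 0
      · exact Or.inl h0
      · exact Or.inr (hcon r hr h0)
    have h6 := Set.ncard_le_ncard h5 (Set.toFinite _)
    have h7 : ({0, sc (β : ℚ)} : Set (SC ℚ)).ncard ≤ 2 :=
      (Set.ncard_insert_le _ _).trans (by rw [Set.ncard_singleton])
    omega
  obtain ⟨Ψ, hΨ1, hΨ2, hΨ3, hΨ4⟩ := sepP8 hD8 hS hr hr0 hrb
  obtain ⟨X, hXW⟩ := P3_sub_XW hD8 hS
  have hXm : ∀ x, x ∈ X ↔ x ∈ XX (L8 K a β Qa Qb Pp Pp') ∧ nm K x = 0 := by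
    intro x
    rw [← SetLike.mem_coe, hXW]
    rfl
  have hinf := hA.cS X (by
      rw [hXW]
      exact (fin8 hD8 hS).subset fun c hc => hc.1)
    (fun x hx => ((hXm x).1 hx).2)
    (fun x hx hE => exo_X8 hD8 ((hXm x).1 hx).1 hE)
    (fun t ht x hx => (hXm _).2 ⟨hk_XX hL hD hS ht ((hXm x).1 hx).1,
      nm_hk_zero hD8.odd hL ht ((hXm x).1 hx).2⟩)
    (fun t ht => by
      have h5 := hI t ht
      have h6 : {x | x ∈ X ∧ hk hL ht.inv x = x} =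
          {c | c ∈ XX (L8 K a β Qa Qb Pp Pp') ∧ hk hL ht.inv c = c} := by
        ext x
        constructor
        · rintro ⟨h7, h8⟩
          exact ⟨((hXm x).1 h7).1, h8⟩
        · rintro ⟨h7, h8⟩
          exact ⟨(hXm x).2 ⟨h7, nm_of_fix hD8.odd hL ht h8⟩, h8⟩
      rw [h6]
      refine le_trans (Nat.pow_le_pow_right (by norm_num) ?_) h5
      exact Nat.le_mul_of_pos_right _ (by omega))
    {sc (β : ℚ), sc ((a ^ 2 - 64 * β : ℤ) : ℚ), r} Ψ hΨ1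
  obtain ⟨p, ⟨hp, hR, hf⟩, hnew, -⟩ := exists_new8 (B := B) (Pp := Pp) (Pp' := Pp') hβ
    (Ah8_neg hD8).ne hinf (fun p hp => hp.1) 0
  have hS' := st_insP8 hS hnew (fun v hv => by rw [hR _ (by simp) v hv, hΨ2])
    (fun v hv => by rw [hR _ (by simp) v hv, hΨ3]) hβ
  have hN' : NS (PP8 K a β Qa Qb (insert p Pp) Pp') ⊆ {(0 : SC K)} := (NS_mono PP_insP8).trans hN
  have hidx := idx2 hD8 hS hp (fun f hf0 => by
      obtain ⟨x, hx, hx2⟩ := hf f hf0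
      refine ⟨x, ?_, hx2⟩
      rw [← hXW]
      exact hx) (res_X8 hD8 hS hr) (fun v hv => by rw [hR _ (by simp) v hv, hΨ4])
  rw [← XX_insP8] at hidx
  have hnum := numK hD8 hS hN
  have hnum' := numK hD8 hS' hN'
  have hcard := card_X8' hD8 hS h
  have hpn : p ∉ Pp := fun h5 => hnew.new (Finset.mem_union_left _ h5)
  have hpos : 0 < (XX (L8 K a β Qa Qb Pp Pp')).ncard := by
    rw [Set.ncard_pos (fin8 hD8 hS)]
    exact ⟨_, res_X8 hD8 hS hr⟩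
  refine ⟨p, hS', hN', ?_, invS_step hL hD hS hS' hpn hlt hI, ?_⟩
  · apply eq_X8' hD8 hS'
    rw [Finset.card_insert_of_notMem hpn, mul_add, mul_one, pow_add, mul_comm (2 ^ _) (2 ^ _),
      ← mul_assoc, hidx, ← hnum, hcard] at hnum'
    exact Nat.eq_of_mul_eq_mul_right (by positivity) hnum'
  · have hodd := hD8.odd
    have h2 : 2 ≤ 2 ^ Module.finrank ℚ K := by
      calc 2 = 2 ^ 1 := rfl
        _ ≤ _ := Nat.pow_le_pow_right two_pos hodd.pos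
    have hpos' : 0 < (XX (L8 K a β Qa Qb (insert p Pp) Pp')).ncard := by
      by_contra hcon
      have h5 : (XX (L8 K a β Qa Qb (insert p Pp) Pp')).ncard = 0 := by omega
      rw [h5, zero_mul] at hidx
      omega
    rw [← hidx]
    nlinarith

theorem P3_phase2 (hL : BigL K M) (hD : DatS K M B a β Qa Qb) (hA : AdmS K M hL) (n : ℕ) :
    ∀ Pp : Finset ℕ, (XX (L8 K a β Qa Qb Pp Pp')).ncard = n → St8 K B a β Pp Pp' →
    NS (PP8 K a β Qa Qb Pp Pp') ⊆ {(0 : SC K)} →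
    XX' (L8 K a β Qa Qb Pp Pp') ⊆ {0, sc ((a ^ 2 - 64 * β : ℤ) : K)} →
    InvS hL a β Qa Qb Pp Pp' →
    ∃ Qp : Finset ℕ, St8 K B a β Qp Pp' ∧ XX (L8 K a β Qa Qb Qp Pp') ⊆ {0, sc (β : K)} ∧
      XX' (L8 K a β Qa Qb Qp Pp') ⊆ {0, sc ((a ^ 2 - 64 * β : ℤ) : K)} := by
  induction n using Nat.strong_induction_on with
  | _ n ih =>
    intro Pp hn hS hN h hI
    by_cases hX : XX (L8 K a β Qa Qb Pp Pp') ⊆ {0, sc (β : K)}
    · exact ⟨Pp, hS, hX, h⟩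
    · obtain ⟨p, h1, h2, h3, h5, h4⟩ := step2S hL hD hA hS hN h hI hX
      rw [hn] at h4
      exact ih _ h4 (insert p Pp) rfl h1 h2 h3 h5

theorem algoS (hL : BigL K M) (hD : DatS K M B a β Qa Qb) (hA : AdmS K M hL) (N₀ : ℕ) :
    ∃ Pp Pp' : Finset ℕ, St8 K B a β Pp Pp' ∧ (∃ p ∈ Pp', N₀ < p) ∧
      XX (L8 K a β Qa Qb Pp Pp') ⊆ {0, sc (β : K)} ∧
      XX' (L8 K a β Qa Qb Pp Pp') ⊆ {0, sc ((a ^ 2 - 64 * β : ℤ) : K)} := by
  have hD8 := hD.toDat8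
  obtain ⟨P0, hS0, ⟨p, hp, hpN⟩, hN0⟩ := phase0 hD8 hA.toAdmW N₀
  obtain ⟨P1, h01, hS1, hX1⟩ := phase1 hD8 hA.toAdmW hS0
  have hN1 : NS (PP8 K a β Qa Qb ∅ P1) ⊆ {(0 : SC K)} := by
    refine (NS_mono ?_).trans hN0
    unfold PP8
    refine Set.union_subset_union (subset_refl _) ?_
    rintro v ⟨q, hq, hv⟩
    refine ⟨q, ?_, hv⟩
    rcases hq with hq | hq
    · exact Or.inl hq
    · exact Or.inr (h01 hq)
  have hI : InvS hL a β Qa Qb ∅ P1 := by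
    intro t ht
    rw [Finset.card_empty, Nat.sub_zero]
    exact lowXX hL hD hS1 ht
  obtain ⟨Qp, h1, h2, h3⟩ := P3_phase2 hL hD hA _ ∅ rfl hS1 hN1 hX1 hI
  exact ⟨Qp, P1, h1, ⟨p, h01 hp, hpN⟩, h2, h3⟩

end H88D8.SS
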