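import Pool.Agent.H88.SS.Fo
import Pool.Agent.H88.SS.P3
import Pool.Agent.H88.SS.Gc
import Pool.Agent.H88.SS.Ad
import Pool.Agent.H88.D8.Sw
import Pool.Agent.H88.T7.Gb

/-!
Assembly of the project MP_78d38b_SS (helper88).
-/

set_option autoImplicit false
set_option linter.unusedSectionVars false
open scoped Classical

open WithZero NumberField IsDedekindDomain H38RT H88T7 H88T8 H90T8
open H38T1 (SC sc scu scu_surj sc_mul sc_of_ne sc_surj rep rep_ne sc_rep sc_eq_zero eo la si Pri tp OddP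
  LD XX XX' NS ov rp SqMod)

namespace H88D8.SS

variable {K M : Type} [Field K] [NumberField K] [Field M] [NumberField M]

theorem mainS (hodd : Odd (Module.finrank ℚ K)) (hS : SemiK K) {S : Set (ℤ × ℤ)}
    (hS' : ∀ a β : ℤ, a % 4 = 1 → β % 2 = 1 → 0 < β → a ^ 2 < 64 * β → Squarefree β →
      (∃ (n : ℤ) (D : Set ℕ), GoodT K a (16 * β) n D) → (a, 16 * β) ∈ S) :
    ∃ c : ℝ, 0 < c ∧ ∃ X₀ : ℝ, ∀ X : ℝ, X₀ ≤ X → c * X ^ 3 ≤
      ({p : ℤ × ℤ | |(p.1 : ℝ)| ≤ X ∧ |(p.2 : ℝ)| ≤ X ^ 2 ∧ p ∈ S}.ncard : ℝ) := by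
  obtain ⟨M, _, _, hL, -⟩ := exists_bigL K ∅ ∅
  obtain ⟨B, b, m, h0, hm, h2, h3, h5, hq, hD⟩ := exists_datS hodd hL
  have hA := admS hodd hL hS
  refine dens2 h0 hm h2 h3 h5 hq fun s t hlt ht => ?_
  obtain ⟨Qa, Qb, hD'⟩ := hD s t hlt ht
  obtain ⟨Pp, Pp', hSt, -, hX, hX'⟩ := algoS hL hD' hA 0
  exact hS' _ _ hD'.a4 hD'.bo hD'.pos hlt (ht.of_mul_left)
    (good_of8 hD'.toDat8 hA.toAdmW hSt hX hX')

end H88D8.SS
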