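import Pool.Agent.H88.SS.Df

/-!
ROW Ha (project MP_78d38b_SS, about 130 lines): the rules for the Hecke operators. `H = (K →ₐ[ℚ] M)`, `hkm hL he x` is the element of `K`
with `σ (hkm hL he x) = ∏ τ, τ x ^ e σ τ` (`hkm_spec`), `emb_inj`: elements of `K` are determined by their conjugates, `hk hL ht (sc x) = sc (hkm hL (inv_vl ht) x)` (`hk_sc`), `sc_surj`: every class is `sc x`, `x ≠ 0`.

PROOF. hkm_ne: `hkm` is a monoid homomorphism, so it maps units to units (`scm_ne`). hkm_sq: let `g = (e + e') / 2` entrywise, invariant (`Nat` division), `e σ τ + e' σ τ = 2 * g σ τ` by the hypothesis (`ZMod` casts: parity). `hkm e x * hkm e' x = (hkm g x)^2`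
by `emb_inj`, `hkm_spec`, `Finset.prod_mul_distrib`, `pow_add`. So `sc (hkm e x) + sc (hkm e' x) = 0` (`sc_mul`, `sc_eq_zero`) and `c + c = 0` in `SC K` (`H38T1.SC.two_smul`).
hkm_mul: `hkm (e * e') x = hkm e (hkm e' x)` by `emb_inj`: `∏ τ, (∏ ρ, ρ x ^ e' τ ρ) ^ e σ τ = ∏ ρ, ρ x ^ ∑ τ, e σ τ * e' τ ρ` (`Finset.prod_comm`, `Finset.prod_pow_eq_pow_sum`). hkm_add: clear.
em_hk: `em σ (hk (sc x)) = sc (σ (hkm x)) = sc (∏ τ, τ x ^ (t σ τ).val) = ∑ τ, t σ τ • sc (τ x)` (`H90T8.Em_prod`, `em_sc`; for `t σ τ = 0, 1` separately: `sc 1 = 0`).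
hk_add, hk_mul, hk_one: from hkm_sq for suitable exponents: `vl (t + t')` and `vl t + vl t'`; `vl (t * t')` and `vl t * vl t'` (their casts to `ZMod 2` agree: `ZMod.natCast_zmod_val`, `Matrix.mul_apply`, `Nat.cast_sum`); `vl 1` and `fun σ τ => if σ = τ then 1 else 0`
whose operator is the identity. inv_mul: reindex the sum over `H` by `g` (`Fintype.sum_equiv (MulAction.toPerm g)`).
-/

set_option autoImplicit false
set_option linter.unusedSectionVars false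
open scoped Classical

open WithZero NumberField IsDedekindDomain H38RT H88T7 H88T8 H90T8
open H38T1 (SC sc scu scu_surj sc_mul sc_of_ne sc_surj rep rep_ne sc_rep sc_eq_zero eo la si Pri tp OddP
  LD XX XX' NS ov rp SqMod)

namespace H88D8.SS

variable {K M : Type} [Field K] [NumberField K] [Field M] [NumberField M]

variable {e e' : Matrix (K →ₐ[ℚ] M) (K →ₐ[ℚ] M) ℕ} {t t' : Matrix (K →ₐ[ℚ] M) (K →ₐ[ℚ] M) (ZMod 2)}

theorem hkm_ne (hL : BigL K M) (he : Inv e) {x : K} (hx : x ≠ 0) : hkm hL he x ≠ 0 :=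
  scm_ne _ hx

theorem inv_addN {R : Type*} [Add R] {a b : Matrix (K →ₐ[ℚ] M) (K →ₐ[ℚ] M) R} (ha : Inv a)
    (hb : Inv b) : Inv (a + b) := by
  intro g σ τ
  show a (g • σ) (g • τ) + b (g • σ) (g • τ) = a σ τ + b σ τ
  rw [ha, hb]

theorem inv_mulN {R : Type*} [NonUnitalNonAssocSemiring R] {a b : Matrix (K →ₐ[ℚ] M) (K →ₐ[ℚ] M) R}
    (ha : Inv a) (hb : Inv b) : Inv (a * b) := by
  intro g σ τ
  rw [Matrix.mul_apply, Matrix.mul_apply]
  symm
  refine Fintype.sum_equiv (MulAction.toPerm g) _ _ fun ρ => ?_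
  rw [MulAction.toPerm_apply, ha, hb]

theorem inv_one {R : Type*} [Zero R] [One R] : Inv (1 : Matrix (K →ₐ[ℚ] M) (K →ₐ[ℚ] M) R) := by
  intro g σ τ
  rw [Matrix.one_apply, Matrix.one_apply]
  by_cases h : σ = τ
  · rw [if_pos h, if_pos (congrArg (fun ρ => g • ρ) h)]
  · rw [if_neg h, if_neg fun h' => h ((smul_left_cancel_iff g).1 h')]

theorem inv_tr {R : Type*} {a : Matrix (K →ₐ[ℚ] M) (K →ₐ[ℚ] M) R} (ha : Inv a) :
    Inv a.transpose := by
  intro g σ τ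
  exact ha g τ σ

theorem hkm_add (hL : BigL K M) (he : Inv e) (he' : Inv e') (x : K) :
    hkm hL (inv_addN he he') x = hkm hL he x * hkm hL he' x := by
  refine emb_inj hL fun σ => ?_
  rw [hkm_spec, map_mul, hkm_spec, hkm_spec, ← Finset.prod_mul_distrib]
  refine Finset.prod_congr rfl fun τ _ => ?_
  rw [Matrix.add_apply, pow_add]

theorem hkm_mul (hL : BigL K M) (he : Inv e) (he' : Inv e') (x : K) :
    hkm hL (inv_mulN he he') x = hkm hL he (hkm hL he' x) := by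
  refine emb_inj hL fun σ => ?_
  rw [hkm_spec, hkm_spec]
  have h1 : ∀ τ : K →ₐ[ℚ] M, τ (hkm hL he' x) ^ e σ τ
      = ∏ ρ : K →ₐ[ℚ] M, ρ x ^ (e σ τ * e' τ ρ) := by
    intro τ
    rw [hkm_spec, ← Finset.prod_pow]
    refine Finset.prod_congr rfl fun ρ _ => ?_
    rw [← pow_mul, mul_comm]
  rw [Finset.prod_congr rfl fun τ _ => h1 τ, Finset.prod_comm]
  refine Finset.prod_congr rfl fun ρ _ => ?_
  rw [Finset.prod_pow_eq_pow_sum, Matrix.mul_apply]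

/-- The class depends only on the exponents modulo two. -/
theorem hkm_sq (hL : BigL K M) (he : Inv e) (he' : Inv e')
    (h : ∀ σ τ, ((e σ τ : ℕ) : ZMod 2) = ((e' σ τ : ℕ) : ZMod 2)) {x : K} (hx : x ≠ 0) :
    sc (hkm hL he x) = sc (hkm hL he' x) := by
  obtain ⟨m, hm⟩ : ∃ m : Matrix (K →ₐ[ℚ] M) (K →ₐ[ℚ] M) ℕ,
      ∀ σ τ, m σ τ = (e σ τ + e' σ τ) / 2 := ⟨fun σ τ => (e σ τ + e' σ τ) / 2, fun _ _ => rfl⟩
  have hg : Inv m := by
    intro g σ τ
    rw [hm, hm, he, he']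
  have h1 : hkm hL he x * hkm hL he' x = hkm hL hg x * hkm hL hg x := by
    refine emb_inj hL fun σ => ?_
    rw [map_mul, map_mul, hkm_spec, hkm_spec, hkm_spec, ← Finset.prod_mul_distrib,
      ← Finset.prod_mul_distrib]
    refine Finset.prod_congr rfl fun τ _ => ?_
    rw [← pow_add, ← pow_add]
    congr 1
    have h2 := (ZMod.natCast_eq_natCast_iff' _ _ 2).1 (h σ τ)
    rw [hm]
    omega
  have hne : hkm hL he x ≠ 0 := hkm_ne hL he hx
  have hne' : hkm hL he' x ≠ 0 := hkm_ne hL he' hx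
  have h3 : sc (hkm hL he x) + sc (hkm hL he' x) = 0 := by
    rw [← sc_mul hne hne', sc_eq_zero (mul_ne_zero hne hne'), h1]
    exact ⟨_, rfl⟩
  have h4 : sc (hkm hL he' x) + sc (hkm hL he' x) = 0 :=
    (two_nsmul _).symm.trans (H38T1.SC.two_smul _)
  exact add_right_cancel (h3.trans h4.symm)

theorem em_hk (hL : BigL K M) (ht : Inv t) (σ : K →ₐ[ℚ] M) (c : SC K) :
    em σ (hk hL ht c) = ∑ τ, t σ τ • em τ c := by
  obtain ⟨x, hx, rfl⟩ := sc_surj c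
  have hz : ∀ z : ZMod 2, z = 0 ∨ z = 1 := by decide
  have hτ : ∀ τ : K →ₐ[ℚ] M, τ x ≠ 0 := fun τ => (map_ne_zero τ).2 hx
  rw [hk_sc hL ht hx, em_sc _ (hkm_ne hL _ hx), hkm_spec,
    ← Em_prod Finset.univ _ fun τ _ => pow_ne_zero _ (hτ τ)]
  refine Finset.sum_congr rfl fun τ _ => ?_
  rw [em_sc _ hx]
  show sc (τ x ^ (t σ τ).val) = t σ τ • sc (τ x)
  rcases hz (t σ τ) with h | h
  · rw [h, zero_smul]
    show sc (τ x ^ (0 : ℕ)) = 0
    rw [pow_zero, sc_eq_zero one_ne_zero]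
    exact ⟨1, (mul_one 1).symm⟩
  · rw [h, one_smul]
    show sc (τ x ^ (1 : ℕ)) = sc (τ x)
    rw [pow_one]

theorem hk_add (hL : BigL K M) (ht : Inv t) (ht' : Inv t') (c : SC K) :
    hk hL (inv_addN ht ht') c = hk hL ht c + hk hL ht' c := by
  obtain ⟨x, hx, rfl⟩ := sc_surj c
  rw [hk_sc hL _ hx, hk_sc hL _ hx, hk_sc hL _ hx, ← sc_mul (hkm_ne hL _ hx) (hkm_ne hL _ hx),
    ← hkm_add hL (inv_vl ht) (inv_vl ht') x]
  refine hkm_sq hL _ _ (fun σ τ => ?_) hx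
  show (((t σ τ + t' σ τ).val : ℕ) : ZMod 2) = (((t σ τ).val + (t' σ τ).val : ℕ) : ZMod 2)
  rw [Nat.cast_add, ZMod.natCast_zmod_val, ZMod.natCast_zmod_val, ZMod.natCast_zmod_val]

theorem hk_mul (hL : BigL K M) (ht : Inv t) (ht' : Inv t') (c : SC K) :
    hk hL (inv_mulN ht ht') c = hk hL ht (hk hL ht' c) := by
  obtain ⟨x, hx, rfl⟩ := sc_surj c
  rw [hk_sc hL _ hx, hk_sc hL _ hx, hk_sc hL _ (hkm_ne hL _ hx),
    ← hkm_mul hL (inv_vl ht) (inv_vl ht') x]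
  refine hkm_sq hL _ _ (fun σ τ => ?_) hx
  show ((((t * t') σ τ).val : ℕ) : ZMod 2) = (((vl t * vl t') σ τ : ℕ) : ZMod 2)
  rw [ZMod.natCast_zmod_val, Matrix.mul_apply, Matrix.mul_apply, Nat.cast_sum]
  refine Finset.sum_congr rfl fun ρ _ => ?_
  show t σ ρ * t' ρ τ = (((t σ ρ).val * (t' ρ τ).val : ℕ) : ZMod 2)
  rw [Nat.cast_mul, ZMod.natCast_zmod_val, ZMod.natCast_zmod_val]

theorem hk_one (hL : BigL K M) (c : SC K) :
    hk hL (inv_one : Inv (1 : Matrix (K →ₐ[ℚ] M) (K →ₐ[ℚ] M) (ZMod 2))) c = c := by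
  obtain ⟨x, hx, rfl⟩ := sc_surj c
  have h1 : hkm hL (inv_one : Inv (1 : Matrix (K →ₐ[ℚ] M) (K →ₐ[ℚ] M) ℕ)) x = x := by
    refine emb_inj hL fun σ => ?_
    rw [hkm_spec, Finset.prod_eq_single σ]
    · rw [Matrix.one_apply_eq, pow_one]
    · intro τ _ hne
      rw [Matrix.one_apply_ne (Ne.symm hne), pow_zero]
    · intro h
      exact absurd (Finset.mem_univ σ) h
  rw [hk_sc hL _ hx]
  conv_rhs => rw [← h1]
  refine hkm_sq hL _ _ (fun σ τ => ?_) hx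
  show ((((1 : Matrix (K →ₐ[ℚ] M) (K →ₐ[ℚ] M) (ZMod 2)) σ τ).val : ℕ) : ZMod 2) = _
  rw [ZMod.natCast_zmod_val]
  by_cases h : σ = τ
  · rw [h, Matrix.one_apply_eq, Matrix.one_apply_eq, Nat.cast_one]
  · rw [Matrix.one_apply_ne h, Matrix.one_apply_ne h, Nat.cast_zero]

end H88D8.SS
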