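import Pool.Agent.H88.SS.Fb
import Pool.Agent.H90.T8.Ct

/-!
ROW Ka (project MP_78d38b_SS, about 150 lines, pure algebra): a functional which is good for one simple summand.

PROOF. `S = range e` is simple and finite. `X_e = {x ∘ e | x ∈ X}` is an additive subgroup of `V →ₗ[A] W`, contained in `X` (`hX`), finite. Every `y ∈ X_e` satisfies `y ∘ e = y`. (1) For `0 ≠ w ∈ S` the map
`X_e → W`, `y ↦ y w` is injective: if `y w = 0` then the kernel of `y` restricted to the simple module `S` is not zero, so it is `S` (`LinearMap.injective_or_eq_zero` for `y ∘ S.subtype`), and `y = y ∘ e = 0`.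
(2) `W` is a `ZMod 2`-module (`AddCommGroup.zmodModule`, from `hW`); additive maps to `ZMod 2` are linear (`AddMonoidHom.toZModLinearMap`, `LinearMap.toAddMonoidHom`). Let `Z` be the (finite) `ZMod 2`-span of all `y w`, `y ∈ X_e`,
`w ∈ S` (finite: `Submodule.fg_span`, `Module.finite_of_finite (ZMod 2)`, as in `exists_kappa_ne` in `Pool/Agent/H90/T8/Ct.lean`). Apply `H90T8.count_core` with `V := Z`, `R := ⊥`, `Ψ := 0`, `ι := {w : S // w ≠ 0}`,
`Y w := {y w | y ∈ X_e}` (a subgroup of `Z`; it has `card X_e` elements by (1)): `card ι = card S - 1 < card S ≤ card X_e = card (Y w)` by `hc`. So there is a functional `κ` on `Z` which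
is not zero on any `Y w`; extend it to `W` (`LinearMap.exists_extend`). (3) `B : S → Dual X_e`, `w ↦ (y ↦ κ (y w))` is injective by (2), so the transposed map is onto (`LinearMap.dualMap_surjective_of_injective`,
`Module.evalEquiv`, see the proof of `exists_kappa` in Ct.lean): for `l : V →+ ZMod 2` there is `y ∈ X_e` with `κ (y w) = l w` for all `w ∈ S`. `y = x ∘ e` with `x ∈ X`, so
`κ (x (e v)) = κ (y (e v)) = l (e v)` (as `y (e v) = x (e (e v)) = x (e v)`).
-/

set_option autoImplicit false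
set_option linter.unusedSectionVars false
open scoped Classical

namespace H88D8.SS

theorem Ka_core {P Q W : Type*} [AddCommGroup P] [Module (ZMod 2) P] [Finite P]
    [AddCommGroup Q] [Module (ZMod 2) Q] [Finite Q] [AddCommGroup W] [Module (ZMod 2) W]
    (b : P →ₗ[ZMod 2] Q →ₗ[ZMod 2] W) (hb : ∀ (q : Q) (p : P), q ≠ 0 → b p q = 0 → p = 0)
    (hc : Nat.card Q ≤ Nat.card P) :
    ∃ κ : Module.Dual (ZMod 2) W, ∀ l : Module.Dual (ZMod 2) Q, ∃ p : P, ∀ q, κ (b p q) = l q := by
  obtain ⟨Z, hZ⟩ : ∃ Z : Submodule (ZMod 2) W,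
    Z = Submodule.span (ZMod 2) (Set.range (fun p : P × Q => b p.1 p.2)) := ⟨_, rfl⟩
  have hbZ : ∀ p q, b p q ∈ Z := by
    intro p q
    rw [hZ]
    exact Submodule.subset_span ⟨(p, q), rfl⟩
  have hfin : Finite Z := by
    have h2 : Z.FG := by
      rw [hZ]
      exact Submodule.fg_span (Set.toFinite _)
    have : Module.Finite (ZMod 2) Z := Module.Finite.iff_fg.2 h2
    exact Module.finite_of_finite (ZMod 2)
  let _ : Fintype Q := Fintype.ofFinite Q
  have hι : Fintype.card {q : Q // q ≠ 0} < Nat.card P := by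
    refine lt_of_lt_of_le ?_ hc
    rw [Nat.card_eq_fintype_card]
    exact Fintype.card_subtype_lt (x := (0 : Q)) (fun h => h rfl)
  let e : ∀ q : Q, P →ₗ[ZMod 2] Z := fun q => LinearMap.codRestrict Z (b.flip q) (fun p => hbZ p q)
  have heinj : ∀ q : Q, q ≠ 0 → Function.Injective (e q) := by
    intro q hq
    rw [← LinearMap.ker_eq_bot, LinearMap.ker_eq_bot']
    intro x hx
    have h1 : b x q = 0 := congrArg Subtype.val hx
    exact hb q x hq h1
  obtain ⟨κ₀, h1, h2⟩ := H90T8.count_core (ι := {q : Q // q ≠ 0}) (⊥ : Submodule (ZMod 2) Z) 0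
    (fun w => LinearMap.range (e w.1)) (fun w => bot_inf_eq _) (by
      rintro ⟨w, hw⟩
      have h3 : Nat.card (LinearMap.range (e w)) = Nat.card P :=
        Nat.card_congr (LinearEquiv.ofInjective (e w) (heinj w hw)).symm.toEquiv
      rw [h3]
      exact hι)
  obtain ⟨κ, hκ⟩ := κ₀.exists_extend
  have hκ' : ∀ v : Z, κ (v : W) = κ₀ v := fun v => LinearMap.congr_fun hκ v
  have hne : ∀ q : Q, q ≠ 0 → ∃ p, κ (b p q) ≠ 0 := by
    intro q hq
    have h3 := h2 ⟨q, hq⟩
    rw [Submodule.mem_dualAnnihilator] at h3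
    push Not at h3
    obtain ⟨y, ⟨x, rfl⟩, hy⟩ := h3
    refine ⟨x, ?_⟩
    rw [← hκ'] at hy
    exact hy
  refine ⟨κ, fun l => ?_⟩
  let B : Q →ₗ[ZMod 2] Module.Dual (ZMod 2) P :=
    { toFun := fun q => κ ∘ₗ b.flip q
      map_add' := by
        intro a c
        ext x
        simp
      map_smul' := by
        intro c a
        ext x
        simp }
  have hB : Function.Injective B := by
    rw [← LinearMap.ker_eq_bot, LinearMap.ker_eq_bot']
    intro w hw
    by_contra hne'
    obtain ⟨x, hx⟩ := hne w hne'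
    exact hx (LinearMap.congr_fun hw x)
  obtain ⟨Λ, hΛ⟩ := LinearMap.dualMap_surjective_of_injective hB l
  have hfd : Module.Finite (ZMod 2) P := Module.Finite.of_finite
  obtain ⟨x, hx⟩ := (Module.evalEquiv (ZMod 2) P).surjective Λ
  refine ⟨x, fun w => ?_⟩
  have h4 := LinearMap.congr_fun hΛ w
  rw [LinearMap.dualMap_apply, ← hx] at h4
  exact h4

theorem good_simple {A V W : Type*} [Ring A] [AddCommGroup V] [Module A V] [AddCommGroup W]
    [Module A W] [Finite V] (hV : ∀ v : V, v + v = 0) (hW : ∀ w : W, w + w = 0)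
    (X : AddSubgroup (V →ₗ[A] W)) (hfin : (X : Set (V →ₗ[A] W)).Finite)
    (hX : ∀ x ∈ X, ∀ e : V →ₗ[A] V, x ∘ₗ e ∈ X) {e : V →ₗ[A] V} (he : e ∘ₗ e = e)
    [IsSimpleModule A (LinearMap.range e)]
    (hc : Nat.card (LinearMap.range e) ≤ {y | ∃ x ∈ X, y = x ∘ₗ e}.ncard) :
    ∃ Φ : W →+ ZMod 2, GoodF X Φ e := by
  obtain ⟨Xe, hXe⟩ : ∃ Xe : AddSubgroup (V →ₗ[A] W), ∀ y, y ∈ Xe ↔ y ∈ X ∧ y ∘ₗ e = y :=
    ⟨{ carrier := {y | y ∈ X ∧ y ∘ₗ e = y}
       add_mem' := by
         rintro a b ⟨ha, ha'⟩ ⟨hb, hb'⟩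
         refine ⟨X.add_mem ha hb, ?_⟩
         rw [LinearMap.add_comp, ha', hb']
       zero_mem' := ⟨X.zero_mem, LinearMap.zero_comp _⟩
       neg_mem' := by
         rintro a ⟨ha, ha'⟩
         refine ⟨X.neg_mem ha, ?_⟩
         rw [LinearMap.neg_comp, ha'] }, fun u => Iff.rfl⟩
  have hset : {y | ∃ x ∈ X, y = x ∘ₗ e} = (Xe : Set (V →ₗ[A] W)) := by
    ext y
    constructor
    · rintro ⟨x, hx, rfl⟩
      refine (hXe _).2 ⟨hX x hx e, ?_⟩
      rw [LinearMap.comp_assoc, he]
    · intro hy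
      obtain ⟨h1, h2⟩ := (hXe y).1 hy
      exact ⟨y, h1, h2.symm⟩
  have hfin' : Finite Xe := (hfin.subset fun y hy => ((hXe y).1 hy).1).to_subtype
  have hcard : Nat.card (LinearMap.range e) ≤ Nat.card Xe := by
    rw [hset] at hc
    exact hc
  let _ : Module (ZMod 2) W := AddCommGroup.zmodModule (fun w => by rw [two_nsmul]; exact hW w)
  let _ : Module (ZMod 2) (LinearMap.range e) := AddCommGroup.zmodModule
    (fun w => by
      rw [two_nsmul]
      exact Subtype.ext (hV w.1))
  let _ : Module (ZMod 2) Xe := AddCommGroup.zmodModule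
    (fun w => by
      rw [two_nsmul]
      apply Subtype.ext
      ext v
      exact hW (w.1 v))
  let bb : Xe → (LinearMap.range e →ₗ[ZMod 2] W) := fun y =>
    AddMonoidHom.toZModLinearMap 2
      { toFun := fun w => y.1 w.1
        map_zero' := map_zero y.1
        map_add' := fun a c => map_add y.1 a.1 c.1 }
  have hbb : ∀ y w, bb y w = y.1 w.1 := fun y w => rfl
  let b : Xe →ₗ[ZMod 2] LinearMap.range e →ₗ[ZMod 2] W :=
    AddMonoidHom.toZModLinearMap 2
      { toFun := bb
        map_zero' := by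
          ext w
          rw [hbb]
          rfl
        map_add' := by
          intro y z
          ext w
          rw [hbb, LinearMap.add_apply, hbb, hbb]
          rfl }
  have hb : ∀ y w, b y w = y.1 w.1 := fun y w => rfl
  obtain ⟨κ, hκ⟩ := Ka_core b (by
    intro q p hq h0
    rw [hb] at h0
    apply Subtype.ext
    obtain ⟨h1, h2⟩ := (hXe p.1).1 p.2
    rcases LinearMap.injective_or_eq_zero (p.1 ∘ₗ (LinearMap.range e).subtype) with h3 | h3
    · exfalso
      apply hq
      apply h3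
      rw [map_zero]
      exact h0
    · change p.1 = 0
      rw [← h2]
      ext v
      exact LinearMap.congr_fun h3 ⟨e v, v, rfl⟩) hcard
  refine ⟨κ.toAddMonoidHom, fun l => ?_⟩
  obtain ⟨p, hp⟩ := hκ (AddMonoidHom.toZModLinearMap 2
      { toFun := fun w : LinearMap.range e => l w.1
        map_zero' := map_zero l
        map_add' := fun a c => map_add l a.1 c.1 })
  refine ⟨p.1, ((hXe p.1).1 p.2).1, fun v => ?_⟩
  exact hp ⟨e v, v, rfl⟩


end H88D8.SS
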