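import Pool.Agent.H88.SS.Fb

/-!
ROW Kb (project MP_78d38b_SS, about 130 lines, pure algebra): properties of good functionals.

PROOF. good_congr: by definition. good_iso: let `a : V →ₗ V` be `v ↦ θ⁻¹ (e' v)` followed by the inclusion of `range e`, `b : V →ₗ V` be `v ↦ θ (e v)` followed by the inclusion of `range e'`; then `e ∘ a = a`, `b ∘ a = e'`
(as `e` is the identity on its range). Given `l`, apply the hypothesis to the functional `l ∘ b`: `x ∈ X` with `Φ (x (e v)) = l (b (e v))` for all `v`. Put `v := a v'`: `Φ (x (a v')) = l (b (a v')) =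
l (e' v')`. `x ∘ a ∈ X` and `(x ∘ a) (e' v') = x (a (e' v')) = x (a v')`. glue: as `ZMod 2`-spaces (`AddCommGroup.zmodModule`) `W₁ ⊓ W₂ = ⊥`, so there is a linear map on `W₁ ⊔ W₂` which is `Φ₁` on `W₁` and `Φ₂` on `W₂`
(e.g. the functional `Φ₁ - Φ₂` on `W₂`, zero on `W₁`: `Submodule`/`LinearMap.exists_extend`, `LinearPMap.sup`, or `Submodule.exists_isCompl`; one may also take a projection `p` of `W` onto `W₂` along a complement containing `W₁`: `Φ = Φ₁ ∘ (1 - p) + Φ₂ ∘ p`).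
simple_Zm: `Zm X e = sSup {P | ∃ x ∈ X, P = (range e).map x ∧ P ≠ ⊥}` and every such `P` is isomorphic to `range e` (a nonzero map from a simple module is injective); `Submodule.linearEquiv_of_le_sSup`
(`Mathlib/RingTheory/SimpleModule/Isotypic.lean`). simple_le: take `a ∈ I`, `n ∈ N` with `a • n ≠ 0`; `n = r + z` with `r ∈ R`, `z ∈ Z := ⨆ i ∈ s, Zm X (e i)` (`Submodule.mem_sup`), `a • n = a • z ∈ N ⊓ Z`, so `N ⊓ Z ≠ ⊥`
and `N ≤ Z` as `N` is simple (an atom). `Z` is the `sSup` of the simple modules `(range (e i)).map x ≠ ⊥`, `i ∈ s`, `x ∈ X`; `Submodule.linearEquiv_of_le_sSup`.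
-/

set_option autoImplicit false
set_option linter.unusedSectionVars false
open scoped Classical

namespace H88D8.SS

variable {A V W : Type*} [Ring A] [AddCommGroup V] [Module A V] [AddCommGroup W] [Module A W]

private theorem Kb_iso (x : V →ₗ[A] W) (e : V →ₗ[A] V) [IsSimpleModule A (LinearMap.range e)]
    (P : Submodule A W) (hP : P = (LinearMap.range e).map x) (h0 : P ≠ ⊥) :
    Nonempty (LinearMap.range e ≃ₗ[A] P) := by
  have hr : LinearMap.range (x.domRestrict (LinearMap.range e)) = P := by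
    rw [hP]
    exact LinearMap.range_domRestrict _ _
  rcases (x.domRestrict (LinearMap.range e)).injective_or_eq_zero with h | h
  · exact ⟨(LinearEquiv.ofInjective _ h).trans (LinearEquiv.ofEq _ _ hr)⟩
  · exfalso
    apply h0
    rw [← hr, h, LinearMap.range_zero]

private theorem Kb_mem {X : AddSubgroup (V →ₗ[A] W)} {e : V →ₗ[A] V} {x : V →ₗ[A] W} (hx : x ∈ X) (v : V) :
    x (e v) ∈ Zm X e := by
  unfold Zm
  exact Submodule.subset_span ⟨x, hx, v, rfl⟩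

private theorem Kb_le (X : AddSubgroup (V →ₗ[A] W)) (e : V →ₗ[A] V) :
    Zm X e ≤ sSup {P : Submodule A W | ∃ x ∈ X, P = (LinearMap.range e).map x ∧ P ≠ ⊥} := by
  unfold Zm
  rw [Submodule.span_le]
  rintro w ⟨x, hx, v, rfl⟩
  have hm : x (e v) ∈ (LinearMap.range e).map x := ⟨e v, ⟨v, rfl⟩, rfl⟩
  by_cases h0 : (LinearMap.range e).map x = ⊥
  · rw [h0, Submodule.mem_bot] at hm
    rw [hm]
    exact Submodule.zero_mem _
  · have h1 : (LinearMap.range e).map x ≤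
        sSup {P : Submodule A W | ∃ x ∈ X, P = (LinearMap.range e).map x ∧ P ≠ ⊥} :=
      le_sSup ⟨x, hx, rfl, h0⟩
    exact h1 hm

theorem good_congr {X : AddSubgroup (V →ₗ[A] W)} {Φ Φ' : W →+ ZMod 2} {e : V →ₗ[A] V}
    (h : ∀ w ∈ Zm X e, Φ w = Φ' w) (hg : GoodF X Φ e) : GoodF X Φ' e := by
  intro l
  obtain ⟨x, hx, h1⟩ := hg l
  refine ⟨x, hx, fun v => ?_⟩
  rw [← h _ (Kb_mem hx v)]
  exact h1 v

theorem good_iso {X : AddSubgroup (V →ₗ[A] W)} (hX : ∀ x ∈ X, ∀ e : V →ₗ[A] V, x ∘ₗ e ∈ X)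
    {Φ : W →+ ZMod 2} {e e' : V →ₗ[A] V} (he : e ∘ₗ e = e) (he' : e' ∘ₗ e' = e')
    (θ : LinearMap.range e ≃ₗ[A] LinearMap.range e') (hg : GoodF X Φ e) : GoodF X Φ e' := by
  obtain ⟨a, ha⟩ : ∃ a : V →ₗ[A] V, ∀ v, a v = ((θ.symm (e'.rangeRestrict v) : LinearMap.range e) : V) :=
    ⟨(LinearMap.range e).subtype ∘ₗ θ.symm.toLinearMap ∘ₗ e'.rangeRestrict, fun v => rfl⟩
  obtain ⟨b, hb⟩ : ∃ b : V →ₗ[A] V, ∀ v, b v = ((θ (e.rangeRestrict v) : LinearMap.range e') : V) :=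
    ⟨(LinearMap.range e').subtype ∘ₗ θ.toLinearMap ∘ₗ e.rangeRestrict, fun v => rfl⟩
  have hea : ∀ v, e (a v) = a v := by
    intro v
    rw [ha]
    obtain ⟨y, hy⟩ := (θ.symm (e'.rangeRestrict v)).2
    rw [← hy]
    exact LinearMap.congr_fun he y
  have hba : ∀ v, b (a v) = e' v := by
    intro v
    rw [hb]
    have h1 : e.rangeRestrict (a v) = θ.symm (e'.rangeRestrict v) := by
      apply Subtype.ext
      show e (a v) = _
      rw [hea, ha]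
    rw [h1, LinearEquiv.apply_symm_apply]
    rfl
  have hae : ∀ v, a (e' v) = a v := by
    intro v
    rw [ha, ha]
    have h1 : e'.rangeRestrict (e' v) = e'.rangeRestrict v := by
      apply Subtype.ext
      exact LinearMap.congr_fun he' v
    rw [h1]
  intro l
  obtain ⟨x, hx, h1⟩ := hg (l.comp b.toAddMonoidHom)
  refine ⟨x ∘ₗ a, hX x hx a, fun v => ?_⟩
  have h2 := h1 (a v)
  rw [hea] at h2
  have h3 : (l.comp b.toAddMonoidHom) (a v) = l (b (a v)) := rfl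
  rw [h3, hba] at h2
  show Φ (x (a (e' v))) = l (e' v)
  rw [hae]
  exact h2

theorem glue_fun (hW : ∀ w : W, w + w = 0) {W₁ W₂ : Submodule A W} (h : W₁ ⊓ W₂ = ⊥)
    (Φ₁ Φ₂ : W →+ ZMod 2) : ∃ Φ : W →+ ZMod 2, (∀ w ∈ W₁, Φ w = Φ₁ w) ∧ ∀ w ∈ W₂, Φ w = Φ₂ w := by
  let mod : Module (ZMod 2) W := AddCommGroup.zmodModule (n := 2) (fun w => by
    rw [two_nsmul]
    exact hW w)
  obtain ⟨U₁, hU₁⟩ : ∃ U : Submodule (ZMod 2) W, ∀ w, w ∈ U ↔ w ∈ W₁ :=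
    ⟨AddSubgroup.toZModSubmodule 2 W₁.toAddSubgroup, fun w => Iff.rfl⟩
  obtain ⟨U₂, hU₂⟩ : ∃ U : Submodule (ZMod 2) W, ∀ w, w ∈ U ↔ w ∈ W₂ :=
    ⟨AddSubgroup.toZModSubmodule 2 W₂.toAddSubgroup, fun w => Iff.rfl⟩
  obtain ⟨q, hq⟩ : ∃ q : U₂ →ₗ[ZMod 2] (W ⧸ U₁), ∀ u, q u = U₁.mkQ (u : W) :=
    ⟨U₁.mkQ ∘ₗ U₂.subtype, fun u => rfl⟩
  have hker : LinearMap.ker q = ⊥ := by
    rw [LinearMap.ker_eq_bot']
    intro u hu
    rw [hq] at hu
    have h1 : (u : W) ∈ U₁ := by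
      rwa [Submodule.mkQ_apply, Submodule.Quotient.mk_eq_zero] at hu
    have h2 : (u : W) ∈ W₁ ⊓ W₂ := ⟨(hU₁ _).1 h1, (hU₂ _).1 u.2⟩
    rw [h, Submodule.mem_bot] at h2
    exact Subtype.ext h2
  obtain ⟨g, hg⟩ := LinearMap.exists_leftInverse_of_injective q hker
  obtain ⟨t, ht⟩ : ∃ t : W →+ W, ∀ w, t w = ((g (U₁.mkQ w) : U₂) : W) :=
    ⟨(U₂.subtype ∘ₗ g ∘ₗ U₁.mkQ).toAddMonoidHom, fun w => rfl⟩
  have ht1 : ∀ w ∈ W₁, t w = 0 := by
    intro w hw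
    rw [ht]
    have h1 : U₁.mkQ w = 0 := by
      rw [Submodule.mkQ_apply, Submodule.Quotient.mk_eq_zero]
      exact (hU₁ w).2 hw
    rw [h1, map_zero]
    rfl
  have ht2 : ∀ w ∈ W₂, t w = w := by
    intro w hw
    rw [ht]
    have h1 : U₁.mkQ w = q ⟨w, (hU₂ w).2 hw⟩ := (hq ⟨w, (hU₂ w).2 hw⟩).symm
    rw [h1]
    have h2 := LinearMap.congr_fun hg ⟨w, (hU₂ w).2 hw⟩
    have h3 : g (q ⟨w, (hU₂ w).2 hw⟩) = ⟨w, (hU₂ w).2 hw⟩ := h2
    rw [h3]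
  refine ⟨Φ₁ + (Φ₂ - Φ₁).comp t, fun w hw => ?_, fun w hw => ?_⟩
  · rw [AddMonoidHom.add_apply, AddMonoidHom.comp_apply, ht1 w hw, map_zero, add_zero]
  · rw [AddMonoidHom.add_apply, AddMonoidHom.comp_apply, ht2 w hw, AddMonoidHom.sub_apply]
    abel

theorem simple_Zm (X : AddSubgroup (V →ₗ[A] W)) (e : V →ₗ[A] V)
    [IsSimpleModule A (LinearMap.range e)] (N : Submodule A W) [IsSimpleModule A N]
    (hN : N ≤ Zm X e) : Nonempty (N ≃ₗ[A] LinearMap.range e) := by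
  obtain ⟨S, hS⟩ : ∃ S : Set (Submodule A W),
      S = {P : Submodule A W | ∃ x ∈ X, P = (LinearMap.range e).map x ∧ P ≠ ⊥} := ⟨_, rfl⟩
  have hiso : ∀ P ∈ S, Nonempty (LinearMap.range e ≃ₗ[A] P) := by
    intro P hP
    rw [hS] at hP
    obtain ⟨x, -, h1, h2⟩ := hP
    exact Kb_iso x e P h1 h2
  have hsim : ∀ m : S, IsSimpleModule A m := by
    intro m
    obtain ⟨f⟩ := hiso m.1 m.2
    exact IsSimpleModule.congr f.symm
  have hle : N ≤ sSup S := by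
    rw [hS]
    exact hN.trans (Kb_le X e)
  obtain ⟨P, hP, ⟨f⟩⟩ := N.linearEquiv_of_le_sSup S hle
  obtain ⟨g⟩ := hiso P hP
  exact ⟨f.trans g.symm⟩

theorem simple_le {ι : Type*} (s : Finset ι) (X : AddSubgroup (V →ₗ[A] W)) (e : ι → (V →ₗ[A] V))
    (hs : ∀ i, IsSimpleModule A (LinearMap.range (e i))) (R : Submodule A W) (I : Set A)
    (hR : ∀ a ∈ I, ∀ r ∈ R, a • r = 0) (N : Submodule A W) [IsSimpleModule A N]
    (hN : ∃ a ∈ I, ∃ n ∈ N, a • n ≠ 0) (hle : N ≤ R ⊔ ⨆ i ∈ s, Zm X (e i)) :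
    ∃ i ∈ s, Nonempty (N ≃ₗ[A] LinearMap.range (e i)) := by
  obtain ⟨a, ha, n, hn, han⟩ := hN
  have hNZ : N ≤ ⨆ i ∈ s, Zm X (e i) := by
    obtain ⟨r, hr, z, hz, hrz⟩ := Submodule.mem_sup.1 (hle hn)
    have h1 : a • n = a • z := by
      rw [← hrz, smul_add, hR a ha r hr, zero_add]
    have h2 : a • n ∈ N ⊓ ⨆ i ∈ s, Zm X (e i) := by
      refine ⟨N.smul_mem a hn, ?_⟩
      rw [h1]
      exact Submodule.smul_mem _ a hz
    have hat : IsAtom N := isSimpleModule_iff_isAtom.1 inferInstance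
    rcases hat.le_iff.1 (inf_le_left : N ⊓ (⨆ i ∈ s, Zm X (e i)) ≤ N) with h3 | h3
    · rw [h3, Submodule.mem_bot] at h2
      exact absurd h2 han
    · rw [← h3]
      exact inf_le_right
  obtain ⟨S, hS⟩ : ∃ S : Set (Submodule A W),
      S = {P : Submodule A W | ∃ i ∈ s, ∃ x ∈ X, P = (LinearMap.range (e i)).map x ∧ P ≠ ⊥} := ⟨_, rfl⟩
  have hiso : ∀ P ∈ S, ∃ i ∈ s, Nonempty (LinearMap.range (e i) ≃ₗ[A] P) := by
    intro P hP
    rw [hS] at hP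
    obtain ⟨i, hi, x, -, h1, h2⟩ := hP
    have := hs i
    exact ⟨i, hi, Kb_iso x (e i) P h1 h2⟩
  have hsim : ∀ m : S, IsSimpleModule A m := by
    intro m
    obtain ⟨i, hi, ⟨f⟩⟩ := hiso m.1 m.2
    have := hs i
    exact IsSimpleModule.congr f.symm
  have hle2 : N ≤ sSup S := by
    refine hNZ.trans ?_
    refine iSup₂_le fun i hi => ?_
    refine (Kb_le X (e i)).trans ?_
    refine sSup_le_sSup ?_
    rintro P ⟨x, hx, h1, h2⟩
    rw [hS]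
    exact ⟨i, hi, x, hx, h1, h2⟩
  obtain ⟨P, hP, ⟨f⟩⟩ := N.linearEquiv_of_le_sSup S hle2
  obtain ⟨i, hi, ⟨g⟩⟩ := hiso P hP
  exact ⟨i, hi, ⟨f.trans g.symm⟩⟩

end H88D8.SS
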