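import Pool.Agent.H88.SS.Ka
import Pool.Agent.H88.SS.Kb

/-!
ROW Kc (project MP_78d38b_SS, about 130 lines, pure algebra): the counting lemma for semisimple modules.

PROOF. `V` is finite and semisimple: `IsSemisimpleModule.exists_linearEquiv_fin_dfinsupp` gives `E : V ≃ₗ[A] Π₀ i : Fin n, S i` with `S i` simple. Let `e i : V →ₗ[A] V` be `v ↦ E.symm (single i (E v i))`: `e i ∘ e i = e i`,
`range (e i) ≃ₗ S i` is simple, `∑ i, e i v = v`. Claim, by induction on the finite set `s ⊆ Fin n`: there is `Φ` with `Φ = Ψ` on `R` and `GoodF X Φ (e i)` for all `i ∈ s`. `s = ∅`: `Φ = Ψ`. Step: `Φ` for `s`, `j ∉ s`.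
Let `W' = R ⊔ ⨆ i ∈ s, Zm X (e i)`. Case 1: `W' ⊓ Zm X (e j) = ⊥`. `good_simple` (row Ka; `hc` for `e j`) gives `Φ₁` good for `e j`; `glue_fun` gives `Φ'` equal to `Φ` on `W'` and `Φ₁` on `Zm X (e j)`;
`good_congr`. Case 2: `W' ⊓ Zm X (e j) ≠ ⊥`. `Zm X (e j)` is finite (all its elements are in the `A`-span of finitely many elements of finite images; in fact it is the sum of the finitely many finite modules `(range (e j)).map x`,
`x ∈ X`), so a nonzero submodule of it contains a simple submodule `N` (finite modules are Artinian: `exists_atom_le`/`IsAtomic`; or: it is semisimple as a sum of simple modules: `IsSemisimpleModule`, `IsSemisimpleModule.exists_simple_submodule`).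
`N ≃ range (e j)` by `simple_Zm`. There are `a ∈ I` and `n ∈ N` with `a • n ≠ 0`: transport a nonzero element of `range (e j) ⊆ V` (`hI`). By `simple_le` `N ≃ range (e i)` for some `i ∈ s`, so `range (e i) ≃ range (e j)`, and
`Φ` is good for `e j` by `good_iso`. For `s = univ`: given `l`, take `x i ∈ X` with `Φ (x i (e i v)) = l (e i v)`; `x = ∑ i, x i ∘ e i ∈ X` and `Φ (x v) = ∑ i, l (e i v) = l v`.
-/

set_option autoImplicit false
set_option linter.unusedSectionVars false
open scoped Classical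

namespace H88D8.SS

private theorem Kc_decomp (A V : Type*) [Ring A] [AddCommGroup V] [Module A V] [Finite V]
    [IsSemisimpleModule A V] : ∃ (n : ℕ) (e : Fin n → (V →ₗ[A] V)), (∀ i, e i ∘ₗ e i = e i) ∧
      (∀ i, IsSimpleModule A (LinearMap.range (e i))) ∧ ∀ v, ∑ i, e i v = v := by
  obtain ⟨n, S, E, hS⟩ := IsSemisimpleModule.exists_linearEquiv_fin_dfinsupp A V
  obtain ⟨e, he⟩ : ∃ e : Fin n → (V →ₗ[A] V), ∀ i v, e i v =
      E.symm (DFinsupp.single i (E v i)) :=
    ⟨fun i => E.symm.toLinearMap ∘ₗ DFinsupp.lsingle i ∘ₗ DFinsupp.lapply i ∘ₗ E.toLinearMap,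
      fun i v => rfl⟩
  refine ⟨n, e, fun i => ?_, fun i => ?_, fun v => ?_⟩
  · ext v
    rw [LinearMap.comp_apply, he, he, LinearEquiv.apply_symm_apply, DFinsupp.single_eq_same]
  · have := hS i
    obtain ⟨φ, hφ⟩ : ∃ φ : S i →ₗ[A] V, ∀ s, φ s = E.symm (DFinsupp.single i s) := by
      refine ⟨E.symm.toLinearMap ∘ₗ
        (DFinsupp.lsingle (R := A) (M := fun i => S i) i), fun s => ?_⟩
      rw [LinearMap.comp_apply]
      rfl
    have hinj : Function.Injective φ := by
      intro s t hst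
      rw [hφ, hφ] at hst
      exact DFinsupp.single_injective (β := fun i => S i) (E.symm.injective hst)
    have hr : LinearMap.range φ = LinearMap.range (e i) := by
      apply le_antisymm
      · rintro _ ⟨s, rfl⟩
        refine ⟨φ s, ?_⟩
        rw [he, hφ, LinearEquiv.apply_symm_apply, DFinsupp.single_eq_same]
      · rintro _ ⟨v, rfl⟩
        refine ⟨E v i, ?_⟩
        rw [he, hφ]
    exact IsSimpleModule.congr
      ((LinearEquiv.ofEq _ _ hr.symm).trans (LinearEquiv.ofInjective φ hinj).symm)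
  · apply E.injective
    rw [map_sum]
    ext i
    have h1 : ∀ j, E (e j v) = DFinsupp.single j (E v j) := by
      intro j
      rw [he, LinearEquiv.apply_symm_apply]
    simp only [h1]
    rw [DFinsupp.finset_sum_apply]
    rw [Finset.sum_eq_single i]
    · rw [DFinsupp.single_eq_same]
    · intro j _ hj
      rw [DFinsupp.single_eq_of_ne hj.symm]
    · intro h
      exact absurd (Finset.mem_univ i) h

private theorem Kc_ss {A V W : Type*} [Ring A] [AddCommGroup V] [Module A V] [AddCommGroup W]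
    [Module A W] (X : AddSubgroup (V →ₗ[A] W)) (e : V →ₗ[A] V)
    [IsSimpleModule A (LinearMap.range e)] : IsSemisimpleModule A (Zm X e) := by
  have h1 : Zm X e = ⨆ x ∈ (X : Set (V →ₗ[A] W)), (LinearMap.range e).map x := by
    apply le_antisymm
    · unfold Zm
      rw [Submodule.span_le]
      rintro w ⟨x, hx, v, rfl⟩
      have h2 : (LinearMap.range e).map x ≤
          ⨆ x ∈ (X : Set (V →ₗ[A] W)), (LinearMap.range e).map x :=
        le_iSup₂_of_le x hx le_rfl
      exact h2 ⟨e v, ⟨v, rfl⟩, rfl⟩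
    · refine iSup₂_le fun x hx => ?_
      rintro _ ⟨_, ⟨v, rfl⟩, rfl⟩
      exact Submodule.subset_span ⟨x, hx, v, rfl⟩
  rw [h1]
  apply isSemisimpleModule_biSup_of_isSemisimpleModule_submodule
  intro x _
  have hr : LinearMap.range (x.domRestrict (LinearMap.range e)) = (LinearMap.range e).map x :=
    LinearMap.range_domRestrict _ _
  rw [← hr]
  exact IsSemisimpleModule.range _

private theorem Kc_step {A V W : Type*} [Ring A] [AddCommGroup V] [Module A V] [AddCommGroup W]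
    [Module A W] [Finite V] (hV : ∀ v : V, v + v = 0)
    (hW : ∀ w : W, w + w = 0) (X : AddSubgroup (V →ₗ[A] W)) (hfin : (X : Set (V →ₗ[A] W)).Finite)
    (hX : ∀ x ∈ X, ∀ e : V →ₗ[A] V, x ∘ₗ e ∈ X)
    (hc : ∀ e : V →ₗ[A] V, e ∘ₗ e = e →
      Nat.card (LinearMap.range e) ≤ {y | ∃ x ∈ X, y = x ∘ₗ e}.ncard)
    (R : Submodule A W) (I : Set A) (hR : ∀ a ∈ I, ∀ r ∈ R, a • r = 0)
    (hI : ∀ v : V, v ≠ 0 → ∃ a ∈ I, a • v ≠ 0) (Ψ : W →+ ZMod 2) {n : ℕ}
    (e : Fin n → (V →ₗ[A] V)) (he : ∀ i, e i ∘ₗ e i = e i)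
    (hs : ∀ i, IsSimpleModule A (LinearMap.range (e i))) (s : Finset (Fin n)) :
    ∃ Φ : W →+ ZMod 2, (∀ r ∈ R, Φ r = Ψ r) ∧ ∀ i ∈ s, GoodF X Φ (e i) := by
  induction s using Finset.induction_on with
  | empty => exact ⟨Ψ, fun r _ => rfl, fun i hi => absurd hi (Finset.notMem_empty i)⟩
  | insert j s hj ih =>
    obtain ⟨Φ, hΦ, hg⟩ := ih
    obtain ⟨W', hW'⟩ : ∃ W' : Submodule A W, W' = R ⊔ ⨆ i ∈ s, Zm X (e i) := ⟨_, rfl⟩
    have hsj := hs j
    by_cases hcase : W' ⊓ Zm X (e j) = ⊥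
    · obtain ⟨Φ₁, hΦ₁⟩ := good_simple hV hW X hfin hX (he j) (hc (e j) (he j))
      obtain ⟨Φ', h1, h2⟩ := glue_fun hW hcase Φ Φ₁
      refine ⟨Φ', fun r hr => ?_, fun i hi => ?_⟩
      · rw [h1 r (by rw [hW']; exact (le_sup_left : R ≤ _) hr), hΦ r hr]
      · rcases Finset.mem_insert.1 hi with rfl | hi
        · exact good_congr (fun w hw => (h2 w hw).symm) hΦ₁
        · refine good_congr (fun w hw => (h1 w ?_).symm) (hg i hi)
          rw [hW']
          have h3 : Zm X (e i) ≤ ⨆ i ∈ s, Zm X (e i) := le_iSup₂_of_le i hi le_rfl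
          exact (h3.trans le_sup_right) hw
    · refine ⟨Φ, hΦ, fun i hi => ?_⟩
      rcases Finset.mem_insert.1 hi with rfl | hi
      · have hss := Kc_ss X (e i)
        have hssP : IsSemisimpleModule A (W' ⊓ Zm X (e i) : Submodule A W) :=
          IsSemisimpleModule.of_injective (Submodule.inclusion inf_le_right)
            (Submodule.inclusion_injective _)
        rcases IsSemisimpleModule.eq_bot_or_exists_simple_le (W' ⊓ Zm X (e i)) with h0 | ⟨N, hN, hNs⟩
        · exact absurd h0 hcase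
        · obtain ⟨f⟩ := simple_Zm X (e i) N (hN.trans inf_le_right)
          have hne : ∃ a ∈ I, ∃ m ∈ N, a • m ≠ 0 := by
            have hnt := IsSimpleModule.nontrivial A (LinearMap.range (e i))
            obtain ⟨v, hv⟩ := exists_ne (0 : LinearMap.range (e i))
            obtain ⟨a, ha, hav⟩ := hI (v : V) (fun h => hv (Subtype.ext h))
            refine ⟨a, ha, (f.symm v : N), (f.symm v).2, fun h => hav ?_⟩
            have h1 : a • f.symm v = 0 := Subtype.ext h
            rw [← map_smul] at h1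
            have h2 : a • v = 0 := (LinearEquiv.map_eq_zero_iff _).1 h1
            exact congrArg Subtype.val h2
          obtain ⟨k, hk, ⟨g⟩⟩ := simple_le s X e hs R I hR N hne
            (by rw [← hW']; exact hN.trans inf_le_left)
          exact good_iso hX (he k) (he i) (g.symm.trans f) (hg k hk)
      · exact hg i hi

theorem kappa_ss {A V W : Type*} [Ring A] [AddCommGroup V] [Module A V] [AddCommGroup W]
    [Module A W] [Finite V] [IsSemisimpleModule A V] (hV : ∀ v : V, v + v = 0)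
    (hW : ∀ w : W, w + w = 0) (X : AddSubgroup (V →ₗ[A] W)) (hfin : (X : Set (V →ₗ[A] W)).Finite)
    (hX : ∀ x ∈ X, ∀ e : V →ₗ[A] V, x ∘ₗ e ∈ X)
    (hc : ∀ e : V →ₗ[A] V, e ∘ₗ e = e →
      Nat.card (LinearMap.range e) ≤ {y | ∃ x ∈ X, y = x ∘ₗ e}.ncard)
    (R : Submodule A W) (I : Set A) (hR : ∀ a ∈ I, ∀ r ∈ R, a • r = 0)
    (hI : ∀ v : V, v ≠ 0 → ∃ a ∈ I, a • v ≠ 0) (Ψ : W →+ ZMod 2) :
    ∃ Φ : W →+ ZMod 2, (∀ r ∈ R, Φ r = Ψ r) ∧ ∀ l : V →+ ZMod 2, ∃ x ∈ X, ∀ v, Φ (x v) = l v := by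
  obtain ⟨n, e, he, hs, hsum⟩ := Kc_decomp A V
  obtain ⟨Φ, hΦ, hg⟩ := Kc_step hV hW X hfin hX hc R I hR hI Ψ e he hs Finset.univ
  refine ⟨Φ, hΦ, fun l => ?_⟩
  choose x hx hxl using fun i => hg i (Finset.mem_univ i) l
  refine ⟨∑ i, x i ∘ₗ e i, X.sum_mem fun i _ => hX _ (hx i) _, fun v => ?_⟩
  rw [LinearMap.sum_apply, map_sum]
  have h1 : ∀ i, Φ ((x i ∘ₗ e i) v) = l (e i v) := fun i => hxl i v
  simp only [h1]
  rw [← map_sum, hsum]

end H88D8.SS
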