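import Pool.Agent.H88.SS.Kt

/-!
ROW Kd (project MP_78d38b_SS, about 110 lines, pure algebra): the functions with sum zero form a semisimple module over the
group algebra.

PROOF. `A = MonoidAlgebra (ZMod 2) G`. We have to find a complement for every `A`-submodule `N` of `(rhoV G H).asModule` (`IsSemisimpleModule` is `ComplementedLattice (Submodule A _)`; see the definition in
`Mathlib/RingTheory/SimpleModule/Basic.lean`). Let `U = {u : H → ZMod 2 | ∃ h : u ∈ SZ H, ⟨u, h⟩ ∈ N}`, a subspace, stable: `(s ↦ u (g • s))` is `rhoV g⁻¹ u`, and `N` is stable under `MonoidAlgebra.of _ _ g⁻¹`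
(`Representation.asModule`: `Representation.asModuleEquiv_map_smul`, `Representation.single_smul`/`of_smul`). `hS U` gives a stable complement `U'` in `H → ZMod 2`. `N' = {u ∈ SZ H | u ∈ U'}`; it is a submodule over `A`: closed under
the action of `MonoidAlgebra.single g c` and sums (`MonoidAlgebra.induction_on` or `Finsupp.induction_linear` for the scalar). `N ⊓ N' = ⊥` is clear. `N ⊔ N' = ⊤`: for `u` with sum zero write `u = a + b` with `a ∈ U`, `b ∈ U'`; `a` has sum zero,
so `b` has sum zero. (The equivalence `asModuleEquiv` between `ρ.asModule` and the underlying space is the identity.)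
-/

set_option autoImplicit false
set_option linter.unusedSectionVars false
open scoped Classical

namespace H88D8.SS

open H90T8

theorem semi_module (G H : Type*) [Group G] [MulAction G H] [Fintype H] (hS : SemiSimple G H) :
    IsSemisimpleModule (MonoidAlgebra (ZMod 2) G) (rhoV G H).asModule := by
  obtain ⟨e, he⟩ : ∃ e : (rhoV G H).asModule ≃ₗ[ZMod 2] SZ H, e = (rhoV G H).asModuleEquiv :=
    ⟨_, rfl⟩
  have hsm : ∀ (r : MonoidAlgebra (ZMod 2) G) (x : (rhoV G H).asModule),
      e (r • x) = (rhoV G H).asAlgebraHom r (e x) := by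
    intro r x
    rw [he]
    exact Representation.asModuleEquiv_map_smul (rhoV G H) r x
  have hof : ∀ (g : G) (x : (rhoV G H).asModule),
      e (MonoidAlgebra.of (ZMod 2) G g • x) = rhoV G H g (e x) := by
    intro g x
    rw [hsm, Representation.asAlgebraHom_of]
  refine (isSemisimpleModule_iff _ _).2 ⟨fun N => ?_⟩
  obtain ⟨U, hU⟩ : ∃ U : Submodule (ZMod 2) (H → ZMod 2), ∀ u, u ∈ U ↔
      ∃ n ∈ N, ((e n : SZ H) : H → ZMod 2) = u := by
    refine ⟨(N.restrictScalars (ZMod 2)).map ((SZ H).subtype ∘ₗ e.toLinearMap), fun u => ?_⟩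
    rw [Submodule.mem_map]
    exact Iff.rfl
  have hst : ∀ g : G, ∀ u ∈ U, (fun s => u (g • s)) ∈ U := by
    intro g u hu
    obtain ⟨n, hn, rfl⟩ := (hU u).1 hu
    refine (hU _).2 ⟨MonoidAlgebra.of (ZMod 2) G g⁻¹ • n, N.smul_mem _ hn, ?_⟩
    rw [hof]
    funext s
    rw [rhoV_apply, inv_inv]
  obtain ⟨U', hst', hc⟩ := hS U hst
  have halg : ∀ (r : MonoidAlgebra (ZMod 2) G) (x : (rhoV G H).asModule),
      ((e x : SZ H) : H → ZMod 2) ∈ U' → ((e (r • x) : SZ H) : H → ZMod 2) ∈ U' := by
    intro r x hx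
    induction r using MonoidAlgebra.induction_on with
    | of g =>
      rw [hof]
      have h1 := hst' g⁻¹ _ hx
      exact h1
    | add f g hf hg =>
      rw [add_smul, map_add]
      exact U'.add_mem hf hg
    | smul c f hf =>
      rw [hsm, map_smul, LinearMap.smul_apply, ← hsm]
      exact U'.smul_mem c hf
  obtain ⟨N', hN'⟩ : ∃ N' : Submodule (MonoidAlgebra (ZMod 2) G) (rhoV G H).asModule,
      ∀ x, x ∈ N' ↔ ((e x : SZ H) : H → ZMod 2) ∈ U' := by
    refine ⟨{ carrier := {x | ((e x : SZ H) : H → ZMod 2) ∈ U'}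
              add_mem' := ?_
              zero_mem' := ?_
              smul_mem' := ?_ }, fun x => Iff.rfl⟩
    · intro x y hx hy
      change ((e (x + y) : SZ H) : H → ZMod 2) ∈ U'
      rw [map_add]
      exact U'.add_mem hx hy
    · change ((e 0 : SZ H) : H → ZMod 2) ∈ U'
      rw [map_zero]
      exact U'.zero_mem
    · intro r x hx
      exact halg r x hx
  refine ⟨N', ?_⟩
  constructor
  · rw [Submodule.disjoint_def]
    intro x hx hx'
    have h1 := Submodule.disjoint_def.1 hc.disjoint _ ((hU _).2 ⟨x, hx, rfl⟩) ((hN' x).1 hx')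
    have h2 : e x = 0 := Subtype.ext h1
    exact (LinearEquiv.map_eq_zero_iff e).1 h2
  · rw [codisjoint_iff, eq_top_iff]
    intro x _
    have h1 : ((e x : SZ H) : H → ZMod 2) ∈ U ⊔ U' := by
      rw [hc.sup_eq_top]
      exact Submodule.mem_top
    obtain ⟨a, ha, b, hb, hab⟩ := Submodule.mem_sup.1 h1
    obtain ⟨m, hm, rfl⟩ := (hU a).1 ha
    refine Submodule.mem_sup.2 ⟨m, hm, x - m, (hN' _).2 ?_, by abel⟩
    rw [map_sub]
    have h2 : ((e x - e m : SZ H) : H → ZMod 2) = b := by
      change ((e x : SZ H) : H → ZMod 2) - ((e m : SZ H) : H → ZMod 2) = b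
      rw [← hab, add_sub_cancel_left]
    rw [h2]
    exact hb

end H88D8.SS
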