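import Pool.Agent.H88.SS.Kc
import Pool.Agent.H88.SS.Kd

/-!
ROW Ke (project MP_78d38b_SS, about 200 lines, pure algebra): the counting lemma for permutation modules (compare
`H90T8.exists_kappa` in `Pool/Agent/H90/T8/Ct.lean`).

PROOF. `A = MonoidAlgebra (ZMod 2) G`, `V₀ = (rhoV G H).asModule` (the functions with sum zero), `W' = (rhoW G W).asModule`. For `x : X` let `F x : V₀ →ₗ[A] W'`, `u ↦ ∑ s, u s • f x s` (`ev` in Ct.lean); it is `A`-linear because it is additive and
commutes with `G`: `∑ s, u (g⁻¹ • s) • f x s = ∑ s, u s • f x (g • s) = g • ∑ s, u s • f x s` (`hf`; a `ZMod 2`-linear map between the modules of two representations commuting with the group is linear over the group algebra: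
`Representation.equivLinearMap`-like, or `MonoidAlgebra.equivariantOfLinearOfComm`, or induction on the scalar). `F` is additive and injective: `F x = 0` implies (Pi.single s 1 + Pi.single s' 1) that `f x s = f x s'` for all
`s, s'`, and `∑ s, f x s = 0` with `card H` odd gives `f x s = 0` (as at the end of `ev_inj`), so `x = 0` by `hinj`. `𝒳 = range F`, finite. Apply `kappa_ss` to `𝒳`.
Matrices: for `e : V₀ →ₗ[A] V₀` let `m s s' = (e (δ_{s'} + const c)) s` where `δ_{s'} + c` is the projection of `Pi.single s' 1` to the sum-zero functions (`u ↦ u + (∑ u) • 1`; `card H` odd). `m` is invariant, `m.mulVec u = e u` for `u` with sum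
zero, `m.mulVec u` has sum zero for all `u`, `m.mulVec 1 = 0`. `t = m.transpose`: invariant, `(t row sums) = ∑ s', m s' s = 0`; if `e ∘ e = e` then `m * m = m` (check on `Pi.single s' 1`, whose image under `m` is that of its projection), so
`t * t = t`; `rank t = rank m` (`Matrix.rank_transpose`), `2 ^ rank m = card (range m) = card (range e)`. For `y` with `f y s = ∑ s', t s s' • f x s'` for all `s`: `F y u = ∑ s, u s • ∑ s', m s' s • f x s' = ∑ s', (m u) s' • f x s' = F x (e u)`. So `𝒳` is
stable (`hop`), and `hc`: the elements `x` with `f x s = ∑ s', t s s' • f x s'` give (injectively) `F x = F x ∘ e ∈ {y | ∃ x ∈ 𝒳, y = x ∘ e}`; `hX`. `R`: an `A`-submodule (group acts trivially). `I = {single g 1 - 1 | g ∈ G}`: kills `R`; `hI`: if all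
`single g 1 - 1` kill `u ∈ V₀` then `u` is constant (`htr`) with sum zero, so zero (`card H` odd). The functional `Φ` from `kappa_ss` for `Ψ`; given `u` with sum zero apply it to `l w = ∑ s, w s * u s` on `V₀`: there is `x` with
`Φ (F x w) = ∑ s, w s * u s` for all `w` with sum zero, and then `κ (f x s) = u s` for all `s` as at the end of the proof of `exists_kappa` in Ct.lean (`const_of_orth`).
-/

set_option autoImplicit false
set_option linter.unusedSectionVars false
open scoped Classical

namespace H88D8.SS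

open H90T8

section KeAux

variable {G H W X : Type*} [Group G] [MulAction G H] [Fintype H] [AddCommGroup W]
    [Module (ZMod 2) W] [DistribMulAction G W] [AddCommGroup X] [Module (ZMod 2) X]

lemma Ke_two (a : ZMod 2) : a + a = 0 := by
  revert a
  decide

/-- The projection to the vectors with sum zero. -/
noncomputable def Ke_P (hodd : Odd (Fintype.card H)) : (H → ZMod 2) →ₗ[ZMod 2] SZ H where
  toFun u := ⟨fun s => u s + ∑ t, u t, by
    rw [mem_SZ, Finset.sum_add_distrib, Finset.sum_const, Finset.card_univ, nsmul_eq_mul,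
      (ZMod.natCast_eq_one_iff_odd).2 hodd, one_mul]
    exact Ke_two _⟩
  map_add' u v := by
    apply Subtype.ext
    funext s
    change (u s + v s) + ∑ t, (u t + v t) = (u s + ∑ t, u t) + (v s + ∑ t, v t)
    rw [Finset.sum_add_distrib]
    ring
  map_smul' c u := by
    apply Subtype.ext
    funext s
    change c * u s + ∑ t, c * u t = c * (u s + ∑ t, u t)
    rw [← Finset.mul_sum]
    ring

lemma Ke_P_apply (hodd : Odd (Fintype.card H)) (u : H → ZMod 2) (s : H) :
    ((Ke_P hodd u : SZ H) : H → ZMod 2) s = u s + ∑ t, u t := rfl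

lemma Ke_P_self (hodd : Odd (Fintype.card H)) (u : SZ H) : Ke_P hodd (u : H → ZMod 2) = u := by
  apply Subtype.ext
  funext s
  rw [Ke_P_apply, mem_SZ.1 u.2, add_zero]

lemma Ke_P_single (hodd : Odd (Fintype.card H)) (g : G) (s : H) :
    Ke_P hodd (Pi.single (g • s) 1) = rhoV G H g (Ke_P hodd (Pi.single s 1)) := by
  apply Subtype.ext
  funext t
  rw [rhoV_apply, Ke_P_apply, Ke_P_apply]
  have h1 : ∀ r : H, ∑ t, (Pi.single r (1 : ZMod 2) : H → ZMod 2) t = 1 := by
    intro r
    rw [Finset.sum_pi_single']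
    simp
  rw [h1, h1]
  congr 1
  rw [Pi.single_apply, Pi.single_apply]
  by_cases h : t = g • s
  · rw [if_pos h, if_pos (by rw [h, inv_smul_smul])]
  · rw [if_neg h, if_neg (by
      intro h2
      apply h
      rw [← h2, smul_inv_smul])]

/-- The functional of `x`. -/
noncomputable def Ke_L (f : X →ₗ[ZMod 2] (H → W)) (x : X) : SZ H →ₗ[ZMod 2] W where
  toFun u := ∑ s, (u : H → ZMod 2) s • f x s
  map_add' u v := by
    rw [← Finset.sum_add_distrib]
    refine Finset.sum_congr rfl fun s _ => ?_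
    rw [← add_smul]
    rfl
  map_smul' c u := by
    rw [RingHom.id_apply, Finset.smul_sum]
    refine Finset.sum_congr rfl fun s _ => ?_
    rw [← mul_smul]
    rfl

lemma Ke_L_apply (f : X →ₗ[ZMod 2] (H → W)) (x : X) (u : SZ H) :
    Ke_L f x u = ∑ s, (u : H → ZMod 2) s • f x s := rfl

lemma Ke_L_equi (f : X →ₗ[ZMod 2] (H → W)) (hf : ∀ x (g : G) s, f x (g • s) = g • f x s)
    (x : X) (g : G) (u : SZ H) :
    Ke_L f x (rhoV G H g u) = rhoW G W g (Ke_L f x u) := by
  rw [Ke_L_apply, Ke_L_apply, rhoW_apply, Finset.smul_sum]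
  refine Fintype.sum_equiv (MulAction.toPerm g⁻¹) _ _ fun s => ?_
  rw [smul_smul2, ← hf, MulAction.toPerm_apply, smul_inv_smul, rhoV_apply]

/-- The homomorphism of modules of `x`. -/
noncomputable def Ke_F (f : X →ₗ[ZMod 2] (H → W))
    (hf : ∀ x (g : G) s, f x (g • s) = g • f x s) (x : X) :
    (rhoV G H).asModule →ₗ[MonoidAlgebra (ZMod 2) G] (rhoW G W).asModule :=
  Representation.IntertwiningMap.equivLinearMapAsModule _ _
    ((Ke_L f x).intertwiningMap_of_isIntertwiningMap (rhoV G H) (rhoW G W) (Ke_L_equi f hf x))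

lemma Ke_F_apply (f : X →ₗ[ZMod 2] (H → W))
    (hf : ∀ x (g : G) s, f x (g • s) = g • f x s) (x : X) (u : SZ H) :
    Ke_F f hf x u = (∑ s, (u : H → ZMod 2) s • f x s : W) := rfl

lemma Ke_F_add (f : X →ₗ[ZMod 2] (H → W))
    (hf : ∀ x (g : G) s, f x (g • s) = g • f x s) (x y : X) :
    Ke_F f hf (x + y) = Ke_F f hf x + Ke_F f hf y := by
  refine LinearMap.ext fun (u : SZ H) => ?_
  change (∑ s, (u : H → ZMod 2) s • f (x + y) s : W) =
    (∑ s, (u : H → ZMod 2) s • f x s : W) + (∑ s, (u : H → ZMod 2) s • f y s : W)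
  rw [← Finset.sum_add_distrib]
  refine Finset.sum_congr rfl fun s _ => ?_
  rw [map_add, Pi.add_apply, smul_add]

lemma Ke_F_inj (hodd : Odd (Fintype.card H)) (f : X →ₗ[ZMod 2] (H → W))
    (hf : ∀ x (g : G) s, f x (g • s) = g • f x s) (h0 : ∀ x, ∑ s, f x s = 0)
    (hinj : ∀ x, (∀ s, f x s = 0) → x = 0) (x : X) (hx : Ke_F f hf x = 0) : x = 0 := by
  have heq : ∀ s t, f x s = f x t := by
    intro s t
    by_cases hst : s = t
    · rw [hst]
    have hm : (Pi.single s 1 + Pi.single t 1 : H → ZMod 2) ∈ SZ H := by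
      rw [mem_SZ]
      simp only [Pi.add_apply, Finset.sum_add_distrib, Finset.sum_pi_single', Finset.mem_univ,
        if_true]
      decide
    have h1 : (∑ r, (Pi.single s 1 + Pi.single t 1 : H → ZMod 2) r • f x r : W) = 0 := by
      rw [← Ke_F_apply f hf x ⟨_, hm⟩, hx]
      rfl
    simp only [Pi.add_apply, add_smul, Finset.sum_add_distrib, Pi.single_apply, ite_smul,
      one_smul, zero_smul, Finset.sum_ite_eq', Finset.mem_univ, if_true] at h1
    have h2 : f x s = - f x t := eq_neg_of_add_eq_zero_left h1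
    have h3 : f x t + f x t = 0 := by
      rw [← two_nsmul, ← Nat.cast_smul_eq_nsmul (ZMod 2)]
      have : ((2 : ℕ) : ZMod 2) = 0 := by decide
      rw [this, zero_smul]
    rw [h2, eq_comm]
    exact eq_neg_of_add_eq_zero_left h3
  apply hinj
  intro s
  have h6 := h0 x
  rw [Finset.sum_congr rfl fun t _ => heq t s, Finset.sum_const, Finset.card_univ,
    ← Nat.cast_smul_eq_nsmul (ZMod 2), (ZMod.natCast_eq_one_iff_odd).2 hodd, one_smul] at h6
  exact h6

/-- The linear map of an endomorphism. -/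
noncomputable def Ke_E (e : (rhoV G H).asModule →ₗ[MonoidAlgebra (ZMod 2) G] (rhoV G H).asModule) :
    SZ H →ₗ[ZMod 2] SZ H :=
  ((Representation.IntertwiningMap.equivLinearMapAsModule (rhoV G H) (rhoV G H)).symm e).toLinearMap

lemma Ke_E_apply (e : (rhoV G H).asModule →ₗ[MonoidAlgebra (ZMod 2) G] (rhoV G H).asModule)
    (u : SZ H) : Ke_E e u = e u := rfl

lemma Ke_E_equi (e : (rhoV G H).asModule →ₗ[MonoidAlgebra (ZMod 2) G] (rhoV G H).asModule)
    (g : G) (u : SZ H) : Ke_E e (rhoV G H g u) = rhoV G H g (Ke_E e u) :=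
  ((Representation.IntertwiningMap.equivLinearMapAsModule (rhoV G H)
    (rhoV G H)).symm e).isIntertwining _ _ g u

/-- The linear map on all functions. -/
noncomputable def Ke_M (hodd : Odd (Fintype.card H))
    (e : (rhoV G H).asModule →ₗ[MonoidAlgebra (ZMod 2) G] (rhoV G H).asModule) :
    (H → ZMod 2) →ₗ[ZMod 2] (H → ZMod 2) :=
  (SZ H).subtype ∘ₗ Ke_E e ∘ₗ Ke_P hodd

lemma Ke_M_apply (hodd : Odd (Fintype.card H))
    (e : (rhoV G H).asModule →ₗ[MonoidAlgebra (ZMod 2) G] (rhoV G H).asModule)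
    (u : H → ZMod 2) : Ke_M hodd e u = ((Ke_E e (Ke_P hodd u) : SZ H) : H → ZMod 2) := rfl

lemma Ke_M_self (hodd : Odd (Fintype.card H))
    (e : (rhoV G H).asModule →ₗ[MonoidAlgebra (ZMod 2) G] (rhoV G H).asModule)
    (u : SZ H) : Ke_M hodd e (u : H → ZMod 2) = ((Ke_E e u : SZ H) : H → ZMod 2) := by
  rw [Ke_M_apply, Ke_P_self]

/-- The transposed matrix. -/
noncomputable def Ke_t (hodd : Odd (Fintype.card H))
    (e : (rhoV G H).asModule →ₗ[MonoidAlgebra (ZMod 2) G] (rhoV G H).asModule) :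
    Matrix H H (ZMod 2) := (LinearMap.toMatrix' (Ke_M hodd e)).transpose

lemma Ke_t_apply (hodd : Odd (Fintype.card H))
    (e : (rhoV G H).asModule →ₗ[MonoidAlgebra (ZMod 2) G] (rhoV G H).asModule) (s s' : H) :
    Ke_t hodd e s s' = Ke_M hodd e (Pi.single s 1) s' := by
  unfold Ke_t
  rw [Matrix.transpose_apply, LinearMap.toMatrix'_apply]

lemma Ke_t_inv (hodd : Odd (Fintype.card H))
    (e : (rhoV G H).asModule →ₗ[MonoidAlgebra (ZMod 2) G] (rhoV G H).asModule) (g : G) (s s' : H) :
    Ke_t hodd e (g • s) (g • s') = Ke_t hodd e s s' := by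
  rw [Ke_t_apply, Ke_t_apply, Ke_M_apply, Ke_M_apply, Ke_P_single, Ke_E_equi, rhoV_apply,
    inv_smul_smul]

lemma Ke_t_sum (hodd : Odd (Fintype.card H))
    (e : (rhoV G H).asModule →ₗ[MonoidAlgebra (ZMod 2) G] (rhoV G H).asModule) (s : H) :
    ∑ s', Ke_t hodd e s s' = 0 := by
  simp only [Ke_t_apply, Ke_M_apply]
  exact mem_SZ.1 (Ke_E e (Ke_P hodd (Pi.single s 1))).2

lemma Ke_t_idem (hodd : Odd (Fintype.card H))
    (e : (rhoV G H).asModule →ₗ[MonoidAlgebra (ZMod 2) G] (rhoV G H).asModule)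
    (he : e ∘ₗ e = e) : Ke_t hodd e * Ke_t hodd e = Ke_t hodd e := by
  have h1 : Ke_M hodd e ∘ₗ Ke_M hodd e = Ke_M hodd e := by
    refine LinearMap.ext fun u => ?_
    rw [LinearMap.comp_apply, Ke_M_apply hodd e u, Ke_M_self]
    congr 1
    exact LinearMap.congr_fun he (Ke_P hodd u)
  unfold Ke_t
  rw [← Matrix.transpose_mul, ← LinearMap.toMatrix'_comp, h1]

lemma Ke_t_rank (hodd : Odd (Fintype.card H))
    (e : (rhoV G H).asModule →ₗ[MonoidAlgebra (ZMod 2) G] (rhoV G H).asModule) :
    Nat.card (LinearMap.range e) ≤ 2 ^ (Ke_t hodd e).rank := by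
  have h0 : (LinearMap.toMatrix' (Ke_M hodd e)).mulVecLin = Ke_M hodd e :=
    Matrix.toLin'_toMatrix' _
  have h1 : (Ke_t hodd e).rank = Module.finrank (ZMod 2) (LinearMap.range (Ke_M hodd e)) := by
    unfold Ke_t
    rw [Matrix.rank_transpose, Matrix.rank, h0]
  rw [h1, ← card_two]
  have : Finite (LinearMap.range (Ke_M hodd e)) := inferInstance
  refine Nat.card_le_card_of_injective
    (fun v : LinearMap.range e => (⟨((v : (rhoV G H).asModule) : SZ H).1, by
      obtain ⟨v, u, rfl⟩ := v
      exact ⟨(u : SZ H).1, Ke_M_self hodd e u⟩⟩ : LinearMap.range (Ke_M hodd e))) ?_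
  intro v w hvw
  have h2 := congrArg Subtype.val hvw
  exact Subtype.ext (Subtype.ext h2)

lemma Ke_comp (hodd : Odd (Fintype.card H)) (f : X →ₗ[ZMod 2] (H → W))
    (hf : ∀ x (g : G) s, f x (g • s) = g • f x s)
    (e : (rhoV G H).asModule →ₗ[MonoidAlgebra (ZMod 2) G] (rhoV G H).asModule) (x y : X)
    (h : ∀ s, f y s = ∑ s', Ke_t hodd e s s' • f x s') :
    Ke_F f hf y = Ke_F f hf x ∘ₗ e := by
  refine LinearMap.ext fun (u : SZ H) => ?_
  change (∑ s, (u : H → ZMod 2) s • f y s : W) =
    (∑ s, ((Ke_E e u : SZ H) : H → ZMod 2) s • f x s : W)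
  rw [← Ke_M_self hodd e u]
  have h1 : ∀ s', Ke_M hodd e (u : H → ZMod 2) s' =
      ∑ s, (u : H → ZMod 2) s * Ke_t hodd e s s' := by
    intro s'
    rw [← LinearMap.toMatrix'_mulVec (Ke_M hodd e)]
    unfold Ke_t
    rw [Matrix.mulVec, dotProduct]
    refine Finset.sum_congr rfl fun s _ => ?_
    rw [Matrix.transpose_apply, mul_comm]
  simp only [h, h1, Finset.smul_sum, Finset.sum_smul, mul_smul]
  rw [Finset.sum_comm]

end KeAux

theorem exists_kappaS {G H W X : Type*} [Group G] [MulAction G H] [Fintype H] [AddCommGroup W]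
    [Module (ZMod 2) W] [DistribMulAction G W] [AddCommGroup X] [Module (ZMod 2) X] [Finite X]
    (hodd : Odd (Fintype.card H)) (hS : SemiSimple G H) (htr : ∀ s t : H, ∃ g : G, g • s = t)
    (f : X →ₗ[ZMod 2] (H → W)) (hf : ∀ x (g : G) s, f x (g • s) = g • f x s)
    (h0 : ∀ x, ∑ s, f x s = 0) (hinj : ∀ x, (∀ s, f x s = 0) → x = 0)
    (hop : ∀ t : Matrix H H (ZMod 2), (∀ (g : G) s s', t (g • s) (g • s') = t s s') →
      ∀ x : X, ∃ y : X, ∀ s, f y s = ∑ s', t s s' • f x s')
    (hX : ∀ t : Matrix H H (ZMod 2), (∀ (g : G) s s', t (g • s) (g • s') = t s s') → t * t = t →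
      (∀ s, ∑ s', t s s' = 0) → 2 ^ t.rank ≤ Nat.card {x : X // ∀ s, f x s = ∑ s', t s s' • f x s'})
    (R : Submodule (ZMod 2) W) (hR : ∀ r ∈ R, ∀ g : G, g • r = r) (Ψ : Module.Dual (ZMod 2) W) :
    ∃ κ : Module.Dual (ZMod 2) W, (∀ r ∈ R, κ r = Ψ r) ∧
      ∀ u : H → ZMod 2, ∑ s, u s = 0 → ∃ x, ∀ s, κ (f x s) = u s := by
  have hne : Nonempty H := by
    rw [← Fintype.card_pos_iff]
    exact hodd.pos
  have hss := semi_module G H hS
  have hfinV : Finite (rhoV G H).asModule := inferInstanceAs (Finite (SZ H))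
  -- the submodule
  let R' : Submodule (MonoidAlgebra (ZMod 2) G) (rhoW G W).asModule :=
    { carrier := (R : Set W)
      add_mem' := fun {a b} ha hb => R.add_mem ha hb
      zero_mem' := R.zero_mem
      smul_mem' := by
        intro c r hr
        induction c using MonoidAlgebra.induction_linear with
        | zero =>
          rw [zero_smul]
          exact R.zero_mem
        | add a b ha hb =>
          rw [add_smul]
          exact R.add_mem ha hb
        | single g a =>
          rw [Representation.single_smul]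
          have h1 : rhoW G W g ((rhoW G W).asModuleEquiv r) = (r : W) := hR r hr g
          rw [h1]
          exact R.smul_mem a hr }
  -- the group of homomorphisms
  let F : X →+ ((rhoV G H).asModule →ₗ[MonoidAlgebra (ZMod 2) G] (rhoW G W).asModule) :=
    AddMonoidHom.mk' (Ke_F f hf) (Ke_F_add f hf)
  have hFinj : Function.Injective F := by
    rw [injective_iff_map_eq_zero]
    intro x hx
    exact Ke_F_inj hodd f hf h0 hinj x hx
  have hW2 : ∀ w : W, w + w = 0 := by
    intro w
    rw [← two_nsmul, ← Nat.cast_smul_eq_nsmul (ZMod 2)]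
    have : ((2 : ℕ) : ZMod 2) = 0 := by decide
    rw [this, zero_smul]
  obtain ⟨Φ, hΦ1, hΦ2⟩ := kappa_ss (A := MonoidAlgebra (ZMod 2) G) (V := (rhoV G H).asModule)
    (W := (rhoW G W).asModule) (by
      intro v
      apply Subtype.ext
      funext s
      exact Ke_two _) hW2 F.range (by
      rw [AddMonoidHom.coe_range]
      exact Set.finite_range _) (by
      rintro _ ⟨x, rfl⟩ e
      obtain ⟨y, hy⟩ := hop (Ke_t hodd e) (Ke_t_inv hodd e) x
      exact ⟨y, Ke_comp hodd f hf e x y hy⟩) (by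
      intro e he
      refine (Ke_t_rank hodd e).trans ((hX (Ke_t hodd e) (Ke_t_inv hodd e) (Ke_t_idem hodd e he)
        (Ke_t_sum hodd e)).trans ?_)
      have hfin : {y | ∃ x ∈ F.range, y = x ∘ₗ e}.Finite := by
        refine (Set.finite_range (fun x => F x ∘ₗ e)).subset ?_
        rintro _ ⟨_, ⟨x, rfl⟩, rfl⟩
        exact ⟨x, rfl⟩
      have : Finite {y | ∃ x ∈ F.range, y = x ∘ₗ e} := hfin
      rw [← Nat.card_coe_set_eq]
      refine Nat.card_le_card_of_injective
        (fun x : {x : X // ∀ s, f x s = ∑ s', Ke_t hodd e s s' • f x s'} =>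
          (⟨F x.1, F x.1, ⟨x.1, rfl⟩, Ke_comp hodd f hf e x.1 x.1 x.2⟩ :
            {y | ∃ x ∈ F.range, y = x ∘ₗ e})) ?_
      intro x y hxy
      exact Subtype.ext (hFinj (congrArg Subtype.val hxy))) R'
    {a | ∃ g : G, a = MonoidAlgebra.single g 1 - 1} (by
      rintro _ ⟨g, rfl⟩ r hr
      rw [sub_smul, one_smul, Representation.single_smul, one_smul]
      have h1 : rhoW G W g ((rhoW G W).asModuleEquiv r) = (r : W) := hR r hr g
      rw [h1]
      exact sub_self _) (by
      intro v hv
      by_contra hcon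
      push Not at hcon
      apply hv
      have h1 : ∀ (g : G) s, (v : SZ H).1 (g⁻¹ • s) = (v : SZ H).1 s := by
        intro g s
        have h2 := hcon _ ⟨g, rfl⟩
        rw [sub_smul, one_smul, Representation.single_smul, one_smul] at h2
        have h3 : rhoV G H g (v : SZ H) = (v : SZ H) :=
          eq_of_sub_eq_zero (α := SZ H) h2
        exact congrFun (congrArg Subtype.val h3) s
      have h4 : ∀ s t, (v : SZ H).1 s = (v : SZ H).1 t := by
        intro s t
        obtain ⟨g, hg⟩ := htr s t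
        have := h1 g t
        rw [← hg, inv_smul_smul] at this
        rw [this, hg]
      apply Subtype.ext
      funext s
      have h6 := mem_SZ.1 (v : SZ H).2
      rw [Finset.sum_congr rfl fun t _ => h4 t s, Finset.sum_const, Finset.card_univ,
        nsmul_eq_mul, (ZMod.natCast_eq_one_iff_odd).2 hodd, one_mul] at h6
      exact h6) Ψ.toAddMonoidHom
  let κ : Module.Dual (ZMod 2) W :=
    { toFun := fun w => Φ w
      map_add' := fun v w => Φ.map_add v w
      map_smul' := by
        intro c w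
        have h : c = 0 ∨ c = 1 := by
          revert c
          decide
        rcases h with rfl | rfl
        · rw [zero_smul, RingHom.id_apply, zero_smul]
          exact Φ.map_zero
        · rw [one_smul, RingHom.id_apply, one_smul] }
  refine ⟨κ, fun r hr => hΦ1 r hr, ?_⟩
  intro u hu
  let l : (rhoV G H).asModule →+ ZMod 2 :=
    AddMonoidHom.mk' (fun w : SZ H => ∑ s, (w : H → ZMod 2) s * u s) (by
      intro a b
      rw [← Finset.sum_add_distrib]
      refine Finset.sum_congr rfl fun s _ => ?_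
      rw [← add_mul]
      rfl)
  obtain ⟨_, ⟨x, rfl⟩, hx⟩ := hΦ2 l
  have h5 : ∀ w ∈ SZ H, ∑ s, w s * (κ (f x s) - u s) = 0 := by
    intro w hw
    have h6 : κ (∑ s, w s • f x s) = ∑ s, w s * u s := hx (⟨w, hw⟩ : SZ H)
    rw [map_sum] at h6
    simp only [map_smul, smul_eq_mul] at h6
    simp only [mul_sub, Finset.sum_sub_distrib]
    rw [h6, sub_self]
  have h7 := const_of_orth h5
  have h8 : ∀ s, κ (f x s) - u s = 0 := by
    intro s
    have h9 : ∑ t, (κ (f x t) - u t) = 0 := by
      rw [Finset.sum_sub_distrib, hu, ← map_sum, h0, map_zero, sub_zero]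
    rw [Finset.sum_congr rfl fun t _ => h7 t s, Finset.sum_const, Finset.card_univ,
      nsmul_eq_mul, (ZMod.natCast_eq_one_iff_odd).2 hodd, one_mul] at h9
    exact h9
  exact ⟨x, fun s => sub_eq_zero.1 (h8 s)⟩

end H88D8.SS
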