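import Pool.Agent.H88.SS.Ke
import Pool.Agent.H88.SS.Ha
import Pool.Agent.H90.T8.Kp

/-!
ROW Kf (project MP_78d38b_SS, about 100 lines): the functional on the square classes of `M`.

PROOF. Modification of the PROVED theorem `H90T8.exists_kap` in `Pool/Agent/H90/T8/Kp.lean` with `exists_kappaS` (row Ke) in place of `exists_kappa`. `Φ₀` from `ext0` (Kp.lean, public), `X'` = `X` as a submodule, `f x σ = em σ x`, `R'` the span of the `res M r` (fixed by the group), `hf` = `em_act`, `h0` = `em_sum` and `hnm`, `hinj`: `hE`, `htr`: `trans_emb`.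
New hypotheses of `exists_kappaS`: `hop`: for invariant `t` (so `ht : Inv t`) and `x ∈ X`: `y = hk hL ht x ∈ X` (`hst`) and `em_hk` (row Ha). `hX`: for a projection `t` (`ht : Pr t`): the elements `x ∈ X` with `hk hL ht.inv x = x` satisfy `em σ x = ∑ τ, t σ τ • em τ x` (`em_hk`), so `2 ^ t.rank ≤ {x | x ∈ X ∧ hk x = x}.ncard ≤
Nat.card {x : X' // ..}` (`Set.ncard_le_ncard`, `Nat.card_coe_set_eq`; an injection of finite sets).
-/

set_option autoImplicit false
set_option linter.unusedSectionVars false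
open scoped Classical

open WithZero NumberField IsDedekindDomain H38RT H88T7 H88T8 H90T8
open H38T1 (SC sc scu scu_surj sc_mul sc_of_ne sc_surj rep rep_ne sc_rep sc_eq_zero eo la si Pri tp OddP
  LD XX XX' NS ov rp SqMod)

namespace H88D8.SS

variable {K M : Type} [Field K] [NumberField K] [Field M] [NumberField M]

theorem exists_kapS (hodd : Odd (Module.finrank ℚ K)) (hL : BigL K M)
    (hS : SemiSimple (M ≃ₐ[ℚ] M) (K →ₐ[ℚ] M)) (X : AddSubgroup (SC K))
    (hfin : (X : Set (SC K)).Finite) (hnm : ∀ x ∈ X, nm K x = 0)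
    (hE : ∀ x ∈ X, x ∈ E0m K M → x = 0)
    (hst : ∀ (t : Matrix (K →ₐ[ℚ] M) (K →ₐ[ℚ] M) (ZMod 2)) (ht : Inv t), ∀ x ∈ X,
      hk hL ht x ∈ X)
    (hc : ∀ (t : Matrix (K →ₐ[ℚ] M) (K →ₐ[ℚ] M) (ZMod 2)) (ht : Pr t),
      2 ^ t.rank ≤ {x | x ∈ X ∧ hk hL ht.inv x = x}.ncard) (R : Finset (SC ℚ))
    {Ψ : SC ℚ →+ ZMod 2} (hΨ : ∀ d ∈ QKm M, Ψ d = 0) :
    ∃ Φ : SC M →+ ZMod 2, (∀ r ∈ R, Φ (res M r) = Ψ r) ∧
      ∀ u : (K →ₐ[ℚ] M) → ZMod 2, ∑ σ, u σ = 0 → ∃ x ∈ X, ∀ σ, Φ (em σ x) = u σ := by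
  obtain ⟨Φ₀, hΦ₀⟩ := ext0 (M := M) hΨ
  obtain ⟨X', hX'⟩ : ∃ X' : Submodule (ZMod 2) (SC K), X' = AddSubgroup.toZModSubmodule 2 X := ⟨_, rfl⟩
  have hmem : ∀ x, x ∈ X' ↔ x ∈ X := fun x => by rw [hX']; exact Iff.rfl
  have hcoe : (X' : Set (SC K)) = (X : Set (SC K)) := Set.ext hmem
  haveI hXfin : Finite X' := by
    have h1 : (X' : Set (SC K)).Finite := by rw [hcoe]; exact hfin
    exact h1.to_subtype
  let f : X' →ₗ[ZMod 2] ((K →ₐ[ℚ] M) → SC M) :=
    { toFun := fun x σ => em σ (x : SC K)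
      map_add' := fun x y => by
        funext σ
        exact map_add (em σ) _ _
      map_smul' := fun c x => by
        funext σ
        exact ZMod.map_smul (em σ) c (x : SC K) }
  have hfa : ∀ (x : X') (σ : K →ₐ[ℚ] M), f x σ = em σ (x : SC K) := fun _ _ => rfl
  obtain ⟨R', hR'⟩ : ∃ R' : Submodule (ZMod 2) (SC M), R' = Submodule.span (ZMod 2) ((fun r => res M r) '' (R : Set (SC ℚ))) := ⟨_, rfl⟩
  have hinv : ∀ r ∈ R', ∀ g : M ≃ₐ[ℚ] M, g • r = r := by
    intro r hr g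
    rw [hR'] at hr
    induction hr using Submodule.span_induction with
    | mem x hx =>
      obtain ⟨r, _, rfl⟩ := hx
      exact act_res g r
    | zero => exact smul_zero g
    | add x y _ _ hx hy => rw [smul_add, hx, hy]
    | smul c x _ hx => rw [smul_smul2, hx]
  obtain ⟨κ, h1, h2⟩ := exists_kappaS (G := M ≃ₐ[ℚ] M) (H := K →ₐ[ℚ] M) (W := SC M) (X := X')
    (by rw [hL.card]; exact hodd) hS (fun σ τ => trans_emb hL σ τ) f
    (fun x g σ => em_act g σ (x : SC K))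
    (fun x => by
      have h3 := em_sum hL (x : SC K)
      rw [hnm _ ((hmem _).1 x.2), map_zero] at h3
      exact h3)
    (fun x hx => Subtype.ext (hE _ ((hmem _).1 x.2) hx))
    (fun t ht x => by
      have hti : Inv t := ht
      exact ⟨⟨hk hL hti (x : SC K), (hmem _).2 (hst t hti _ ((hmem _).1 x.2))⟩,
        fun σ => em_hk hL hti σ (x : SC K)⟩)
    (fun t ht hidem hzero => by
      have hPr : Pr t := ⟨ht, hidem, hzero⟩
      refine (hc t hPr).trans ?_
      rw [← Nat.card_coe_set_eq]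
      refine Nat.card_le_card_of_injective
        (fun x : {x | x ∈ X ∧ hk hL hPr.inv x = x} =>
          (⟨⟨(x : SC K), (hmem _).2 x.2.1⟩, fun σ => by
            have h4 := em_hk hL hPr.inv σ (x : SC K)
            rw [x.2.2] at h4
            exact h4⟩ :
            {x : X' // ∀ s, f x s = ∑ s', t s s' • f x s'})) ?_
      intro x y hxy
      exact Subtype.ext (congrArg (fun z => ((z : {x : X' // ∀ s, f x s = ∑ s', t s s' • f x s'}) : X').1) hxy))
    R' hinv (Φ₀.toZModLinearMap 2)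
  refine ⟨κ.toAddMonoidHom, fun r hr => ?_, fun u hu => ?_⟩
  · have h3 : res M r ∈ R' := by
      rw [hR']
      exact Submodule.subset_span ⟨r, hr, rfl⟩
    exact (h1 _ h3).trans (hΦ₀ r)
  · obtain ⟨x, hx⟩ := h2 u hu
    exact ⟨x, (hmem _).1 x.2, hx⟩

end H88D8.SS
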