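import Mathlib

/-!
ROW La (project MP_78d38b_SS, about 120 lines, pure): the rank modulo two of an integer matrix which is idempotent modulo two
depends only on its real conjugacy class.

PROOF. det_rank: let `f = A.mulVecLin`, idempotent; `R = range f`, `b` a basis of `R` indexed by `Fin A.rank` (`Module.finBasisOfFinrankEq`). `B : Matrix n (Fin r) k` the matrix of the inclusion, `C : Matrix (Fin r) n k`
the matrix of `f.rangeRestrict`. Then `B * C = A` and `C * B = 1` (`f` is the identity on `R`). Over `k[X]` (map by `Polynomial.C`): `1 - A + X A = 1 + (X - 1) • (B * C) = 1 + ((X-1) • B) * C`, whose determinant is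
`det (1 + C * ((X-1) • B))` (`Matrix.det_one_add_mul_comm`) `= det (1 + (X - 1) • 1) = det (X • 1) = X ^ r` (`Matrix.det_smul`).
rank_conj: let `D_A = ((1 - A).map C + X • A.map C).det ∈ ℤ[X]`, same for `N`. Mapped to `ℝ[X]` (`Polynomial.mapRingHom (Int.castRingHom ℝ)`, `RingHom.map_det`, `RingHom.mapMatrix_apply`) they are conjugate by
`B.map C`, whose determinant is a unit (`hB.map`), so equal (`Matrix.det_mul`, cancel); `Polynomial.map_injective` gives `D_A = D_N`. Mapped to `(ZMod 2)[X]`: det_rank gives
`X ^ rank Ā = X ^ rank N̄`; compare degrees (`Polynomial.natDegree_X_pow`).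
-/

set_option autoImplicit false
set_option linter.unusedSectionVars false
open scoped Classical

namespace H88D8.SS

private theorem La_fac {k n : Type*} [Field k] [Fintype n] [DecidableEq n] (A : Matrix n n k)
    (hA : A * A = A) : ∃ (B : Matrix n (Fin A.rank) k) (C : Matrix (Fin A.rank) n k),
      B * C = A ∧ C * B = 1 := by
  set f : (n → k) →ₗ[k] (n → k) := A.mulVecLin with hf
  have hff : ∀ x, f (f x) = f x := by
    intro x
    simp only [hf, Matrix.mulVecLin_apply, Matrix.mulVec_mulVec, hA]
  have hfr : Module.finrank k (LinearMap.range f) = A.rank := rfl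
  let b : Module.Basis (Fin A.rank) k (LinearMap.range f) := Module.finBasisOfFinrankEq k _ hfr
  refine ⟨LinearMap.toMatrix b (Pi.basisFun k n) (LinearMap.range f).subtype,
    LinearMap.toMatrix (Pi.basisFun k n) b f.rangeRestrict, ?_, ?_⟩
  · rw [← LinearMap.toMatrix_comp]
    have h1 : (LinearMap.range f).subtype ∘ₗ f.rangeRestrict = f := by
      ext x
      rfl
    rw [h1, hf]
    ext i j
    rw [LinearMap.toMatrix_apply]
    simp
  · rw [← LinearMap.toMatrix_comp]
    have h1 : f.rangeRestrict ∘ₗ (LinearMap.range f).subtype = LinearMap.id := by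
      apply LinearMap.ext
      rintro ⟨y, x, rfl⟩
      apply Subtype.ext
      exact hff x
    rw [h1, LinearMap.toMatrix_id]

theorem det_rank {k n : Type*} [Field k] [Fintype n] [DecidableEq n] (A : Matrix n n k)
    (hA : A * A = A) : ((1 - A).map Polynomial.C +
      (Polynomial.X : Polynomial k) • A.map Polynomial.C).det = Polynomial.X ^ A.rank := by
  obtain ⟨B, C, hBC, hCB⟩ := La_fac A hA
  have h1 : ((1 - A).map Polynomial.C + (Polynomial.X : Polynomial k) • A.map Polynomial.C) =
      1 + (((Polynomial.X : Polynomial k) - 1) • B.map Polynomial.C) * C.map Polynomial.C := by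
    rw [Matrix.smul_mul, ← Matrix.map_mul, hBC, sub_smul, one_smul]
    have h2 : (1 - A).map (Polynomial.C : k → Polynomial k) = 1 - A.map Polynomial.C := by
      rw [Matrix.map_sub _ (fun a b => Polynomial.C_sub)]
      rw [Matrix.map_one _ Polynomial.C_0 Polynomial.C_1]
    rw [h2]
    abel
  rw [h1, Matrix.det_one_add_mul_comm, Matrix.mul_smul, ← Matrix.map_mul, hCB,
    Matrix.map_one _ Polynomial.C_0 Polynomial.C_1]
  have h3 : (1 : Matrix (Fin A.rank) (Fin A.rank) (Polynomial k)) +
      ((Polynomial.X : Polynomial k) - 1) • 1 = (Polynomial.X : Polynomial k) • 1 := by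
    rw [sub_smul, one_smul]
    abel
  rw [h3, Matrix.det_smul, Matrix.det_one, mul_one, Fintype.card_fin]

private noncomputable def La_D {n : Type*} [Fintype n] [DecidableEq n] (A : Matrix n n ℤ) :
    Polynomial ℤ :=
  ((1 - A).map Polynomial.C + (Polynomial.X : Polynomial ℤ) • A.map Polynomial.C).det

private theorem La_map {n k : Type*} [Fintype n] [DecidableEq n] [Field k] (A : Matrix n n ℤ) :
    (La_D A).map (Int.castRingHom k) =
      ((1 - A.map (Int.cast : ℤ → k)).map Polynomial.C +
        (Polynomial.X : Polynomial k) • (A.map (Int.cast : ℤ → k)).map Polynomial.C).det := by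
  unfold La_D
  rw [← Polynomial.coe_mapRingHom, RingHom.map_det]
  congr 1
  ext i j : 1
  by_cases hij : i = j
  · subst hij
    simp [RingHom.mapMatrix_apply, Matrix.map_apply, Matrix.add_apply, Matrix.smul_apply,
      Matrix.sub_apply]
  · simp [RingHom.mapMatrix_apply, Matrix.map_apply, Matrix.add_apply, Matrix.smul_apply,
      Matrix.sub_apply, Matrix.one_apply_ne hij]

private theorem La_eq {n : Type*} [Fintype n] [DecidableEq n] (A N : Matrix n n ℤ)
    (B : Matrix n n ℝ) (hB : IsUnit B.det)
    (h : A.map (Int.cast : ℤ → ℝ) * B = B * N.map (Int.cast : ℤ → ℝ)) : La_D A = La_D N := by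
  apply Polynomial.map_injective (Int.castRingHom ℝ) (by exact Int.cast_injective)
  rw [La_map, La_map]
  set A' := A.map (Int.cast : ℤ → ℝ) with hA'
  set N' := N.map (Int.cast : ℤ → ℝ) with hN'
  have h1 : ((1 - A').map Polynomial.C + (Polynomial.X : Polynomial ℝ) • A'.map Polynomial.C) *
      B.map Polynomial.C = B.map Polynomial.C *
      ((1 - N').map Polynomial.C + (Polynomial.X : Polynomial ℝ) • N'.map Polynomial.C) := by
    rw [Matrix.add_mul, Matrix.mul_add, Matrix.smul_mul, Matrix.mul_smul, ← Matrix.map_mul,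
      ← Matrix.map_mul, ← Matrix.map_mul, ← Matrix.map_mul, h, Matrix.sub_mul, Matrix.mul_sub,
      h, Matrix.one_mul, Matrix.mul_one]
  have h2 := congrArg Matrix.det h1
  rw [Matrix.det_mul, Matrix.det_mul, mul_comm] at h2
  have h3 : (B.map (Polynomial.C : ℝ → Polynomial ℝ)).det = Polynomial.C B.det := by
    have h4 := RingHom.map_det (Polynomial.C : ℝ →+* Polynomial ℝ) B
    rw [RingHom.mapMatrix_apply] at h4
    exact h4.symm
  have h5 : (B.map (Polynomial.C : ℝ → Polynomial ℝ)).det ≠ 0 := by
    rw [h3]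
    exact Polynomial.C_ne_zero.2 hB.ne_zero
  exact mul_left_cancel₀ h5 h2

theorem rank_conj {n : Type*} [Fintype n] [DecidableEq n] (A N : Matrix n n ℤ) (B : Matrix n n ℝ)
    (hB : IsUnit B.det) (h : A.map (Int.cast : ℤ → ℝ) * B = B * N.map (Int.cast : ℤ → ℝ))
    (hA : A.map (Int.cast : ℤ → ZMod 2) * A.map (Int.cast : ℤ → ZMod 2) =
      A.map (Int.cast : ℤ → ZMod 2))
    (hN : N.map (Int.cast : ℤ → ZMod 2) * N.map (Int.cast : ℤ → ZMod 2) =
      N.map (Int.cast : ℤ → ZMod 2)) :
    (A.map (Int.cast : ℤ → ZMod 2)).rank = (N.map (Int.cast : ℤ → ZMod 2)).rank := by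
  have h1 := La_eq A N B hB h
  have h2 := congrArg (Polynomial.map (Int.castRingHom (ZMod 2))) h1
  have : Fact (Nat.Prime 2) := ⟨Nat.prime_two⟩
  rw [La_map, La_map, det_rank _ hA, det_rank _ hN] at h2
  have h3 := congrArg Polynomial.natDegree h2
  rwa [Polynomial.natDegree_X_pow, Polynomial.natDegree_X_pow] at h3

end H88D8.SS
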