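import Pool.Agent.H88.SS.La
import Mathlib

/-!
ROW Lb (project MP_78d38b_SS, about 150 lines, pure): a lattice in `ℝ^I` stable under an integer matrix `N`; the number of the
classes `N x` modulo `2 Λ`.

PROOF. `V = I → ℝ`. `Λ₀ = span ℤ (range b) ≤ Λ` and `h Λ ≤ Λ₀`. `Λ` (as a `Submodule ℤ V`: `AddSubgroup.toIntSubmodule`) is a lattice: it is contained in the `ℤ`-span of the real basis `h⁻¹ • b` (a discrete subgroup:
`ZSpan`/the instance `DiscreteTopology (span ℤ (range b))` in `Mathlib/Algebra/Module/ZLattice/Basic.lean`; a subset of a discrete set is discrete), and its real span is everything because it contains `b`: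
`IsZLattice ℝ Λ`. So `Λ` is free (`ZLattice.module_free`) of rank `card I` (`ZLattice.rank`, `Module.finrank_fintype_fun_eq_card`): a basis `c : Basis I ℤ Λ` (reindex), and `c.ofZLatticeBasis ℝ Λ : Basis I ℝ V`
has the same vectors. (Any other way to get a `ℤ`-basis of `Λ` which is a real basis of `V` is fine.) Let `A` be the integer matrix of `x ↦ N x` on `Λ` in the basis `c` (`hst`), and `B` the real matrix with columns
the vectors of `c`: `N_ℝ * B = B * A_ℝ`, `det B` is a unit. `Ā * Ā = Ā` over `ZMod 2` by `hid` (coordinates of `N (N x) - N x ∈ 2 Λ` are even). `La.rank_conj`: `rank Ā = rank N̄`.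
Choose for every `u ∈ range Ā.mulVecLin` (there are `2 ^ rank Ā` of them) an integer vector `m` with `Ā m̄ = u` (`ZMod.intCast_surjective`) and `x_u = ∑ m_i c_i ∈ Λ`; the coordinates of `N x_u` are congruent to `u` modulo
two. If `γ x_u = γ x_{u'}` then `N x_u - N x_{u'} = 2 z` (`hγ`), so `u = u'`. So `u ↦ γ x_u` is injective into the finite set `S`: `Set.ncard_le_ncard_of_injOn` or
`Finite.card_le_of_injective`.
-/

set_option autoImplicit false
set_option linter.unusedSectionVars false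
open scoped Classical

namespace H88D8.SS

theorem Lb_basis {I : Type*} [Fintype I] (Λ : AddSubgroup (I → ℝ)) (b : Module.Basis I ℝ (I → ℝ))
    (hb : ∀ i, b i ∈ Λ) {h : ℕ} (hh : 0 < h)
    (hΛ : ∀ x ∈ Λ, (h : ℤ) • x ∈ Submodule.span ℤ (Set.range b)) :
    ∃ c : Module.Basis I ℝ (I → ℝ), (∀ i, c i ∈ Λ) ∧
      ∀ x ∈ Λ, ∃ m : I → ℤ, x = ∑ i, (m i : ℝ) • c i := by
  have hne : ((h : ℝ))⁻¹ ≠ 0 := inv_ne_zero (by exact_mod_cast hh.ne')
  have hne' : (h : ℝ) ≠ 0 := by exact_mod_cast hh.ne'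
  let L : Submodule ℤ (I → ℝ) := AddSubgroup.toIntSubmodule Λ
  have hmem : ∀ x, x ∈ L ↔ x ∈ Λ := fun x => Iff.rfl
  let b' : Module.Basis I ℝ (I → ℝ) := b.isUnitSMul (fun _ => hne.isUnit)
  have hb' : ∀ i, b' i = (h : ℝ)⁻¹ • b i := fun i => Module.Basis.isUnitSMul_apply _ _
  have hsub : (L : Set (I → ℝ)) ⊆ (Submodule.span ℤ (Set.range b') : Set (I → ℝ)) := by
    intro x hx
    have h1 := hΛ x hx
    have h2 : ∀ y ∈ Submodule.span ℤ (Set.range b), (h : ℝ)⁻¹ • y ∈ Submodule.span ℤ (Set.range b') := by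
      intro y hy
      induction hy using Submodule.span_induction with
      | mem y hy =>
        obtain ⟨i, rfl⟩ := hy
        rw [← hb' i]
        exact Submodule.subset_span ⟨i, rfl⟩
      | zero => rw [smul_zero]; exact Submodule.zero_mem _
      | add y z _ _ h1 h2 => rw [smul_add]; exact Submodule.add_mem _ h1 h2
      | smul a y _ h1 =>
        rw [smul_comm]
        exact Submodule.smul_mem _ _ h1
    have h3 := h2 _ h1
    have h4 : (h : ℝ)⁻¹ • ((h : ℤ) • x) = x := by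
      rw [← Int.cast_smul_eq_zsmul ℝ, smul_smul]
      push_cast
      rw [inv_mul_cancel₀ hne', one_smul]
    rw [h4] at h3
    exact h3
  have hd : DiscreteTopology L :=
    DiscreteTopology.of_subset (s := (Submodule.span ℤ (Set.range b') : Set (I → ℝ)))
      (inferInstanceAs (DiscreteTopology (Submodule.span ℤ (Set.range b')))) hsub
  have hz : IsZLattice ℝ L := by
    refine ⟨?_⟩
    rw [eq_top_iff, ← b.span_eq]
    refine Submodule.span_mono ?_
    rintro _ ⟨i, rfl⟩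
    exact hb i
  let e : Module.Basis I ℤ L := IsZLattice.basis L
  refine ⟨e.ofZLatticeBasis ℝ L, fun i => ?_, fun x hx => ⟨fun i => e.repr ⟨x, hx⟩ i, ?_⟩⟩
  · rw [Module.Basis.ofZLatticeBasis_apply]
    exact (e i).2
  · refine ((e.ofZLatticeBasis ℝ L).sum_repr x).symm.trans ?_
    refine Finset.sum_congr rfl fun i _ => ?_
    exact congrArg (fun t : ℝ => t • (e.ofZLatticeBasis ℝ L) i)
      (e.ofZLatticeBasis_repr_apply ℝ L ⟨x, hx⟩ i)

/-- integer combinations of the basis vectors -/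
noncomputable def Lb_v {I : Type*} [Fintype I] (c : Module.Basis I ℝ (I → ℝ)) (m : I → ℤ) : I → ℝ :=
  ∑ i, (m i : ℝ) • c i

theorem Lb_v_mem {I : Type*} [Fintype I] (Λ : AddSubgroup (I → ℝ)) (c : Module.Basis I ℝ (I → ℝ))
    (hc : ∀ i, c i ∈ Λ) (m : I → ℤ) : Lb_v c m ∈ Λ := by
  refine AddSubgroup.sum_mem _ fun i _ => ?_
  rw [Int.cast_smul_eq_zsmul]
  exact AddSubgroup.zsmul_mem _ (hc i) _

theorem Lb_v_inj {I : Type*} [Fintype I] (c : Module.Basis I ℝ (I → ℝ)) (m m' : I → ℤ)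
    (h : Lb_v c m = Lb_v c m') : m = m' := by
  funext i
  have h1 : c.repr (Lb_v c m) i = m i := by
    have := c.repr_sum_self (fun i => (m i : ℝ))
    exact congrFun this i
  have h2 : c.repr (Lb_v c m') i = m' i := by
    have := c.repr_sum_self (fun i => (m' i : ℝ))
    exact congrFun this i
  rw [h, h2] at h1
  exact_mod_cast h1.symm

theorem Lb_v_add {I : Type*} [Fintype I] (c : Module.Basis I ℝ (I → ℝ)) (m m' : I → ℤ) :
    Lb_v c (m + m') = Lb_v c m + Lb_v c m' := by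
  unfold Lb_v
  rw [← Finset.sum_add_distrib]
  refine Finset.sum_congr rfl fun i _ => ?_
  rw [Pi.add_apply, Int.cast_add, add_smul]

theorem Lb_v_two {I : Type*} [Fintype I] (c : Module.Basis I ℝ (I → ℝ)) (m : I → ℤ) :
    Lb_v c (fun i => 2 * m i) = (2 : ℤ) • Lb_v c m := by
  unfold Lb_v
  rw [Finset.smul_sum]
  refine Finset.sum_congr rfl fun i _ => ?_
  rw [← Int.cast_smul_eq_zsmul ℝ, smul_smul]
  push_cast
  rfl

theorem Lb_v_single {I : Type*} [Fintype I] [DecidableEq I] (c : Module.Basis I ℝ (I → ℝ)) (j : I) :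
    Lb_v c (Pi.single j 1) = c j := by
  unfold Lb_v
  rw [Finset.sum_eq_single j]
  · simp
  · intro i _ hi
    rw [Pi.single_eq_of_ne hi]
    simp
  · intro h
    exact absurd (Finset.mem_univ j) h

theorem Lb_v_mul {I : Type*} [Fintype I] (N A : Matrix I I ℤ) (c : Module.Basis I ℝ (I → ℝ))
    (hA : ∀ j, (N.map (Int.cast : ℤ → ℝ)).mulVec (c j) = ∑ i, (A i j : ℝ) • c i) (m : I → ℤ) :
    (N.map (Int.cast : ℤ → ℝ)).mulVec (Lb_v c m) = Lb_v c (A.mulVec m) := by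
  unfold Lb_v
  rw [Matrix.mulVec_sum]
  have h1 : ∀ j, (N.map (Int.cast : ℤ → ℝ)).mulVec ((m j : ℝ) • c j) =
      ∑ i, ((A i j : ℝ) * (m j : ℝ)) • c i := by
    intro j
    rw [Matrix.mulVec_smul, hA, Finset.smul_sum]
    refine Finset.sum_congr rfl fun i _ => ?_
    rw [smul_smul, mul_comm]
  rw [Finset.sum_congr rfl fun j _ => h1 j, Finset.sum_comm]
  refine Finset.sum_congr rfl fun i _ => ?_
  rw [← Finset.sum_smul]
  congr 1
  rw [Matrix.mulVec, dotProduct]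
  push_cast
  rfl

theorem Lb_cast {I : Type*} [Fintype I] (A : Matrix I I ℤ) (m : I → ℤ) (i : I) :
    ((A.mulVec m i : ℤ) : ZMod 2) =
      (A.map (Int.cast : ℤ → ZMod 2)).mulVec (fun j => ((m j : ℤ) : ZMod 2)) i := by
  rw [Matrix.mulVec, Matrix.mulVec, dotProduct, dotProduct]
  push_cast
  rfl

theorem Lb_idem {I : Type*} [Fintype I] [DecidableEq I] (N A : Matrix I I ℤ) (Λ : AddSubgroup (I → ℝ))
    (c : Module.Basis I ℝ (I → ℝ)) (hc : ∀ i, c i ∈ Λ)
    (hr : ∀ x ∈ Λ, ∃ m : I → ℤ, x = ∑ i, (m i : ℝ) • c i)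
    (hA : ∀ j, (N.map (Int.cast : ℤ → ℝ)).mulVec (c j) = ∑ i, (A i j : ℝ) • c i)
    (hid : ∀ x ∈ Λ, ∃ y ∈ Λ, (N.map (Int.cast : ℤ → ℝ)).mulVec ((N.map (Int.cast : ℤ → ℝ)).mulVec x) =
      (N.map (Int.cast : ℤ → ℝ)).mulVec x + (2 : ℤ) • y) :
    A.map (Int.cast : ℤ → ZMod 2) * A.map (Int.cast : ℤ → ZMod 2) =
      A.map (Int.cast : ℤ → ZMod 2) := by
  ext i j
  obtain ⟨y, hy, h1⟩ := hid (c j) (hc j)
  obtain ⟨k, hk⟩ := hr y hy
  have hk' : y = Lb_v c k := hk
  rw [hk', ← Lb_v_two, ← Lb_v_single c j, Lb_v_mul N A c hA, Lb_v_mul N A c hA, ← Lb_v_add] at h1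
  have h2 := congrFun (Lb_v_inj c _ _ h1) i
  have h3 : ((A.mulVec (A.mulVec (Pi.single j 1)) i : ℤ) : ZMod 2) =
      ((A.mulVec (Pi.single j 1) i : ℤ) : ZMod 2) := by
    rw [h2, Pi.add_apply]
    push_cast
    have : (2 : ZMod 2) = 0 := by decide
    rw [this, zero_mul, add_zero]
  rw [Matrix.mulVec_mulVec, Matrix.mulVec_single_one, Matrix.mulVec_single_one] at h3
  have h4 : A.map (Int.cast : ℤ → ZMod 2) * A.map (Int.cast : ℤ → ZMod 2) =
      (A * A).map (Int.cast : ℤ → ZMod 2) := by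
    have := (Matrix.map_mul (f := Int.castRingHom (ZMod 2)) (L := A) (M := A))
    exact this.symm
  rw [h4]
  exact h3

theorem Lb_rank {I : Type*} [Fintype I] [DecidableEq I] (N A : Matrix I I ℤ)
    (c : Module.Basis I ℝ (I → ℝ))
    (hA : ∀ j, (N.map (Int.cast : ℤ → ℝ)).mulVec (c j) = ∑ i, (A i j : ℝ) • c i)
    (hN : N.map (Int.cast : ℤ → ZMod 2) * N.map (Int.cast : ℤ → ZMod 2) =
      N.map (Int.cast : ℤ → ZMod 2))
    (hAA : A.map (Int.cast : ℤ → ZMod 2) * A.map (Int.cast : ℤ → ZMod 2) =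
      A.map (Int.cast : ℤ → ZMod 2)) :
    (N.map (Int.cast : ℤ → ZMod 2)).rank = (A.map (Int.cast : ℤ → ZMod 2)).rank := by
  refine rank_conj N A ((Pi.basisFun ℝ I).toMatrix c) ?_ ?_ hN hAA
  · have := (Pi.basisFun ℝ I).isUnit_det c
    rwa [Module.Basis.det_apply] at this
  · ext i j
    have h1 := congrFun (hA j) i
    rw [Matrix.mul_apply, Matrix.mul_apply]
    rw [Matrix.mulVec, dotProduct, Finset.sum_apply] at h1
    simp only [Module.Basis.toMatrix_apply, Pi.basisFun_repr, Pi.smul_apply, smul_eq_mul,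
      Matrix.map_apply] at h1 ⊢
    rw [h1]
    refine Finset.sum_congr rfl fun k _ => ?_
    ring

theorem lat_count {I : Type*} [Fintype I] (N : Matrix I I ℤ)
    (hN : N.map (Int.cast : ℤ → ZMod 2) * N.map (Int.cast : ℤ → ZMod 2) =
      N.map (Int.cast : ℤ → ZMod 2))
    (Λ : AddSubgroup (I → ℝ)) (b : Module.Basis I ℝ (I → ℝ)) (hb : ∀ i, b i ∈ Λ) {h : ℕ} (hh : 0 < h)
    (hΛ : ∀ x ∈ Λ, (h : ℤ) • x ∈ Submodule.span ℤ (Set.range b))
    (hst : ∀ x ∈ Λ, (N.map (Int.cast : ℤ → ℝ)).mulVec x ∈ Λ)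
    (hid : ∀ x ∈ Λ, ∃ y ∈ Λ, (N.map (Int.cast : ℤ → ℝ)).mulVec ((N.map (Int.cast : ℤ → ℝ)).mulVec x) =
      (N.map (Int.cast : ℤ → ℝ)).mulVec x + (2 : ℤ) • y)
    {C : Type*} {S : Set C} (hS : S.Finite) (γ : (I → ℝ) → C) (hγS : ∀ x ∈ Λ, γ x ∈ S)
    (hγ : ∀ x ∈ Λ, ∀ y ∈ Λ, γ x = γ y → ∃ z ∈ Λ, (N.map (Int.cast : ℤ → ℝ)).mulVec x -
      (N.map (Int.cast : ℤ → ℝ)).mulVec y = (2 : ℤ) • z) :
    2 ^ (N.map (Int.cast : ℤ → ZMod 2)).rank ≤ S.ncard := by
  classical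
  obtain ⟨c, hc, hr⟩ := Lb_basis Λ b hb hh hΛ
  have h1 : ∀ j, ∃ m : I → ℤ, (N.map (Int.cast : ℤ → ℝ)).mulVec (c j) = ∑ i, (m i : ℝ) • c i :=
    fun j => hr _ (hst _ (hc j))
  choose a ha using h1
  let A : Matrix I I ℤ := fun i j => a j i
  have hA : ∀ j, (N.map (Int.cast : ℤ → ℝ)).mulVec (c j) = ∑ i, (A i j : ℝ) • c i := ha
  have hAA := Lb_idem N A Λ c hc hr hA hid
  rw [Lb_rank N A c hA hN hAA]
  have : Finite S := hS.to_subtype
  have key : ∀ u : LinearMap.range (A.map (Int.cast : ℤ → ZMod 2)).mulVecLin, ∃ m : I → ℤ,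
      ∀ i, ((A.mulVec m i : ℤ) : ZMod 2) = u.1 i := by
    rintro ⟨u, w, rfl⟩
    have h2 : ∀ i, ∃ m : ℤ, (m : ZMod 2) = w i := fun i => ZMod.intCast_surjective (w i)
    choose m hm using h2
    refine ⟨m, fun i => ?_⟩
    rw [Lb_cast]
    have : (fun j => ((m j : ℤ) : ZMod 2)) = w := funext hm
    rw [this]
    rfl
  choose m hm using key
  let f : LinearMap.range (A.map (Int.cast : ℤ → ZMod 2)).mulVecLin → S :=
    fun u => ⟨γ (Lb_v c (m u)), hγS _ (Lb_v_mem Λ c hc _)⟩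
  have hf : Function.Injective f := by
    intro u u' huu
    have h2 : γ (Lb_v c (m u)) = γ (Lb_v c (m u')) := congrArg Subtype.val huu
    obtain ⟨z, hz, h3⟩ := hγ _ (Lb_v_mem Λ c hc _) _ (Lb_v_mem Λ c hc _) h2
    obtain ⟨k, hk⟩ := hr z hz
    have hk' : z = Lb_v c k := hk
    rw [sub_eq_iff_eq_add, hk', ← Lb_v_two, Lb_v_mul N A c hA, Lb_v_mul N A c hA, ← Lb_v_add] at h3
    have h4 := Lb_v_inj c _ _ h3
    apply Subtype.ext
    funext i
    rw [← hm u i, ← hm u' i, h4, Pi.add_apply]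
    push_cast
    have : (2 : ZMod 2) = 0 := by decide
    rw [this, zero_mul, zero_add]
  have h5 := Nat.card_le_card_of_injective f hf
  rw [Nat.card_coe_set_eq] at h5
  have h6 : Nat.card (LinearMap.range (A.map (Int.cast : ℤ → ZMod 2)).mulVecLin) =
      2 ^ (A.map (Int.cast : ℤ → ZMod 2)).rank := by
    have := Module.card_eq_pow_finrank (K := ZMod 2)
      (V := LinearMap.range (A.map (Int.cast : ℤ → ZMod 2)).mulVecLin)
    rw [Nat.card_eq_fintype_card, this, ZMod.card, Matrix.rank]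
  rw [← h6]
  exact h5

end H88D8.SS
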