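import Pool.Agent.H88.SS.Df
import Pool.Agent.H38.RT.Ba

/-!
Definitions for the lattice of the `T`-units and powers of two (project MP_78d38b_SS); no row.
-/

set_option autoImplicit false
set_option linter.unusedSectionVars false
open scoped Classical

open WithZero NumberField IsDedekindDomain H38RT H88T7 H88T8 H90T8
open H38T1 (SC sc scu scu_surj sc_mul sc_of_ne sc_surj rep rep_ne sc_rep sc_eq_zero eo la si Pri tp OddP
  LD XX XX' NS ov rp SqMod)

namespace H88D8.SS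

variable (K : Type) [Field K] [NumberField K] (T : Finset (HeightOneSpectrum (𝓞 K)))

/-- The `T`-units times powers of two. -/
def Gam : Set K := {x | x ≠ 0 ∧ ∃ k : ℤ, ∀ v ∉ T, v.valuation K (x * 2 ^ k) = 1}

/-- The vector of the logarithms of the archimedean absolute values and of the orders at the places in `T`. -/
noncomputable def ell (x : K) : InfinitePlace K ⊕ T → ℝ :=
  Sum.elim (fun w => Real.log (w x)) (fun v => ((ord (v.1.valuation K) x : ℤ) : ℝ))

variable {K T}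

lemma two_ne' : (2 : K) ≠ 0 := two_ne_zero

lemma gam_one : (1 : K) ∈ Gam K T :=
  ⟨one_ne_zero, 0, fun v _ => by rw [zpow_zero, mul_one, map_one]⟩

lemma gam_mul {x y : K} (hx : x ∈ Gam K T) (hy : y ∈ Gam K T) : x * y ∈ Gam K T := by
  obtain ⟨hx0, k, hk⟩ := hx
  obtain ⟨hy0, l, hl⟩ := hy
  refine ⟨mul_ne_zero hx0 hy0, k + l, fun v hv => ?_⟩
  have h : x * y * 2 ^ (k + l) = x * 2 ^ k * (y * 2 ^ l) := by
    rw [zpow_add₀ two_ne']
    ring
  rw [h, map_mul, hk v hv, hl v hv, mul_one]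

lemma gam_inv {x : K} (hx : x ∈ Gam K T) : x⁻¹ ∈ Gam K T := by
  obtain ⟨hx0, k, hk⟩ := hx
  refine ⟨inv_ne_zero hx0, -k, fun v hv => ?_⟩
  have h : x⁻¹ * 2 ^ (-k) = (x * 2 ^ k)⁻¹ := by
    rw [mul_inv, zpow_neg]
  rw [h, map_inv₀, hk v hv, inv_one]

lemma gam_two : (2 : K) ∈ Gam K T :=
  ⟨two_ne', -1, fun v _ => by rw [zpow_neg, zpow_one, mul_inv_cancel₀ two_ne', map_one]⟩

lemma ell_inl (x : K) (w : InfinitePlace K) : ell K T x (Sum.inl w) = Real.log (w x) := rfl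

lemma ell_inr (x : K) (v : T) : ell K T x (Sum.inr v) = ((ord (v.1.valuation K) x : ℤ) : ℝ) := rfl

lemma ell_mul {x y : K} (hx : x ≠ 0) (hy : y ≠ 0) : ell K T (x * y) = ell K T x + ell K T y := by
  funext i
  rcases i with w | v
  · rw [Pi.add_apply, ell_inl, ell_inl, ell_inl, map_mul, Real.log_mul]
    · exact (w.pos_iff.2 hx).ne'
    · exact (w.pos_iff.2 hy).ne'
  · rw [Pi.add_apply, ell_inr, ell_inr, ell_inr, ord_mul hx hy, Int.cast_add]

lemma ell_one : ell K T 1 = 0 := by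
  have h := ell_mul (K := K) (T := T) one_ne_zero one_ne_zero
  rw [mul_one] at h
  exact left_eq_add.1 h

lemma ell_inv {x : K} (hx : x ≠ 0) : ell K T x⁻¹ = - ell K T x := by
  have h := ell_mul (K := K) (T := T) hx (inv_ne_zero hx)
  rw [mul_inv_cancel₀ hx, ell_one] at h
  exact (neg_eq_of_add_eq_zero_right h.symm).symm

variable (K T)

/-- The lattice of the vectors `ell x`, `x ∈ Gam`. -/
def Lat : AddSubgroup (InfinitePlace K ⊕ T → ℝ) where
  carrier := {v | ∃ x ∈ Gam K T, ell K T x = v}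
  add_mem' := by
    rintro _ _ ⟨x, hx, rfl⟩ ⟨y, hy, rfl⟩
    exact ⟨x * y, gam_mul hx hy, ell_mul hx.1 hy.1⟩
  zero_mem' := ⟨1, gam_one, ell_one⟩
  neg_mem' := by
    rintro _ ⟨x, hx, rfl⟩
    exact ⟨x⁻¹, gam_inv hx, ell_inv hx.1⟩

variable {K T}

lemma mem_Lat {v : InfinitePlace K ⊕ T → ℝ} : v ∈ Lat K T ↔ ∃ x ∈ Gam K T, ell K T x = v := Iff.rfl

/-- The places of `K` above the primes in `Q`. -/
noncomputable def TQ (K : Type) [Field K] [NumberField K] (Q : Finset ℕ) :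
    Finset (HeightOneSpectrum (𝓞 K)) :=
  if h : (ov K (Q : Set ℕ)).Finite then h.toFinset else ∅

lemma mem_TQ {Q : Finset ℕ} (hQ : ∀ q ∈ Q, q.Prime) {v : HeightOneSpectrum (𝓞 K)} :
    v ∈ TQ K Q ↔ rp v ∈ Q := by
  have h : (ov K (Q : Set ℕ)).Finite := H38T1.fin_ov Q.finite_toSet hQ
  unfold TQ
  rw [dif_pos h, Set.Finite.mem_toFinset, H38T1.mem_ov hQ, Finset.mem_coe]

end H88D8.SS
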