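import Pool.Agent.H88.SS.Df
import Pool.Agent.H88.D8.Ma
import Pool.Agent.H88.D8.Ai
import Pool.Agent.H88.D8.Ag
import Pool.Agent.H88.D8.Aa

/-!
ROW P0 (project MP_78d38b_T8, about 110 lines): phase 0 of the algorithm. Modification of the proved file `Pool/Agent/H88/T7/Mc.lean`.

PROOF. First choose with `hA.cR` (`R = {sc β, sc D}` over `ℚ`, `D = 1 - 64 β`, `Ψ` from `sepP8'_0`: `Ψ = 0` on `QK`, `Ψ β = 1`, `Ψ D = 0`) a new prime `p₀ > N₀` (`exists_new8` for the empty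
state; `St8 K B a β ∅ ∅` is trivial) and `Pp' = {p₀}` (`st_insP8'`). Then show by induction on the cardinality of the finite set `NS (PP8 K a β Qa Qb ∅ Pp')` (finite: `Mc_fin` in
`H88/T7/Mc.lean`: `H24TD.fin_US` with `S = ∅`; copy it) that for every state `(∅, Pp')` there is a state `(∅, Qp')` with `Pp' ⊆ Qp'` and `NS (PP8 ..) ⊆ {0}`. If `NS (PP8 K a β Qa Qb ∅ Pp')` contains
`c ≠ 0`: `nm K c = 0` (`nm_NS`, H88T7; see how `Mc.lean` uses it), and `c ∉ E0` (`exo_NS`: `ov K Qa ⊆ PP8`; so `c ∈ E0` would give `c = 0`). `hA.cA c` with `R = {sc β, sc D}` and the same `Ψ`, and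
`exists_new8` give a new prime `p` with `la v c = 1` for some `v ∈ ov K {p}`, `la v (res β) = 1`, `la v (res D) = 0` for `v ∈ ov K {p}`. Add `p` to `Pp'` (`st_insP8'`): `NS (PP8 .. (insert p Pp'))` is
contained in `NS (PP8 .. Pp')` (`NS_mono`, `PP_insP8'`) and does not contain `c` (`v ∈ PP8 ..` by `P'_ins8`): smaller cardinality.
-/

set_option autoImplicit false
set_option linter.unusedSectionVars false
open scoped Classical

open WithZero NumberField IsDedekindDomain H38RT H88T7 H88T8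
open H38T1 (SC sc scu scu_surj sc_mul sc_of_ne sc_surj rep rep_ne sc_rep sc_eq_zero eo la si Pri OddP
  LD XX XX' NS ov rp SqMod)

namespace H88D8.SS

variable {K : Type} [Field K] [NumberField K] {B : Finset ℕ} {QK : AddSubgroup (SC ℚ)}
  {E0 : Set (SC K)} {a β : ℤ} {Qa Qb : Finset ℕ}

theorem P0_fin (S : Set (HeightOneSpectrum (𝓞 K))) : (NS S : Set (SC K)).Finite := by
  refine (H24TD.fin_US (K := K) (S := ∅) Set.finite_empty).subset ?_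
  intro c hc v _
  exact hc.1 v

theorem P0_step (hD : Dat8 K B QK E0 a β Qa Qb) (hA : AdmW K QK E0) {Pp' : Finset ℕ}
    (hS : St8 K B a β ∅ Pp') {c : SC K} (hc : c ∈ NS (PP8 K a β Qa Qb ∅ Pp')) (hc0 : c ≠ 0) :
    ∃ p : ℕ, St8 K B a β ∅ (insert p Pp') ∧
      NS (PP8 K a β Qa Qb ∅ (insert p Pp')) ⊂ (NS (PP8 K a β Qa Qb ∅ Pp') : Set (SC K)) := by
  obtain ⟨Ψ, hΨ1, hΨ2, hΨ3⟩ := sepP8'_0 hD
  have hsub : ov K (Qa : Set ℕ) ⊆ PP8 K a β Qa Qb ∅ Pp' := by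
    rintro v ⟨q, hq, hqv⟩
    exact Or.inl (Or.inr ⟨q, Or.inl hq, hqv⟩)
  have hE : c ∉ E0 := fun h => hc0 (exo_NS hD hsub hc h)
  have hinf := hA.cE c (nm_NS hc) hE 1 {sc (β : ℚ), sc ((a ^ 2 - 64 * β : ℤ) : ℚ)} Ψ hΨ1
  obtain ⟨p, ⟨_, hr, v₁, hv₁, hc1⟩, hnew, _⟩ :=
    exists_new8 (B := B) (Pp := ∅) (Pp' := Pp') hD.pos.ne' (Ah8_neg hD).ne hinf (fun p hp => hp.1) 0
  refine ⟨p, st_insP8' hS hnew ?_ ?_ hD.pos.ne', ?_⟩
  · intro v hv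
    rw [hr _ (Finset.mem_insert_self _ _) v hv, hΨ2]
  · intro v hv
    rw [hr _ (Finset.mem_insert_of_mem (Finset.mem_singleton_self _)) v hv, hΨ3]
  · refine (Set.ssubset_iff_of_subset (NS_mono PP_insP8')).2 ⟨c, hc, ?_⟩
    intro hcon
    have h3 : v₁ ∈ PP8 K a β Qa Qb ∅ (insert p Pp') := by
      refine Or.inr ?_
      rw [P'_ins8.1]
      exact Or.inr hv₁
    have h4 := hcon.2.1 v₁ h3
    rw [h4] at hc1
    exact absurd hc1 (by decide)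

theorem P0_ind (hD : Dat8 K B QK E0 a β Qa Qb) (hA : AdmW K QK E0) (n : ℕ) : ∀ Pp' : Finset ℕ,
    St8 K B a β ∅ Pp' → (NS (PP8 K a β Qa Qb ∅ Pp') : Set (SC K)).ncard ≤ n →
    ∃ Qp' : Finset ℕ, Pp' ⊆ Qp' ∧ St8 K B a β ∅ Qp' ∧
      NS (PP8 K a β Qa Qb ∅ Qp') ⊆ {(0 : SC K)} := by
  induction n with
  | zero =>
    intro Pp' hS hn
    refine ⟨Pp', Finset.Subset.refl _, hS, ?_⟩
    have h1 := (Set.ncard_eq_zero (P0_fin _)).1 (Nat.le_zero.1 hn)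
    rw [h1]
    exact Set.empty_subset _
  | succ n ih =>
    intro Pp' hS hn
    by_cases h : NS (PP8 K a β Qa Qb ∅ Pp') ⊆ {(0 : SC K)}
    · exact ⟨Pp', Finset.Subset.refl _, hS, h⟩
    rw [Set.not_subset] at h
    obtain ⟨c, hc, hc0⟩ := h
    obtain ⟨p, hp1, hp2⟩ := P0_step hD hA hS hc (fun h => hc0 (Set.mem_singleton_iff.2 h))
    obtain ⟨Qp', hQ1, hQ2, hQ3⟩ := ih (insert p Pp') hp1 (by
      have := Set.ncard_lt_ncard hp2 (P0_fin _)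
      omega)
    exact ⟨Qp', (Finset.subset_insert _ _).trans hQ1, hQ2, hQ3⟩

theorem phase0 (hD : Dat8 K B QK E0 a β Qa Qb) (hA : AdmW K QK E0) (N₀ : ℕ) :
    ∃ Pp' : Finset ℕ, St8 K B a β ∅ Pp' ∧ (∃ p ∈ Pp', N₀ < p) ∧
      NS (PP8 K a β Qa Qb ∅ Pp') ⊆ {(0 : SC K)} := by
  obtain ⟨Ψ, hΨ1, hΨ2, hΨ3⟩ := sepP8'_0 hD
  have h0 : St8 K B a β ∅ ∅ := by
    constructor <;> simp
  obtain ⟨p, ⟨_, hr⟩, hnew, hpN⟩ := exists_new8 (B := B) (Pp := ∅) (Pp' := ∅) hD.pos.ne' (Ah8_neg hD).ne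
    (hA.cR {sc (β : ℚ), sc ((a ^ 2 - 64 * β : ℤ) : ℚ)} Ψ hΨ1) (fun p hp => hp.1) N₀
  have h1 : St8 K B a β ∅ (insert p ∅) := by
    refine st_insP8' h0 hnew ?_ ?_ hD.pos.ne'
    · intro v hv
      rw [hr _ (Finset.mem_insert_self _ _) v hv, hΨ2]
    · intro v hv
      rw [hr _ (Finset.mem_insert_of_mem (Finset.mem_singleton_self _)) v hv, hΨ3]
  obtain ⟨Qp', hQ1, hQ2, hQ3⟩ := P0_ind hD hA _ (insert p ∅) h1 le_rfl
  exact ⟨Qp', hQ2, ⟨p, hQ1 (Finset.mem_insert_self _ _), hpN⟩, hQ3⟩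

end H88D8.SS
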