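import Pool.Agent.H88.SS.Fr
import Pool.Agent.H88.SS.Cb
import Pool.Agent.H30.T8.Fa

/-!
ROW Pa (project MP_78d38b_SS, about 150 lines): primes with a given Frobenius element, and the numbers `fb` for them.

PROOF. frob_placesS: modification of the PROVED theorem `H30T8.frob_places` (`Pool/Agent/H30/T8/Fa.lean`): one more conclusion; in the proof there `hgeo` (from `geom`) and `hcyc` (from `pow_cyc`) give `pl σ w = pl τ w ↔ (actH K M (g ^ j)).SameCycle σ τ ↔ (actH K M g).SameCycle σ τ`. (Its private lemmas `Fa_fin`, `Fa_ram`, `Fa_unr`: copy them.)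
fb_frob: `w` and `wq M q` are above the same prime: `H38T1.trans_above` (`H38/T1/Md.lean`; `IsGalois ℚ M` from `hL.gal`): `γ • w = wq M q`, and `pl (γ • σ) (γ • w) = pl σ w` (`HeightOneSpectrum.ext`, `mem_pl`, `H38T1.mem_mv`: `x ∈ (γ • w).asIdeal ↔ γ⁻¹ x ∈ w.asIdeal`; `oh (γ • σ) x = γ (oh σ x)`). Let `π₁ σ = pl σ w`: `fb t π₁ = fb t (pq K M q)` by
`fb_perm` (row Cb) with `e = actH K M γ` (`ht γ σ τ`, `smul_emb`). And `fb t π₁ = fb t (cyc g)` by `fb_congr` (`Quotient.eq`/`Quotient.exact`, `Quotient.sound`). fb_one: for `g = 1` the map `cyc 1` is injective (`Equiv.Perm.sameCycle_one`, see `one_orb` in `Pool/Agent/H30/T8/Fb.lean`), `fb_inj`.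
-/

set_option autoImplicit false
set_option linter.unusedSectionVars false
open scoped Classical

open WithZero NumberField IsDedekindDomain H38RT H88T7 H88T8 H90T8
open H38T1 (SC sc scu scu_surj sc_mul sc_of_ne sc_surj rep rep_ne sc_rep sc_eq_zero eo la si Pri tp OddP
  LD XX XX' NS ov rp SqMod)

namespace H88D8.SS

variable {K M : Type} [Field K] [NumberField K] [Field M] [NumberField M]

variable {t : Matrix (K →ₐ[ℚ] M) (K →ₐ[ℚ] M) (ZMod 2)}

/-- The cycle of an embedding under `g`. -/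
noncomputable def cyc (K : Type) {M : Type} [Field K] [NumberField K] [Field M] [NumberField M] (g : M ≃ₐ[ℚ] M) :
    (K →ₐ[ℚ] M) → Quotient (Equiv.Perm.SameCycle.setoid (actH K M g)) := fun σ => Quotient.mk _ σ

/-- Only finitely many rational primes lie below a finite set of places. -/
private lemma Pa_fin {K : Type} [Field K] [NumberField K] {S : Set (HeightOneSpectrum (𝓞 K))}
    (hS : S.Finite) : {p : ℕ | p.Prime ∧ ∃ v ∈ S, (p : 𝓞 K) ∈ v.asIdeal}.Finite := by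
  refine (hS.image rp).subset ?_
  rintro p ⟨hp, v, hv, hpv⟩
  exact ⟨v, hv, (H38T1.mem_iff_eq hp).1 hpv⟩

private theorem Pa_ram (K : Type) [Field K] [NumberField K] :
    {v : HeightOneSpectrum (𝓞 K) | v.asIdeal ∣ differentIdeal ℤ (𝓞 K)}.Finite := by
  refine Ideal.finite_factors ?_
  exact differentIdeal_ne_bot

private theorem Pa_unr (K : Type) [Field K] [NumberField K] (v : HeightOneSpectrum (𝓞 K))
    (h : ¬ v.asIdeal ∣ differentIdeal ℤ (𝓞 K)) : v.asIdeal.ramificationIdx ℤ = 1 := by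
  have h1 : Algebra.IsUnramifiedAt ℤ v.asIdeal := not_dvd_differentIdeal_iff.1 h
  exact Ideal.ramificationIdx_eq_one v.asIdeal ℤ

theorem frob_placesS (hodd : Odd (Module.finrank ℚ K)) (hL : BigL K M) (g : M ≃ₐ[ℚ] M)
    (Z : Finset (SC K)) :
    {q : ℕ | q.Prime ∧ q ≠ 2 ∧
      (ov K {q}).ncard = Nat.card (Quotient (Equiv.Perm.SameCycle.setoid (actH K M g))) ∧
      (∃ w : HeightOneSpectrum (𝓞 M), rp w = q ∧
        ∀ σ τ : K →ₐ[ℚ] M, pl σ w = pl τ w ↔ (actH K M g).SameCycle σ τ) ∧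
      ∀ u ∈ Z, (∃ (σ : K →ₐ[ℚ] M) (t : M), t ^ 2 = σ (rep u) ∧ actH K M g σ = σ ∧ g t = - t) →
        ∃ v ∈ ov K {q}, la v u = 1}.Infinite := by
  have : IsGalois ℚ M := hL.gal
  have hbad : {p : ℕ | p = 2 ∨ (p.Prime ∧ ∃ v ∈ {v : HeightOneSpectrum (𝓞 K) |
      v.asIdeal ∣ differentIdeal ℤ (𝓞 K)}, (p : 𝓞 K) ∈ v.asIdeal) ∨ (p.Prime ∧ ∃ v ∈ ⋃ z ∈ Z, {v : HeightOneSpectrum (𝓞 K) |
      v.valuation K (rep z) ≠ 1}, (p : 𝓞 K) ∈ v.asIdeal)}.Finite := by
    have h2 : (⋃ z ∈ Z, {v : HeightOneSpectrum (𝓞 K) | v.valuation K (rep z) ≠ 1}).Finite := by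
      exact Set.Finite.biUnion Z.finite_toSet fun z _ => fin_bad (H38T1.rep_ne z)
    refine ((Set.finite_singleton 2).union ((Pa_fin (Pa_ram K)).union (Pa_fin h2))).subset ?_
    rintro p (h | h | h)
    · exact Or.inl h
    · exact Or.inr (Or.inl h)
    · exact Or.inr (Or.inr h)
  refine ((H93T1.frob_inf g).sdiff hbad).mono ?_
  rintro p ⟨⟨hp, j, w, hj, hpw, hφ⟩, hgood⟩
  have hp2 : p ≠ 2 := fun h => hgood (Or.inl h)
  have hrp : rp w = p := (H38T1.mem_iff_eq hp).1 hpw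
  have hw2 : rp w ≠ 2 := by rw [hrp]; exact hp2
  have hF : IsFb (g ^ j) w := by
    intro x
    rw [hrp]
    exact hφ x
  have hun : ∀ v : HeightOneSpectrum (𝓞 K), rp v = rp w → v.asIdeal.ramificationIdx ℤ = 1 := by
    intro v hv
    refine Pa_unr K v fun h => hgood (Or.inr (Or.inl ⟨hp, v, h, ?_⟩))
    exact (H38T1.mem_iff_eq hp).2 (hv.trans hrp)
  obtain ⟨hcyc, hper⟩ := pow_cyc (K := K) hj
  obtain ⟨hgeo, hin⟩ := geom hL hF hun
  refine ⟨hp, hp2, ?_, ⟨w, hrp, fun σ τ => (hgeo σ τ).trans (hcyc σ τ)⟩, ?_⟩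
  · have h1 := count_places hL hF hun
    rw [hrp] at h1
    rw [h1]
    have h2 : Equiv.Perm.SameCycle.setoid (actH K M (g ^ j)) =
        Equiv.Perm.SameCycle.setoid (actH K M g) := by
      ext σ τ
      exact hcyc σ τ
    rw [h2]
  · rintro u hu ⟨σ, t, ht, hfix, hgt⟩
    have hm1 : Function.minimalPeriod (actH K M (g ^ j)) σ = 1 := by
      rw [hper]
      exact Function.minimalPeriod_eq_one_iff_isFixedPt.2 hfix
    have hfix' : actH K M (g ^ j) σ = σ := Function.minimalPeriod_eq_one_iff_isFixedPt.1 hm1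
    have hplp : (p : 𝓞 K) ∈ (pl σ w).asIdeal := (H38T1.mem_iff_eq hp).2 ((rp_pl σ w).trans hrp)
    have hov : pl σ w ∈ ov K {p} := ⟨p, rfl, hplp⟩
    have ht0 : t ≠ 0 := by
      intro h
      rw [h, zero_pow two_ne_zero] at ht
      exact (map_ne_zero σ).2 (H38T1.rep_ne u) ht.symm
    have hval : (pl σ w).valuation K (rep u) = 1 := by
      by_contra h
      exact hgood (Or.inr (Or.inr ⟨hp, pl σ w, Set.mem_biUnion hu h, hplp⟩))
    have hsgn : (g ^ j) t = if (1 : ZMod 2) = 0 then t else - t :=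
      pow_sign hj ht0 (by rw [if_neg one_ne_zero]; exact hgt)
    refine ⟨pl σ w, hov, ?_⟩
    refine (leg7 hF hw2 σ (f := 1) ?_ one_pos ?_ ht ?_ hval).2
    · rw [hin, hm1]
    · rw [pow_one]
      exact hfix'
    · rw [pow_one]
      exact hsgn

private lemma Pa_pl (γ : M ≃ₐ[ℚ] M) (σ : K →ₐ[ℚ] M) (w : HeightOneSpectrum (𝓞 M)) :
    pl (actH K M γ σ) (γ • w) = pl σ w := by
  apply HeightOneSpectrum.ext
  ext x
  rw [mem_pl, mem_pl, H38T1.smul_def, H38T1.mem_mv]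
  have h1 : H38T1.gO γ⁻¹ (oh (actH K M γ σ) x) = oh σ x := by
    apply RingOfIntegers.ext
    change γ⁻¹ (γ (σ (x : K))) = σ (x : K)
    exact γ.symm_apply_apply _
  rw [h1]

theorem fb_frob (hL : BigL K M) {q : ℕ} (hq : q.Prime) {g : M ≃ₐ[ℚ] M}
    (h : ∃ w : HeightOneSpectrum (𝓞 M), rp w = q ∧
        ∀ σ τ : K →ₐ[ℚ] M, pl σ w = pl τ w ↔ (actH K M g).SameCycle σ τ) (ht : Inv t) :
    fb t (pq K M q) = fb t (cyc K g) := by
  have hgal : IsGalois ℚ M := hL.gal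
  obtain ⟨w, hw, hcyc⟩ := h
  have hw1 : (q : 𝓞 M) ∈ w.asIdeal := (H38T1.mem_iff_eq hq).2 hw
  have hw2 : (q : 𝓞 M) ∈ (wq M q).asIdeal := (H38T1.mem_iff_eq hq).2 (rp_wq hq)
  obtain ⟨γ, hγ⟩ := H38T1.trans_above hq hw1 hw2
  have h1 : fb t (fun σ : K →ₐ[ℚ] M => pl σ w) = fb t (pq K M q) := by
    refine fb_perm t (actH K M γ) (fun σ τ => ?_) (fun σ τ => ?_)
    · exact ht γ σ τ
    · change pl σ w = pl τ w ↔ pl (actH K M γ σ) (wq M q) = pl (actH K M γ τ) (wq M q)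
      rw [← hγ, Pa_pl, Pa_pl]
  rw [← h1]
  refine fb_congr t fun σ τ => ?_
  refine (hcyc σ τ).trans ⟨fun h3 => Quotient.sound h3, fun h3 => Quotient.exact h3⟩

theorem fb_one (ht : t * t = t) : fb t (cyc K (1 : M ≃ₐ[ℚ] M)) = 2 ^ t.rank := by
  refine fb_inj ht fun σ τ h => ?_
  have h1 : (actH K M (1 : M ≃ₐ[ℚ] M)).SameCycle σ τ := Quotient.exact h
  rw [map_one, Equiv.Perm.sameCycle_one] at h1
  exact h1

end H88D8.SS
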