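import Pool.Agent.H88.SS.Xt

/-!
ROW Xa (project MP_78d38b_SS, about 120 lines; pure algebra): a simple module of vectors with sum zero gives a semisimple module; transfer along a bijection.

PROOF. semi_of_simple: let `SZ H` (in `Pool/Agent/H90/T8/Ct.lean`) be the vectors with sum zero and `c₀ = fun _ => 1`; `c₀ ∉ SZ H` since `∑ 1 = card H = 1` in `ZMod 2` (odd). Every `v` is in `SZ H` or `v + c₀` is in `SZ H` (a sum is `0` or `1` in `ZMod 2`). Let `U` be stable.
Case 1, `U ⊓ SZ H ≠ ⊥`: it is stable (`∑ s, u (g • s) = ∑ s, u s`, `Fintype.sum_equiv (MulAction.toPerm g)`), so by `h` (for `U ⊓ SZ H`) `SZ H ≤ U`. If `U = ⊤` take `U' = ⊥`. Otherwise `c₀ ∉ U` (if `c₀ ∈ U` then every `v` is in `U`), so `U = SZ H` (for `u ∈ U`, `u + c₀ ∈ SZ H ≤ U` would give `c₀ ∈ U`); take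
`U' = Submodule.span (ZMod 2) {c₀}` (stable: its elements are `0` and `c₀`, `Submodule.mem_span_singleton`); disjoint since `c₀ ∉ SZ H`, codisjoint since `v ∈ SZ H` or `v = (v + c₀) + c₀`.
Case 2, `U ⊓ SZ H = ⊥`: if `U = ⊥` take `U' = ⊤`. Otherwise take `0 ≠ u₀ ∈ U`, `u₀ ∉ SZ H`, and `U' = SZ H` (stable); disjoint by assumption; codisjoint: `v ∈ SZ H` or `v + u₀ ∈ SZ H` (both sums are `1`).
semi_equiv: for a stable `U'` (under `G'`) let `U = U'.comap L`, where `L u = fun s' => u (e.symm s')` (`LinearMap.funLeft (ZMod 2) (ZMod 2) e.symm : (H → ZMod 2) →ₗ (H' → ZMod 2)`), that is `u ∈ U ↔ u ∘ e.symm ∈ U'`. `U` is stable: for `g` take `g'` from `h1`, `(s ↦ u (g • s)) ∘ e.symm = (s' ↦ (u ∘ e.symm) (g' • s'))` as `e (g • e.symm s') = g' • s'`. Take the complement `W` of `U`, and `W' = W.comap L'`, `L' u' = u' ∘ e`; it is stable by `h2`. `IsCompl U' W'`: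
elementwise (`Submodule.disjoint_def`; `codisjoint_iff`/`Submodule.mem_sup` with `Submodule.mem_top`), with `(u' ∘ e) ∘ e.symm = u'`.
-/

set_option autoImplicit false
set_option linter.unusedSectionVars false
open scoped Classical

open H90T8

namespace H88D8.SS

variable {G G' H H' : Type*} [Group G] [MulAction G H] [Group G'] [MulAction G' H']

private theorem Xa_one [Fintype H] (hodd : Odd (Fintype.card H)) : ∑ _s : H, (1 : ZMod 2) = 1 := by
  rw [Finset.sum_const, Finset.card_univ, nsmul_eq_mul, mul_one]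
  exact ZMod.natCast_eq_one_iff_odd.2 hodd

private theorem Xa_two (u v : H → ZMod 2) : u + (v + u) = v := by
  funext s
  have h := CharTwo.add_self_eq_zero (u s)
  rw [Pi.add_apply, Pi.add_apply]
  linear_combination h

theorem semi_of_simple [Fintype H] (hodd : Odd (Fintype.card H)) (h : SumZeroSimple G H) :
    SemiSimple G H := by
  intro U hU
  have hc := Xa_one (H := H) hodd
  have h2 : ∀ a : ZMod 2, a = 0 ∨ a = 1 := by decide
  have hst : ∀ (g : G) (u : H → ZMod 2), ∑ s, u (g • s) = ∑ s, u s := fun g u =>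
    Fintype.sum_equiv (MulAction.toPerm g) _ _ fun s => rfl
  have hadd : ∀ u v : H → ZMod 2, ∑ s, u s = 1 → ∑ s, v s = 1 → v + u ∈ SZ H := by
    intro u v hu hv
    rw [mem_SZ]
    simp only [Pi.add_apply, Finset.sum_add_distrib, hu, hv]
    decide
  by_cases hb : U ⊓ SZ H = ⊥
  · by_cases hU0 : U = ⊥
    · refine ⟨⊤, fun g u _ => Submodule.mem_top, ?_⟩
      rw [hU0]
      exact isCompl_bot_top
    · obtain ⟨u₀, hu₀, hu₀0⟩ := (Submodule.ne_bot_iff U).1 hU0
      have hs : ∑ s, u₀ s = 1 := by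
        rcases h2 (∑ s, u₀ s) with h3 | h3
        · exact absurd ((Submodule.eq_bot_iff _).1 hb u₀ ⟨hu₀, mem_SZ.2 h3⟩) hu₀0
        · exact h3
      refine ⟨SZ H, fun g u hu => mem_SZ.2 ((hst g u).trans (mem_SZ.1 hu)), disjoint_iff.2 hb, ?_⟩
      rw [codisjoint_iff, eq_top_iff]
      intro v _
      rcases h2 (∑ s, v s) with h3 | h3
      · exact Submodule.mem_sup_right (mem_SZ.2 h3)
      · exact Submodule.mem_sup.2 ⟨u₀, hu₀, v + u₀, hadd u₀ v hs h3, Xa_two u₀ v⟩
  · have hle : SZ H ≤ U := fun u hu =>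
      (h (U ⊓ SZ H) (fun g u hu => ⟨hU g u hu.1, mem_SZ.2 ((hst g u).trans (mem_SZ.1 hu.2))⟩)
        (fun u hu => mem_SZ.1 hu.2) hb u (mem_SZ.1 hu)).1
    by_cases hT : U = ⊤
    · refine ⟨⊥, fun g u hu => ?_, ?_⟩
      · rw [Submodule.mem_bot] at hu ⊢
        rw [hu]
        rfl
      · rw [hT]
        exact isCompl_top_bot
    · have hc0 : (fun _ => 1 : H → ZMod 2) ∉ U := by
        intro h0
        apply hT
        rw [eq_top_iff]
        intro v _
        rcases h2 (∑ s, v s) with h3 | h3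
        · exact hle (mem_SZ.2 h3)
        · have h4 := U.add_mem h0 (hle (hadd _ v hc h3))
          rwa [Xa_two] at h4
      refine ⟨Submodule.span (ZMod 2) {(fun _ => 1 : H → ZMod 2)}, fun g u hu => ?_, ?_, ?_⟩
      · obtain ⟨a, rfl⟩ := Submodule.mem_span_singleton.1 hu
        exact Submodule.mem_span_singleton.2 ⟨a, rfl⟩
      · rw [Submodule.disjoint_def]
        intro x hx hx'
        obtain ⟨a, rfl⟩ := Submodule.mem_span_singleton.1 hx'
        rcases h2 a with h3 | h3
        · rw [h3, zero_smul]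
        · rw [h3, one_smul] at hx
          exact absurd hx hc0
      · rw [codisjoint_iff, eq_top_iff]
        intro v _
        rcases h2 (∑ s, v s) with h3 | h3
        · exact Submodule.mem_sup_left (hle (mem_SZ.2 h3))
        · refine Submodule.mem_sup.2 ⟨v + fun _ => 1, hle (hadd _ v hc h3), fun _ => 1,
            Submodule.mem_span_singleton_self _, ?_⟩
          rw [add_comm]
          exact Xa_two _ v

theorem semi_equiv (e : H ≃ H') (h1 : ∀ g : G, ∃ g' : G', ∀ s, e (g • s) = g' • e s)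
    (h2 : ∀ g' : G', ∃ g : G, ∀ s, e (g • s) = g' • e s) (h : SemiSimple G H) :
    SemiSimple G' H' := by
  intro U' hU'
  obtain ⟨W, hW, hc⟩ := h (U'.comap (LinearMap.funLeft (ZMod 2) (ZMod 2) e.symm)) (by
    intro g u hu
    obtain ⟨g', hg'⟩ := h1 g
    rw [Submodule.mem_comap] at hu ⊢
    have h3 := hU' g' _ hu
    have h4 : (LinearMap.funLeft (ZMod 2) (ZMod 2) e.symm) (fun s => u (g • s)) =
        fun s => (LinearMap.funLeft (ZMod 2) (ZMod 2) e.symm) u (g' • s) := by
      funext s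
      rw [LinearMap.funLeft_apply, LinearMap.funLeft_apply]
      congr 1
      rw [Equiv.eq_symm_apply, hg', Equiv.apply_symm_apply]
    rw [h4]
    exact h3)
  have hl : ∀ u' : H' → ZMod 2, (LinearMap.funLeft (ZMod 2) (ZMod 2) e.symm)
      ((LinearMap.funLeft (ZMod 2) (ZMod 2) e) u') = u' := by
    intro u'
    funext s
    rw [LinearMap.funLeft_apply, LinearMap.funLeft_apply, Equiv.apply_symm_apply]
  have hr : ∀ u : H → ZMod 2, (LinearMap.funLeft (ZMod 2) (ZMod 2) e)
      ((LinearMap.funLeft (ZMod 2) (ZMod 2) e.symm) u) = u := by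
    intro u
    funext s
    rw [LinearMap.funLeft_apply, LinearMap.funLeft_apply, Equiv.symm_apply_apply]
  refine ⟨W.comap (LinearMap.funLeft (ZMod 2) (ZMod 2) e), fun g' u' hu => ?_, ?_, ?_⟩
  · obtain ⟨g, hg⟩ := h2 g'
    rw [Submodule.mem_comap] at hu ⊢
    have h3 := hW g _ hu
    have h4 : (LinearMap.funLeft (ZMod 2) (ZMod 2) e) (fun s => u' (g' • s)) =
        fun s => (LinearMap.funLeft (ZMod 2) (ZMod 2) e) u' (g • s) := by
      funext s
      rw [LinearMap.funLeft_apply, LinearMap.funLeft_apply, hg]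
    rw [h4]
    exact h3
  · rw [Submodule.disjoint_def]
    intro x hx hx'
    rw [Submodule.mem_comap] at hx'
    have h3 := Submodule.disjoint_def.1 hc.disjoint _ (by rw [Submodule.mem_comap, hl]; exact hx) hx'
    rw [← hl x, h3, map_zero]
  · rw [codisjoint_iff, eq_top_iff]
    intro v _
    have h3 : (LinearMap.funLeft (ZMod 2) (ZMod 2) e) v ∈
        U'.comap (LinearMap.funLeft (ZMod 2) (ZMod 2) e.symm) ⊔ W := by
      rw [codisjoint_iff.1 hc.codisjoint]
      exact Submodule.mem_top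
    obtain ⟨a, ha, b, hb, hab⟩ := Submodule.mem_sup.1 h3
    refine Submodule.mem_sup.2 ⟨_, ha, (LinearMap.funLeft (ZMod 2) (ZMod 2) e.symm) b, ?_, ?_⟩
    · rw [Submodule.mem_comap, hr]
      exact hb
    · rw [← map_add, hab, hl]

end H88D8.SS
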