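import Pool.Agent.H88.SS.Xt

/-!
ROW Xe (project MP_78d38b_SS, about 150 lines; pure group theory): a transitive group of permutations of `p` or `p ^ 2` points contains a transitive abelian subgroup.

PROOF. `Γ ≤ Equiv.Perm H` transitive, `Nat.card H = p ^ k`, `k = 1` or `2`. Let `P` be a Sylow `p`-subgroup of `Γ` (a subgroup of the group `↥Γ`; let `P' : Subgroup (Equiv.Perm H)` be its image, `Subgroup.map Γ.subtype`), a `p`-group.
(1) `P'` is transitive: let `s : H`. The orbit of `s` under `P` has `Nat.card P / Nat.card (stabilizer P s)` elements (`MulAction.card_orbit_mul_card_stabilizer_eq_card_group`; `Nat.card` version `MulAction.card_orbit_mul...` or `Subgroup.index`), the orbit under `Γ` is everything: `Nat.card Γ = p ^ k * Nat.card (stabilizer Γ s)`. The stabilizer of `s` in `P` is a `p`-group and embeds into the stabilizer of `s` in `Γ`, so its order is a power `p ^ j` with `p ^ j ∣ Nat.card (stabilizer Γ s)`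
(Lagrange `Subgroup.card_dvd_of_injective`); `Nat.card P = p ^ n` with `n = (Nat.card Γ).factorization p` (`Sylow.card_eq_multiplicity`) `= k + (factorization of the order of the stabilizer) ≥ k + j`. So the orbit has at least `p ^ k` elements: it is everything. (Alternative: the index of `P` in `Γ` is prime to `p` and the index of the stabilizer `S` is `p ^ k`, so the indices are coprime and `P * S = Γ`; `Subgroup.mul_...`/ counting.)
(2) `k = 1`: there is `x ∈ P'` with `x s₀ ≠ s₀` (transitive, at least two points). The orbit of `s₀` under `Subgroup.zpowers x` has a number of elements which is a power of `p` (`IsPGroup.card_orbit`, `zpowers x ≤ P'` is a `p`-group: `IsPGroup.to_le`), larger than one and at most `p`, so it is everything: `A = Subgroup.zpowers x`.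
(3) `k = 2`: the center of `P'` is not trivial (`IsPGroup.center_nontrivial`; `P'` is not trivial), take `z ≠ 1` in the center of `P'` of order `p` (`IsPGroup`, `exists_prime_orderOf_dvd_card'`, Cauchy, applied to the center). For `0 < i < p` the permutation `z ^ i ≠ 1` has no fixed points (if `z ^ i s = s` then for every `b ∈ P'`: `z ^ i (b s) = b (z ^ i s) = b s`, and `P'` is transitive, so `z ^ i = 1`). So all orbits of `⟨z⟩` have `p` elements.
Let `r s t ↔ ∃ i : ℤ, (z ^ i) s = t` (equivalence relation), `Q` the quotient; `p * Nat.card Q = p ^ 2` (all classes have `p` elements), `Nat.card Q = p`. `P'` acts on `Q` (`z` commutes with `P'`), transitively; so some `x ∈ P'` moves the class `q₀`; the orbit of `q₀` under `⟨x⟩` has a power of `p` elements, more than one, at most `p`: everything. `A = Subgroup.closure {x, z}`: abelian, since `x` and `z` commute (`Subgroup.closure_induction₂` or `Subgroup.isMulCommutative_closure`/`Subgroup.closureCommGroupOfComm`); transitive: for `s, t` there is `j` with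 `x ^ j s` in the class of `t`, and `i` with `z ^ i (x ^ j s) = t`.
(To avoid the quotient one can argue with an equivalence relation as `MulAction.orbitRel (Subgroup.zpowers z) H` and `MulAction.orbitRel.Quotient`; or with counting: the orbit of `s₀` under `A = closure {x, z}` where `x ∈ P'` is chosen with `x s₀ ∉ orbit of s₀ under ⟨z⟩` (possible, since that orbit has `p < p ^ 2` elements and `P'` is transitive): it is a power of `p`, contains the `p` points `z ^ i s₀` and the point `x s₀`, so it has more than `p` and at most `p ^ 2` elements, so it is everything. This is the SHORT way: only `IsPGroup.card_orbit` for `A ≤ P'` is needed, together with: the orbit of `s₀` under `⟨z⟩` has at least `p` elements. Even the last is not needed in this form: the orbit of `s₀` under `⟨z⟩` has a power of `p` of elements, it is not one (no fixed points), and it is not everything or else `A = ⟨z⟩` is already transitive and abelian.)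
(4) `A` acts regularly: `a s₀ = s₀`, `a ∈ A` gives `a (b s₀) = b (a s₀) = b s₀`, so `a = 1`. So `a ↦ a s₀` is a bijection from `A` to `H`, `Nat.card A = Nat.card H = p ^ k` divides `p ^ 2`, and `a ^ (p ^ 2) = 1` (`pow_card_eq_one'`).
-/

set_option autoImplicit false
set_option linter.unusedSectionVars false
open scoped Classical

open H90T8

namespace H88D8.SS

theorem xeFin {H : Type*} [Finite H] {p : ℕ} (hp : p.Prime)
    (hc : Nat.card H = p ∨ Nat.card H = p ^ 2) (A : Subgroup (Equiv.Perm H))
    (hA : IsPGroup p A) (hcomm : ∀ a ∈ A, ∀ b ∈ A, a * b = b * a) (s₀ : H)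
    (hs : ∀ t : H, ∃ a ∈ A, a s₀ = t) :
    (∀ s t : H, ∃ a ∈ A, a s = t) ∧ ∀ a ∈ A, a ^ (p ^ 2) = 1 := by
  have : Fact p.Prime := ⟨hp⟩
  refine ⟨fun s t => ?_, fun a ha => ?_⟩
  · obtain ⟨a, ha, hs1⟩ := hs s
    obtain ⟨b, hb, ht1⟩ := hs t
    refine ⟨b * a⁻¹, A.mul_mem hb (A.inv_mem ha), ?_⟩
    have h0 : a⁻¹ (a s₀) = s₀ := a.symm_apply_apply s₀
    rw [Equiv.Perm.mul_apply, ← hs1, h0, ht1]
  · have hinj : Function.Injective (fun b : A => (b : Equiv.Perm H) s₀) := by
      intro b c hbc
      have hbc' : (b : Equiv.Perm H) s₀ = (c : Equiv.Perm H) s₀ := hbc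
      apply Subtype.ext
      apply Equiv.ext
      intro t
      obtain ⟨d, hd, rfl⟩ := hs t
      have h1 := hcomm b b.2 d hd
      have h2 := hcomm c c.2 d hd
      have h3 : (b : Equiv.Perm H) (d s₀) = d ((b : Equiv.Perm H) s₀) := by
        rw [← Equiv.Perm.mul_apply, h1, Equiv.Perm.mul_apply]
      have h4 : (c : Equiv.Perm H) (d s₀) = d ((c : Equiv.Perm H) s₀) := by
        rw [← Equiv.Perm.mul_apply, h2, Equiv.Perm.mul_apply]
      rw [h3, h4, hbc']
    have hle : Nat.card A ≤ Nat.card H := Nat.card_le_card_of_injective _ hinj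
    have hle2 : Nat.card A ≤ p ^ 2 := by
      rcases hc with h | h
      · rw [h] at hle
        refine hle.trans ?_
        calc p = p ^ 1 := (pow_one p).symm
          _ ≤ p ^ 2 := Nat.pow_le_pow_right hp.pos (by norm_num)
      · rw [h] at hle
        exact hle
    obtain ⟨n, hn⟩ := (IsPGroup.iff_card).mp hA
    have hn2 : n ≤ 2 := by
      rw [hn] at hle2
      exact (Nat.pow_le_pow_iff_right hp.one_lt).mp hle2
    have hdvd : Nat.card A ∣ p ^ 2 := by
      rw [hn]
      exact pow_dvd_pow p hn2
    have h1 : (⟨a, ha⟩ : A) ^ Nat.card A = 1 := pow_card_eq_one'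
    obtain ⟨m, hm⟩ := hdvd
    have h2 : (⟨a, ha⟩ : A) ^ (p ^ 2) = 1 := by
      rw [hm, pow_mul, h1, one_pow]
    have h3 := congrArg (fun b : A => (b : Equiv.Perm H)) h2
    simpa using h3

theorem xeOrb {H : Type*} [Finite H] {p : ℕ} (hp : p.Prime) (A : Subgroup (Equiv.Perm H))
    (hA : IsPGroup p A) (s₀ : H) :
    ∃ n, Nat.card (MulAction.orbit A s₀) = p ^ n := by
  have : Fact p.Prime := ⟨hp⟩
  exact hA.card_orbit s₀

theorem xeAll {H : Type*} [Finite H] (A : Subgroup (Equiv.Perm H)) (s₀ : H)
    (h : Nat.card H ≤ Nat.card (MulAction.orbit A s₀)) (t : H) : ∃ a ∈ A, a s₀ = t := by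
  have h1 : MulAction.orbit A s₀ = Set.univ := by
    apply Set.eq_of_subset_of_ncard_le (Set.subset_univ _)
    · rw [Set.ncard_univ]
      exact h
  have h2 : t ∈ MulAction.orbit A s₀ := by
    rw [h1]
    exact Set.mem_univ t
  obtain ⟨a, ha⟩ := h2
  exact ⟨a, a.2, ha⟩

theorem xeSyl {H : Type*} [Finite H] {p k : ℕ} (hp : p.Prime)
    (hc : Nat.card H = p ^ k) (Γ : Subgroup (Equiv.Perm H))
    (ht : ∀ s t : H, ∃ g ∈ Γ, g s = t) :
    ∃ P ≤ Γ, IsPGroup p P ∧ ∀ s t : H, ∃ g ∈ P, g s = t := by
  have : Fact p.Prime := ⟨hp⟩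
  obtain ⟨P⟩ : Nonempty (Sylow p Γ) := inferInstance
  refine ⟨(P : Subgroup Γ).map Γ.subtype, Subgroup.map_subtype_le _, P.2.map Γ.subtype, ?_⟩
  intro s t
  have hidx : ¬ p ∣ (P : Subgroup Γ).index := P.not_dvd_index
  have horbΓ : MulAction.orbit Γ s = Set.univ := by
    apply Set.eq_univ_of_forall
    intro u
    obtain ⟨g, hg, hu⟩ := ht s u
    exact ⟨⟨g, hg⟩, hu⟩
  have hK : (MulAction.stabilizer Γ s).index = p ^ k := by
    rw [MulAction.index_stabilizer, horbΓ, Set.ncard_univ, hc]
  have hsub : (MulAction.stabilizer Γ s).subgroupOf (P : Subgroup Γ)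
      = MulAction.stabilizer (P : Subgroup Γ) s := by
    ext g
    rfl
  have hrel : (MulAction.stabilizer Γ s).relIndex (P : Subgroup Γ)
      = (MulAction.orbit (P : Subgroup Γ) s).ncard := by
    rw [Subgroup.relIndex, hsub, MulAction.index_stabilizer]
  have hdvd : p ^ k ∣ (MulAction.stabilizer Γ s).relIndex (P : Subgroup Γ)
      * (P : Subgroup Γ).index := by
    rw [← Subgroup.inf_relIndex_right, Subgroup.relIndex_mul_index inf_le_right, ← hK]
    exact Subgroup.index_dvd_of_le inf_le_left
  have hcop : Nat.Coprime (p ^ k) (P : Subgroup Γ).index :=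
    Nat.Coprime.pow_left k ((Nat.Prime.coprime_iff_not_dvd hp).mpr hidx)
  have h2 : p ^ k ∣ (MulAction.stabilizer Γ s).relIndex (P : Subgroup Γ) :=
    hcop.dvd_of_dvd_mul_right hdvd
  have hpos : 0 < (MulAction.orbit (P : Subgroup Γ) s).ncard := by
    rw [Set.ncard_pos]
    exact ⟨s, MulAction.mem_orbit_self s⟩
  have h3 : p ^ k ≤ (MulAction.orbit (P : Subgroup Γ) s).ncard := by
    rw [hrel] at h2
    exact Nat.le_of_dvd hpos h2
  have h4 : MulAction.orbit (P : Subgroup Γ) s = Set.univ := by
    apply Set.eq_of_subset_of_ncard_le (Set.subset_univ _)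
    rw [Set.ncard_univ, hc]
    exact h3
  have h5 : t ∈ MulAction.orbit (P : Subgroup Γ) s := by
    rw [h4]
    exact Set.mem_univ t
  obtain ⟨a, ha⟩ := h5
  refine ⟨((a : Γ) : Equiv.Perm H), ⟨(a : Γ), a.2, rfl⟩, ha⟩

theorem exists_ab {H : Type*} [Finite H] {p : ℕ} (hp : p.Prime)
    (hc : Nat.card H = p ∨ Nat.card H = p ^ 2) (Γ : Subgroup (Equiv.Perm H))
    (ht : ∀ s t : H, ∃ g ∈ Γ, g s = t) :
    ∃ A ≤ Γ, (∀ a ∈ A, ∀ b ∈ A, a * b = b * a) ∧ (∀ s t : H, ∃ a ∈ A, a s = t) ∧
      ∀ a ∈ A, a ^ (p ^ 2) = 1 := by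
  have : Fact p.Prime := ⟨hp⟩
  have hcard1 : 1 < Nat.card H := by
    rcases hc with h | h
    · rw [h]; exact hp.one_lt
    · rw [h]; exact Nat.one_lt_pow (by norm_num) hp.one_lt
  have : Nontrivial H := (Finite.one_lt_card_iff_nontrivial).mp hcard1
  obtain ⟨P, hPΓ, hP, hPt⟩ : ∃ P ≤ Γ, IsPGroup p P ∧ ∀ s t : H, ∃ g ∈ P, g s = t := by
    rcases hc with h | h
    · exact xeSyl (k := 1) hp (by rw [h, pow_one]) Γ ht
    · exact xeSyl hp h Γ ht
  obtain ⟨s₀, t₀, hne⟩ := exists_pair_ne H
  -- cyclic groups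
  have hzp : ∀ x ∈ P, (∀ a ∈ Subgroup.zpowers x, ∀ b ∈ Subgroup.zpowers x, a * b = b * a) := by
    rintro x hx a ⟨i, rfl⟩ b ⟨j, rfl⟩
    simp only
    rw [← zpow_add, ← zpow_add, add_comm]
  rcases hc with h | h
  · obtain ⟨x, hx, hxs⟩ := hPt s₀ t₀
    have hA : IsPGroup p (Subgroup.zpowers x) := hP.to_le ((Subgroup.zpowers_le).mpr hx)
    obtain ⟨n, hn⟩ := xeOrb hp _ hA s₀
    have hall : ∀ t : H, ∃ a ∈ Subgroup.zpowers x, a s₀ = t := by
      apply xeAll
      have hn0 : n ≠ 0 := by
        rintro rfl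
        rw [pow_zero, Nat.card_eq_one_iff_unique] at hn
        obtain ⟨hsub, -⟩ := hn
        have h1 : (⟨s₀, MulAction.mem_orbit_self s₀⟩ : MulAction.orbit (Subgroup.zpowers x) s₀)
            = ⟨t₀, ⟨⟨x, Subgroup.mem_zpowers x⟩, hxs⟩⟩ := Subsingleton.elim _ _
        exact hne (congrArg Subtype.val h1)
      rw [hn, h]
      calc p = p ^ 1 := (pow_one p).symm
        _ ≤ p ^ n := Nat.pow_le_pow_right hp.pos (Nat.one_le_iff_ne_zero.mpr hn0)
    obtain ⟨h1, h2⟩ := xeFin hp (Or.inl h) _ hA (hzp x hx) s₀ hall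
    exact ⟨_, ((Subgroup.zpowers_le).mpr hx).trans hPΓ, hzp x hx, h1, h2⟩
  · have : Nontrivial P := by
      obtain ⟨x, hx, hxs⟩ := hPt s₀ t₀
      refine ⟨⟨⟨x, hx⟩, 1, ?_⟩⟩
      intro h1
      have h2 := congrArg (fun b : P => (b : Equiv.Perm H)) h1
      have h3 : x = 1 := by simpa using h2
      rw [h3] at hxs
      exact hne (by simpa using hxs)
    have := hP.center_nontrivial
    obtain ⟨⟨z, hzc⟩, hz1⟩ := exists_ne (1 : Subgroup.center P)
    have hz1' : (z : Equiv.Perm H) ≠ 1 := by
      intro h1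
      apply hz1
      apply Subtype.ext
      apply Subtype.ext
      simpa using h1
    have hcz : ∀ b ∈ P, b * (z : Equiv.Perm H) = (z : Equiv.Perm H) * b := by
      intro b hb
      have h1 := (Subgroup.mem_center_iff.mp hzc) ⟨b, hb⟩
      exact congrArg (fun b : P => (b : Equiv.Perm H)) h1
    have hzs : (z : Equiv.Perm H) s₀ ≠ s₀ := by
      intro h1
      apply hz1'
      apply Equiv.ext
      intro t
      obtain ⟨b, hb, rfl⟩ := hPt s₀ t
      rw [← Equiv.Perm.mul_apply, ← hcz b hb, Equiv.Perm.mul_apply, h1, Equiv.Perm.one_apply]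
    have hzle : Subgroup.zpowers (z : Equiv.Perm H) ≤ P := (Subgroup.zpowers_le).mpr z.2
    have hZ : IsPGroup p (Subgroup.zpowers (z : Equiv.Perm H)) := hP.to_le hzle
    by_cases hall : ∀ t : H, ∃ a ∈ Subgroup.zpowers (z : Equiv.Perm H), a s₀ = t
    · obtain ⟨h1, h2⟩ := xeFin hp (Or.inr h) _ hZ (hzp z z.2) s₀ hall
      exact ⟨_, hzle.trans hPΓ, hzp z z.2, h1, h2⟩
    · push Not at hall
      obtain ⟨t₁, ht₁⟩ := hall
      obtain ⟨x, hx, hxs⟩ := hPt s₀ t₁
      have hcl : Subgroup.closure {x, (z : Equiv.Perm H)} ≤ P := by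
        rw [Subgroup.closure_le]
        intro y hy
        rcases hy with rfl | hy
        · exact hx
        · rw [Set.mem_singleton_iff] at hy
          rw [hy]
          exact z.2
      have hA : IsPGroup p (Subgroup.closure {x, (z : Equiv.Perm H)}) := hP.to_le hcl
      have hcomm : ∀ a ∈ Subgroup.closure {x, (z : Equiv.Perm H)},
          ∀ b ∈ Subgroup.closure {x, (z : Equiv.Perm H)}, a * b = b * a := by
        intro a ha b hb
        refine Subgroup.closure_induction₂ (p := fun a b _ _ => a * b = b * a)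
          ?_ ?_ ?_ ?_ ?_ ?_ ?_ ha hb
        · intro u v hu hv
          have hxz := hcz x hx
          rcases hu with rfl | hu <;> rcases hv with rfl | hv
          · rfl
          · rw [Set.mem_singleton_iff] at hv
            rw [hv]; exact hxz
          · rw [Set.mem_singleton_iff] at hu
            rw [hu]; exact hxz.symm
          · rw [Set.mem_singleton_iff] at hu hv
            rw [hu, hv]
        · intro u hu
          rw [one_mul, mul_one]
        · intro u hu
          rw [one_mul, mul_one]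
        · intro u v w hu hv hw h1 h2
          rw [mul_assoc, h2, ← mul_assoc, h1, mul_assoc]
        · intro u v w hu hv hw h1 h2
          rw [← mul_assoc, h1, mul_assoc, h2, mul_assoc]
        · intro u v hu hv h1
          exact (Commute.inv_left (show Commute u v from h1)).eq
        · intro u v hu hv h1
          exact (Commute.inv_right (show Commute u v from h1)).eq
      obtain ⟨n, hn⟩ := xeOrb hp _ hZ s₀
      obtain ⟨m, hm⟩ := xeOrb hp _ hA s₀
      have hn0 : n ≠ 0 := by
        rintro rfl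
        rw [pow_zero, Nat.card_eq_one_iff_unique] at hn
        obtain ⟨hsub, -⟩ := hn
        have h1 : (⟨s₀, MulAction.mem_orbit_self s₀⟩ :
            MulAction.orbit (Subgroup.zpowers (z : Equiv.Perm H)) s₀)
            = ⟨(z : Equiv.Perm H) s₀, ⟨⟨z, Subgroup.mem_zpowers _⟩, rfl⟩⟩ := Subsingleton.elim _ _
        exact hzs (congrArg Subtype.val h1).symm
      have hlt : Nat.card (MulAction.orbit (Subgroup.zpowers (z : Equiv.Perm H)) s₀)
          < Nat.card (MulAction.orbit (Subgroup.closure {x, (z : Equiv.Perm H)}) s₀) := by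
        apply Set.ncard_lt_ncard _ (Set.toFinite _)
        refine ⟨?_, ?_⟩
        · rintro u ⟨a, rfl⟩
          have h1 : (a : Equiv.Perm H) ∈ Subgroup.closure {x, (z : Equiv.Perm H)} := by
            have h2 : Subgroup.zpowers (z : Equiv.Perm H)
                ≤ Subgroup.closure {x, (z : Equiv.Perm H)} :=
              (Subgroup.zpowers_le).mpr (Subgroup.subset_closure (by simp))
            exact h2 a.2
          exact ⟨⟨a, h1⟩, rfl⟩
        · intro hcon
          have h1 : t₁ ∈ MulAction.orbit (Subgroup.closure {x, (z : Equiv.Perm H)}) s₀ :=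
            ⟨⟨x, Subgroup.subset_closure (by simp)⟩, hxs⟩
          obtain ⟨a, ha⟩ := hcon h1
          exact ht₁ a a.2 ha
      have hall : ∀ t : H, ∃ a ∈ Subgroup.closure {x, (z : Equiv.Perm H)}, a s₀ = t := by
        apply xeAll
        rw [hn, hm] at hlt
        have h1 : n < m := (Nat.pow_lt_pow_iff_right hp.one_lt).mp hlt
        rw [hm, h]
        exact Nat.pow_le_pow_right hp.pos (by omega)
      obtain ⟨h1, h2⟩ := xeFin hp (Or.inr h) _ hA hcomm s₀ hall
      exact ⟨_, hcl.trans hPΓ, hcomm, h1, h2⟩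

end H88D8.SS
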