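import Pool.Agent.H88.SS.Xd
import Pool.Agent.H88.SS.Xe

/-!
ROW Xf (project MP_78d38b_SS, about 80 lines; pure group theory): the criterion for the degrees `p` and `p ^ 2`, `p` a prime such that the order of two modulo `p` is even.

PROOF. exists_pow_neg: let `orderOf (2 : ZMod p) = 2 * e` (`Even`: `e + e`), `e ≥ 1` (the order is not zero: `2` is a unit as `p` is odd; `orderOf_pos`, `ZMod.pow_card_sub_one_eq_one`; `p = 2` is excluded). `(2 ^ e) ^ 2 = 1` in `ZMod p`, so `2 ^ e = 1` or `2 ^ e = -1` (`sq_eq_one_iff_of_ne`... : `(x - 1) * (x + 1) = 0`), and `2 ^ e ≠ 1` (`orderOf_dvd_iff_pow_eq_one`, `e < 2 e`). So `(p : ℤ) ∣ 2 ^ e - (-1)` and with `dvd_sub_pow_of_dvd_sub` (for `k = 1`: `(p : ℤ) ^ 2 ∣ (2 ^ e) ^ (p ^ 1) - (-1) ^ (p ^ 1)`), `(-1) ^ p = -1` (`p` odd): `p ^ 2 ∣ 2 ^ (e * p) + 1` in `ℤ`, cast to `ℕ`.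
semi_pp: let `Γ = (MulAction.toPermHom G H).range`, transitive by `ht`. Take `A₀ ≤ Γ` from `exists_ab` (row Xe) and `A = A₀.comap (MulAction.toPermHom G H)`. `AbTr H A`: for `a, b ∈ A` the permutations commute; for `s, t` take `a₀ ∈ A₀` with `a₀ s = t` and `g` with `toPermHom g = a₀`. With `p ^ 2 ∣ 2 ^ k + 1` and `a₀ ^ (p ^ 2) = 1`: `a₀ ^ (2 ^ k + 1) = 1`, so `a₀ ^ (2 ^ k) = a₀⁻¹` and `(a ^ (2 ^ k)) • s = a⁻¹ • s` (`map_pow`, `MulAction.toPermHom_apply`, `MulAction.toPerm_apply`). Now `semi_pow` (row Xd).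
-/

set_option autoImplicit false
set_option linter.unusedSectionVars false
open scoped Classical

open H90T8

namespace H88D8.SS

theorem exists_pow_neg {p : ℕ} (hp : p.Prime) (h2 : p ≠ 2) (h : Even (orderOf (2 : ZMod p))) :
    ∃ k : ℕ, p ^ 2 ∣ 2 ^ k + 1 := by
  have hfact : Fact p.Prime := ⟨hp⟩
  have h20 : (2 : ZMod p) ≠ 0 := by
    intro h3
    have h4 : ((2 : ℕ) : ZMod p) = 0 := by
      exact_mod_cast h3
    rw [ZMod.natCast_eq_zero_iff] at h4
    exact h2 ((Nat.prime_dvd_prime_iff_eq hp Nat.prime_two).1 h4)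
  have hp1 : 0 < p - 1 := Nat.sub_pos_of_lt hp.one_lt
  have hpos : 0 < orderOf (2 : ZMod p) :=
    orderOf_pos_iff.2 (isOfFinOrder_iff_pow_eq_one.2 ⟨p - 1, hp1, ZMod.pow_card_sub_one_eq_one h20⟩)
  obtain ⟨e, he⟩ := h
  have he0 : 0 < e := by omega
  have h5 : (2 : ZMod p) ^ (e + e) = 1 := by
    rw [← he]
    exact pow_orderOf_eq_one _
  have h6 : ((2 : ZMod p) ^ e - 1) * ((2 : ZMod p) ^ e + 1) = 0 := by
    rw [pow_add] at h5
    linear_combination h5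
  have h7 : (2 : ZMod p) ^ e + 1 = 0 := by
    rcases mul_eq_zero.1 h6 with h8 | h8
    · exfalso
      have h9 : (2 : ZMod p) ^ e = 1 := sub_eq_zero.1 h8
      have h10 := Nat.le_of_dvd he0 (orderOf_dvd_of_pow_eq_one h9)
      omega
    · exact h8
  have h8 : ((2 ^ e + 1 : ℕ) : ZMod p) = 0 := by
    push_cast
    exact h7
  rw [ZMod.natCast_eq_zero_iff] at h8
  have h9 : (p : ℤ) ∣ (2 : ℤ) ^ e - (-1) := by
    have h10 : ((p : ℕ) : ℤ) ∣ ((2 ^ e + 1 : ℕ) : ℤ) := Int.natCast_dvd_natCast.2 h8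
    push_cast at h10
    rw [sub_neg_eq_add]
    exact h10
  have hpodd : Odd p := hp.odd_of_ne_two h2
  have h10 := dvd_sub_pow_of_dvd_sub h9 1
  rw [pow_one p, hpodd.neg_one_pow, ← pow_mul, sub_neg_eq_add] at h10
  refine ⟨e * p, ?_⟩
  have h11 : ((p ^ 2 : ℕ) : ℤ) ∣ ((2 ^ (e * p) + 1 : ℕ) : ℤ) := by
    push_cast
    exact h10
  exact Int.natCast_dvd_natCast.1 h11

theorem semi_pp {G H : Type*} [Group G] [MulAction G H] [Finite H] {p : ℕ} (hp : p.Prime)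
    (h2 : p ≠ 2) (hc : Nat.card H = p ∨ Nat.card H = p ^ 2) (ht : ∀ s t : H, ∃ g : G, g • s = t)
    (h : Even (orderOf (2 : ZMod p))) : SemiSimple G H := by
  have hpodd : Odd p := hp.odd_of_ne_two h2
  have hodd : Odd (Nat.card H) := by
    rcases hc with h3 | h3
    · rw [h3]
      exact hpodd
    · rw [h3]
      exact hpodd.pow
  obtain ⟨k, hk⟩ := exists_pow_neg hp h2 h
  have htr : ∀ s t : H, ∃ g ∈ (MulAction.toPermHom G H).range, g s = t := by
    intro s t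
    obtain ⟨g, hg⟩ := ht s t
    exact ⟨MulAction.toPermHom G H g, ⟨g, rfl⟩, hg⟩
  obtain ⟨A₀, hA₀, hcomm, htrans, hpow⟩ := exists_ab hp hc (MulAction.toPermHom G H).range htr
  have hA : AbTr H (A₀.comap (MulAction.toPermHom G H)) := by
    refine ⟨fun a ha b hb s => ?_, fun s t => ?_⟩
    · have h3 := hcomm _ (Subgroup.mem_comap.1 ha) _ (Subgroup.mem_comap.1 hb)
      exact DFunLike.congr_fun h3 s
    · obtain ⟨a₀, ha₀, h3⟩ := htrans s t
      obtain ⟨g, hg⟩ := hA₀ ha₀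
      refine ⟨g, ?_, ?_⟩
      · rw [Subgroup.mem_comap, hg]
        exact ha₀
      · rw [← h3, ← hg]
        rfl
  refine semi_pow hodd hA (k := k) fun a ha s => ?_
  have h3 := hpow _ (Subgroup.mem_comap.1 ha)
  have h4 : (MulAction.toPermHom G H a) ^ (2 ^ k + 1) = 1 := by
    obtain ⟨m, hm⟩ := hk
    rw [hm, pow_mul, h3, one_pow]
  have h5 : MulAction.toPermHom G H (a ^ (2 ^ k)) = MulAction.toPermHom G H a⁻¹ := by
    rw [map_pow, map_inv]
    rw [pow_succ] at h4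
    exact eq_inv_of_mul_eq_one_left h4
  exact DFunLike.congr_fun h5 s

end H88D8.SS
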