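import Pool.Agent.H88.SS.Xc

/-!
ROW Xg (project MP_78d38b_SS, about 90 lines; pure group theory): solvable groups of prime degree.

PROOF. Let `φ = MulAction.toPermHom G H`, `Γ = φ.range` (solvable by `hs`). `Γ` is not trivial (transitive on `p ≥ 2` points). Let `n` be minimal with `derivedSeries Γ n = ⊥` (`IsSolvable.solvable`, `Nat.find`); `n ≠ 0` (`derivedSeries Γ 0 = ⊤ ≠ ⊥`), let `N₀ = derivedSeries Γ (n - 1) ≠ ⊥`, normal (`derivedSeries_normal`), `⁅N₀, N₀⁆ = derivedSeries Γ n = ⊥` (`derivedSeries_succ`), so its elements commute (`Subgroup.commutator_eq_bot_iff_le_centralizer` or `Subgroup.commutator_mem_commutator`: `⁅a, b⁆ = 1`, `commutatorElement_eq_one_iff_mul_comm`).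
`N₀` is transitive on `H`: there are `a ∈ N₀` and `s₀` with `a s₀ ≠ s₀`. The orbits of `N₀` all have the same number `m` of elements (`N₀` is normal and `Γ` transitive: `g` maps the orbit of `s` onto the orbit of `g s`), `m > 1`, and `m ∣ p` (the orbits are a partition), so `m = p`. In Mathlib: `MulAction.IsPreprimitive` (`MulAction.isPreprimitive_of_prime_card` or `IsPreprimitive.of_prime...`) and `IsPreprimitive.isQuasiPreprimitive`/`isPretransitive_of_normal`: a normal subgroup which does not act trivially is transitive (file `Mathlib/GroupTheory/GroupAction/Primitive.lean`). (Alternative: `N₀` abelian normal; if `p ∤ |N₀|`...; the block argument is best.)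
`A = (N₀.map Γ.subtype).comap φ`, that is `{g | ∃ x ∈ N₀, (x : Equiv.Perm H) = φ g}`: normal (`Subgroup.Normal.comap` along `φ.rangeRestrict : G →* Γ`: take directly `A = N₀.comap φ.rangeRestrict`), `AbTr H A`. Now `semi_normal` (row Xc).
-/

set_option autoImplicit false
set_option linter.unusedSectionVars false
open scoped Classical commutatorElement

open H90T8

namespace H88D8.SS

theorem semi_solv {G H : Type*} [Group G] [MulAction G H] [Finite H] {p : ℕ} (hp : p.Prime)
    (h2 : p ≠ 2) (hc : Nat.card H = p) (ht : ∀ s t : H, ∃ g : G, g • s = t)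
    (hs : Group.IsSolvable (MulAction.toPermHom G H).range) : SemiSimple G H := by
  set Γ : Subgroup (Equiv.Perm H) := (MulAction.toPermHom G H).range with hΓ
  have hpre : MulAction.IsPretransitive Γ H := by
    refine ⟨fun s t => ?_⟩
    obtain ⟨g, hg⟩ := ht s t
    exact ⟨⟨MulAction.toPermHom G H g, g, rfl⟩, hg⟩
  have hprim : MulAction.IsPreprimitive Γ H := MulAction.IsPreprimitive.of_prime_card (hc ▸ hp)
  -- `Γ` is not trivial
  have hcard : 1 < Nat.card H := hc ▸ hp.one_lt
  obtain ⟨s, t, hst⟩ : ∃ s t : H, s ≠ t := by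
    rw [Finite.one_lt_card_iff_nontrivial] at hcard
    exact exists_pair_ne H
  have htop : derivedSeries Γ 0 ≠ ⊥ := by
    intro h
    rw [derivedSeries_zero] at h
    obtain ⟨g, hg⟩ := ht s t
    have h1 : (⟨MulAction.toPermHom G H g, g, rfl⟩ : Γ) ∈ (⊤ : Subgroup Γ) := Subgroup.mem_top _
    rw [h, Subgroup.mem_bot] at h1
    have h2 : MulAction.toPermHom G H g = 1 := congrArg Subtype.val h1
    have h3 : g • s = s := by
      have := congrArg (fun f : Equiv.Perm H => f s) h2
      simpa using this
    exact hst (h3.symm.trans hg)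
  obtain ⟨n, hn⟩ := (Group.isSolvable_def (G := Γ)).1 hs
  obtain ⟨k, hk1, hk2⟩ : ∃ k, derivedSeries Γ k ≠ ⊥ ∧ derivedSeries Γ (k + 1) = ⊥ := by
    by_contra hcon
    push Not at hcon
    have : ∀ m, derivedSeries Γ m ≠ ⊥ := by
      intro m
      induction m with
      | zero => exact htop
      | succ m ih => exact hcon m ih
    exact this n hn
  set N := derivedSeries Γ k with hN
  have hNn : N.Normal := derivedSeries_normal Γ k
  have hcomm : ∀ a ∈ N, ∀ b ∈ N, a * b = b * a := by
    intro a ha b hb
    have h1 : ⁅a, b⁆ ∈ derivedSeries Γ (k + 1) := by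
      rw [derivedSeries_succ]
      exact Subgroup.commutator_mem_commutator ha hb
    rw [hk2, Subgroup.mem_bot, commutatorElement_eq_one_iff_mul_comm] at h1
    exact h1
  have htr : MulAction.IsPretransitive N H := by
    apply MulAction.IsQuasiPreprimitive.isPretransitive_of_normal (G := Γ)
    intro h
    apply hk1
    rw [Subgroup.eq_bot_iff_forall]
    intro a ha
    ext x
    have hx : x ∈ MulAction.fixedPoints N H := by rw [h]; exact Set.mem_univ _
    exact hx ⟨a, ha⟩
  have hodd : Odd (Nat.card H) := hc ▸ hp.odd_of_ne_two h2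
  refine semi_normal (A := N.comap (MulAction.toPermHom G H).rangeRestrict) hodd inferInstance ⟨?_, ?_⟩
  · intro a ha b hb x
    have h1 := hcomm _ ha _ hb
    have h2 := congrArg (fun f : Γ => (f : Equiv.Perm H) x) h1
    exact h2
  · intro x y
    obtain ⟨⟨f, hf⟩, hfx⟩ := htr.exists_smul_eq x y
    obtain ⟨g, hg⟩ := f.2
    refine ⟨g, ?_, ?_⟩
    · have : (MulAction.toPermHom G H).rangeRestrict g = f := Subtype.ext hg
      rw [Subgroup.mem_comap, this]
      exact hf
    · have h1 : (f : Equiv.Perm H) x = y := hfx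
      rw [← hg] at h1
      exact h1

end H88D8.SS
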