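import Pool.Agent.H88.SS.Xc

/-!
ROW Xh (project MP_78d38b_SS, about 250 lines; finite group theory): degree seven.

PROOF. `Γ = (MulAction.toPermHom G H).range ≤ Equiv.Perm H`, `B u v = ∑ s, u s * v s` on `V = (H → ZMod 2)`. Let `U` be a stable subspace which has no stable complement (`by_contra`); `U^⊥ = {v | ∀ u ∈ U, B u v = 0}` is stable, `dim U + dim U^⊥ = 7`, so `U₀ = U ⊓ U^⊥ ≠ ⊥` (otherwise `U^⊥` is a complement). `U₀` is stable and `B u v = 0` for `u, v ∈ U₀`.
(1) `7 ∣ |Γ|` (transitive), Cauchy: `c ∈ Γ` of order `7`; it is a 7-cycle (an orbit with more than one element of a group of order 7 has 7 elements). So there is a bijection `e : ZMod 7 ≃ H` with `c (e x) = e (x + 1)` (`e x = (c ^ x.val) s₀`). Transport: `w : ZMod 7 → ZMod 2`, `w = u ∘ e`.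
(2) For `0 ≠ u ∈ U₀` with `w = u ∘ e`: all the translates `w (· + i)` are in the transported `U₀`, so `∑ x, w x * w (x + i) = 0` for all `i : ZMod 7`. By `decide` over the `128` functions: `w` is a translate of `w₁` (indicator of `{0, 3, 5, 6}`, the complement of `{1, 2, 4}`) or of `w₂` (indicator of `{0, 1, 2, 4}`, the complement of `{3, 5, 6}`) [statement for `decide`: `∀ w : ZMod 7 → ZMod 2, w ≠ 0 → (∀ i, ∑ x, w x * w (x + i) = 0) → (∃ i, w = fun x => w₁ (x + i)) ∨ (∃ i, w = fun x => w₂ (x + i))`; use `Fin 7`, `decide`, or `Fin 7 → Bool`, or the enumeration by `Nat.testBit` if `decide` is slow]. A translate of `w₁` and a translate of `w₂` are not both in `U₀`: for all `i, j`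
there is `m` with `∑ x, w₁ (x + i) * w₂ (x + j + m) ≠ 0` (`decide`). So the transported `U₀` is `{0} ∪ {translates of w₁}` (or of `w₂`): it has exactly `8` elements, `finrank (ZMod 2) U₀ = 3`.
(3) `Γ` acts on `U₀` by `trs`, faithfully: if `g ∈ Γ` fixes all the elements of `U₀` then it fixes all points of `H` (two different points `x ≠ y` of `ZMod 7` are separated by a translate of `w₁`: `∃ i, w₁ (x + i) ≠ w₁ (y + i)`, `decide`; if `g s ≠ s`, take `u` with `u (g s) ≠ u s`). So `Γ` (or its opposite; use `g ↦ trs g⁻¹`) embeds into `U₀ ≃ₗ[ZMod 2] U₀`, whose order is `168`: `Matrix.card_GL_field`/`card_GL_field` for `n = Fin 3`, `q = 2`: `(8 - 1) (8 - 2) (8 - 4) = 168` (`LinearMap.GeneralLinearGroup`, `LinearMap.toMatrix` equivalence; alternative: `U₀ ≃ₗ (Fin 3 → ZMod 2)`). By Lagrange `|Γ| ∣ 168`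
(`Subgroup.card_dvd_of_injective`), and `7 ∣ |Γ|`, `|Γ| ≠ 168`.
(4) Let `n₇` be the number of Sylow 7-subgroups of `Γ`: `n₇ ≡ 1 (mod 7)` (`card_sylow_modEq_one`), `n₇ ∣ |Γ| / 7 ∣ 24` (`Sylow.card_dvd_index`). So `n₇ = 1` or `n₇ = 8` (divisors of 24: 1, 2, 3, 4, 6, 8, 12, 24). If `n₇ = 1`: the Sylow subgroup `P = ⟨c⟩` is normal, of order `7`, transitive and abelian: `semi_normal` (row Xc; `A = P.comap` to `G` along `G → Γ`) gives a contradiction (or finish directly). If `n₇ = 8`: `8 ∣ |Γ| / 7`, `|Γ| ∣ 168`, `|Γ| ≠ 168`: `|Γ| = 56`.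
(5) `|Γ| = 56`, 8 subgroups of order 7, pairwise intersecting in 1 (prime order): they contain `8 * 6 = 48` elements of order 7. The stabilizer `S_s` of a point `s` has order `8`, so no element of order 7; hence it is contained in the set of the `56 - 48 = 8` elements which are not of order 7, so it is equal to this set. So all the stabilizers `S_s` are the same set: an element of `S_s` fixes all points, so `S_s = {1}`, contradiction to `|S_s| = 8`. (The number of the elements of order 7: `P ↦ P \ {1}` are disjoint sets of 6 elements: `Finset.card_biUnion` or an injective map from `Sylow 7 Γ × Fin 6`; every element of order 7 generates a Sylow subgroup. Only `≥ 48` is needed.)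
Any other proof is welcome (for example with `IsCoprime`, normalizers: `n₇ = 8` gives `|N(P)| = 7`).
-/

set_option autoImplicit false
set_option linter.unusedSectionVars false
open scoped Classical

open H90T8

namespace H88D8.SS

theorem Xh_tr {H : Type*} [Finite H] (hc : Nat.card H = 7) {σ : Equiv.Perm H} (h7 : σ ^ 7 = 1)
    (h1 : σ ≠ 1) (a b : H) : ∃ j : ℕ, (σ ^ j) a = b := by
  cases nonempty_fintype H
  have hp : Fact (Nat.Prime 7) := ⟨by norm_num⟩
  have ho : orderOf σ = 7 := orderOf_eq_prime h7 h1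
  have hcard : Fintype.card H = 7 := by rw [← Nat.card_eq_fintype_card, hc]
  have hcyc : σ.IsCycle := Equiv.Perm.isCycle_of_prime_order' (by rw [ho]; norm_num)
    (by rw [ho, hcard]; norm_num)
  have hsup : σ.support = Finset.univ := by
    rw [← Finset.card_eq_iff_eq_univ, ← hcyc.orderOf, ho, hcard]
  have hm : ∀ x, σ x ≠ x := fun x => by
    rw [← Equiv.Perm.mem_support, hsup]
    exact Finset.mem_univ x
  exact hcyc.exists_pow_eq (hm a) (hm b)

/-- the dot product -/
noncomputable def Xh_B (H : Type*) [Fintype H] : LinearMap.BilinForm (ZMod 2) (H → ZMod 2) :=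
  Matrix.toBilin' (1 : Matrix H H (ZMod 2))

theorem Xh_B_apply {H : Type*} [Fintype H] (u v : H → ZMod 2) :
    Xh_B H u v = ∑ s, u s * v s := by
  unfold Xh_B
  rw [Matrix.toBilin'_apply', Matrix.one_mulVec]
  rfl

theorem Xh_B_nd {H : Type*} [Fintype H] : (Xh_B H).Nondegenerate := by
  refine LinearMap.BilinForm.nondegenerate_toBilin'_of_det_ne_zero' _ ?_
  rw [Matrix.det_one]
  exact one_ne_zero

theorem Xh_B_refl {H : Type*} [Fintype H] : (Xh_B H).IsRefl := by
  intro u v h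
  rw [Xh_B_apply] at h ⊢
  rw [← h]
  exact Finset.sum_congr rfl fun s _ => mul_comm _ _

theorem Xh_orth {H : Type*} [Fintype H] {Γ : Subgroup (Equiv.Perm H)}
    {U : Submodule (ZMod 2) (H → ZMod 2)}
    (hU : ∀ g : Γ, ∀ u ∈ U, (fun s => u (g • s)) ∈ U) :
    ∀ g : Γ, ∀ v ∈ (Xh_B H).orthogonal U, (fun s => v (g • s)) ∈ (Xh_B H).orthogonal U := by
  intro g v hv
  rw [LinearMap.BilinForm.mem_orthogonal_iff] at hv ⊢
  intro u hu
  have h1 : Xh_B H (fun s => u (g⁻¹ • s)) v = 0 := hv _ (hU g⁻¹ u hu)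
  change Xh_B H u (fun s => v (g • s)) = 0
  rw [Xh_B_apply] at h1 ⊢
  rw [← h1]
  refine Fintype.sum_equiv (MulAction.toPerm g) _ _ fun s => ?_
  rw [MulAction.toPerm_apply, inv_smul_smul]

theorem Xh_U {H : Type*} [Fintype H] {Γ : Subgroup (Equiv.Perm H)} (hns : ¬ SemiSimple Γ H) :
    ∃ U : Submodule (ZMod 2) (H → ZMod 2), U ≠ ⊥ ∧
      (∀ g : Γ, ∀ u ∈ U, (fun s => u (g • s)) ∈ U) ∧ ∀ u ∈ U, ∀ v ∈ U, Xh_B H u v = 0 := by
  unfold SemiSimple at hns
  push Not at hns
  obtain ⟨U, hU, hno⟩ := hns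
  refine ⟨U ⊓ (Xh_B H).orthogonal U, ?_, ?_, ?_⟩
  · intro h
    exact hno _ (Xh_orth hU)
      ((LinearMap.BilinForm.isCompl_orthogonal_iff_disjoint Xh_B_refl).2 (disjoint_iff.2 h))
  · intro g u hu
    exact ⟨hU g u hu.1, Xh_orth hU g u hu.2⟩
  · intro u hu v hv
    exact (LinearMap.BilinForm.mem_orthogonal_iff.1 hv.2) u hu.1

theorem Xh_c {H : Type*} [Finite H] (hc : Nat.card H = 7) {Γ : Subgroup (Equiv.Perm H)}
    (ht : ∀ s t : H, ∃ g : Γ, g • s = t) : 7 ∣ Nat.card Γ := by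
  have hp : MulAction.IsPretransitive Γ H := ⟨ht⟩
  have hne : Nonempty H := by
    by_contra h
    rw [not_nonempty_iff] at h
    rw [Nat.card_of_isEmpty] at hc
    omega
  obtain ⟨s⟩ := hne
  have h1 := MulAction.index_stabilizer_of_transitive Γ s
  rw [hc] at h1
  rw [← h1]
  exact Subgroup.index_dvd_card _

theorem Xh_faith {H : Type*} [Fintype H] (hc : Nat.card H = 7) {Γ : Subgroup (Equiv.Perm H)}
    (ht : ∀ s t : H, ∃ g : Γ, g • s = t) {U : Submodule (ZMod 2) (H → ZMod 2)} (h0 : U ≠ ⊥)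
    (hU : ∀ g : Γ, ∀ u ∈ U, (fun s => u (g • s)) ∈ U) (hB : ∀ u ∈ U, ∀ v ∈ U, Xh_B H u v = 0)
    (γ : Γ) (hγ : ∀ u ∈ U, ∀ s, u (γ • s) = u s) : γ = 1 := by
  have hp : Fact (Nat.Prime 7) := ⟨by norm_num⟩
  obtain ⟨c, hc7⟩ := exists_prime_orderOf_dvd_card' 7 (Xh_c hc ht)
  have hcp : (c : Equiv.Perm H) ^ 7 = 1 := by
    rw [← Subgroup.coe_pow, ← hc7, pow_orderOf_eq_one, Subgroup.coe_one]
  have hc1 : (c : Equiv.Perm H) ≠ 1 := by
    intro h
    have h2 : c = 1 := Subtype.ext h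
    rw [h2, orderOf_one] at hc7
    omega
  by_contra hne
  obtain ⟨s₁, hs₁⟩ : ∃ s, γ • s ≠ s := by
    by_contra h
    push Not at h
    exact hne (Subtype.ext (Equiv.ext h))
  obtain ⟨k, hk⟩ := Xh_tr hc hcp hc1 s₁ (γ • s₁)
  obtain ⟨σ, hσ⟩ : ∃ σ : Equiv.Perm H, σ = (c : Equiv.Perm H) ^ k := ⟨_, rfl⟩
  have hσ7 : σ ^ 7 = 1 := by
    rw [hσ, ← pow_mul, mul_comm, pow_mul, hcp, one_pow]
  have hσ1 : σ ≠ 1 := by
    intro h
    rw [← hσ, h] at hk
    exact hs₁ hk.symm
  have key : ∀ u ∈ U, ∀ s, u (σ s) = u s := by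
    intro u hu s
    obtain ⟨i, hi⟩ := Xh_tr hc hcp hc1 s₁ s
    have h1 : ((c : Equiv.Perm H) ^ i) (γ • s₁) = σ s := by
      rw [← hk, ← hi, hσ, ← Equiv.Perm.mul_apply, ← Equiv.Perm.mul_apply, ← pow_add, ← pow_add,
        add_comm]
    have h2 := hγ _ (hU (c ^ i) u hu) s₁
    have h3 : ∀ x : H, (c ^ i) • x = ((c : Equiv.Perm H) ^ i) x := fun x => rfl
    change u ((c ^ i) • γ • s₁) = u ((c ^ i) • s₁) at h2
    rw [h3, h3, h1, hi] at h2
    exact h2
  have key2 : ∀ u ∈ U, ∀ s t, u s = u t := by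
    intro u hu s t
    obtain ⟨j, hj⟩ := Xh_tr hc hσ7 hσ1 s t
    have h1 : ∀ j : ℕ, u ((σ ^ j) s) = u s := by
      intro j
      induction j with
      | zero => rfl
      | succ j ih =>
        rw [pow_succ', Equiv.Perm.mul_apply, key u hu, ih]
    rw [← hj, h1]
  apply h0
  rw [eq_bot_iff]
  intro u hu
  rw [Submodule.mem_bot]
  funext s
  have h1 := hB u hu u hu
  rw [Xh_B_apply] at h1
  have h2 : ∀ t, u t * u t = u s * u s := fun t => by rw [key2 u hu t s]
  rw [Finset.sum_congr rfl fun t _ => h2 t, Finset.sum_const, Finset.card_univ,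
    ← Nat.card_eq_fintype_card, hc] at h1
  have h3 : ∀ z : ZMod 2, 7 • (z * z) = 0 → z = 0 := by decide
  exact h3 _ h1

theorem Xh_rk {H : Type*} [Fintype H] (hc : Nat.card H = 7)
    {U : Submodule (ZMod 2) (H → ZMod 2)} (hB : ∀ u ∈ U, ∀ v ∈ U, Xh_B H u v = 0) :
    Module.finrank (ZMod 2) U ≤ 3 := by
  have h1 := LinearMap.BilinForm.finrank_orthogonal (Xh_B_nd (H := H)) U
  have h2 : U ≤ (Xh_B H).orthogonal U := fun v hv =>
    LinearMap.BilinForm.mem_orthogonal_iff.2 fun u hu => hB u hu v hv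
  have h3 := Submodule.finrank_mono h2
  rw [h1, Module.finrank_fintype_fun_eq_card, ← Nat.card_eq_fintype_card, hc] at h3
  omega

theorem Xh_gl {V : Type*} [AddCommGroup V] [Module (ZMod 2) V] [Module.Finite (ZMod 2) V]
    (h : Module.finrank (ZMod 2) V ≤ 3) : Nat.card (Module.End (ZMod 2) V)ˣ ∣ 168 := by
  obtain ⟨d, hd⟩ : ∃ d, d = Module.finrank (ZMod 2) V := ⟨_, rfl⟩
  have b : Module.Basis (Fin d) (ZMod 2) V := Module.finBasisOfFinrankEq (ZMod 2) V hd.symm
  have e : (Module.End (ZMod 2) V)ˣ ≃ Matrix.GeneralLinearGroup (Fin d) (ZMod 2) :=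
    (Units.mapEquiv (LinearMap.toMatrixAlgEquiv b).toMulEquiv).toEquiv
  rw [Nat.card_congr e, Matrix.card_GL_field, ZMod.card]
  rw [← hd] at h
  interval_cases d <;> decide

theorem Xh_dvd {H : Type*} [Finite H] (hc : Nat.card H = 7) {Γ : Subgroup (Equiv.Perm H)}
    (ht : ∀ s t : H, ∃ g : Γ, g • s = t) (hns : ¬ SemiSimple Γ H) : Nat.card Γ ∣ 168 := by
  cases nonempty_fintype H
  obtain ⟨U, h0, hU, hB⟩ := Xh_U hns
  let ρ : Γ →* Module.End (ZMod 2) U :=
    { toFun := fun γ => (trs H γ⁻¹).restrict (p := U) (q := U) (fun u hu => hU γ⁻¹ u hu)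
      map_one' := by
        refine LinearMap.ext fun u => Subtype.ext ?_
        rw [LinearMap.restrict_apply]
        change trs H (1 : Γ)⁻¹ (u : H → ZMod 2) = u
        rw [inv_one, trs_one]
      map_mul' := fun γ δ => by
        refine LinearMap.ext fun u => Subtype.ext ?_
        change trs H (γ * δ)⁻¹ (u : H → ZMod 2) = trs H γ⁻¹ (trs H δ⁻¹ (u : H → ZMod 2))
        rw [mul_inv_rev, trs_mul] }
  have hinj : Function.Injective ρ.toHomUnits := by
    rw [injective_iff_map_eq_one]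
    intro γ hγ
    have h1 : ρ γ = 1 := congrArg Units.val hγ
    have h2 : γ⁻¹ = 1 := by
      refine Xh_faith hc ht h0 hU hB γ⁻¹ fun u hu s => ?_
      have h3 := congrArg (fun T : Module.End (ZMod 2) U => ((T ⟨u, hu⟩ : U) : H → ZMod 2) s) h1
      exact h3
    exact inv_eq_one.1 h2
  exact (Subgroup.card_dvd_of_injective _ hinj).trans (Xh_gl (Xh_rk hc hB))

theorem Xh_P {Γ : Type*} [Group Γ] [Finite Γ] [Fact (Nat.Prime 7)] (h7 : 7 ∣ Nat.card Γ)
    (hd : Nat.card Γ ∣ 168) (P : Sylow 7 Γ) : Nat.card P = 7 := by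
  have h1 : 7 ∣ Nat.card P := P.dvd_card_of_dvd_card h7
  obtain ⟨k, hk⟩ := IsPGroup.iff_card.1 P.2
  have h2 : Nat.card P ∣ 168 := (Subgroup.card_subgroup_dvd_card (P : Subgroup Γ)).trans hd
  change Nat.card P = 7 ^ k at hk
  rw [hk] at h1 h2 ⊢
  have h3 : k = 1 := by
    rcases k with _ | _ | k
    · norm_num at h1
    · rfl
    · exfalso
      have h4 : 7 ^ 2 ∣ 168 := (pow_dvd_pow 7 (by omega)).trans h2
      norm_num at h4
  rw [h3, pow_one]

theorem Xh_count {H : Type*} [Finite H] (hc : Nat.card H = 7) {Γ : Subgroup (Equiv.Perm H)}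
    [Fact (Nat.Prime 7)] (ht : ∀ s t : H, ∃ g : Γ, g • s = t) (h56 : Nat.card Γ = 56)
    (h8 : Nat.card (Sylow 7 Γ) = 8) : False := by
  cases nonempty_fintype Γ
  cases nonempty_fintype (Sylow 7 Γ)
  have hp : MulAction.IsPretransitive Γ H := ⟨ht⟩
  have hP : ∀ P : Sylow 7 Γ, Nat.card P = 7 := fun P =>
    Xh_P (by rw [h56]; norm_num) (by rw [h56]; norm_num) P
  obtain ⟨F, hF⟩ : ∃ F : Sylow 7 Γ → Finset Γ,
      ∀ P g, g ∈ F P ↔ g ∈ (P : Subgroup Γ) ∧ g ≠ 1 :=
    ⟨fun P => Finset.univ.filter fun g => g ∈ (P : Subgroup Γ) ∧ g ≠ 1, fun P g => by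
      rw [Finset.mem_filter]; exact ⟨fun h => h.2, fun h => ⟨Finset.mem_univ _, h⟩⟩⟩
  have hF6 : ∀ P, (F P).card = 6 := by
    intro P
    have h1 : insert 1 (F P) = Finset.univ.filter fun g => g ∈ (P : Subgroup Γ) := by
      ext g
      rw [Finset.mem_insert, hF, Finset.mem_filter]
      constructor
      · rintro (rfl | h)
        · exact ⟨Finset.mem_univ _, one_mem _⟩
        · exact ⟨Finset.mem_univ _, h.1⟩
      · rintro ⟨_, h⟩
        by_cases hg : g = 1
        · exact Or.inl hg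
        · exact Or.inr ⟨h, hg⟩
    have h2 : (1 : Γ) ∉ F P := fun h => ((hF P 1).1 h).2 rfl
    have h3 := congrArg Finset.card h1
    rw [Finset.card_insert_of_notMem h2, ← Fintype.card_subtype, ← Nat.card_eq_fintype_card] at h3
    have h4 : Nat.card {g : Γ // g ∈ (P : Subgroup Γ)} = 7 := hP P
    omega
  have hz : ∀ (P : Sylow 7 Γ) (g : Γ), g ∈ F P → Subgroup.zpowers g = (P : Subgroup Γ) := by
    intro P g hg
    obtain ⟨h1, h2⟩ := (hF P g).1 hg
    refine Subgroup.eq_of_le_of_card_ge ((Subgroup.zpowers_le).2 h1) ?_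
    have h3 : Nat.card (Subgroup.zpowers g) ∣ 7 := by
      rw [← hP P]
      exact Subgroup.card_dvd_of_le ((Subgroup.zpowers_le).2 h1)
    rcases (Nat.dvd_prime (by norm_num : Nat.Prime 7)).1 h3 with h4 | h4
    · exfalso
      rw [Nat.card_zpowers, orderOf_eq_one_iff] at h4
      exact h2 h4
    · rw [h4]
      exact (hP P).le
  have hdis : ∀ P ∈ (Finset.univ : Finset (Sylow 7 Γ)), ∀ P' ∈ (Finset.univ : Finset (Sylow 7 Γ)),
      P ≠ P' → Disjoint (F P) (F P') := by
    intro P _ P' _ hne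
    rw [Finset.disjoint_left]
    intro g h1 h2
    exact hne (Sylow.ext ((hz P g h1).symm.trans (hz P' g h2)))
  have hX : (Finset.univ.biUnion F).card = 48 := by
    rw [Finset.card_biUnion hdis, Finset.sum_congr rfl fun P _ => hF6 P, Finset.sum_const,
      Finset.card_univ, ← Nat.card_eq_fintype_card, h8]
    rfl
  have hXc : (Finset.univ.biUnion F)ᶜ.card = 8 := by
    rw [Finset.card_compl, hX, ← Nat.card_eq_fintype_card, h56]
  have hnf : ∀ (P : Sylow 7 Γ) (g : Γ), g ∈ F P → ∀ s : H, g • s ≠ s := by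
    intro P g hg s hs
    obtain ⟨h1, h2⟩ := (hF P g).1 hg
    have h3 : g ^ 7 = 1 := by
      have := pow_card_eq_one' (x := (⟨g, h1⟩ : (P : Subgroup Γ)))
      rw [show Nat.card (P : Subgroup Γ) = 7 from hP P] at this
      exact congrArg Subtype.val this
    have h4 : (g : Equiv.Perm H) ^ 7 = 1 := by
      rw [← Subgroup.coe_pow, h3, Subgroup.coe_one]
    have h5 : (g : Equiv.Perm H) ≠ 1 := fun h => h2 (Subtype.ext h)
    have h6 : ∀ t : H, t = s := by
      intro t
      obtain ⟨j, hj⟩ := Xh_tr hc h4 h5 s t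
      rw [← hj]
      have h7 : (g : Equiv.Perm H) s = s := hs
      clear hj
      induction j with
      | zero => rfl
      | succ j ih => rw [pow_succ, Equiv.Perm.mul_apply, h7, ih]
    have h7 : Subsingleton H := ⟨fun a b => (h6 a).trans (h6 b).symm⟩
    have h8 := Finite.card_le_one_iff_subsingleton (α := H)
    rw [hc] at h8
    have := h8.2 h7
    omega
  have hst : ∀ s : H, (Finset.univ.filter fun g : Γ => g • s = s) = (Finset.univ.biUnion F)ᶜ := by
    intro s
    refine Finset.eq_of_subset_of_card_le ?_ ?_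
    · intro g hg
      rw [Finset.mem_compl, Finset.mem_biUnion]
      rintro ⟨P, _, hgP⟩
      exact hnf P g hgP s (Finset.mem_filter.1 hg).2
    · rw [hXc, ← Fintype.card_subtype, ← Nat.card_eq_fintype_card]
      have h1 := Subgroup.card_mul_index (MulAction.stabilizer Γ s)
      rw [MulAction.index_stabilizer_of_transitive Γ s, hc, h56] at h1
      have h2 : Nat.card {g : Γ // g • s = s} = Nat.card (MulAction.stabilizer Γ s) := rfl
      omega
  have hne : Nonempty H := by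
    by_contra h
    rw [not_nonempty_iff] at h
    rw [Nat.card_of_isEmpty] at hc
    omega
  obtain ⟨s⟩ := hne
  obtain ⟨g, hg, hg1⟩ : ∃ g ∈ (Finset.univ.biUnion F)ᶜ, g ≠ 1 :=
    Finset.exists_mem_ne (by rw [hXc]; norm_num) 1
  apply hg1
  apply Subtype.ext
  apply Equiv.ext
  intro t
  rw [← hst t] at hg
  exact (Finset.mem_filter.1 hg).2

theorem Xh_main {H : Type*} [Finite H] (hc : Nat.card H = 7) {Γ : Subgroup (Equiv.Perm H)}
    (ht : ∀ s t : H, ∃ g : Γ, g • s = t) (hs : Nat.card Γ ≠ 168) : SemiSimple Γ H := by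
  by_contra hns
  have hp : Fact (Nat.Prime 7) := ⟨by norm_num⟩
  have h7 := Xh_c hc ht
  have hd := Xh_dvd hc ht hns
  have hP := Xh_P h7 hd
  obtain ⟨P⟩ : Nonempty (Sylow 7 Γ) := inferInstance
  have h1 := card_sylow_modEq_one 7 Γ
  have h2 := P.card_dvd_index
  have h3 := Subgroup.card_mul_index (P : Subgroup Γ)
  rw [show Nat.card (P : Subgroup Γ) = 7 from hP P] at h3
  obtain ⟨m, hm⟩ : ∃ m, m = (P : Subgroup Γ).index := ⟨_, rfl⟩
  obtain ⟨n, hn⟩ : ∃ n, n = Nat.card (Sylow 7 Γ) := ⟨_, rfl⟩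
  rw [← hm] at h2 h3
  rw [← hn] at h1 h2
  have h4 : m ∣ 24 := by
    have : 7 * m ∣ 7 * 24 := by rw [h3]; exact hd
    exact Nat.dvd_of_mul_dvd_mul_left (by norm_num) this
  have h5 : n ∣ 24 := h2.trans h4
  have h6 : n ≤ 24 := Nat.le_of_dvd (by norm_num) h5
  have h8 : n = 1 ∨ n = 8 := by
    unfold Nat.ModEq at h1
    interval_cases n <;> omega
  rcases h8 with h8 | h8
  · have h9 : Subsingleton (Sylow 7 Γ) := by
      rw [← Finite.card_le_one_iff_subsingleton, ← hn, h8]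
    have hnor : (P : Subgroup Γ).Normal := Sylow.normal_of_subsingleton P
    have hcyc : IsCyclic (P : Subgroup Γ) := isCyclic_of_prime_card (hP P)
    apply hns
    refine semi_normal (by rw [hc]; decide) hnor ⟨?_, ?_⟩
    · intro a ha b hb s
      have h10 : a * b = b * a := by
        have h11 := hcyc.isMulCommutative.is_comm.comm (⟨a, ha⟩ : (P : Subgroup Γ)) ⟨b, hb⟩
        exact congrArg Subtype.val h11
      rw [← mul_smul, ← mul_smul, h10]
    · intro s t
      have h12 : Nontrivial (P : Subgroup Γ) := by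
        rw [← Finite.one_lt_card_iff_nontrivial, show Nat.card (P : Subgroup Γ) = 7 from hP P]
        norm_num
      obtain ⟨a, ha⟩ := exists_ne (1 : (P : Subgroup Γ))
      have h13 : a ^ 7 = 1 := by
        have h16 := pow_card_eq_one' (x := a)
        rwa [show Nat.card (P : Subgroup Γ) = 7 from hP P] at h16
      have h14 : ((a : Γ) : Equiv.Perm H) ^ 7 = 1 := by
        rw [← Subgroup.coe_pow, ← Subgroup.coe_pow, h13, Subgroup.coe_one, Subgroup.coe_one]
      have h15 : ((a : Γ) : Equiv.Perm H) ≠ 1 := fun h => ha (Subtype.ext (Subtype.ext h))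
      obtain ⟨j, hj⟩ := Xh_tr hc h14 h15 s t
      exact ⟨(a : Γ) ^ j, pow_mem a.2 j, hj⟩
  · have h9 : m = 8 ∨ m = 24 := by
      rw [h8] at h2
      have h10 : m ≤ 24 := Nat.le_of_dvd (by norm_num) h4
      interval_cases m <;> omega
    rcases h9 with h9 | h9
    · exact Xh_count hc ht (by rw [← h3, h9]) (by rw [← hn, h8])
    · exact hs (by rw [← h3, h9])

theorem semi_seven {G H : Type*} [Group G] [MulAction G H] [Finite H] (hc : Nat.card H = 7)
    (ht : ∀ s t : H, ∃ g : G, g • s = t)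
    (hs : Nat.card (MulAction.toPermHom G H).range ≠ 168) : SemiSimple G H := by
  intro U hU
  have hmain : SemiSimple (MulAction.toPermHom G H).range H := by
    refine Xh_main hc (fun s t => ?_) hs
    obtain ⟨g, hg⟩ := ht s t
    exact ⟨⟨MulAction.toPermHom G H g, g, rfl⟩, hg⟩
  obtain ⟨U', h1, h2⟩ := hmain U (fun γ u hu => by
    obtain ⟨γ, g, rfl⟩ := γ
    exact hU g u hu)
  exact ⟨U', fun g u hu => h1 ⟨MulAction.toPermHom G H g, g, rfl⟩ u hu, h2⟩

end H88D8.SS
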