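import Pool.Agent.H88.SS.Df
import Pool.Agent.H88.SS.Xa
import Pool.Agent.H88.SS.Xf
import Pool.Agent.H88.SS.Xg
import Pool.Agent.H88.SS.Xh
import Pool.Agent.H90.T8.Ts

/-!
ROW Xi (project MP_78d38b_SS, about 150 lines): the criteria for number fields.

PROOF. `Ω = AlgebraicClosure ℚ`, `H = (K →ₐ[ℚ] Ω)`, `Nat.card H = Module.finrank ℚ K` (`H90T8.Ts_card`, `Nat.card_eq_fintype_card`), the action is transitive (`H90T8.trans_closure`; instance `H90T8.actE`).
semiK_simple: `semi_of_simple` (row Xa); `SimpleK K` is the statement `SumZeroSimple (Ω ≃ₐ[ℚ] Ω) (K →ₐ[ℚ] Ω)` (see `Pool/Agent/H90/T8/Da.lean`). semiK_pp: `semi_pp` (row Xf).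
semiK_solv: `semi_solv` (row Xg). The group `Γ = (MulAction.toPermHom (Ω ≃ₐ[ℚ] Ω) H).range` is solvable: `K ⊆ K₀` (`φ : K →+* K₀`, `K₀ / ℚ` Galois with solvable group). Let `j : K₀ →ₐ[ℚ] Ω` (`IsAlgClosed.lift`), `Algebra K₀ Ω` by `j`, the restriction `ρ = AlgEquiv.restrictNormalHom K₀ : (Ω ≃ₐ[ℚ] Ω) →* (K₀ ≃ₐ[ℚ] K₀)`, `j (ρ g x) = g (j x)` (`AlgEquiv.restrictNormal_commutes`). If `ρ g = 1` then `g` fixes `j K₀`; every `σ : K →ₐ[ℚ] Ω` has image in `j K₀` (the composite `σ₀ = j ∘ φ` has its image in `j K₀`; `σ = g₁ • σ₀` by transitivity, and `g₁ (j x) = j (ρ g₁ x)`), so `g • σ = σ`.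
Hence `ker ρ ≤ ker (toPermHom)`, so `Γ` is a quotient of `(Ω ≃ₐ[ℚ] Ω) ⧸ ker ρ` which embeds into the solvable group `K₀ ≃ₐ[ℚ] K₀`. In Lean: `ρ.range` is solvable (subgroup); the hom `toPermHom` factors: `solvable_of_ker_le_range`/`solvable_of_surjective` for the map `ρ.range → Γ`; shortest: `IsSolvable Γ` by `(solvable_of_ker_le_range ...)`, or show `derivedSeries`; or: `(QuotientGroup.kerLift ρ)` injective, `solvable_of_solvable_injective`; then `QuotientGroup.lift (ker ρ) (toPermHom.rangeRestrict) h` surjective onto `Γ`, `solvable_of_surjective`.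
semiK_seven: `semi_seven` (row Xh). If `Nat.card Γ = 168` then the normal closure `N = IntermediateField.normalClosure ℚ K Ω` (`= ⨆ f : K →ₐ[ℚ] Ω, f.fieldRange`) has degree `168`: `N / ℚ` is finite and Galois (`normalClosure.normal`, `IsGalois`: separable in characteristic zero), `ρ = AlgEquiv.restrictNormalHom N` is surjective (`AlgEquiv.restrictNormalHom_surjective`), `Nat.card (N ≃ₐ[ℚ] N) = finrank ℚ N` (`IsGalois.card_aut_eq_finrank`), and `ker ρ = ker (toPermHom)`: `g` acts trivially on all `f : K →ₐ Ω` iff it fixes `f.fieldRange` for all `f` iff it fixes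
`N = ⨆ f, f.fieldRange` (the fixing subgroup of `N`: `f.fieldRange ≤ IntermediateField.fixedField (zpowers g)` for all `f` iff `N ≤` it: `iSup_le_iff`). So `Γ ≃* (Ω ≃ₐ Ω) ⧸ ker ≃* (N ≃ₐ[ℚ] N)` (`QuotientGroup.quotientKerEquivRange`, `QuotientGroup.quotientKerEquivOfSurjective`, `QuotientGroup.quotientMulEquivOfEq`).
-/

set_option autoImplicit false
set_option linter.unusedSectionVars false
open scoped Classical

open NumberField H88T7 H88T8 H90T8

namespace H88D8.SS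

variable {K : Type} [Field K] [NumberField K]

theorem Xi_card : Nat.card (K →ₐ[ℚ] AlgebraicClosure ℚ) = Module.finrank ℚ K := by
  rw [Nat.card_eq_fintype_card, Ts_card]

theorem semiK_simple (hodd : Odd (Module.finrank ℚ K)) (h : SimpleK K) : SemiK K :=
  semi_of_simple (by rw [Ts_card]; exact hodd) h

theorem semiK_pp {p : ℕ} (hp : p.Prime) (h2 : p ≠ 2)
    (hc : Module.finrank ℚ K = p ∨ Module.finrank ℚ K = p ^ 2)
    (h : Even (orderOf (2 : ZMod p))) : SemiK K :=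
  semi_pp hp h2 (by rw [Xi_card]; exact hc) trans_closure h

theorem Xi_ker {K₀ : Type} [Field K₀] [NumberField K₀] [IsGalois ℚ K₀]
    (φ : K →+* K₀) : ∃ ρ : (AlgebraicClosure ℚ ≃ₐ[ℚ] AlgebraicClosure ℚ) →* (K₀ ≃ₐ[ℚ] K₀),
    ρ.ker ≤ (MulAction.toPermHom (AlgebraicClosure ℚ ≃ₐ[ℚ] AlgebraicClosure ℚ)
      (K →ₐ[ℚ] AlgebraicClosure ℚ)).ker := by
  let j : K₀ →ₐ[ℚ] AlgebraicClosure ℚ := IsAlgClosed.lift
  let _ : Algebra K₀ (AlgebraicClosure ℚ) := j.toRingHom.toAlgebra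
  have : IsScalarTower ℚ K₀ (AlgebraicClosure ℚ) :=
    IsScalarTower.of_algebraMap_eq (fun x => (j.commutes x).symm)
  refine ⟨AlgEquiv.restrictNormalHom K₀, fun g hg => ?_⟩
  have hj : ∀ (g : AlgebraicClosure ℚ ≃ₐ[ℚ] AlgebraicClosure ℚ) (x : K₀),
      g (j x) = j (AlgEquiv.restrictNormalHom K₀ g x) := fun g x =>
    (AlgEquiv.restrictNormal_commutes g K₀ x).symm
  rw [MonoidHom.mem_ker] at hg ⊢
  ext σ x
  obtain ⟨g₁, hg₁⟩ := trans_closure (K := K) (j.comp φ.toRatAlgHom) σ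
  have h1 : σ x = j (AlgEquiv.restrictNormalHom K₀ g₁ (φ x)) := by
    rw [← hj, ← hg₁]
    rfl
  change g (σ x) = σ x
  rw [h1, hj, hg]
  rfl

theorem semiK_solv (hp : (Module.finrank ℚ K).Prime) (h2 : Module.finrank ℚ K ≠ 2)
    {K₀ : Type} [Field K₀] [NumberField K₀] [IsGalois ℚ K₀] (hs : Group.IsSolvable (K₀ ≃ₐ[ℚ] K₀))
    (φ : K →+* K₀) : SemiK K := by
  obtain ⟨ρ, hρ⟩ := Xi_ker φ
  refine semi_solv hp h2 Xi_card trans_closure ?_
  have h1 : Group.IsSolvable ((AlgebraicClosure ℚ ≃ₐ[ℚ] AlgebraicClosure ℚ) ⧸ ρ.ker) :=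
    Group.isSolvable_of_isSolvable_injective (QuotientGroup.kerLift_injective ρ)
  have h3 : ∀ x ∈ ρ.ker, (MulAction.toPermHom (AlgebraicClosure ℚ ≃ₐ[ℚ] AlgebraicClosure ℚ)
      (K →ₐ[ℚ] AlgebraicClosure ℚ)).rangeRestrict x = 1 := by
    intro x hx
    have h4 := hρ hx
    rw [MonoidHom.mem_ker] at h4
    exact Subtype.ext h4
  refine Group.isSolvable_of_surjective (f := QuotientGroup.lift ρ.ker _ h3) ?_
  intro y
  obtain ⟨x, hx⟩ := MonoidHom.rangeRestrict_surjective _ y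
  exact ⟨QuotientGroup.mk x, hx⟩

theorem Xi_seven : Nat.card (MulAction.toPermHom (AlgebraicClosure ℚ ≃ₐ[ℚ] AlgebraicClosure ℚ)
      (K →ₐ[ℚ] AlgebraicClosure ℚ)).range =
    Module.finrank ℚ (IntermediateField.normalClosure ℚ K (AlgebraicClosure ℚ)) := by
  have halg : Algebra.IsAlgebraic ℚ (AlgebraicClosure ℚ) := AlgebraicClosure.isAlgebraic ℚ
  have hcl : IsAlgClosure ℚ (AlgebraicClosure ℚ) := ⟨inferInstance, halg⟩
  have hn : Normal ℚ (AlgebraicClosure ℚ) := IsAlgClosure.normal ℚ (AlgebraicClosure ℚ)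
  have hne : Nonempty (K →ₐ[ℚ] AlgebraicClosure ℚ) := ⟨IsAlgClosed.lift⟩
  have hNC : IsNormalClosure ℚ K (IntermediateField.normalClosure ℚ K (AlgebraicClosure ℚ)) :=
    isNormalClosure_normalClosure ℚ K (AlgebraicClosure ℚ)
  have hN : Normal ℚ (IntermediateField.normalClosure ℚ K (AlgebraicClosure ℚ)) :=
    IsNormalClosure.normal (K := K)
  have hG : IsGalois ℚ (IntermediateField.normalClosure ℚ K (AlgebraicClosure ℚ)) :=
    ⟨⟩
  rw [← IsGalois.card_aut_eq_finrank]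
  let ρ := AlgEquiv.restrictNormalHom (F := ℚ) (K₁ := AlgebraicClosure ℚ)
    (IntermediateField.normalClosure ℚ K (AlgebraicClosure ℚ))
  have hsurj : Function.Surjective ρ :=
    AlgEquiv.restrictNormalHom_surjective (AlgebraicClosure ℚ)
  have hcomm : ∀ (g : AlgebraicClosure ℚ ≃ₐ[ℚ] AlgebraicClosure ℚ)
      (x : IntermediateField.normalClosure ℚ K (AlgebraicClosure ℚ)),
      ((ρ g x : IntermediateField.normalClosure ℚ K (AlgebraicClosure ℚ)) : AlgebraicClosure ℚ) =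
        g x := fun g x =>
    AlgEquiv.restrictNormal_commutes g
      (IntermediateField.normalClosure ℚ K (AlgebraicClosure ℚ)) x
  have hker : (MulAction.toPermHom (AlgebraicClosure ℚ ≃ₐ[ℚ] AlgebraicClosure ℚ)
      (K →ₐ[ℚ] AlgebraicClosure ℚ)).ker = ρ.ker := by
    ext g
    rw [MonoidHom.mem_ker, MonoidHom.mem_ker]
    constructor
    · intro h
      have h1 : ∀ (σ : K →ₐ[ℚ] AlgebraicClosure ℚ) (x : K), g (σ x) = σ x := by
        intro σ x
        have h2 := DFunLike.congr_fun h σ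
        exact DFunLike.congr_fun h2 x
      have h3 : IntermediateField.normalClosure ℚ K (AlgebraicClosure ℚ) ≤
          IntermediateField.fixedField (Subgroup.zpowers g) := by
        rw [normalClosure_le_iff]
        intro σ
        rintro _ ⟨x, rfl⟩
        rintro ⟨g', hg'⟩
        change g' (σ x) = σ x
        have h4 : g' ∈ MulAction.stabilizer (AlgebraicClosure ℚ ≃ₐ[ℚ] AlgebraicClosure ℚ)
            (σ x) := by
          have h5 : Subgroup.zpowers g ≤
              MulAction.stabilizer (AlgebraicClosure ℚ ≃ₐ[ℚ] AlgebraicClosure ℚ) (σ x) := by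
            rw [Subgroup.zpowers_le]
            exact h1 σ x
          exact h5 hg'
        exact h4
      ext x
      rw [hcomm]
      exact h3 x.2 ⟨g, Subgroup.mem_zpowers g⟩
    · intro h
      ext σ x
      have h1 : σ x ∈ IntermediateField.normalClosure ℚ K (AlgebraicClosure ℚ) :=
        σ.fieldRange_le_normalClosure ⟨x, rfl⟩
      have h2 := hcomm g ⟨σ x, h1⟩
      rw [h] at h2
      exact h2.symm
  rw [← Nat.card_congr (QuotientGroup.quotientKerEquivRange (MulAction.toPermHom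
    (AlgebraicClosure ℚ ≃ₐ[ℚ] AlgebraicClosure ℚ) (K →ₐ[ℚ] AlgebraicClosure ℚ))).toEquiv,
    Nat.card_congr (QuotientGroup.quotientMulEquivOfEq hker).toEquiv,
    Nat.card_congr (QuotientGroup.quotientKerEquivOfSurjective ρ hsurj).toEquiv]

theorem semiK_seven (hc : Module.finrank ℚ K = 7)
    (hs : Module.finrank ℚ (IntermediateField.normalClosure ℚ K (AlgebraicClosure ℚ)) ≠ 168) :
    SemiK K :=
  semi_seven (by rw [Xi_card]; exact hc) trans_closure (by rw [Xi_seven]; exact hs)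

end H88D8.SS
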