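import Pool.Agent.H88.SS.Xb

/-!
ROW Xc (project MP_78d38b_SS, about 60 lines; pure linear algebra): a normal subgroup whose elements commute and which acts transitively on a set of odd order.

PROOF. Let `U` be stable, `T` from `exists_proj` (row Xb), `U' = LinearMap.ker T`. `IsCompl U U'`: disjoint: `u ∈ U`, `T u = 0` gives `u = T u = 0`; codisjoint: `v = T v + (v - T v)`, `T (v - T v) = T v - T (T v) = 0`. Stable: let `g : G` and `T₁ = (trs H g⁻¹) ∘ₗ T ∘ₗ (trs H g)`, that is `T₁ u = trs H g⁻¹ (T (trs H g u))`. `T₁ ∈ TA H A` by `mem_TA` (row Xb): for `a ∈ A`: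
`trs H g (trs H a u) = trs H (a * g) u` (`trs_mul`: `trs H (x * y) u = trs H y (trs H x u)`) `= trs H (g * (g⁻¹ * a * g)) u = trs H (g⁻¹ * a * g) (trs H g u)`; with `a' = g⁻¹ * a * g ∈ A` (normal), `T (trs H a' w) = trs H a' (T w)` (TA_comm with `trs H a' ∈ TA H A`), and `trs H g⁻¹ (trs H a' w) = trs H (a' * g⁻¹) w = trs H (g⁻¹ * a) w = trs H a (trs H g⁻¹ w)`. So `T₁ (trs H a u) = trs H a (T₁ u)`.
`T₁ u ∈ U` for all `u`, and `T₁ u = u` for `u ∈ U` (`T (trs H g u) = trs H g u`, `trs_inv`). Hence `T v = T₁ (T v) = T (T₁ v) = T₁ v` (commute, TA_comm). If `T v = 0` then `T₁ v = 0`, so `T (trs H g v) = trs H g (T₁ v) = 0` (`trs_inv'`), that is `trs H g v ∈ U'`. (`SemiSimple` in `Kt.lean`; `(fun s => u (g • s))` is `trs H g u` by `rfl`.)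
-/

set_option autoImplicit false
set_option linter.unusedSectionVars false
open scoped Classical

open H90T8

namespace H88D8.SS

variable {G H : Type*} [Group G] [MulAction G H] [Finite H]

private lemma Xc_comm {A : Subgroup G} (hA : AbTr H A) {T : Module.End (ZMod 2) (H → ZMod 2)} (hT : T ∈ TA H A)
    {a : G} (ha : a ∈ A) (w : H → ZMod 2) : T (trs H a w) = trs H a (T w) := by
  have h1 : (trs H a : Module.End (ZMod 2) (H → ZMod 2)) ∈ TA H A := Submodule.subset_span ⟨a, ha, rfl⟩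
  have h2 := TA_comm hA hT h1
  exact LinearMap.congr_fun h2 w

private lemma Xc_conj {A : Subgroup G} (hn : A.Normal) (hA : AbTr H A) {T : Module.End (ZMod 2) (H → ZMod 2)}
    (hT : T ∈ TA H A) (g : G) : ((trs H g⁻¹) ∘ₗ T ∘ₗ (trs H g) : Module.End (ZMod 2) (H → ZMod 2)) ∈ TA H A := by
  apply mem_TA hA
  intro a ha u
  have ha' : g⁻¹ * a * g ∈ A := by
    have := hn.conj_mem a ha g⁻¹
    rwa [inv_inv] at this
  change trs H g⁻¹ (T (trs H g (trs H a u))) = trs H a (trs H g⁻¹ (T (trs H g u)))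
  have h1 : trs H g (trs H a u) = trs H (g⁻¹ * a * g) (trs H g u) := by
    rw [← trs_mul, ← trs_mul]
    congr 2
    group
  rw [h1, Xc_comm hA hT ha', ← trs_mul, ← trs_mul]
  congr 2
  group

theorem semi_normal (hodd : Odd (Nat.card H)) {A : Subgroup G} (hn : A.Normal) (hA : AbTr H A) :
    SemiSimple G H := by
  intro U hU
  obtain ⟨T, hT, hTU, hTid⟩ := exists_proj hodd hA (U := U) (fun a _ u hu => hU a u hu)
  refine ⟨LinearMap.ker T, ?_, ?_⟩
  · intro g v hv
    rw [LinearMap.mem_ker] at hv ⊢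
    have hT1 := Xc_conj hn hA hT g
    have hc := TA_comm hA hT hT1
    have h1 : trs H g⁻¹ (T (trs H g (T v))) = T v := by
      have h2 : trs H g (T v) ∈ U := hU g (T v) (hTU v)
      rw [hTid _ h2, trs_inv]
    have h3 : T (trs H g⁻¹ (T (trs H g v))) = trs H g⁻¹ (T (trs H g (T v))) := LinearMap.congr_fun hc v
    have h4 : trs H g⁻¹ (T (trs H g v)) ∈ U := hU g⁻¹ _ (hTU _)
    rw [hTid _ h4, h1, hv] at h3
    have h5 : trs H g (trs H g⁻¹ (T (trs H g v))) = trs H g 0 := by rw [h3]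
    rw [trs_inv', map_zero] at h5
    exact h5
  · constructor
    · rw [Submodule.disjoint_def]
      intro u hu hu'
      rw [LinearMap.mem_ker] at hu'
      rw [← hTid u hu, hu']
    · rw [codisjoint_iff, eq_top_iff]
      intro v _
      rw [Submodule.mem_sup]
      refine ⟨T v, hTU v, v - T v, ?_, by abel⟩
      rw [LinearMap.mem_ker, map_sub, hTid _ (hTU v), sub_self]

end H88D8.SS
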