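import Pool.Agent.H88.SS.Df
import Pool.Agent.H88.SS.Xc
import Pool.Agent.H90.T8.Ts

/-!
ROW Xk (project MP_78d38b_SS): the fields of odd degree generated by roots of odd order of rational numbers (generalizes row Xj).

PROOF. `Ω = AlgebraicClosure ℚ`, `G = (Ω ≃ₐ[ℚ] Ω)`, `H = (K →ₐ[ℚ] Ω)`, `ζ` a primitive `m`-th root of unity in `Ω`, `A = {g ∈ G | g ζ = ζ}`, a normal subgroup.
If `x ^ m` is rational then `g (σ x) = c * σ x` with `c` a power of `ζ` which does not depend on `σ` (`g ∈ A`), so the elements of `A` commute on `H`.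
KEY (`Xk_key`): if `w ^ m` is rational and `σ₀ w` is fixed by `A` then `w` is rational.
Transitive: `K` is spanned over `ℚ` by the products of elements of `S`, so there is a basis `b` of `K` of such elements. The characters `g ↦ g (σ₀ w) / σ₀ w` of `A`
(`w ∈ b`) are different by KEY, so they are linearly independent; they factor through `g ↦ g • σ₀`, so the orbit of `σ₀` has at least `[K : ℚ]` elements.
-/

set_option autoImplicit false
set_option linter.unusedSectionVars false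
open scoped Classical

open NumberField H88T7 H88T8 H90T8

namespace H88D8.SS

variable {K : Type} [Field K] [NumberField K]

private theorem Xk_inj {S : Set K} (hgen : IntermediateField.adjoin ℚ S = ⊤)
    (σ τ : K →ₐ[ℚ] AlgebraicClosure ℚ) (h : ∀ x ∈ S, σ x = τ x) : σ = τ := by
  ext x
  have hx : x ∈ IntermediateField.adjoin ℚ S := by
    rw [hgen]
    trivial
  induction hx using IntermediateField.adjoin_induction with
  | mem x hx => exact h x hx
  | algebraMap q => rw [σ.commutes, τ.commutes]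
  | add x y _ _ hx hy => rw [map_add, map_add, hx, hy]
  | inv x _ hx => rw [map_inv₀, map_inv₀, hx]
  | mul x y _ _ hx hy => rw [map_mul, map_mul, hx, hy]

private theorem Xk_exp {m : ℕ} (hm0 : 0 < m) {ζ : AlgebraicClosure ℚ} (hζ : IsPrimitiveRoot ζ m)
    {x : K} {a : ℚ} (hx : x ^ m = algebraMap ℚ K a) (σ τ : K →ₐ[ℚ] AlgebraicClosure ℚ) :
    ∃ i : ℕ, σ x = ζ ^ i * τ x := by
  have hNz : NeZero m := ⟨hm0.ne'⟩
  by_cases hx0 : x = 0
  · exact ⟨0, by rw [hx0, map_zero, map_zero, mul_zero]⟩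
  have hx1 : τ x ≠ 0 := fun h => hx0 ((map_eq_zero τ).1 h)
  have h1 : (σ x / τ x) ^ m = 1 := by
    rw [div_pow, ← map_pow, ← map_pow, hx, σ.commutes, τ.commutes, div_self]
    rw [← τ.commutes, ← hx, map_pow]
    exact pow_ne_zero _ hx1
  obtain ⟨i, -, hi'⟩ := hζ.eq_pow_of_pow_eq_one h1
  exact ⟨i, by rw [hi', div_mul_cancel₀ _ hx1]⟩

/-- A root of unity of odd order in a field of odd degree. -/
private theorem Xk_one (hodd : Odd (Module.finrank ℚ K)) {m : ℕ} (hm : Odd m) {z : K} (hz : z ^ m = 1) :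
    z = 1 := by
  have hm0 : 0 < m := hm.pos
  have hp : IsPrimitiveRoot z (orderOf z) := IsPrimitiveRoot.orderOf z
  have hd : orderOf z ∣ m := orderOf_dvd_of_pow_eq_one hz
  have hn0 : 0 < orderOf z := Nat.pos_of_dvd_of_pos hd hm0
  have hno : Odd (orderOf z) := hm.of_dvd_nat hd
  have h1 := minpoly.degree_dvd (K := ℚ) (L := K) (x := z) (Algebra.IsIntegral.isIntegral _)
  rw [← Polynomial.cyclotomic_eq_minpoly_rat hp hn0, Polynomial.natDegree_cyclotomic] at h1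
  have h2 : Odd (Nat.totient (orderOf z)) := hodd.of_dvd_nat h1
  have h3 : ¬ 2 < orderOf z := fun h => (Nat.not_even_iff_odd.2 h2) (Nat.totient_even h)
  have h4 : orderOf z = 1 := by
    obtain ⟨k, hk⟩ := hno
    omega
  exact orderOf_eq_one_iff.1 h4

/-- An element fixed by all automorphisms which fix the image of `α` is in the image of `K`. -/
private theorem Xk_fix {α : K} (σ₀ : K →ₐ[ℚ] AlgebraicClosure ℚ)
    {ω : AlgebraicClosure ℚ} (h : ∀ g : AlgebraicClosure ℚ ≃ₐ[ℚ] AlgebraicClosure ℚ,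
      g (σ₀ α) = σ₀ α → g ω = ω) : ∃ w : K, σ₀ w = ω := by
  let _ : Algebra K (AlgebraicClosure ℚ) := σ₀.toRingHom.toAlgebra
  have hsc : IsScalarTower ℚ K (AlgebraicClosure ℚ) :=
    IsScalarTower.of_algebraMap_eq (fun x => (σ₀.commutes x).symm)
  have hacl : IsAlgClosure ℚ (AlgebraicClosure ℚ) := ⟨inferInstance, AlgebraicClosure.isAlgebraic ℚ⟩
  have hint : Algebra.IsAlgebraic K (AlgebraicClosure ℚ) := Algebra.IsAlgebraic.tower_top (K := ℚ) K
  have hnorm : Normal K (AlgebraicClosure ℚ) := by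
    have : IsAlgClosure K (AlgebraicClosure ℚ) := ⟨inferInstance, hint⟩
    exact IsAlgClosure.normal K (AlgebraicClosure ℚ)
  have hgal : IsGalois K (AlgebraicClosure ℚ) := ⟨⟩
  have h1 := (InfiniteGalois.mem_range_algebraMap_iff_fixed (k := K) (K := AlgebraicClosure ℚ) ω).2
    fun f => h (f.restrictScalars ℚ) (f.commutes α)
  obtain ⟨w, hw⟩ := h1
  exact ⟨w, hw⟩

private theorem Xk_rat {y : AlgebraicClosure ℚ}
    (h : ∀ g : AlgebraicClosure ℚ ≃ₐ[ℚ] AlgebraicClosure ℚ, g y = y) :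
    ∃ q : ℚ, algebraMap ℚ (AlgebraicClosure ℚ) q = y := by
  have hacl : IsAlgClosure ℚ (AlgebraicClosure ℚ) := ⟨inferInstance, AlgebraicClosure.isAlgebraic ℚ⟩
  have hnorm : Normal ℚ (AlgebraicClosure ℚ) := IsAlgClosure.normal ℚ (AlgebraicClosure ℚ)
  have hgal : IsGalois ℚ (AlgebraicClosure ℚ) := ⟨⟩
  exact (InfiniteGalois.mem_range_algebraMap_iff_fixed (k := ℚ) (K := AlgebraicClosure ℚ) y).2 h

private theorem Xk_key (hodd : Odd (Module.finrank ℚ K)) {m : ℕ} (hm : Odd m) {ζ : AlgebraicClosure ℚ}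
    (hζ : IsPrimitiveRoot ζ m) {w : K} {a : ℚ} (hw : w ^ m = algebraMap ℚ K a) (hw0 : w ≠ 0)
    (σ₀ : K →ₐ[ℚ] AlgebraicClosure ℚ)
    (hfix : ∀ g : AlgebraicClosure ℚ ≃ₐ[ℚ] AlgebraicClosure ℚ, g ζ = ζ → g (σ₀ w) = σ₀ w) :
    ∃ q : ℚ, algebraMap ℚ K q = w := by
  have hm0 : 0 < m := hm.pos
  have hNz : NeZero m := ⟨hm0.ne'⟩
  have hy0 : σ₀ w ≠ 0 := fun h => hw0 ((map_eq_zero σ₀).1 h)
  have hpow : ∀ g : AlgebraicClosure ℚ ≃ₐ[ℚ] AlgebraicClosure ℚ, ∃ i : ℕ, g ζ = ζ ^ i := by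
    intro g
    have h1 : (g ζ) ^ m = 1 := by rw [← map_pow, hζ.pow_eq_one, map_one]
    obtain ⟨i, -, hi⟩ := hζ.eq_pow_of_pow_eq_one h1
    exact ⟨i, hi.symm⟩
  have hall : ∀ h : AlgebraicClosure ℚ ≃ₐ[ℚ] AlgebraicClosure ℚ, h (σ₀ w) = σ₀ w := by
    intro h
    obtain ⟨k, hk⟩ := Xk_exp hm0 hζ hw (h • σ₀) σ₀
    have hk' : h (σ₀ w) = ζ ^ k * σ₀ w := hk
    obtain ⟨z, hz⟩ := Xk_fix (α := w) σ₀ (ω := ζ ^ k) (by
      intro g hg
      obtain ⟨i, hi⟩ := hpow g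
      obtain ⟨j, hj⟩ := hpow h
      have h1 : g (h ζ) = h (g ζ) := by
        rw [hj, hi, map_pow, map_pow, hi, hj, ← pow_mul, ← pow_mul, mul_comm]
      have h2 := hfix ((h * g)⁻¹ * (g * h)) (by
        have h3 : (g * h) ζ = (h * g) ζ := h1
        have h4 : ((h * g)⁻¹ * (g * h)) ζ = (h * g)⁻¹ ((g * h) ζ) := rfl
        have h5 : (h * g)⁻¹ ((h * g) ζ) = ((h * g)⁻¹ * (h * g)) ζ := rfl
        rw [h4, h3, h5, inv_mul_cancel]
        rfl)
      have h3 : (g * h) (σ₀ w) = (h * g) (σ₀ w) := by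
        have h4 : (h * g) (((h * g)⁻¹ * (g * h)) (σ₀ w)) =
          ((h * g) * ((h * g)⁻¹ * (g * h))) (σ₀ w) := rfl
        rw [h2, mul_inv_cancel_left] at h4
        exact h4.symm
      have h4 : g (h (σ₀ w)) = h (g (σ₀ w)) := h3
      rw [hg, hk', map_mul, hg] at h4
      exact mul_right_cancel₀ hy0 h4)
    have hz1 : z ^ m = 1 := by
      apply σ₀.toRingHom.injective
      change σ₀ (z ^ m) = σ₀ 1
      rw [map_pow, hz, map_one, ← pow_mul, mul_comm, pow_mul, hζ.pow_eq_one, one_pow]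
    rw [Xk_one hodd hm hz1, map_one] at hz
    rw [hk', ← hz, one_mul]
  obtain ⟨q, hq⟩ := Xk_rat hall
  refine ⟨q, σ₀.toRingHom.injective ?_⟩
  change σ₀ (algebraMap ℚ K q) = σ₀ w
  rw [σ₀.commutes, hq]

/-- A basis of products of elements of `S`. -/
private theorem Xk_basis {m : ℕ} (S : Set K)
    (hS : ∀ α ∈ S, ∃ a : ℚ, α ^ m = algebraMap ℚ K a)
    (hgen : IntermediateField.adjoin ℚ S = ⊤) :
    ∃ b : Set K, (∀ x ∈ b, ∃ a : ℚ, x ^ m = algebraMap ℚ K a) ∧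
      LinearIndependent ℚ (Subtype.val : b → K) ∧ Submodule.span ℚ b = ⊤ := by
  have h1 : Algebra.adjoin ℚ S = ⊤ := by
    rw [← IntermediateField.adjoin_toSubalgebra (F := ℚ) (E := K) S, hgen]
    rfl
  have h2 : Submodule.span ℚ (Submonoid.closure S : Set K) = ⊤ := by
    rw [← Algebra.adjoin_eq_span, h1]
    rfl
  have h3 : ∀ x ∈ Submonoid.closure S, ∃ a : ℚ, x ^ m = algebraMap ℚ K a := by
    intro x hx
    induction hx using Submonoid.closure_induction with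
    | mem x hx => exact hS x hx
    | one => exact ⟨1, by rw [one_pow, map_one]⟩
    | mul x y _ _ hx hy =>
      obtain ⟨a, ha⟩ := hx
      obtain ⟨c, hc⟩ := hy
      exact ⟨a * c, by rw [mul_pow, ha, hc, map_mul]⟩
  obtain ⟨b, hb, hb1, hb2⟩ := exists_linearIndependent ℚ (Submonoid.closure S : Set K)
  exact ⟨b, fun x hx => h3 x (hb hx), hb2, hb1.trans h2⟩

/-- Different elements of a basis are not proportional. -/
private theorem Xk_prop {b : Set K} (hb : LinearIndependent ℚ (Subtype.val : b → K)) {x y : b} {q : ℚ}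
    (h : (x : K) = algebraMap ℚ K q * y) : x = y := by
  by_contra hne
  have h1 := (linearIndependent_iff'.1 hb) {x, y} (fun z => if z = x then 1 else -q) (by
    rw [Finset.sum_pair hne, if_pos rfl, if_neg (Ne.symm hne), one_smul, neg_smul, Algebra.smul_def, h]
    ring) x (Finset.mem_insert_self _ _)
  rw [if_pos rfl] at h1
  exact one_ne_zero h1

/-- The character of `A` given by an element of `K` whose `m`-th power is rational. -/
private theorem Xk_char {m : ℕ} (hm0 : 0 < m) {ζ : AlgebraicClosure ℚ} (hζ : IsPrimitiveRoot ζ m)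
    {A : Subgroup (AlgebraicClosure ℚ ≃ₐ[ℚ] AlgebraicClosure ℚ)} (hA : ∀ g, g ∈ A ↔ g ζ = ζ)
    {x : K} {a : ℚ} (hx : x ^ m = algebraMap ℚ K a) (hx0 : x ≠ 0) (σ₀ : K →ₐ[ℚ] AlgebraicClosure ℚ) :
    ∃ χ : A →* AlgebraicClosure ℚ, ∀ g : A, χ g = g.1 (σ₀ x) / σ₀ x := by
  have hy0 : σ₀ x ≠ 0 := fun h => hx0 ((map_eq_zero σ₀).1 h)
  refine ⟨{
    toFun := fun g => g.1 (σ₀ x) / σ₀ x
    map_one' := div_self hy0
    map_mul' := ?_ }, fun g => rfl⟩
  rintro ⟨g, hg⟩ ⟨h, hh⟩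
  obtain ⟨k, hk⟩ := Xk_exp hm0 hζ hx (h • σ₀) σ₀
  have hk' : h (σ₀ x) = ζ ^ k * σ₀ x := hk
  change g (h (σ₀ x)) / σ₀ x = g (σ₀ x) / σ₀ x * (h (σ₀ x) / σ₀ x)
  rw [hk', map_mul, map_pow, (hA g).1 hg, mul_div_assoc, mul_div_assoc, div_self hy0, mul_one, mul_comm]

private theorem Xk_trans (hodd : Odd (Module.finrank ℚ K)) {m : ℕ} (hm : Odd m) (S : Set K)
    (hS : ∀ α ∈ S, ∃ a : ℚ, α ^ m = algebraMap ℚ K a)
    (hgen : IntermediateField.adjoin ℚ S = ⊤) {ζ : AlgebraicClosure ℚ} (hζ : IsPrimitiveRoot ζ m)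
    {A : Subgroup (AlgebraicClosure ℚ ≃ₐ[ℚ] AlgebraicClosure ℚ)} (hA : ∀ g, g ∈ A ↔ g ζ = ζ)
    (σ₀ : K →ₐ[ℚ] AlgebraicClosure ℚ) :
    Function.Surjective (fun g : A => g.1 • σ₀) := by
  have hm0 : 0 < m := hm.pos
  obtain ⟨b, hb, hb1, hb2⟩ := Xk_basis S hS hgen
  have hfin : Finite b := hb1.finite
  have hft : Fintype b := Fintype.ofFinite b
  have hcard : Fintype.card b = Module.finrank ℚ K := by
    have h1 := finrank_span_eq_card (R := ℚ) hb1
    rw [Subtype.range_coe, hb2, finrank_top] at h1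
    exact h1.symm
  have hne : ∀ x : b, (x : K) ≠ 0 := fun x => hb1.ne_zero x
  have hch : ∀ x : b, ∃ χ : A →* AlgebraicClosure ℚ, ∀ g : A, χ g = g.1 (σ₀ x) / σ₀ x := by
    intro x
    obtain ⟨a, ha⟩ := hb x x.2
    exact Xk_char hm0 hζ hA ha (hne x) σ₀
  choose χ hχ using hch
  have hχi : Function.Injective χ := by
    intro x y hxy
    have hx0 : σ₀ (x : K) ≠ 0 := fun h => hne x ((map_eq_zero σ₀).1 h)
    have hy0 : σ₀ (y : K) ≠ 0 := fun h => hne y ((map_eq_zero σ₀).1 h)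
    obtain ⟨a, ha⟩ := hb x x.2
    obtain ⟨c, hc⟩ := hb y y.2
    obtain ⟨q, hq⟩ := Xk_key hodd hm hζ (w := (x : K) / y) (a := a / c)
      (by rw [div_pow, ha, hc, map_div₀]) (div_ne_zero (hne x) (hne y)) σ₀ (by
        intro g hg
        have h1 : χ x ⟨g, (hA g).2 hg⟩ = χ y ⟨g, (hA g).2 hg⟩ := by rw [hxy]
        rw [hχ, hχ] at h1
        have h2 : g (σ₀ x) / σ₀ x = g (σ₀ y) / σ₀ y := h1
        have hgy : g (σ₀ y) ≠ 0 := fun h => hy0 ((map_eq_zero g).1 h)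
        rw [map_div₀, map_div₀]
        rw [div_eq_div_iff hx0 hy0] at h2
        rw [div_eq_div_iff hgy hy0]
        rw [h2]
        ring)
    exact Xk_prop hb1 (q := q) (by rw [hq, div_mul_cancel₀ _ (hne y)])
  have hli : LinearIndependent (AlgebraicClosure ℚ) (fun x : b => (χ x : A → AlgebraicClosure ℚ)) :=
    (linearIndependent_monoidHom A (AlgebraicClosure ℚ)).comp χ hχi
  let ρ : A → (K →ₐ[ℚ] AlgebraicClosure ℚ) := fun g => g.1 • σ₀
  let F : b → Set.range ρ → AlgebraicClosure ℚ := fun x τ => (τ.1 x) / σ₀ x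
  have hF : LinearIndependent (AlgebraicClosure ℚ) F := by
    refine LinearIndependent.of_comp
      (LinearMap.funLeft (AlgebraicClosure ℚ) (AlgebraicClosure ℚ) (Set.rangeFactorization ρ)) ?_
    have h1 : (LinearMap.funLeft (AlgebraicClosure ℚ) (AlgebraicClosure ℚ) (Set.rangeFactorization ρ)) ∘ F =
        fun x : b => (χ x : A → AlgebraicClosure ℚ) := by
      funext x g
      rw [hχ]
      rfl
    rw [h1]
    exact hli
  have hr : Fintype (Set.range ρ) := Fintype.ofFinite _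
  have h2 := hF.fintype_card_le_finrank
  rw [Module.finrank_fintype_fun_eq_card, hcard, ← Ts_card (K := K)] at h2
  have h3 := (Fintype.bijective_iff_injective_and_card
    (Subtype.val : Set.range ρ → (K →ₐ[ℚ] AlgebraicClosure ℚ))).2 ⟨Subtype.val_injective,
      le_antisymm (Fintype.card_le_of_injective _ Subtype.val_injective) h2⟩
  intro σ
  obtain ⟨⟨τ, g, hg⟩, h⟩ := h3.2 σ
  exact ⟨g, hg.trans h⟩

theorem semiK_radicals (hodd : Odd (Module.finrank ℚ K)) {m : ℕ} (hm : Odd m) (S : Set K)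
    (hS : ∀ α ∈ S, ∃ a : ℚ, α ^ m = algebraMap ℚ K a)
    (hgen : IntermediateField.adjoin ℚ S = ⊤) : SemiK K := by
  have hm0 : 0 < m := hm.pos
  have hNz : NeZero m := ⟨hm0.ne'⟩
  have hoddH : Odd (Nat.card (K →ₐ[ℚ] AlgebraicClosure ℚ)) := by
    rw [Nat.card_eq_fintype_card, Ts_card]
    exact hodd
  unfold SemiK
  have hNΩ : NeZero (m : AlgebraicClosure ℚ) := ⟨by exact_mod_cast hm0.ne'⟩
  obtain ⟨ζ, hζ⟩ := HasEnoughRootsOfUnity.exists_primitiveRoot (AlgebraicClosure ℚ) m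
  have hne : Nonempty (K →ₐ[ℚ] AlgebraicClosure ℚ) := by
    rw [← Fintype.card_pos_iff, Ts_card]
    exact hodd.pos
  obtain ⟨σ₀⟩ := hne
  obtain ⟨A, hA⟩ : ∃ A : Subgroup (AlgebraicClosure ℚ ≃ₐ[ℚ] AlgebraicClosure ℚ),
      ∀ g, g ∈ A ↔ g ζ = ζ := by
    refine ⟨{
      carrier := {g | g ζ = ζ}
      one_mem' := rfl
      mul_mem' := ?_
      inv_mem' := ?_ }, fun g => Iff.rfl⟩
    · intro g h hg hh
      change g (h ζ) = ζ
      change g ζ = ζ at hg
      change h ζ = ζ at hh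
      rw [hh, hg]
    · intro g hg
      change g.symm ζ = ζ
      change g ζ = ζ at hg
      exact (AlgEquiv.symm_apply_eq g).2 hg.symm
  have htr := Xk_trans hodd hm S hS hgen hζ hA σ₀
  refine semi_normal hoddH (A := A) ?_ ⟨?_, ?_⟩
  · refine ⟨fun n hn g => ?_⟩
    rw [hA] at hn ⊢
    have h1 : (g.symm ζ) ^ m = 1 := by rw [← map_pow, hζ.pow_eq_one, map_one]
    obtain ⟨i, -, hi⟩ := hζ.eq_pow_of_pow_eq_one h1
    change g (n (g.symm ζ)) = ζ
    rw [← hi, map_pow n, hn, hi, AlgEquiv.apply_symm_apply]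
  · intro g hg h hh σ
    rw [hA] at hg hh
    apply Xk_inj hgen
    intro x hx
    obtain ⟨a, ha⟩ := hS x hx
    obtain ⟨k, hk⟩ := Xk_exp hm0 hζ ha (g • σ) σ
    obtain ⟨l, hl⟩ := Xk_exp hm0 hζ ha (h • σ) σ
    have hk' : g (σ x) = ζ ^ k * σ x := hk
    have hl' : h (σ x) = ζ ^ l * σ x := hl
    change g (h (σ x)) = h (g (σ x))
    simp only [map_mul, map_pow, hg, hh, hk', hl']
    ring
  · intro σ τ
    obtain ⟨⟨g, hg⟩, hg'⟩ := htr σ
    obtain ⟨⟨h, hh⟩, hh'⟩ := htr τ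
    have hg1 : g • σ₀ = σ := hg'
    have hh1 : h • σ₀ = τ := hh'
    refine ⟨h * g⁻¹, A.mul_mem hh (A.inv_mem hg), ?_⟩
    rw [← hg1, ← hh1, mul_smul, inv_smul_smul]

end H88D8.SS
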