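import Pool.Agent.H88.SS.Pa
import Pool.Agent.H88.SS.Re
import Pool.Agent.H30.T8.Fd

/-!
ROW Pb (project MP_78d38b_SS, about 150 lines): the prescribed primes.

PROOF. Modification of the PROVED theorem `H30T8.exists_presc` and its lemma `T8zFd_ind` (`Pool/Agent/H30/T8/Fd.lean`; copy the private lemmas): use `frob_placesS` (row Pa) instead of `frob_places`. In the induction add the conclusion `∀ t, Pr t → ∏ q ∈ Qb, fb t (pq K M q) = ∏ q ∈ Qa, fb t (pq K M q)`: in the step both new primes `q`, `q'` have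
`fb t (pq K M q) = fb t (cyc K g) = fb t (pq K M q')` (`fb_frob`, row Pa; `Finset.prod_insert`). At the end the prime added to `Qa` has the Frobenius element `1` (`fb = 2 ^ t.rank`, `fb_one`) and the prime added to `Qb` has as Frobenius element the `g` of `pinf_cyc` (row Re; complex conjugation, instead of the `g` of `conj_orb`;
then the count `Nat.card (Quotient ..) + nrComplexPlaces = finrank` follows as in the proof of `H30T8.conj_orb` in `Pool/Agent/H30/T8/Fb.lean` with `fb_card hL (io M) g` and the last conclusion of `pinf_cyc`), and `fb t (cyc K g) = fb t (pinf K M)` (`fb_congr`, row Cb: both are the relation `σ = τ ∨ g • σ = τ`; `fb_same` in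
`Pool/Agent/H30/T8/Fb.lean`). So `∏_{Qb} fb * 2 ^ rank = (∏ old) * fb ∞ * 2 ^ rank = fb ∞ * ∏_{Qa} fb`.
-/

set_option autoImplicit false
set_option linter.unusedSectionVars false
open scoped Classical

open WithZero NumberField IsDedekindDomain H38RT H88T7 H88T8 H90T8
open H38T1 (SC sc scu scu_surj sc_mul sc_of_ne sc_surj rep rep_ne sc_rep sc_eq_zero eo la si Pri tp OddP
  LD XX XX' NS ov rp SqMod)

namespace H88D8.SS

variable {K M : Type} [Field K] [NumberField K] [Field M] [NumberField M]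

private theorem Pb_union (F : Type) [Field F] [NumberField F] (S T : Set ℕ) :
    ov F (S ∪ T) = ov F S ∪ ov F T := by
  ext v
  constructor
  · rintro ⟨q, hq | hq, h⟩
    · exact Or.inl ⟨q, hq, h⟩
    · exact Or.inr ⟨q, hq, h⟩
  · rintro (⟨q, hq, h⟩ | ⟨q, hq, h⟩)
    · exact ⟨q, Or.inl hq, h⟩
    · exact ⟨q, Or.inr hq, h⟩

private theorem Pb_disj (F : Type) [Field F] [NumberField F] {S T : Set ℕ}
    (hS : ∀ q ∈ S, q.Prime) (hT : ∀ q ∈ T, q.Prime) (h : Disjoint S T) :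
    Disjoint (ov F S) (ov F T) := by
  rw [Set.disjoint_left]
  intro v hv hv'
  rw [H38T1.mem_ov hS] at hv
  rw [H38T1.mem_ov hT] at hv'
  exact (Set.disjoint_left.mp h) hv hv'

private theorem Pb_ins (F : Type) [Field F] [NumberField F] {q : ℕ} {Q : Finset ℕ}
    (hq : q.Prime) (hQ : ∀ p ∈ Q, p.Prime) (h : q ∉ Q) :
    (ov F ((insert q Q : Finset ℕ) : Set ℕ)).ncard = (ov F {q}).ncard + (ov F (Q : Set ℕ)).ncard ∧
      ov F ((insert q Q : Finset ℕ) : Set ℕ) = ov F {q} ∪ ov F (Q : Set ℕ) := by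
  have hq' : ∀ p ∈ ({q} : Set ℕ), p.Prime := by
    intro p hp
    rw [Set.mem_singleton_iff] at hp
    rw [hp]
    exact hq
  have hQ' : ∀ p ∈ (Q : Set ℕ), p.Prime := fun p hp => hQ p (Finset.mem_coe.mp hp)
  have hd : Disjoint ({q} : Set ℕ) (Q : Set ℕ) := by
    rw [Set.disjoint_singleton_left]
    exact fun h' => h (Finset.mem_coe.mp h')
  have he : ov F ((insert q Q : Finset ℕ) : Set ℕ) = ov F {q} ∪ ov F (Q : Set ℕ) := by
    rw [Finset.coe_insert, Set.insert_eq, Pb_union]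
  refine ⟨?_, he⟩
  rw [he, Set.ncard_union_eq (Pb_disj F hq' hQ' hd)
    (H38T1.fin_ov (Set.finite_singleton q) hq') (H38T1.fin_ov Q.finite_toSet hQ')]

private theorem Pb_empty (F : Type) [Field F] [NumberField F] :
    ov F ((∅ : Finset ℕ) : Set ℕ) = ∅ := by
  ext v
  constructor
  · rintro ⟨q, hq, _⟩
    simp at hq
  · intro h
    exact absurd h (Set.notMem_empty _)

private theorem Pb_ind (hodd : Odd (Module.finrank ℚ K)) (hL : BigL K M) (T : Finset ℕ)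
    (Z : Finset (SC K)) : (∀ u ∈ Z, u ∈ E0m K M ∧ u ≠ 0) →
    ∃ Qa Qb : Finset ℕ, Disjoint Qa Qb ∧ (∀ q ∈ Qa ∪ Qb, q.Prime ∧ q ≠ 2 ∧ q ∉ T) ∧
      Qa.card = Qb.card ∧
      (ov K (Qa : Set ℕ)).ncard = (ov K (Qb : Set ℕ)).ncard ∧
      (∀ u ∈ Z, (∃ v ∈ ov K (Qa : Set ℕ), la v u = 1) ∧ ∃ v ∈ ov K (Qb : Set ℕ), la v u = 1) ∧
      ∀ t : Matrix (K →ₐ[ℚ] M) (K →ₐ[ℚ] M) (ZMod 2), Pr t →
        ∏ q ∈ Qb, fb t (pq K M q) = ∏ q ∈ Qa, fb t (pq K M q) := by
  induction Z using Finset.induction_on with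
  | empty =>
    intro _
    refine ⟨∅, ∅, Finset.disjoint_empty_left _, ?_, rfl, rfl, ?_, ?_⟩
    · intro q hq
      simp at hq
    · intro u hu
      simp at hu
    · intro t _
      rfl
  | insert u Z hu ih =>
    intro hZ
    obtain ⟨Qa, Qb, h1, h2, h3, h4, h5, h6⟩ := ih fun w hw => hZ w (Finset.mem_insert_of_mem hw)
    obtain ⟨hu1, hu2⟩ := hZ u (Finset.mem_insert_self _ _)
    obtain ⟨g, σ, t, ht1, ht2, ht3⟩ := H30T8.ker_gen hL hu1 hu2
    have hinf := frob_placesS hodd hL g {u}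
    obtain ⟨q, hq, hqT⟩ := hinf.exists_notMem_finset (T ∪ (Qa ∪ Qb))
    obtain ⟨q', hq', hqT'⟩ := hinf.exists_notMem_finset (insert q (T ∪ (Qa ∪ Qb)))
    obtain ⟨a1, a2, a3, a5, a4⟩ := hq
    obtain ⟨b1, b2, b3, b5, b4⟩ := hq'
    obtain ⟨v, hv, hv1⟩ := a4 u (Finset.mem_singleton_self u) ⟨σ, t, ht1, ht2, ht3⟩
    obtain ⟨v', hv', hv1'⟩ := b4 u (Finset.mem_singleton_self u) ⟨σ, t, ht1, ht2, ht3⟩
    rw [Finset.mem_union, not_or, Finset.mem_union, not_or] at hqT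
    obtain ⟨c1, c2, c3⟩ := hqT
    rw [Finset.mem_insert, not_or, Finset.mem_union, not_or, Finset.mem_union, not_or] at hqT'
    obtain ⟨d0, d1, d2, d3⟩ := hqT'
    have hPa : ∀ p ∈ Qa, p.Prime := fun p hp => (h2 p (Finset.mem_union_left _ hp)).1
    have hPb : ∀ p ∈ Qb, p.Prime := fun p hp => (h2 p (Finset.mem_union_right _ hp)).1
    obtain ⟨e1, e2⟩ := Pb_ins K a1 hPa c2
    obtain ⟨f1, f2⟩ := Pb_ins K b1 hPb d3
    refine ⟨insert q Qa, insert q' Qb, ?_, ?_, ?_, ?_, ?_, ?_⟩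
    · rw [Finset.disjoint_insert_left, Finset.disjoint_insert_right, Finset.mem_insert, not_or]
      exact ⟨⟨fun h => d0 h.symm, c3⟩, d2, h1⟩
    · intro p hp
      rw [Finset.mem_union, Finset.mem_insert, Finset.mem_insert] at hp
      rcases hp with (rfl | hp) | (rfl | hp)
      · exact ⟨a1, a2, c1⟩
      · exact h2 p (Finset.mem_union_left _ hp)
      · exact ⟨b1, b2, d1⟩
      · exact h2 p (Finset.mem_union_right _ hp)
    · rw [Finset.card_insert_of_notMem c2, Finset.card_insert_of_notMem d3, h3]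
    · rw [e1, f1, a3, b3, h4]
    · intro w hw
      rw [e2, f2]
      rw [Finset.mem_insert] at hw
      rcases hw with rfl | hw
      · exact ⟨⟨v, Or.inl hv, hv1⟩, ⟨v', Or.inl hv', hv1'⟩⟩
      · obtain ⟨⟨x, hx, hx1⟩, ⟨y, hy, hy1⟩⟩ := h5 w hw
        exact ⟨⟨x, Or.inr hx, hx1⟩, ⟨y, Or.inr hy, hy1⟩⟩
    · intro t ht
      rw [Finset.prod_insert c2, Finset.prod_insert d3, h6 t ht, fb_frob hL a1 a5 ht.inv,
        fb_frob hL b1 b5 ht.inv]

theorem exists_prescS (hodd : Odd (Module.finrank ℚ K)) (hL : BigL K M) (T : Finset ℕ) :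
    ∃ Qa Qb : Finset ℕ, Disjoint Qa Qb ∧ (∀ q ∈ Qa ∪ Qb, q.Prime ∧ q ≠ 2 ∧ q ∉ T) ∧
      Qa.Nonempty ∧ Qb.Nonempty ∧ Qa.card = Qb.card ∧
      (∀ u ∈ E0m K M, u ≠ 0 →
        (∃ v ∈ ov K (Qa : Set ℕ), la v u = 1) ∧ ∃ v ∈ ov K (Qb : Set ℕ), la v u = 1) ∧
      (ov K (Qb : Set ℕ)).ncard + InfinitePlace.nrComplexPlaces K =
        (ov K (Qa : Set ℕ)).ncard ∧
      ∀ t : Matrix (K →ₐ[ℚ] M) (K →ₐ[ℚ] M) (ZMod 2), Pr t →
        (∏ q ∈ Qb, fb t (pq K M q)) * 2 ^ t.rank = fb t (pinf K M) * ∏ q ∈ Qa, fb t (pq K M q) := by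
  obtain ⟨Qa, Qb, h1, h2, h3, h4, h5, h6⟩ := Pb_ind hodd hL T ((H30T8.E0_fin hL).toFinset.erase 0)
    (fun u hu => by
      rw [Finset.mem_erase, Set.Finite.mem_toFinset] at hu
      exact ⟨hu.2, hu.1⟩)
  obtain ⟨g, hg1, hg2, -, hg4⟩ := pinf_cyc (K := K) hL
  have hgc : (io M).comp (g : M →+* M) = ComplexEmbedding.conjugate (io M) := by
    ext x
    exact hg4 x
  have hg : Nat.card (Quotient (Equiv.Perm.SameCycle.setoid (actH K M g))) +
      InfinitePlace.nrComplexPlaces K = Module.finrank ℚ K := by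
    have k1 := H30T8.fb_card hL (io M) g hgc
    have k2 := InfinitePlace.card_eq_nrRealPlaces_add_nrComplexPlaces (K := K)
    have k3 := InfinitePlace.card_add_two_mul_card_eq_rank K
    rw [k1, Nat.card_eq_fintype_card]
    omega
  have hcyc : ∀ t : Matrix (K →ₐ[ℚ] M) (K →ₐ[ℚ] M) (ZMod 2),
      fb t (cyc K g) = fb t (pinf K M) := by
    intro t
    apply fb_congr
    intro σ τ
    have k1 : cyc K g σ = cyc K g τ ↔ (actH K M g).SameCycle σ τ := by
      constructor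
      · intro h
        exact Quotient.exact h
      · intro h
        exact Quotient.sound h
    rw [k1, H30T8.fb_same _ (H30T8.fb_invol (io M) g hgc), hg2]
    exact Iff.rfl
  have hone := H30T8.one_orb hL
  have hi1 := frob_placesS hodd hL (1 : M ≃ₐ[ℚ] M) ∅
  have hi2 := frob_placesS hodd hL g ∅
  obtain ⟨q, hq, hqT⟩ := hi1.exists_notMem_finset (T ∪ (Qa ∪ Qb))
  obtain ⟨q', hq', hqT'⟩ := hi2.exists_notMem_finset (insert q (T ∪ (Qa ∪ Qb)))
  obtain ⟨a1, a2, a3, a5, -⟩ := hq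
  obtain ⟨b1, b2, b3, b5, -⟩ := hq'
  rw [Finset.mem_union, not_or, Finset.mem_union, not_or] at hqT
  obtain ⟨c1, c2, c3⟩ := hqT
  rw [Finset.mem_insert, not_or, Finset.mem_union, not_or, Finset.mem_union, not_or] at hqT'
  obtain ⟨d0, d1, d2, d3⟩ := hqT'
  have hPa : ∀ p ∈ Qa, p.Prime := fun p hp => (h2 p (Finset.mem_union_left _ hp)).1
  have hPb : ∀ p ∈ Qb, p.Prime := fun p hp => (h2 p (Finset.mem_union_right _ hp)).1
  obtain ⟨e1, e2⟩ := Pb_ins K a1 hPa c2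
  obtain ⟨f1, f2⟩ := Pb_ins K b1 hPb d3
  refine ⟨insert q Qa, insert q' Qb, ?_, ?_, Finset.insert_nonempty _ _,
    Finset.insert_nonempty _ _, ?_, ?_, ?_, ?_⟩
  · rw [Finset.disjoint_insert_left, Finset.disjoint_insert_right, Finset.mem_insert, not_or]
    exact ⟨⟨fun h => d0 h.symm, c3⟩, d2, h1⟩
  · intro p hp
    rw [Finset.mem_union, Finset.mem_insert, Finset.mem_insert] at hp
    rcases hp with (rfl | hp) | (rfl | hp)
    · exact ⟨a1, a2, c1⟩
    · exact h2 p (Finset.mem_union_left _ hp)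
    · exact ⟨b1, b2, d1⟩
    · exact h2 p (Finset.mem_union_right _ hp)
  · rw [Finset.card_insert_of_notMem c2, Finset.card_insert_of_notMem d3, h3]
  · intro u hu hu0
    rw [e2, f2]
    obtain ⟨⟨x, hx, hx1⟩, ⟨y, hy, hy1⟩⟩ := h5 u (by
      rw [Finset.mem_erase, Set.Finite.mem_toFinset]
      exact ⟨hu0, hu⟩)
    exact ⟨⟨x, Or.inr hx, hx1⟩, ⟨y, Or.inr hy, hy1⟩⟩
  · rw [e1, f1, h4, a3, b3, hone, ← hg]
    ring
  · intro t ht
    rw [Finset.prod_insert c2, Finset.prod_insert d3, h6 t ht, fb_frob hL a1 a5 ht.inv,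
      fb_frob hL b1 b5 ht.inv, hcyc, fb_one ht.idem]
    ring

end H88D8.SS
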