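import Pool.Agent.H88.SS.Fr
import Pool.Agent.H88.SS.Ra

/-!
ROW Rc (project MP_78d38b_SS, about 150 lines): the Legendre class at `v` is given by the product over the embeddings above `v`.

PROOF. `w = wq M q`, `v = pq K M q σ = pl σ w`, `q` odd. `pq_cyc`: `φ`, the fibre `{τ | pq τ = v}` is the cycle of `σ` under `π = actH K M φ`: it is `{π^i σ | 0 ≤ i < f}` with distinct elements, `f = minimalPeriod = inertiaDeg` (`Gk_orb` in `H88/T7/Gk.lean`;
`Function.minimalPeriod`). Let `z = σ y ∈ M`, a unit at `w` (`pl_val`, row Ra), and `(π^i σ) y = φ^i z` (`actH_apply`). `fb_pow` (`H88/T7/Gj.lean`): `φ^i a - a ^ (q^i) ∈ w` for integral `a`; so for every `w`-integral `a ∈ M`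
(write `a = n / d`, `d ∉ w`: `w.exists_primeCompl_mul_eq_of_integer`) `w (φ^i a - a ^ (q^i)) < 1`. So the product in the statement is congruent to `z ^ ((q-1)/2 * (1 + q + ... + q^(f-1))) = z ^ ((q^f - 1)/2)` (`Nat.geomSum_eq`/`mul_geom_sum`;
congruence modulo the maximal ideal of the valuation ring is compatible with products of integral elements). `z ^ ((q^f-1)/2) = σ (y ^ ((q^f-1)/2))`. In `K`: the residue field of `v` has `q^f` elements (`card_res`, `H88/T7/Gj.lean`; `rp_pq`), so by Euler's criterion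
(`Gm_euler`, `Gm_sq`, `Gm_sq'` in `H88/T7/Gm.lean` (private, copy them): with `p := q^f = 2 m + 1`) `v (y^m - 1) < 1` iff `Sq (v.valuation K) y` iff `la v (sc y) = 0` (`H38T1.la_sc`, `H38RT.lam_unit` or unfold `lam`, order zero), and otherwise `v (y^m + 1) < 1` as
`(y^m)^2 ≡ 1` (Fermat: `FiniteField.pow_card_sub_one_eq_one`, or: `(y^m - 1)(y^m + 1) = y^(q^f-1) - 1` has valuation `< 1`, so one of the factors has). Apply `σ` (`pl_val`). `sg2 M e = 1` if `e = 0`, `-1` otherwise.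
-/

set_option autoImplicit false
set_option linter.unusedSectionVars false
open scoped Classical

open WithZero NumberField IsDedekindDomain H38RT H88T7 H88T8 H90T8
open H38T1 (SC sc scu scu_surj sc_mul sc_of_ne sc_surj rep rep_ne sc_rep sc_eq_zero eo la si Pri tp OddP
  LD XX XX' NS ov rp SqMod)

namespace H88D8.SS

variable {K M : Type} [Field K] [NumberField K] [Field M] [NumberField M]

private theorem Rc_m {x y : WithZero (Multiplicative ℤ)} (hx : x ≤ 1) (hy : y < 1) : x * y < 1 :=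
  lt_of_le_of_lt (mul_le_of_le_one_left' hx) hy

private theorem Rc_mul {F : Type*} [Field F] (V : Valuation F (WithZero (Multiplicative ℤ)))
    {a b c d : F} (h1 : V (a - b) < 1) (h2 : V (c - d) < 1) (hb : V b ≤ 1) (hc : V c ≤ 1) :
    V (a * c - b * d) < 1 := by
  have h3 : a * c - b * d = (a - b) * c + b * (c - d) := by ring
  rw [h3]
  refine lt_of_le_of_lt (V.map_add _ _) (max_lt ?_ ?_)
  · rw [map_mul]
    rw [mul_comm]
    exact Rc_m hc h1
  · rw [map_mul]
    exact Rc_m hb h2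

private theorem Rc_pow {F : Type*} [Field F] (V : Valuation F (WithZero (Multiplicative ℤ)))
    {a b : F} (h : V (a - b) < 1) (ha : V a ≤ 1) (hb : V b ≤ 1) (n : ℕ) :
    V (a ^ n - b ^ n) < 1 := by
  induction n with
  | zero => rw [pow_zero, pow_zero, sub_self, map_zero]; exact zero_lt_one
  | succ n ih =>
    rw [pow_succ, pow_succ]
    refine Rc_mul V ih h ?_ ha
    rw [map_pow]
    exact pow_le_one₀ zero_le hb

private theorem Rc_prod {F ι : Type*} [Field F] (V : Valuation F (WithZero (Multiplicative ℤ)))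
    (s : Finset ι) (a b : ι → F) (h : ∀ i, V (a i - b i) < 1) (ha : ∀ i, V (a i) ≤ 1)
    (hb : ∀ i, V (b i) ≤ 1) : V (∏ i ∈ s, a i - ∏ i ∈ s, b i) < 1 := by
  induction s using Finset.induction_on with
  | empty => rw [Finset.prod_empty, Finset.prod_empty, sub_self, map_zero]; exact zero_lt_one
  | insert i s hi ih =>
    rw [Finset.prod_insert hi, Finset.prod_insert hi]
    refine Rc_mul V (h i) ih (hb i) ?_
    rw [map_prod]
    exact Finset.prod_le_one' fun j _ => ha j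

private theorem Rc_lt {F : Type*} [Field F] (V : Valuation F (WithZero (Multiplicative ℤ)))
    {a b c : F} (h1 : V (a - b) < 1) (h2 : V (b - c) < 1) : V (a - c) < 1 := by
  have h3 : a - c = (a - b) + (b - c) := by ring
  rw [h3]
  exact lt_of_le_of_lt (V.map_add _ _) (max_lt h1 h2)

/-- Frobenius elements and integral elements of the field. -/
private theorem Rc_fb {φ : M ≃ₐ[ℚ] M} {w : HeightOneSpectrum (𝓞 M)} (hφ : IsFb φ w) (k : ℕ) {z : M}
    (hz : w.valuation M z ≤ 1) :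
    w.valuation M ((φ ^ k) z - z ^ (rp w ^ k)) < 1 := by
  obtain ⟨n, ⟨d, hd⟩, hnd⟩ := w.exists_primeCompl_mul_eq_of_integer z hz
  have hd' : d ∉ w.asIdeal := hd
  have hnd' : z * algebraMap (𝓞 M) M d = algebraMap (𝓞 M) M n := hnd
  have hn1 : w.valuation M (algebraMap (𝓞 M) M ((φ ^ k) • n - n ^ (rp w ^ k))) < 1 :=
    (w.valuation_lt_one_iff_mem (K := M) _).2 (fb_pow hφ k n)
  have hd1 : w.valuation M (algebraMap (𝓞 M) M ((φ ^ k) • d - d ^ (rp w ^ k))) < 1 :=
    (w.valuation_lt_one_iff_mem (K := M) _).2 (fb_pow hφ k d)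
  have hac : ∀ x : 𝓞 M, algebraMap (𝓞 M) M ((φ ^ k) • x) = (φ ^ k) (algebraMap (𝓞 M) M x) :=
    fun x => rfl
  rw [map_sub, hac, map_pow] at hn1 hd1
  have hVd : w.valuation M (algebraMap (𝓞 M) M d) = 1 := w.valuation_eq_one_iff_notMem.mpr hd'
  have hVd2 : w.valuation M ((φ ^ k) (algebraMap (𝓞 M) M d)) = 1 := by
    have h1 : (φ ^ k) (algebraMap (𝓞 M) M d) = algebraMap (𝓞 M) M d ^ (rp w ^ k) +
      ((φ ^ k) (algebraMap (𝓞 M) M d) - algebraMap (𝓞 M) M d ^ (rp w ^ k)) := by ring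
    have h2 : w.valuation M (algebraMap (𝓞 M) M d ^ (rp w ^ k)) = 1 := by
      rw [map_pow, hVd, one_pow]
    rw [h1, Valuation.map_add_eq_of_lt_left, h2]
    rw [h2]
    exact hd1
  have h3 : ((φ ^ k) z - z ^ (rp w ^ k)) * (φ ^ k) (algebraMap (𝓞 M) M d) =
      ((φ ^ k) (algebraMap (𝓞 M) M n) - algebraMap (𝓞 M) M n ^ (rp w ^ k)) -
      z ^ (rp w ^ k) * ((φ ^ k) (algebraMap (𝓞 M) M d) - algebraMap (𝓞 M) M d ^ (rp w ^ k)) := by
    rw [← hnd', map_mul, mul_pow]
    ring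
  have h4 := congrArg (w.valuation M) h3
  rw [map_mul, hVd2, mul_one] at h4
  rw [h4]
  refine lt_of_le_of_lt (Valuation.map_sub _ _ _) (max_lt hn1 ?_)
  rw [map_mul, map_pow]
  exact Rc_m (pow_le_one₀ zero_le hz) hd1

private theorem Rc_euler {p m : ℕ} (hp2 : p = 2 * m + 1)
    {v : HeightOneSpectrum (𝓞 K)} (hv : (p : 𝓞 K) ∈ v.asIdeal)
    (hN : Ideal.absNorm v.asIdeal = p) {y : 𝓞 K} (hy : y ∉ v.asIdeal) (h : y ^ m - 1 ∈ v.asIdeal) :
    ∃ a : 𝓞 K, y - a ^ 2 ∈ v.asIdeal := by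
  have hmax : v.asIdeal.IsMaximal := v.isMaximal
  let _ : Field (𝓞 K ⧸ v.asIdeal) := Ideal.Quotient.field v.asIdeal
  have hfin : Finite (𝓞 K ⧸ v.asIdeal) := by
    apply Nat.finite_of_card_ne_zero
    have h1 : Nat.card (𝓞 K ⧸ v.asIdeal) = p := hN
    rw [h1]
    omega
  let _ : Fintype (𝓞 K ⧸ v.asIdeal) := Fintype.ofFinite _
  have hcard : Fintype.card (𝓞 K ⧸ v.asIdeal) = p := by
    rw [← Nat.card_eq_fintype_card]
    exact hN
  have hy0 : Ideal.Quotient.mk v.asIdeal y ≠ 0 := fun h => hy (Ideal.Quotient.eq_zero_iff_mem.1 h)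
  have hchar : ringChar (𝓞 K ⧸ v.asIdeal) ≠ 2 := by
    intro hc
    have h3 : (2 : 𝓞 K ⧸ v.asIdeal) = 0 := by
      have h4 : ((ringChar (𝓞 K ⧸ v.asIdeal) : ℕ) : 𝓞 K ⧸ v.asIdeal) = 0 :=
        ringChar.Nat.cast_ringChar
      rw [hc] at h4
      exact_mod_cast h4
    have h5 : ((p : ℕ) : 𝓞 K ⧸ v.asIdeal) = 0 := by
      have h6 := Ideal.Quotient.eq_zero_iff_mem.2 hv
      rw [map_natCast] at h6
      exact h6
    rw [hp2] at h5
    push_cast at h5
    rw [h3, zero_mul, zero_add] at h5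
    exact one_ne_zero h5
  have hE := FiniteField.isSquare_iff hchar hy0
  rw [hcard] at hE
  have hm : p / 2 = m := by omega
  rw [hm] at hE
  have h1 : (Ideal.Quotient.mk v.asIdeal y) ^ m = 1 := by
    rw [← map_pow, ← map_one (Ideal.Quotient.mk v.asIdeal), Ideal.Quotient.eq]
    exact h
  obtain ⟨b, hb⟩ := hE.2 h1
  obtain ⟨a, rfl⟩ := Ideal.Quotient.mk_surjective b
  refine ⟨a, ?_⟩
  rw [← map_mul, Ideal.Quotient.eq, ← sq] at hb
  exact hb

private theorem Rc_fermat {p : ℕ} (hp0 : p ≠ 0) {v : HeightOneSpectrum (𝓞 K)}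
    (hN : Ideal.absNorm v.asIdeal = p) {t : K} (ht : v.valuation K t ≤ 1) :
    v.valuation K (t ^ p - t) < 1 := by
  have hint : ∀ a : 𝓞 K, v.valuation K (algebraMap (𝓞 K) K a ^ p - algebraMap (𝓞 K) K a) < 1 := by
    intro a
    have hmax : v.asIdeal.IsMaximal := v.isMaximal
    let _ : Field (𝓞 K ⧸ v.asIdeal) := Ideal.Quotient.field v.asIdeal
    have hfin : Finite (𝓞 K ⧸ v.asIdeal) := by
      apply Nat.finite_of_card_ne_zero
      have h1 : Nat.card (𝓞 K ⧸ v.asIdeal) = p := hN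
      rw [h1]
      exact hp0
    let _ : Fintype (𝓞 K ⧸ v.asIdeal) := Fintype.ofFinite _
    have hcard : Fintype.card (𝓞 K ⧸ v.asIdeal) = p := by
      rw [← Nat.card_eq_fintype_card]
      exact hN
    have h1 := FiniteField.pow_card (Ideal.Quotient.mk v.asIdeal a)
    rw [hcard, ← map_pow, Ideal.Quotient.eq] at h1
    have h2 : v.valuation K (algebraMap (𝓞 K) K (a ^ p - a)) < 1 :=
      (v.valuation_lt_one_iff_mem (K := K) _).2 h1
    rwa [map_sub, map_pow] at h2
  obtain ⟨b, ⟨c, hc⟩, hbc⟩ := v.exists_primeCompl_mul_eq_of_integer t ht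
  have hc' : c ∉ v.asIdeal := hc
  have hbc' : t * algebraMap (𝓞 K) K c = algebraMap (𝓞 K) K b := hbc
  have hVc : v.valuation K (algebraMap (𝓞 K) K c) = 1 := v.valuation_eq_one_iff_notMem.mpr hc'
  have h3 : (t ^ p - t) * algebraMap (𝓞 K) K c ^ p =
      (algebraMap (𝓞 K) K b ^ p - algebraMap (𝓞 K) K b) -
      t * (algebraMap (𝓞 K) K c ^ p - algebraMap (𝓞 K) K c) := by
    rw [← hbc', mul_pow]
    ring
  have h4 := congrArg (v.valuation K) h3
  rw [map_mul, map_pow, hVc, one_pow, mul_one] at h4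
  rw [h4]
  refine lt_of_le_of_lt (Valuation.map_sub _ _ _) (max_lt (hint b) ?_)
  rw [map_mul]
  exact Rc_m ht (hint c)

private theorem Rc_sq' {v : HeightOneSpectrum (𝓞 K)} {x : K}
    {n d a : 𝓞 K} (hd : d ∉ v.asIdeal)
    (hnd : x * algebraMap (𝓞 K) K d = algebraMap (𝓞 K) K n) (ha : n * d - a ^ 2 ∈ v.asIdeal) :
    Sq (v.valuation K) x := by
  have hVd : v.valuation K (algebraMap (𝓞 K) K d) = 1 := v.valuation_eq_one_iff_notMem.mpr hd
  have hd0 : algebraMap (𝓞 K) K d ≠ 0 := by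
    intro h
    rw [h, map_zero] at hVd
    exact zero_ne_one hVd
  refine ⟨algebraMap (𝓞 K) K a / algebraMap (𝓞 K) K d, ?_⟩
  have h1 : x - (algebraMap (𝓞 K) K a / algebraMap (𝓞 K) K d) ^ 2 =
      algebraMap (𝓞 K) K (n * d - a ^ 2) * (algebraMap (𝓞 K) K d ^ 2)⁻¹ := by
    rw [map_sub, map_mul, map_pow, ← hnd]
    field_simp
  rw [h1, map_mul, map_inv₀, map_pow, hVd, one_pow, _root_.inv_one, mul_one]
  have h2 := (v.valuation_lt_one_iff_mem (K := K) (n * d - a ^ 2)).2 ha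
  exact h2

/-- Euler's criterion for the Legendre class. -/
private theorem Rc_K {p m : ℕ} (hp2 : p = 2 * m + 1)
    {v : HeightOneSpectrum (𝓞 K)} (hv : (p : 𝓞 K) ∈ v.asIdeal)
    (hN : Ideal.absNorm v.asIdeal = p) (hodd : OddP v) {y : K} (hy : v.valuation K y = 1) :
    v.valuation K (y ^ m - sg2 K (la v (sc y))) < 1 := by
  have hy0 : y ≠ 0 := by
    rintro rfl
    rw [map_zero] at hy
    exact zero_ne_one hy
  have hp0 : p ≠ 0 := by omega
  have hla : la v (sc y) = if Sq (v.valuation K) y then 0 else 1 := by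
    rw [H38T1.la_sc hodd hy0, lam_unit hy]
  have hF : ∀ t : K, v.valuation K t = 1 → v.valuation K (t ^ (2 * m) - 1) < 1 := by
    intro t ht
    have h1 := Rc_fermat hp0 hN ht.le
    have h2 : t ^ p - t = t * (t ^ (2 * m) - 1) := by
      rw [hp2, pow_succ]
      ring
    rw [h2, map_mul, ht, one_mul] at h1
    exact h1
  by_cases hs : Sq (v.valuation K) y
  · rw [hla, if_pos hs]
    unfold sg2
    rw [if_pos rfl]
    obtain ⟨t, ht⟩ := hs
    have ht2 : v.valuation K (t ^ 2) = 1 := by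
      have h1 : t ^ 2 = y - (y - t ^ 2) := by ring
      rw [h1, Valuation.map_sub_eq_of_lt_left, hy]
      rw [hy]
      exact ht
    have ht1 : v.valuation K t = 1 := by
      rw [map_pow] at ht2
      exact (pow_eq_one_iff_of_nonneg zero_le two_ne_zero).1 ht2
    have h2 := Rc_pow (v.valuation K) ht hy.le ht2.le m
    rw [← pow_mul] at h2
    exact Rc_lt _ h2 (hF t ht1)
  · rw [hla, if_neg hs]
    unfold sg2
    rw [if_neg one_ne_zero, sub_neg_eq_add]
    by_contra hcon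
    have h1 : v.valuation K (y ^ m - 1) < 1 := by
      have h2 := hF y hy
      have h3 : y ^ (2 * m) - 1 = (y ^ m - 1) * (y ^ m + 1) := by
        rw [two_mul, pow_add]
        ring
      rw [h3, map_mul] at h2
      have h4 : v.valuation K (y ^ m + 1) = 1 := by
        refine le_antisymm ((Valuation.map_add _ _ _).trans (max_le ?_ ?_)) (not_lt.1 hcon)
        · rw [map_pow, hy, one_pow]
        · rw [map_one]
      rwa [h4, mul_one] at h2
    obtain ⟨n, ⟨d, hd⟩, hnd⟩ := v.exists_primeCompl_mul_eq_of_integer y hy.le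
    have hd' : d ∉ v.asIdeal := hd
    have hnd' : y * algebraMap (𝓞 K) K d = algebraMap (𝓞 K) K n := hnd
    have hVd : v.valuation K (algebraMap (𝓞 K) K d) = 1 := v.valuation_eq_one_iff_notMem.mpr hd'
    have hyK : algebraMap (𝓞 K) K (n * d) = y * algebraMap (𝓞 K) K d ^ 2 := by
      rw [map_mul, ← hnd']
      ring
    have hyn : n * d ∉ v.asIdeal := by
      have h1 : v.valuation K (algebraMap (𝓞 K) K (n * d)) = 1 := by
        rw [hyK, map_mul, map_pow, hy, hVd, one_pow, mul_one]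
      exact v.valuation_eq_one_iff_notMem.mp h1
    have h5 : (n * d) ^ m - 1 ∈ v.asIdeal := by
      rw [← v.valuation_lt_one_iff_mem (K := K)]
      change v.valuation K (algebraMap (𝓞 K) K ((n * d) ^ m - 1)) < 1
      rw [map_sub, map_pow, map_one, hyK, mul_pow, ← pow_mul]
      have h6 := Rc_mul (v.valuation K) h1 (hF _ hVd) (by rw [map_one])
        (by rw [map_pow, hVd, one_pow])
      rwa [mul_one] at h6
    obtain ⟨a, ha⟩ := Rc_euler hp2 hv hN hyn h5
    exact hs (Rc_sq' hd' hnd' ha)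

private theorem Rc_img {α : Type} [Fintype α] (π : Equiv.Perm α) (x : α) :
    (Finset.univ.filter (fun y => π.SameCycle x y)) =
      (Finset.range (Function.minimalPeriod π x)).image (fun k => (π ^ k) x) ∧
    Set.InjOn (fun k => (π ^ k) x) (Finset.range (Function.minimalPeriod π x)) ∧
    0 < Function.minimalPeriod π x := by
  have hpos : 0 < Function.minimalPeriod π x := by
    apply Function.IsPeriodicPt.minimalPeriod_pos (n := orderOf π) (orderOf_pos π)
    change (π)^[orderOf π] x = x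
    rw [← Equiv.Perm.coe_pow, pow_orderOf_eq_one]
    rfl
  refine ⟨?_, ?_, hpos⟩
  · ext y
    rw [Finset.mem_filter, Finset.mem_image]
    constructor
    · rintro ⟨_, hy⟩
      obtain ⟨i, _, hi⟩ := hy.exists_pow_eq'
      refine ⟨i % Function.minimalPeriod π x, Finset.mem_range.2 (Nat.mod_lt _ hpos), ?_⟩
      rw [Equiv.Perm.coe_pow, Function.iterate_mod_minimalPeriod_eq, ← Equiv.Perm.coe_pow]
      exact hi
    · rintro ⟨k, _, rfl⟩
      refine ⟨Finset.mem_univ _, (k : ℤ), ?_⟩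
      rw [zpow_natCast]
  · intro a ha b hb hab
    rw [Finset.coe_range] at ha hb
    simp only [Equiv.Perm.coe_pow] at hab
    exact Function.iterate_injOn_Iio_minimalPeriod ha hb hab

theorem la_prod (hL : BigL K M) {q : ℕ} (hq : q.Prime) (h2 : q ≠ 2) (hu : UnM M q)
    (σ : K →ₐ[ℚ] M) {y : K} (hy : (pq K M q σ).valuation K y = 1) :
    (wq M q).valuation M (∏ τ ∈ Finset.univ.filter (fun τ : K →ₐ[ℚ] M => pq K M q τ = pq K M q σ),
      (τ y) ^ ((q - 1) / 2) - sg2 M (la (pq K M q σ) (sc y))) < 1 := by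
  obtain ⟨φ, hφ, hcyc, hin⟩ := pq_cyc (K := K) hL hq hu
  obtain ⟨v, hvd⟩ : ∃ v, v = pq K M q σ := ⟨_, rfl⟩
  obtain ⟨f, hfd⟩ : ∃ f, f = Function.minimalPeriod (actH K M φ) σ := ⟨_, rfl⟩
  obtain ⟨himg, hinj, hpos⟩ := Rc_img (actH K M φ) σ
  rw [← hfd] at himg hinj hpos
  have hrw : rp (wq M q) = q := rp_wq hq
  have hz : (wq M q).valuation M (σ y) = 1 := (pl_val σ).1.2 hy
  obtain ⟨hh, hhd⟩ : ∃ hh, hh = (q - 1) / 2 := ⟨_, rfl⟩
  have hqo : q = 2 * hh + 1 := by
    have := hq.odd_of_ne_two h2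
    obtain ⟨k, hk⟩ := this
    omega
  have hset : Finset.univ.filter (fun τ : K →ₐ[ℚ] M => pq K M q τ = pq K M q σ) =
      (Finset.range f).image (fun k => ((actH K M φ) ^ k) σ) := by
    rw [← himg]
    refine Finset.filter_congr fun τ _ => ?_
    rw [eq_comm, hcyc]
  have happ : ∀ k : ℕ, (((actH K M φ) ^ k) σ) y = (φ ^ k) (σ y) := by
    intro k
    rw [← map_pow, actH_apply]
  obtain ⟨m, hm⟩ : ∃ m, m = hh * ∑ k ∈ Finset.range f, q ^ k := ⟨_, rfl⟩
  have hQ : q ^ f = 2 * m + 1 := by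
    have h3 := Nat.geomSum_eq hq.two_le f
    have h5 : (q - 1) * ∑ k ∈ Finset.range f, q ^ k = q ^ f - 1 := by
      have := Nat.geomSum_eq hq.two_le f
      rw [this]
      exact Nat.mul_div_cancel' (by simpa using Nat.sub_dvd_pow_sub_pow q 1 f)
    have h6 : q - 1 = 2 * hh := by omega
    rw [h6, mul_assoc, ← hm] at h5
    have h7 : 0 < q ^ f := pow_pos hq.pos f
    omega
  have hprod : ∏ τ ∈ Finset.univ.filter (fun τ : K →ₐ[ℚ] M => pq K M q τ = pq K M q σ),
      (τ y) ^ ((q - 1) / 2) = ∏ k ∈ Finset.range f, ((φ ^ k) (σ y)) ^ hh := by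
    rw [hset, Finset.prod_image hinj, ← hhd]
    exact Finset.prod_congr rfl fun k _ => by rw [happ]
  rw [hprod]
  have hVz : ∀ k, (wq M q).valuation M ((σ y) ^ (rp (wq M q) ^ k)) ≤ 1 := fun k => by
    rw [map_pow, hz, one_pow]
  have hfb : ∀ k, (wq M q).valuation M ((φ ^ k) (σ y) - (σ y) ^ (rp (wq M q) ^ k)) < 1 :=
    fun k => Rc_fb hφ k hz.le
  have hVf : ∀ k, (wq M q).valuation M ((φ ^ k) (σ y)) ≤ 1 := fun k => by
    have h3 : (φ ^ k) (σ y) = ((φ ^ k) (σ y) - (σ y) ^ (rp (wq M q) ^ k)) +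
      (σ y) ^ (rp (wq M q) ^ k) := by ring
    rw [h3]
    exact (Valuation.map_add _ _ _).trans (max_le (hfb k).le (hVz k))
  have h3 : (wq M q).valuation M (∏ k ∈ Finset.range f, ((φ ^ k) (σ y)) ^ hh -
      ∏ k ∈ Finset.range f, ((σ y) ^ (rp (wq M q) ^ k)) ^ hh) < 1 := by
    refine Rc_prod _ _ _ _ (fun k => Rc_pow _ (hfb k) (hVf k) (hVz k) hh) (fun k => ?_) (fun k => ?_)
    · rw [map_pow]
      exact pow_le_one₀ zero_le (hVf k)
    · rw [map_pow]
      exact pow_le_one₀ zero_le (hVz k)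
  have h4 : ∏ k ∈ Finset.range f, ((σ y) ^ (rp (wq M q) ^ k)) ^ hh = (σ y) ^ m := by
    rw [Finset.prod_pow, Finset.prod_pow_eq_pow_sum, ← pow_mul, hrw, hm, mul_comm]
  rw [h4] at h3
  refine Rc_lt _ h3 ?_
  have hrv : rp v = q := by
    rw [hvd]
    exact rp_pq hq σ
  have hodd : OddP v := H38T1.oddP_iff.2 (by rw [hrv]; exact h2)
  have hN : Ideal.absNorm v.asIdeal = q ^ f := by
    rw [card_res, hrv, hvd, hin, ← hfd]
  have hvm : ((q ^ f : ℕ) : 𝓞 K) ∈ v.asIdeal := by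
    have h5 := H38T1.rp_mem v
    rw [hrv] at h5
    rw [Nat.cast_pow]
    exact Ideal.pow_mem_of_mem _ h5 f hpos
  have hyv : v.valuation K y = 1 := by
    rw [hvd]
    exact hy
  have h5 := Rc_K hQ hvm hN hodd hyv
  have h6 : (σ y) ^ m - sg2 M (la (pq K M q σ) (sc y)) = σ (y ^ m - sg2 K (la v (sc y))) := by
    rw [map_sub, map_pow, hvd]
    congr 1
    unfold sg2
    split_ifs
    · rw [map_one]
    · rw [map_neg, map_one]
  rw [h6]
  exact (pl_val σ).2.2 (by rw [hvd] at h5 ⊢; exact h5)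

end H88D8.SS
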