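import Pool.Agent.H88.SS.Df
import Pool.Agent.H88.D8.Ai
import Pool.Agent.H88.T8.Tq

/-!
ROW Ta (project MP_78d38b_T8, about 130 lines): totally split neutral primes with prescribed residues modulo the primes of `Q0`.

PROOF. `Ψ` from `sepF8 hD ε` (`Ai.lean`). `R` = the finite set consisting of `sc β`, `sc (1 - 64 β)`, `sc (-1)` and `sc q` for the primes `q` dividing
`β (1 - 64 β)` (`(β (1 - 64 β)).natAbs.primeFactors`; `β (1 - 64 β) ≠ 0` as it is squarefree). `hA.cR R Ψ`: infinitely many `l` with `Tot K l` and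
`la v (res K r) = Ψ r` for `r ∈ R` and `v` above `l`. Remove the finitely many `l` dividing `2 β (1 - 64 β)` (a nonzero integer has finitely many prime
divisors; `Set.Infinite.diff`, `.mono`; compare `ds_inf` in `H88/T7/Fi.lean`). For such `l` there is a place `v` of `K` above `l` (`ov K {l}` is nonempty: `tot_card` (`Aa.lean`) and
`Module.finrank_pos`, or `H38T1` lemmas), `rp v = l`, `inertiaDeg = 1` (odd), so `la_int7` (`H88/T7/Aa.lean`) with `res_int`: for an integer `m` prime to `l`: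
`Ψ (sc m) = 0 ↔ SqMod l m`. `m = β`, `1 - 64 β`: `Ψ = 1`: not squares. `m = -1`: `SqMod l (-1)`, so `l % 4 = 1` (`sq_neg8`, `Tq.lean`). `m = q ∈ Q0`: `q ≠ l` since `q` divides
`β (1 - 64 β)`, `q ≠ 2` (`hD.co`, `hD.two`): `rec8`: `SqMod q l ↔ SqMod l q ↔ Ψ (sc q) = 0 ↔ ε q = 0`.
-/

set_option autoImplicit false
set_option linter.unusedSectionVars false
open scoped Classical

open WithZero NumberField IsDedekindDomain H38RT H88T7 H88T8
open H38T1 (SC sc rep eo la si Pri tp OddP LD XX XX' NS ov rp SqMod)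

namespace H88D8.SS

variable {K : Type} [Field K] [NumberField K] {B : Finset ℕ} {QK : AddSubgroup (SC ℚ)}
  {E0 : Set (SC K)} {a β : ℤ} {Qa Qb : Finset ℕ}

private lemma Ta_mem {p : ℕ} (hpp : p.Prime) (v : HeightOneSpectrum (𝓞 K)) :
    v ∈ ov K {p} ↔ rp v = p := by
  rw [H38T1.mem_ov (by
    intro q hq
    rw [Set.mem_singleton_iff.1 hq]
    exact hpp), Set.mem_singleton_iff]

private lemma Ta_la {p : ℕ} (hn : Tot K p) {v : HeightOneSpectrum (𝓞 K)} (hv : v ∈ ov K {p})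
    {m : ℤ} (hm : ¬ (p : ℤ) ∣ m) : la v (res K (sc (m : ℚ))) = 0 ↔ SqMod p m := by
  have h1 : rp v = p := (Ta_mem hn.1 v).1 hv
  have hv' := (H38T1.mem_iff_eq hn.1).2 h1
  have hm0 : m ≠ 0 := by
    rintro rfl
    exact hm (dvd_zero _)
  have hodd : Odd (v.asIdeal.inertiaDeg ℤ) := by
    rw [(hn.2.2 v hv').2]
    exact odd_one
  have h2 := la_int7 (v := v) hodd (by rw [h1]; exact hn.2.1) (m := m)
    (by rw [h1]; exact hm)
  rw [res_int hm0, h2, h1]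

theorem exists_l8 (hD : Dat8 K B QK E0 a β Qa Qb) (hA : AdmW K QK E0) (ε : ℕ → ZMod 2) :
    {l : ℕ | Tot K l ∧ l % 4 = 1 ∧ ¬ (l : ℤ) ∣ 2 * (β * (a ^ 2 - 64 * β)) ∧ ¬ SqMod l β ∧
      ¬ SqMod l (a ^ 2 - 64 * β) ∧ ∀ q ∈ Q0 a β Qa Qb, (SqMod q (l : ℤ) ↔ ε q = 0)}.Infinite := by
  obtain ⟨Ψ, h0, h1, h2, h3, h4⟩ := sepF8 hD ε
  have hne : β * (a ^ 2 - 64 * β) ≠ 0 := hD.sqf.ne_zero
  have hne2 : 2 * (β * (a ^ 2 - 64 * β)) ≠ 0 := mul_ne_zero two_ne_zero hne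
  have hinf := hA.cR (insert (sc (β : ℚ)) (insert (sc ((a ^ 2 - 64 * β : ℤ) : ℚ)) (insert (sc (-1 : ℚ))
    ((β * (a ^ 2 - 64 * β)).natAbs.primeFactors.image (fun q : ℕ => sc (q : ℚ)))))) Ψ h0
  have hfin : {p : ℕ | (p : ℤ) ∣ 2 * (β * (a ^ 2 - 64 * β))}.Finite := by
    refine (Set.finite_Iic (2 * (β * (a ^ 2 - 64 * β))).natAbs).subset ?_
    intro p hp
    exact Nat.le_of_dvd (Int.natAbs_pos.2 hne2) (Int.natCast_dvd.1 hp)
  refine (hinf.diff hfin).mono ?_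
  rintro l ⟨⟨ht, hr⟩, hnd⟩
  have hnd' : ¬ (l : ℤ) ∣ 2 * (β * (a ^ 2 - 64 * β)) := hnd
  have hnd'' : ¬ (l : ℤ) ∣ β * (a ^ 2 - 64 * β) := fun h => hnd' (dvd_mul_of_dvd_right h _)
  have hb' : ¬ (l : ℤ) ∣ β := fun h => hnd'' (dvd_mul_of_dvd_left h _)
  have hd' : ¬ (l : ℤ) ∣ (a ^ 2 - 64 * β) := fun h => hnd'' (dvd_mul_of_dvd_right h _)
  have hm' : ¬ (l : ℤ) ∣ (-1 : ℤ) := by
    intro h
    exact (Nat.prime_iff_prime_int.1 ht.1).not_unit (isUnit_of_dvd_unit h (by decide))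
  obtain ⟨v, hv⟩ : (ov K {l}).Nonempty := by
    apply Set.nonempty_of_ncard_ne_zero
    rw [tot_card ht]
    exact Module.finrank_pos.ne'
  have hb := Ta_la ht hv hb'
  have hd := Ta_la ht hv hd'
  have hm := Ta_la ht hv hm'
  have e1 : (((-1 : ℤ) : ℤ) : ℚ) = (-1 : ℚ) := by norm_num
  rw [e1] at hm
  rw [hr _ (by simp) v hv, h1] at hb
  rw [hr _ (by simp) v hv, h2] at hd
  rw [hr _ (by simp) v hv, h3] at hm
  have hm2 : SqMod l (-1) := hm.1 rfl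
  have h41 : l % 4 = 1 := sq_neg8 ht.1 ht.2.1 hm2
  refine ⟨ht, h41, hnd', fun h => one_ne_zero (hb.2 h), fun h => one_ne_zero (hd.2 h), ?_⟩
  intro q hq
  have hqp : q.Prime ∧ (q : ℤ) ∣ β * (a ^ 2 - 64 * β) := hq.1
  have hq2 : q ≠ 2 := by
    rintro rfl
    exact hD.co 2 hqp.1 hqp.2 hD.two
  have hql : q ≠ l := by
    rintro rfl
    exact hnd'' hqp.2
  have hlq : ¬ (l : ℤ) ∣ (q : ℤ) := by
    intro h
    have h5 : l ∣ q := by exact_mod_cast h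
    exact hql ((Nat.prime_dvd_prime_iff_eq ht.1 hqp.1).1 h5).symm
  have h5 := Ta_la ht hv hlq
  have e2 : (((q : ℤ)) : ℚ) = (q : ℚ) := by push_cast; rfl
  rw [e2] at h5
  have hmem : q ∈ (β * (a ^ 2 - 64 * β)).natAbs.primeFactors := by
    rw [Nat.mem_primeFactors]
    exact ⟨hqp.1, Int.natCast_dvd.1 hqp.2, Int.natAbs_ne_zero.2 hne⟩
  rw [hr _ (by
    rw [Finset.mem_insert, Finset.mem_insert, Finset.mem_insert]
    exact Or.inr (Or.inr (Or.inr (Finset.mem_image_of_mem _ hmem)))) v hv, h4 q hq] at h5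
  rw [rec8 hqp.1 ht.1 hq2 h41 hql, ← h5]

end H88D8.SS
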