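import Pool.Agent.H88.SS.Ta

/-!
ROW Tb (project MP_78d38b_T8, about 180 lines): the twisting integer.

PROOF. `D = 1 - 64 β`. Let `Q` be the finite set of the primes of `Q0` (`(β * D).natAbs.primeFactors.filter (· ∉ Qa ∪ Qb)`) and
`P₀ = ∏ q ∈ Q, q * ∏ p ∈ Pp ∪ Pp', p`: a product of different odd primes (`hD.co` and `hD.two`: the primes of `Q` are not two; `hS.ndvd`: those of `Pp ∪ Pp'` are odd and do not
divide `β D`). Let `n₀ = P₀` or `- P₀` with `n₀ % 4 = 1`. For `q ∈ Q` let `u q = n₀ / q`, prime to `q` (`P₀` is squarefree), and `m q = -(u q * (β / q))` if `q ∣ β`,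
`m q = 2 * u q * (D / q)` if `q ∣ D` (`q` divides exactly one of the two, and exactly once: `hD.sqf`; `IsCoprime β D`), prime to `q`. `ε q = 0` if `SqMod q (m q)` and `ε q = 1` otherwise.
`exists_l8 hD hA ε`: choose `l` in the infinite set not dividing `n₀` (finitely many exceptions: `l > |n₀|`). `n = n₀ * l`. `sq_mul8` (`Tq.lean`): `SqMod q (m q * l)` since
`SqMod q l ↔ ε q = 0 ↔ SqMod q (m q)`.
Fields of `Tw8`: sqf: `n₀` squarefree (product of distinct primes: `Finset.squarefree_prod_of_pairwise_isCoprime` or see `tw7_mul`/`exists_n7` in `H88/T7/Fi.lean`), `l` prime not dividing it.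
n4: `n₀ % 4 = 1`, `l % 4 = 1`. pre: the primes dividing `n` are in `Q`, in `Pp ∪ Pp'` (`hS.ndvd` against `hD.pa`, `hD.pb`) or `l` (does not divide `β D`). mem. zb, zd: `u = u q * l`,
`b' = β / q`, `d' = D / q`. neu: a prime `p ∣ n` with `p ∤ β D` is in `Pp ∪ Pp'` (`hS.tot`, `tot_nice`) or `p = l`.
-/

/-!
ROW Tb (project MP_78d38b_T8, about 180 lines): the twisting integer.

PROOF. `D = 1 - 64 β`. Let `Q` be the finite set of the primes of `Q0` (`(β * D).natAbs.primeFactors.filter (· ∉ Qa ∪ Qb)`) and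
`P₀ = ∏ q ∈ Q, q * ∏ p ∈ Pp ∪ Pp', p`: a product of different odd primes (`hD.co` and `hD.two`: the primes of `Q` are not two; `hS.ndvd`: those of `Pp ∪ Pp'` are odd and do not
divide `β D`). Let `n₀ = P₀` or `- P₀` with `n₀ % 4 = 1`. For `q ∈ Q` let `u q = n₀ / q`, prime to `q` (`P₀` is squarefree), and `m q = -(u q * (β / q))` if `q ∣ β`,
`m q = 2 * u q * (D / q)` if `q ∣ D` (`q` divides exactly one of the two, and exactly once: `hD.sqf`; `IsCoprime β D`), prime to `q`. `ε q = 0` if `SqMod q (m q)` and `ε q = 1` otherwise.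
`exists_l8 hD hA ε`: choose `l` in the infinite set not dividing `n₀` (finitely many exceptions: `l > |n₀|`). `n = n₀ * l`. `sq_mul8` (`Tq.lean`): `SqMod q (m q * l)` since
`SqMod q l ↔ ε q = 0 ↔ SqMod q (m q)`.
-/

set_option autoImplicit false
set_option linter.unusedSectionVars false
open scoped Classical

open WithZero NumberField IsDedekindDomain H38RT H88T7 H88T8
open H38T1 (SC sc rep eo la si Pri tp OddP LD XX XX' NS ov rp SqMod)

namespace H88D8.SS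

variable {K : Type} [Field K] [NumberField K] {B : Finset ℕ} {QK : AddSubgroup (SC ℚ)}
  {E0 : Set (SC K)} {a β : ℤ} {Qa Qb Pp Pp' : Finset ℕ}

theorem Tb_prod {W : Finset ℕ} (hW : ∀ q ∈ W, q.Prime ∧ q ≠ 2) :
    ∃ n : ℤ, n.natAbs = ∏ p ∈ W, p ∧ n % 4 = 1 := by
  have h2 : ¬ 2 ∣ ∏ p ∈ W, p := by
    rw [Prime.dvd_finsetProd_iff Nat.prime_two.prime]
    rintro ⟨q, hq, h⟩
    exact (hW q hq).2 ((Nat.prime_dvd_prime_iff_eq Nat.prime_two (hW q hq).1).1 h).symm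
  rcases (show (∏ p ∈ W, p) % 4 = 1 ∨ (∏ p ∈ W, p) % 4 = 3 by omega) with h | h
  · exact ⟨((∏ p ∈ W, p : ℕ) : ℤ), Int.natAbs_natCast _, by omega⟩
  · exact ⟨-((∏ p ∈ W, p : ℕ) : ℤ), by rw [Int.natAbs_neg, Int.natAbs_natCast], by omega⟩

theorem Tb_dvd {W : Finset ℕ} (hW : ∀ q ∈ W, q.Prime ∧ q ≠ 2) {n : ℤ}
    (hn : n.natAbs = ∏ p ∈ W, p) {p : ℕ} (hp : p.Prime) : (p : ℤ) ∣ n ↔ p ∈ W := by
  rw [Int.natCast_dvd, hn]
  constructor
  · intro h
    rw [Prime.dvd_finsetProd_iff hp.prime] at h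
    obtain ⟨q, hq, h⟩ := h
    rw [(Nat.prime_dvd_prime_iff_eq hp (hW q hq).1).1 h]
    exact hq
  · intro h
    exact Finset.dvd_prod_of_mem _ h

theorem Tb_sqf {W : Finset ℕ} (hW : ∀ q ∈ W, q.Prime ∧ q ≠ 2) {n : ℤ}
    (hn : n.natAbs = ∏ p ∈ W, p) : Squarefree n := by
  rw [← Int.squarefree_natAbs, hn]
  refine Finset.squarefree_prod_of_pairwise_isCoprime (fun p hp q hq hpq => ?_)
    fun p hp => (hW p hp).1.squarefree
  change IsRelPrime p q
  rw [← Nat.coprime_iff_isRelPrime]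
  exact (Nat.coprime_primes (hW p hp).1 (hW q hq).1).mpr hpq

theorem Tb_once {m : ℤ} (hs : Squarefree m) {q : ℕ} (hq : q.Prime) {u : ℤ} (h : m = q * u) :
    ¬ (q : ℤ) ∣ u := by
  rintro ⟨w, rfl⟩
  refine (Nat.prime_iff_prime_int.1 hq).not_isUnit (hs _ ⟨w, ?_⟩)
  rw [h]
  ring

theorem exists_n8 (hD : Dat8 K B QK E0 a β Qa Qb) (hA : AdmW K QK E0) (hS : St8 K B a β Pp Pp') :
    ∃ n : ℤ, Tw8 K B a β Qa Qb Pp Pp' n := by
  have hN0 : β * (a ^ 2 - 64 * β) ≠ 0 := hD.sqf.ne_zero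
  obtain ⟨W, hWdef⟩ : ∃ W : Finset ℕ, W =
      (β * (a ^ 2 - 64 * β)).natAbs.primeFactors.filter (fun q => q ∉ Qa ∧ q ∉ Qb) ∪ (Pp ∪ Pp') :=
    ⟨_, rfl⟩
  have hWm : ∀ q, q ∈ W ↔ q ∈ Q0 a β Qa Qb ∨ q ∈ Pp ∪ Pp' := by
    intro q
    rw [hWdef, Finset.mem_union, Finset.mem_filter, Nat.mem_primeFactors]
    refine or_congr ?_ Iff.rfl
    constructor
    · rintro ⟨⟨h1, h2, -⟩, h3, h4⟩
      exact ⟨⟨h1, Int.natCast_dvd.2 h2⟩, h3, h4⟩
    · rintro ⟨⟨h1, h2⟩, h3, h4⟩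
      exact ⟨⟨h1, Int.natCast_dvd.1 h2, Int.natAbs_ne_zero.2 hN0⟩, h3, h4⟩
  have hq2 : ∀ q ∈ Q0 a β Qa Qb, q.Prime ∧ q ≠ 2 := by
    rintro q ⟨⟨h1, h2⟩, -, -⟩
    refine ⟨h1, ?_⟩
    rintro rfl
    exact hD.co 2 h1 h2 hD.two
  have hW : ∀ q ∈ W, q.Prime ∧ q ≠ 2 := by
    intro q hq
    rcases (hWm q).1 hq with h | h
    · exact hq2 q h
    · exact ⟨(hS.tot q h).1, (hS.tot q h).2.1⟩
  obtain ⟨n₀, hn₀, hn4⟩ := Tb_prod hW
  have hn0 : n₀ ≠ 0 := by
    rintro rfl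
    norm_num at hn4
  have hsq : Squarefree n₀ := Tb_sqf hW hn₀
  obtain ⟨m, hm⟩ : ∃ m : ℕ → ℤ, ∀ q, m q = if (q : ℤ) ∣ β then -(a * (n₀ / q) * (β / q)) else
    2 * a * (n₀ / q) * ((a ^ 2 - 64 * β) / q) := ⟨_, fun _ => rfl⟩
  obtain ⟨l, hl, hlt⟩ := (exists_l8 hD hA (fun q => if SqMod q (m q) then 0 else 1)).exists_gt
    n₀.natAbs
  obtain ⟨hlT, hl4, hlnd, hlb, hld, hlq⟩ := hl
  have hlp : l.Prime := hlT.1
  have hln : ¬ (l : ℤ) ∣ n₀ := by
    intro h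
    have h1 := Nat.le_of_dvd (Int.natAbs_pos.2 hn0) (Int.natCast_dvd.1 h)
    omega
  have hql : ∀ q ∈ Q0 a β Qa Qb, ¬ (q : ℤ) ∣ (l : ℤ) := by
    intro q hq h
    have h1 := (Nat.prime_dvd_prime_iff_eq (hq2 q hq).1 hlp).1 (Int.natCast_dvd_natCast.1 h)
    rw [← h1] at hlnd
    exact hlnd (hq.1.2.mul_left _)
  have hcase : ∀ p : ℕ, p.Prime → (p : ℤ) ∣ n₀ * l → (p ∈ Q0 a β Qa Qb ∨ p ∈ Pp ∪ Pp') ∨ p = l := by
    intro p hp h
    rcases (Nat.prime_iff_prime_int.1 hp).dvd_or_dvd h with h | h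
    · exact Or.inl ((hWm p).1 ((Tb_dvd hW hn₀ hp).1 h))
    · exact Or.inr ((Nat.prime_dvd_prime_iff_eq hp hlp).1 (Int.natCast_dvd_natCast.1 h))
  have key : ∀ q ∈ Q0 a β Qa Qb, ¬ (q : ℤ) ∣ m q → SqMod q (m q * l) := by
    intro q hq hmq
    refine sq_mul8 (hq2 q hq).1 (hq2 q hq).2 hmq (hql q hq) ?_
    rw [hlq q hq]
    by_cases h : SqMod q (m q)
    · simp [h]
    · simp [h]
  have hqn : ∀ q ∈ Q0 a β Qa Qb, n₀ = q * (n₀ / q) := by
    intro q hq
    have h1 : (q : ℤ) ∣ n₀ := (Tb_dvd hW hn₀ (hq2 q hq).1).2 ((hWm q).2 (Or.inl hq))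
    exact (Int.mul_ediv_cancel' h1).symm
  have hcop : ∀ q : ℕ, q.Prime → (q : ℤ) ∣ β → (q : ℤ) ∣ a ^ 2 - 64 * β → False :=
    fun q hq h1 h2 => Ah8_cop hD.cop hq h1 h2
  have hqa : ∀ q ∈ Q0 a β Qa Qb, ¬ (q : ℤ) ∣ a := by
    intro q hq h
    have hqp := Nat.prime_iff_prime_int.1 (hq2 q hq).1
    have h3 : (q : ℤ) ∣ β := by
      rcases hqp.dvd_or_dvd hq.1.2 with h4 | h4
      · exact h4
      · have h5 : (q : ℤ) ∣ 64 * β := by
          have h7 := dvd_sub (h.mul_right a) h4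
          rwa [show a * a - (a ^ 2 - 64 * β) = 64 * β by ring] at h7
        rcases hqp.dvd_or_dvd h5 with h6 | h6
        · exfalso
          have h8 : q ∣ 2 ^ 6 := by exact_mod_cast h6
          exact (hq2 q hq).2 ((Nat.prime_dvd_prime_iff_eq (hq2 q hq).1 Nat.prime_two).1
            ((hq2 q hq).1.dvd_of_dvd_pow h8))
        · exact h6
    exact hqp.not_isUnit (hD.cop.isUnit_of_dvd' h h3)
  refine ⟨n₀ * l, ?_, ?_, ?_, ?_, ?_, ?_, ?_⟩
  · rw [← Int.squarefree_natAbs, Int.natAbs_mul, Int.natAbs_natCast]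
    have h1 : Nat.Coprime n₀.natAbs l :=
      ((hlp.coprime_iff_not_dvd).2 fun h => hln (Int.natCast_dvd.2 h)).symm
    rw [Nat.squarefree_mul h1]
    exact ⟨Int.squarefree_natAbs.2 hsq, hlp.squarefree⟩
  · have h1 : ((l : ℤ)) % 4 = 1 := by omega
    rw [Int.mul_emod, hn4, h1]
    norm_num
  · intro q hq h
    have hqp : q.Prime ∧ (q : ℤ) ∣ β * (a ^ 2 - 64 * β) := by
      rcases Finset.mem_union.1 hq with h1 | h1
      · exact ⟨(hD.pa q h1).1, (hD.pa q h1).2.mul_left _⟩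
      · exact ⟨(hD.pb q h1).1, (hD.pb q h1).2.mul_right _⟩
    rcases hcase q hqp.1 h with (h1 | h1) | h1
    · rcases Finset.mem_union.1 hq with h2 | h2
      · exact h1.2.1 h2
      · exact h1.2.2 h2
    · exact hS.ndvd q h1 (hqp.2.mul_left _)
    · rw [← h1] at hlnd
      exact hlnd (hqp.2.mul_left _)
  · intro p hp
    exact ((Tb_dvd hW hn₀ (hS.tot p hp).1).2 ((hWm p).2 (Or.inr hp))).mul_right _
  · intro q hq hqb
    have hqp := Nat.prime_iff_prime_int.1 (hq2 q hq).1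
    have hmq : m q = -(a * (n₀ / q) * (β / q)) := by rw [hm, if_pos hqb]
    have hb : β = q * (β / q) := (Int.mul_ediv_cancel' hqb).symm
    have h1 : ¬ (q : ℤ) ∣ n₀ / q := Tb_once hsq (hq2 q hq).1 (hqn q hq)
    have h2 : ¬ (q : ℤ) ∣ β / q :=
      Tb_once (hD.sqf.squarefree_of_dvd (dvd_mul_right _ _)) (hq2 q hq).1 hb
    have h3 := key q hq (by
      rw [hmq, dvd_neg]
      intro h
      rcases hqp.dvd_or_dvd h with h | h
      · rcases hqp.dvd_or_dvd h with h | h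
        · exact hqa q hq h
        · exact h1 h
      · exact h2 h)
    refine ⟨n₀ / q * l, β / q, ?_, hb, ?_, ?_⟩
    · rw [← mul_assoc, ← hqn q hq]
    · intro h
      rcases hqp.dvd_or_dvd h with h | h
      · rcases hqp.dvd_or_dvd h with h | h
        · exact h1 h
        · exact hql q hq h
      · exact h2 h
    · have e : -(a * (n₀ / q * l) * (β / q)) = m q * l := by
        rw [hmq]
        ring
      rw [e]
      exact h3
  · intro q hq hqd
    have hqp := Nat.prime_iff_prime_int.1 (hq2 q hq).1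
    have hqb : ¬ (q : ℤ) ∣ β := fun h => hcop q (hq2 q hq).1 h hqd
    have hmq : m q = 2 * a * (n₀ / q) * ((a ^ 2 - 64 * β) / q) := by rw [hm, if_neg hqb]
    have hb : a ^ 2 - 64 * β = q * ((a ^ 2 - 64 * β) / q) := (Int.mul_ediv_cancel' hqd).symm
    have h1 : ¬ (q : ℤ) ∣ n₀ / q := Tb_once hsq (hq2 q hq).1 (hqn q hq)
    have h2 : ¬ (q : ℤ) ∣ (a ^ 2 - 64 * β) / q :=
      Tb_once (hD.sqf.squarefree_of_dvd (dvd_mul_left _ _)) (hq2 q hq).1 hb
    have h22 : ¬ (q : ℤ) ∣ 2 := by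
      intro h
      have h5 : q ∣ 2 := by exact_mod_cast h
      exact (hq2 q hq).2 ((Nat.prime_dvd_prime_iff_eq (hq2 q hq).1 Nat.prime_two).1 h5)
    have h3 := key q hq (by
      rw [hmq]
      intro h
      rcases hqp.dvd_or_dvd h with h | h
      · rcases hqp.dvd_or_dvd h with h | h
        · rcases hqp.dvd_or_dvd h with h | h
          · exact h22 h
          · exact hqa q hq h
        · exact h1 h
      · exact h2 h)
    refine ⟨n₀ / q * l, (a ^ 2 - 64 * β) / q, ?_, hb, ?_, ?_⟩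
    · rw [← mul_assoc, ← hqn q hq]
    · intro h
      rcases hqp.dvd_or_dvd h with h | h
      · rcases hqp.dvd_or_dvd h with h | h
        · exact h1 h
        · exact hql q hq h
      · exact h2 h
    · have e : 2 * a * (n₀ / q * l) * ((a ^ 2 - 64 * β) / q) = m q * l := by
        rw [hmq]
        ring
      rw [e]
      exact h3
  · intro p hp h hnd
    rcases hcase p hp h with (h1 | h1) | h1
    · exact absurd h1.1.2 hnd
    · refine ⟨tot_nice (hS.tot p h1), fun h2 h3 => ?_⟩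
      rcases Finset.mem_union.1 h1 with h4 | h4
      · exact absurd h4 h2
      · exact absurd h4 h3
    · rw [h1]
      exact ⟨tot_nice hlT, fun _ _ => ⟨hlb, hld⟩⟩

end H88D8.SS
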