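import Pool.Agent.H88.SS.Xt

/-!
ROW Xb (project MP_78d38b_SS, about 150 lines; pure linear algebra): the operators commuting with a transitive commuting family; the projection onto a stable subspace.

PROOF. TA_comm: `Submodule.span_induction` for `T` and then for `T'` (predicate `T * T' = T' * T`; `add_mul`, `mul_add`, `smul_mul_assoc`, `mul_smul_comm`); for `T = trs H a`, `T' = trs H b`: `(T * T') u s = T (T' u) s = u (b • a • s)` and `(T' * T) u s = u (a • b • s)`, equal by `hA.comm`.
mem_TA: let `T` commute with all `trs H a`, `a ∈ A`. If `H` is empty, `T = 0` (`Subsingleton`). Let `s₀ : H`, `δ x = Pi.single x 1`. For every `x` choose `a x ∈ A` with `a x • x = s₀`; then `trs H (a x) (δ s₀) = δ x` (value at `s`: `δ s₀ (a x • s) = 1` iff `a x • s = s₀ = a x • x` iff `s = x`, `MulAction.injective`/`smul_left_cancel`). Let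
`T' = ∑ x, (T (δ s₀)) x • trs H (a x) ∈ TA H A` (`Submodule.sum_mem`, `Submodule.smul_mem`, `Submodule.subset_span`). `T' (δ s₀) = ∑ x, (T (δ s₀)) x • δ x = T (δ s₀)` (`pi_eq_sum_univ` or `funext`, `Finset.sum_apply`, `Pi.single_apply`, `Finset.sum_ite_eq`). `T` and `T'` commute with `trs H a` (for `T'` by TA_comm, `trs H a ∈ TA H A`), so
`T (δ x) = T (trs H (a x) (δ s₀)) = trs H (a x) (T (δ s₀)) = T' (δ x)`; they agree on the basis: `LinearMap.pi_ext'` or `(Pi.basisFun (ZMod 2) H).ext`.
exists_proj: if `H` is empty: `V` is trivial, `T = 0`. Otherwise let `s₀ : H`, choose for every `x : H` an element `b x ∈ A` with `b x • s₀ = x`. Let `U'` be a complement of `U` (`Submodule.exists_isCompl`) and `π : V →ₗ V` the projection: `π u ∈ U` for all `u`, `π u = u` for `u ∈ U` (`U.subtype ∘ₗ Submodule.linearProjOfIsCompl U U' h`, `Submodule.linearProjOfIsCompl_apply_left`; the name may be `Submodule.projectionOnto`). Let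
`T = ∑ x, (trs H (b x)) ∘ₗ π ∘ₗ (trs H (b x)⁻¹)`. `T u ∈ U` since `U` is stable under `A`. For `u ∈ U`: `trs H (b x)⁻¹ u ∈ U`, so each term is `trs H (b x) (trs H (b x)⁻¹ u) = u` (`trs_inv'`) and `T u = card H • u = u` (odd, `ZMod 2`: `(n : ZMod 2) = 1` for odd `n`). `T` commutes with `trs H a`, `a ∈ A`: `trs H a ∘ trs H (b x) = trs H (b x * a)` (`trs_mul`), and `b x * a` and `b y`
act in the same way where `y = (b x * a) • s₀` (both are in `A`, map `s₀` to `y`; two elements `c, c'` of `A` with `c • s₀ = c' • s₀` act in the same way: every `s` is `d • s₀` with `d ∈ A`, `c • s = c • d • s₀ = d • c • s₀ = d • c' • s₀ = c' • s`), so `trs H (b x * a) = trs H (b y)`. The map `x ↦ y = b x • a • s₀ = a • b x • s₀ = a • x` is the bijection `MulAction.toPerm a`. And `trs H (b y)⁻¹ = trs H (b x * a)⁻¹`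
(inverse elements act in the same way), `trs H (b y)⁻¹ u = trs H (a⁻¹ * (b x)⁻¹) u = trs H (b x)⁻¹ (trs H a⁻¹ u)`. So `trs H a (T u) = ∑ x, trs H (b x * a) (π (trs H (b x)⁻¹ u)) = ∑ x, trs H (b (a • x)) (π (trs H (b (a • x))⁻¹ (trs H a u)))` (as `trs H (b y)⁻¹ (trs H a u) = trs H (b x)⁻¹ (trs H a⁻¹ (trs H a u)) = trs H (b x)⁻¹ u`) `= T (trs H a u)` (`Fintype.sum_equiv`/`Equiv.sum_comp`). Now mem_TA.
-/

set_option autoImplicit false
set_option linter.unusedSectionVars false
open scoped Classical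

open H90T8

namespace H88D8.SS

variable {G H : Type*} [Group G] [MulAction G H] [Finite H]

theorem TA_comm {A : Subgroup G} (hA : AbTr H A) {T T' : Module.End (ZMod 2) (H → ZMod 2)}
    (hT : T ∈ TA H A) (hT' : T' ∈ TA H A) : T * T' = T' * T := by
  unfold TA at hT hT'
  induction hT using Submodule.span_induction with
  | mem T h =>
    obtain ⟨a, ha, rfl⟩ := h
    induction hT' using Submodule.span_induction with
    | mem T' h' =>
      obtain ⟨b, hb, rfl⟩ := h'
      apply LinearMap.ext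
      intro u
      funext s
      change trs H a (trs H b u) s = trs H b (trs H a u) s
      rw [trs_apply, trs_apply, trs_apply, trs_apply, hA.comm b hb a ha]
    | zero => rw [mul_zero, zero_mul]
    | add x y _ _ hx hy => rw [mul_add, add_mul, hx, hy]
    | smul c x _ hx => rw [mul_smul_comm, smul_mul_assoc, hx]
  | zero => rw [mul_zero, zero_mul]
  | add x y _ _ hx hy => rw [mul_add, add_mul, hx, hy]
  | smul c x _ hx => rw [mul_smul_comm, smul_mul_assoc, hx]

theorem mem_TA {A : Subgroup G} (hA : AbTr H A) {T : Module.End (ZMod 2) (H → ZMod 2)}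
    (hT : ∀ a ∈ A, ∀ u, T (trs H a u) = trs H a (T u)) : T ∈ TA H A := by
  have := Fintype.ofFinite H
  rcases isEmpty_or_nonempty H with he | hne
  · have h0 : T = 0 := by
      apply LinearMap.ext
      intro u
      funext s
      exact he.elim s
    rw [h0]
    exact Submodule.zero_mem _
  · obtain ⟨s₀⟩ := hne
    choose a haA ha using fun x : H => hA.trans x s₀
    have h1 : ∀ x, trs H (a x) (Pi.single s₀ (1 : ZMod 2)) = Pi.single x 1 := by
      intro x
      funext s
      rw [trs_apply]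
      by_cases h : s = x
      · subst h
        rw [ha, Pi.single_eq_same, Pi.single_eq_same]
      · rw [Pi.single_eq_of_ne h, Pi.single_eq_of_ne]
        intro h2
        apply h
        apply smul_left_cancel (a x)
        rw [h2, ha]
    have hm : (∑ x, (T (Pi.single s₀ (1 : ZMod 2))) x • trs H (a x)) ∈ TA H A :=
      Submodule.sum_mem _ fun x _ => Submodule.smul_mem _ _ (Submodule.subset_span ⟨a x, haA x, rfl⟩)
    generalize hT' : (∑ x, (T (Pi.single s₀ (1 : ZMod 2))) x • trs H (a x)) = T' at hm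
    have h2 : T' (Pi.single s₀ (1 : ZMod 2)) = T (Pi.single s₀ (1 : ZMod 2)) := by
      rw [← hT', LinearMap.sum_apply]
      funext s
      rw [Finset.sum_apply, Finset.sum_eq_single s]
      · rw [LinearMap.smul_apply, h1, Pi.smul_apply, Pi.single_eq_same, smul_eq_mul, mul_one]
      · intro x _ hx
        rw [LinearMap.smul_apply, h1, Pi.smul_apply, Pi.single_eq_of_ne (Ne.symm hx), smul_zero]
      · intro h
        exact absurd (Finset.mem_univ s) h
    have h3 : T = T' := by
      apply (Pi.basisFun (ZMod 2) H).ext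
      intro x
      rw [Pi.basisFun_apply, ← h1 x, hT (a x) (haA x), ← h2]
      have h4 := TA_comm hA hm (Submodule.subset_span ⟨a x, haA x, rfl⟩ : trs H (a x) ∈ TA H A)
      have h5 := LinearMap.congr_fun h4 (Pi.single s₀ (1 : ZMod 2))
      exact h5.symm
    rw [h3]
    exact hm

private theorem Xb_same {A : Subgroup G} (hA : AbTr H A) (s₀ : H) {c c' : G} (hc : c ∈ A) (hc' : c' ∈ A)
    (h : c • s₀ = c' • s₀) (s : H) : c • s = c' • s := by
  obtain ⟨d, hd, hds⟩ := hA.trans s₀ s
  rw [← hds, hA.comm c hc d hd, h, hA.comm d hd c' hc']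

private theorem Xb_trs {c c' : G} (h : ∀ s : H, c • s = c' • s) (u : H → ZMod 2) : trs H c u = trs H c' u := by
  funext s
  rw [trs_apply, trs_apply, h]

private theorem Xb_inv {c c' : G} (h : ∀ s : H, c • s = c' • s) (s : H) : c⁻¹ • s = c'⁻¹ • s := by
  rw [eq_inv_smul_iff, ← h, smul_inv_smul]

theorem exists_proj (hodd : Odd (Nat.card H)) {A : Subgroup G} (hA : AbTr H A)
    {U : Submodule (ZMod 2) (H → ZMod 2)} (hU : ∀ a ∈ A, ∀ u ∈ U, trs H a u ∈ U) :
    ∃ T ∈ TA H A, (∀ u, T u ∈ U) ∧ ∀ u ∈ U, T u = u := by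
  have := Fintype.ofFinite H
  have hcard : ((Fintype.card H : ℕ) : ZMod 2) = 1 := by
    rw [Nat.card_eq_fintype_card] at hodd
    obtain ⟨k, hk⟩ := hodd
    rw [hk]
    push_cast
    have h2 : (2 : ZMod 2) = 0 := by decide
    rw [h2, zero_mul, zero_add]
  rcases isEmpty_or_nonempty H with he | hne
  · exfalso
    rw [Nat.card_of_isEmpty] at hodd
    exact absurd hodd (by decide)
  obtain ⟨s₀⟩ := hne
  choose b hbA hb using fun x : H => hA.trans s₀ x
  obtain ⟨g, hg⟩ := LinearMap.exists_leftInverse_of_injective U.subtype (Submodule.ker_subtype U)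
  have hπ1 : ∀ u, (U.subtype ∘ₗ g) u ∈ U := fun u => (g u).2
  have hπ2 : ∀ u ∈ U, (U.subtype ∘ₗ g) u = u := by
    intro u hu
    have h := LinearMap.congr_fun hg ⟨u, hu⟩
    change ((g u : U) : H → ZMod 2) = u
    have h' : g u = ⟨u, hu⟩ := h
    rw [h']
  generalize hπ : U.subtype ∘ₗ g = π at hπ1 hπ2
  refine ⟨∑ x, (trs H (b x)) ∘ₗ π ∘ₗ (trs H (b x)⁻¹), ?_, ?_, ?_⟩
  · apply mem_TA hA
    intro a ha u
    rw [LinearMap.sum_apply, LinearMap.sum_apply, map_sum]
    symm
    apply Fintype.sum_equiv (MulAction.toPerm a)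
    intro x
    have hab : ∀ s : H, (b x * a) • s = b (a • x) • s := by
      apply Xb_same hA s₀ (A.mul_mem (hbA x) ha) (hbA _)
      rw [hb, mul_smul, hA.comm _ (hbA x) a ha, hb]
    change trs H a (trs H (b x) (π (trs H (b x)⁻¹ u))) =
      trs H (b (a • x)) (π (trs H (b (a • x))⁻¹ (trs H a u)))
    rw [← trs_mul, Xb_trs hab, ← Xb_trs (Xb_inv hab), mul_inv_rev, trs_mul, trs_inv]
  · intro u
    rw [LinearMap.sum_apply]
    exact Submodule.sum_mem _ fun x _ => hU _ (hbA x) _ (hπ1 _)
  · intro u hu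
    rw [LinearMap.sum_apply]
    have h1 : ∀ x, ((trs H (b x)) ∘ₗ π ∘ₗ (trs H (b x)⁻¹)) u = u := by
      intro x
      change trs H (b x) (π (trs H (b x)⁻¹ u)) = u
      rw [hπ2 _ (hU _ (A.inv_mem (hbA x)) _ hu), trs_inv']
    rw [Finset.sum_congr rfl fun x _ => h1 x, Finset.sum_const, Finset.card_univ,
      ← Nat.cast_smul_eq_nsmul (ZMod 2), hcard, one_smul]

end H88D8.SS
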