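import Pool.Agent.H88.SS.Xb

/-!
ROW Xd (project MP_78d38b_SS, about 100 lines; pure linear algebra): a commuting transitive subgroup in which the inverse is the power with exponent `2 ^ k`.

PROOF. `V = (H → ZMod 2)`, `B u v = ∑ s, u s * v s` (`Fintype` from `Fintype.ofFinite H`). (1) For `T ∈ TA H A`: `∀ u v, B ((T ^ (2 ^ k)) u) v = B u (T v)`. Prove by `Submodule.span_induction` (the predicate together with `T ∈ TA H A`, given by the dependent form): for `T = trs H a`: `T ^ n = trs H (a ^ n)` (induction with `trs_mul`), `trs H (a ^ (2 ^ k)) = trs H a⁻¹` (`hk`), and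
`B (trs H a⁻¹ u) v = ∑ s, u (a⁻¹ • s) * v s = ∑ s, u s * v (a • s) = B u (trs H a v)` (`Fintype.sum_equiv (MulAction.toPerm a⁻¹)`). Zero: `0 ^ (2 ^ k) = 0`. Sum: `T, T'` commute (TA_comm, row Xb), the ring `Module.End (ZMod 2) V` has characteristic two (`CharP _ 2`: `Module.End` is a `ZMod 2`-algebra, `charP_of_injective_algebraMap`; or prove `(T + T') ^ (2 ^ k) = T ^ (2 ^ k) + T' ^ (2 ^ k)` by induction on `k` from `(T + T') ^ 2 = T ^ 2 + T * T' + T' * T + T' ^ 2` and `x + x = 0`, `CharTwo`-free: `x + x = (2 : ZMod 2) • x = 0`; note `T ^ (2 ^ k)` and `T' ^ (2 ^ k)` commute: `Commute.pow_pow`). Scalars: `c = 0` or `c = 1`.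
(2) Let `U` be stable, `T` from `exists_proj`; `T * T = T` (`T u ∈ U`), so `T ^ n = T` for `n ≥ 1` and by (1) `B (T u) v = B u (T v)`. Let `U' = {v | ∀ u ∈ U, B u v = 0}` (a submodule; carrier with the proofs by `Finset.sum_add_distrib`, `mul_add`, `Finset.mul_sum`). Stable: `B u (trs H g v) = B (trs H g⁻¹ u) v = 0`. Disjoint: `u ∈ U ⊓ U'`: `u = T u` and for every `w`: `B w u = B w (T u) = B (T w) u = 0` as `T w ∈ U`; take `w = Pi.single s 1`: `u s = 0`.
Codisjoint: `v = T v + (v - T v)`, for `u ∈ U`: `B u (v - T v) = B u v - B u (T v) = B u v - B (T u) v = B u v - B u v = 0`.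
-/

set_option autoImplicit false
set_option linter.unusedSectionVars false
open scoped Classical

open H90T8

namespace H88D8.SS

variable {G H : Type*} [Group G] [MulAction G H] [Finite H]

private lemma Xd_trs_pow (a : G) (n : ℕ) : (trs H a) ^ n = trs H (a ^ n) := by
  induction n with
  | zero =>
    rw [pow_zero, pow_zero]
    refine LinearMap.ext fun u => ?_
    rw [trs_one]
    rfl
  | succ n ih =>
    rw [pow_succ, ih, pow_succ']
    refine LinearMap.ext fun u => ?_
    rw [trs_mul]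
    rfl

private lemma Xd_add_self (x : Module.End (ZMod 2) (H → ZMod 2)) : x + x = 0 := by
  refine LinearMap.ext fun u => funext fun s => ?_
  change (x u) s + (x u) s = 0
  exact CharTwo.add_self_eq_zero _

private lemma Xd_add_pow (k : ℕ) (x y : Module.End (ZMod 2) (H → ZMod 2)) (h : Commute x y) :
    (x + y) ^ (2 ^ k) = x ^ (2 ^ k) + y ^ (2 ^ k) := by
  induction k with
  | zero => rw [pow_zero, pow_one, pow_one, pow_one]
  | succ k ih =>
    rw [pow_succ, pow_mul, ih, pow_mul, pow_mul]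
    have hc : Commute (x ^ (2 ^ k)) (y ^ (2 ^ k)) := h.pow_pow _ _
    have h1 := Xd_add_self (x ^ (2 ^ k) * y ^ (2 ^ k))
    rw [hc.add_sq]
    have h2 : (2 : Module.End (ZMod 2) (H → ZMod 2)) * x ^ (2 ^ k) * y ^ (2 ^ k) = 0 := by
      rw [mul_assoc, two_mul, h1]
    rw [h2, add_zero]

private lemma Xd_adj [Fintype H] {A : Subgroup G} (hA : AbTr H A) {k : ℕ}
    (hk : ∀ a ∈ A, ∀ s : H, (a ^ (2 ^ k)) • s = a⁻¹ • s)
    {T : Module.End (ZMod 2) (H → ZMod 2)} (hT : T ∈ TA H A) (u v : H → ZMod 2) :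
    ∑ s, ((T ^ (2 ^ k)) u) s * v s = ∑ s, u s * (T v) s := by
  have h2k : 2 ^ k ≠ 0 := pow_ne_zero _ (by norm_num)
  revert u v
  refine Submodule.span_induction (p := fun T _ => ∀ u v : H → ZMod 2,
    ∑ s, ((T ^ (2 ^ k)) u) s * v s = ∑ s, u s * (T v) s) ?_ ?_ ?_ ?_ hT
  · rintro T ⟨a, ha, rfl⟩ u v
    rw [Xd_trs_pow]
    refine Fintype.sum_equiv (MulAction.toPerm a⁻¹) _ _ fun s => ?_
    rw [trs_apply, trs_apply, hk a ha s, MulAction.toPerm_apply, smul_inv_smul]
  · intro u v
    rw [zero_pow h2k]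
    simp
  · intro x y hx hy ihx ihy u v
    rw [Xd_add_pow k x y (TA_comm hA hx hy)]
    simp only [LinearMap.add_apply, Pi.add_apply, add_mul, mul_add, Finset.sum_add_distrib]
    rw [ihx u v, ihy u v]
  · intro c x hx ihx u v
    have hc : c ^ (2 ^ k) = c := ZMod.pow_card_pow c
    rw [smul_pow, hc]
    simp only [LinearMap.smul_apply, Pi.smul_apply, smul_eq_mul]
    have h1 : ∑ s, c * ((x ^ (2 ^ k)) u) s * v s = c * ∑ s, ((x ^ (2 ^ k)) u) s * v s := by
      rw [Finset.mul_sum]
      exact Finset.sum_congr rfl fun s _ => by ring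
    have h2 : ∑ s, u s * (c * (x v) s) = c * ∑ s, u s * (x v) s := by
      rw [Finset.mul_sum]
      exact Finset.sum_congr rfl fun s _ => by ring
    rw [h1, h2, ihx u v]

theorem semi_pow (hodd : Odd (Nat.card H)) {A : Subgroup G} (hA : AbTr H A) {k : ℕ}
    (hk : ∀ a ∈ A, ∀ s : H, (a ^ (2 ^ k)) • s = a⁻¹ • s) : SemiSimple G H := by
  let _ : Fintype H := Fintype.ofFinite H
  intro U hU
  obtain ⟨T, hT, hTU, hTu⟩ := exists_proj hodd hA (U := U) (fun a _ u hu => hU a u hu)
  have hTT : T * T = T := LinearMap.ext fun u => hTu _ (hTU u)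
  have hTn : ∀ n : ℕ, T ^ (n + 1) = T := by
    intro n
    induction n with
    | zero => rw [zero_add, pow_one]
    | succ n ih => rw [pow_succ, ih, hTT]
  obtain ⟨m, hm⟩ : ∃ m, 2 ^ k = m + 1 := ⟨2 ^ k - 1, by have := Nat.two_pow_pos k; omega⟩
  have hB : ∀ u v : H → ZMod 2, ∑ s, (T u) s * v s = ∑ s, u s * (T v) s := by
    intro u v
    have h := Xd_adj hA hk hT u v
    rw [hm, hTn m] at h
    exact h
  let U' : Submodule (ZMod 2) (H → ZMod 2) :=
    { carrier := {v | ∀ u ∈ U, ∑ s, u s * v s = 0}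
      add_mem' := by
        intro v w hv hw u hu
        have h1 := hv u hu
        have h2 := hw u hu
        simp only [Pi.add_apply, mul_add, Finset.sum_add_distrib]
        rw [h1, h2, add_zero]
      zero_mem' := by
        intro u _
        simp
      smul_mem' := by
        intro c v hv u hu
        have h1 := hv u hu
        have h2 : ∑ s, u s * (c • v) s = c * ∑ s, u s * v s := by
          rw [Finset.mul_sum]
          refine Finset.sum_congr rfl fun s _ => ?_
          rw [Pi.smul_apply, smul_eq_mul]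
          ring
        rw [h2, h1, mul_zero] }
  have hmem : ∀ v, v ∈ U' ↔ ∀ u ∈ U, ∑ s, u s * v s = 0 := fun v => Iff.rfl
  refine ⟨U', ?_, ?_⟩
  · intro g v hv
    rw [hmem] at hv ⊢
    intro u hu
    rw [← hv _ (hU g⁻¹ u hu)]
    refine Fintype.sum_equiv (MulAction.toPerm g) _ _ fun s => ?_
    rw [MulAction.toPerm_apply, inv_smul_smul]
  · rw [isCompl_iff]
    constructor
    · rw [Submodule.disjoint_def]
      intro u hu hu'
      rw [hmem] at hu'
      funext s
      have h1 := hu' _ (hTU (Pi.single s 1))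
      rw [hB, hTu u hu] at h1
      have h2 : ∑ t, (Pi.single s (1 : ZMod 2) : H → ZMod 2) t * u t = u s := by
        simp [Pi.single_apply]
      rw [h2] at h1
      exact h1
    · rw [codisjoint_iff, eq_top_iff]
      intro v _
      rw [Submodule.mem_sup]
      refine ⟨T v, hTU v, v - T v, ?_, add_sub_cancel _ _⟩
      rw [hmem]
      intro u hu
      have h1 : ∑ s, u s * (v - T v) s = ∑ s, u s * v s - ∑ s, u s * (T v) s := by
        rw [← Finset.sum_sub_distrib]
        refine Finset.sum_congr rfl fun s _ => ?_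
        rw [Pi.sub_apply]
        ring
      rw [h1, ← hB, hTu u hu, sub_self]

end H88D8.SS
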