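import Pool.Agent.H88.SS.Df
import Pool.Agent.H88.SS.Xc
import Pool.Agent.H90.T8.Ts

/-!
ROW Xj (project MP_78d38b_SS, about 200 lines): the fields generated by a root of a rational number.

PROOF. `Ω = AlgebraicClosure ℚ`, `G = (Ω ≃ₐ[ℚ] Ω)`, `N = Module.finrank ℚ K` odd, `H = (K →ₐ[ℚ] Ω)`, `Nat.card H = N` (`H90T8.Ts_card`). If `N = 1` everything is trivial (`H` has one element; or treat it uniformly). Let `A = {g ∈ G | ∀ ζ : Ω, ζ ^ N = 1 → g ζ = ζ}` (a subgroup). We show that `A` is normal and `AbTr H A`; then `semi_normal` (row Xc). See also the proof of `H88T8.simple_pure` in `Pool/Agent/H88/T8/Pu.lean` (`N` prime).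
(1) normal: for `h ∈ G`, `a ∈ A`, `ζ ^ N = 1`: `(h⁻¹ ζ) ^ N = 1`, so `h (a (h⁻¹ ζ)) = h (h⁻¹ ζ) = ζ`.
(2) `α ≠ 0` if `N > 1` (if `α = 0` then `adjoin ℚ {α} = ⊥` and `N = 1`; for `N = 1` the set `H` has one element and `A = ⊤`-like statements are trivial). `σ ∈ H` is determined by `σ α` (`hgen`; as in `hinj` in `Pu.lean`). Fix `σ₀ ∈ H`, `x₀ = σ₀ α ≠ 0`. `(σ α) ^ N = (a : Ω) = x₀ ^ N`, so `z σ := σ α / x₀` satisfies `(z σ) ^ N = 1`, and `σ ↦ z σ` is injective, from a set with `N` elements to the set of the `N`-th roots of unity, which has `N` elements (`ζ₀` primitive, `HasEnoughRootsOfUnity.exists_primitiveRoot Ω N`; `hζ.eq_pow_of_pow_eq_one`), so it is a bijection: for every `ζ` with `ζ ^ N = 1` there is `σ` with `σ α = ζ x₀`.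
(3) for `g ∈ A` let `c g = g x₀ / x₀`, `(c g) ^ N = 1` (`g` fixes `x₀ ^ N = a`). Then `g (σ α) = g (z σ * x₀) = z σ * c g * x₀ = c g * σ α` for all `σ`. So for `g, h ∈ A`: `g (h (σ α)) = c g * c h * σ α` (`g` fixes `c h`), symmetric: `g • h • σ = h • g • σ`. And `c (g * h) = c g * c h`, so `Z = {c g | g ∈ A}` is a subgroup of the `N`-th roots of unity (`c 1 = 1`, `c g⁻¹ = (c g)⁻¹`). `A` is transitive iff `Z` is everything: given `σ, τ` take `g ∈ A` with `c g = z τ / z σ`.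
(4) Let `ζ₀` be a primitive `N`-th root of unity; `Z` corresponds to the additive subgroup `{i | ζ₀ ^ i ∈ Z}` of `ℤ`, generated by some `e ∣ N`, `e ≥ 1` (`Int.subgroup_cyclic`; `N` is in it): `ζ₀ ^ i ∈ Z ↔ e ∣ i`. Let `d = N / e` (`N = d e`): all `c ∈ Z` satisfy `c ^ d = 1` (`c = ζ₀ ^ i`, `e ∣ i`, `N ∣ i d`). We show `e = 1`, then `Z` is everything. Let `β = x₀ ^ d`. For `g ∈ A`: `g β = (c g) ^ d β = β`.
(5) `S = {g ∈ G | g β = β} ⊇ A`. For all `g, h ∈ G` the commutator `g⁻¹ h⁻¹ g h` (any form) is in `A`: on the roots of unity `g ζ₀ = ζ₀ ^ i`, `h ζ₀ = ζ₀ ^ j`, so `g h` and `h g` agree on all powers of `ζ₀`. So for `g ∈ S`, `h ∈ G`: `h⁻¹ g h = g (g⁻¹ h⁻¹ g h) ∈ S`, that is `g (h β) = h β`. (6) For every `ζ` with `ζ ^ N = 1` there is `h ∈ G` with `h x₀ = ζ x₀` (by (2) and `trans_closure`), so `h β = ζ ^ d β`; with (5) for all `g ∈ S`: `g (ζ ^ d) = ζ ^ d` (`β ≠ 0`). In particular for `ω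 = ζ₀ ^ d`, a primitive `e`-th root of unity (`IsPrimitiveRoot.pow`), `g ω = ω` for all `g ∈ S`. (7) `ω ∈ ℚ(β)`: `S` is the fixing subgroup of
`IntermediateField.adjoin ℚ {β}` and `Ω / ℚ` is Galois (`InfiniteGalois.fixedField_fixingSubgroup`, for infinite Galois extensions; here `Ω / ℚ` is Galois since characteristic zero and algebraically closed). So `ω ∈ ℚ(β) ⊆ ℚ(x₀) = σ₀.fieldRange` (degree `N`: `σ₀` is injective). Hence `φ(e) = [ℚ(ω) : ℚ] ∣ [ℚ(x₀) : ℚ] = N` (`Polynomial.cyclotomic_eq_minpoly_rat`, `Polynomial.natDegree_cyclotomic`, `minpoly.degree_dvd`/tower), so `φ(e)` is odd. `Nat.totient_even` (for `2 < e`): `e ≤ 2`, and `e ∣ N` is odd: `e = 1`. (It is simpler to work inside `K`: `ω = σ₀ w` for some `w ∈ K`, a primitive `e`-th root of unity in `K`.)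
-/

set_option autoImplicit false
set_option linter.unusedSectionVars false
open scoped Classical

open NumberField H88T7 H88T8 H90T8

namespace H88D8.SS

variable {K : Type} [Field K] [NumberField K]

private theorem Xj_inj {α : K} (hgen : IntermediateField.adjoin ℚ {α} = ⊤)
    (σ τ : K →ₐ[ℚ] AlgebraicClosure ℚ) (h : σ α = τ α) : σ = τ := by
  ext x
  have hx : x ∈ IntermediateField.adjoin ℚ {α} := by
    rw [hgen]
    trivial
  induction hx using IntermediateField.adjoin_induction with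
  | mem x hx =>
    rw [Set.mem_singleton_iff] at hx
    rw [hx, h]
  | algebraMap q => rw [σ.commutes, τ.commutes]
  | add x y _ _ hx hy => rw [map_add, map_add, hx, hy]
  | inv x _ hx => rw [map_inv₀, map_inv₀, hx]
  | mul x y _ _ hx hy => rw [map_mul, map_mul, hx, hy]

private theorem Xj_surj {N : ℕ} (hN : Module.finrank ℚ K = N) (hN0 : 0 < N) {α : K} {a : ℚ}
    (hα : α ^ N = algebraMap ℚ K a) (hα0 : α ≠ 0) (hgen : IntermediateField.adjoin ℚ {α} = ⊤)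
    {ζ : AlgebraicClosure ℚ} (hζ : IsPrimitiveRoot ζ N) (σ₀ : K →ₐ[ℚ] AlgebraicClosure ℚ) :
    (∀ σ : K →ₐ[ℚ] AlgebraicClosure ℚ, ∃ i < N, σ α = ζ ^ i * σ₀ α) ∧
      ∀ i < N, ∃ σ : K →ₐ[ℚ] AlgebraicClosure ℚ, σ α = ζ ^ i * σ₀ α := by
  have hNz : NeZero N := ⟨hN0.ne'⟩
  have hx0 : σ₀ α ≠ 0 := fun h => hα0 ((map_eq_zero σ₀).1 h)
  have hexp : ∀ σ : K →ₐ[ℚ] AlgebraicClosure ℚ, ∃ i < N, σ α = ζ ^ i * σ₀ α := by
    intro σ
    have h1 : (σ α / σ₀ α) ^ N = 1 := by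
      rw [div_pow, ← map_pow, ← map_pow, hα, σ.commutes, σ₀.commutes, div_self]
      rw [← σ₀.commutes, ← hα, map_pow]
      exact pow_ne_zero _ hx0
    obtain ⟨i, hi, hi'⟩ := hζ.eq_pow_of_pow_eq_one h1
    exact ⟨i, hi, by rw [hi', div_mul_cancel₀ _ hx0]⟩
  refine ⟨hexp, ?_⟩
  choose e he he' using hexp
  have hinj : Function.Injective (fun σ => (⟨e σ, he σ⟩ : Fin N)) := by
    intro σ τ h
    have h1 : e σ = e τ := congrArg Fin.val h
    exact Xj_inj hgen σ τ (by rw [he' σ, he' τ, h1])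
  have hbij := (Fintype.bijective_iff_injective_and_card _).2
    ⟨hinj, by rw [Ts_card, hN, Fintype.card_fin]⟩
  intro i hi
  obtain ⟨σ, hσ⟩ := hbij.2 ⟨i, hi⟩
  refine ⟨σ, ?_⟩
  have h1 : e σ = i := congrArg Fin.val hσ
  rw [he', h1]

/-- A primitive root of unity of prime order `p` in the base field: `p - 1` divides the degree. -/
private theorem Xj_deg {p : ℕ} (hp : p.Prime) {w : K} (hw : IsPrimitiveRoot w p) :
    p - 1 ∣ Module.finrank ℚ K := by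
  have h1 := minpoly.degree_dvd (K := ℚ) (L := K) (x := w) (Algebra.IsIntegral.isIntegral _)
  rw [← Polynomial.cyclotomic_eq_minpoly_rat hw hp.pos, Polynomial.natDegree_cyclotomic,
    Nat.totient_prime hp] at h1
  exact h1

/-- An element fixed by all automorphisms which fix the image of `α` is in the image of `K`. -/
private theorem Xj_fix {α : K} (σ₀ : K →ₐ[ℚ] AlgebraicClosure ℚ)
    {ω : AlgebraicClosure ℚ} (h : ∀ g : AlgebraicClosure ℚ ≃ₐ[ℚ] AlgebraicClosure ℚ,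
      g (σ₀ α) = σ₀ α → g ω = ω) : ∃ w : K, σ₀ w = ω := by
  let _ : Algebra K (AlgebraicClosure ℚ) := σ₀.toRingHom.toAlgebra
  have hsc : IsScalarTower ℚ K (AlgebraicClosure ℚ) :=
    IsScalarTower.of_algebraMap_eq (fun x => (σ₀.commutes x).symm)
  have hacl : IsAlgClosure ℚ (AlgebraicClosure ℚ) := ⟨inferInstance, AlgebraicClosure.isAlgebraic ℚ⟩
  have hint : Algebra.IsAlgebraic K (AlgebraicClosure ℚ) := Algebra.IsAlgebraic.tower_top (K := ℚ) K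
  have hnorm : Normal K (AlgebraicClosure ℚ) := by
    have : IsAlgClosure K (AlgebraicClosure ℚ) := ⟨inferInstance, hint⟩
    exact IsAlgClosure.normal K (AlgebraicClosure ℚ)
  have hgal : IsGalois K (AlgebraicClosure ℚ) := ⟨⟩
  have h1 := (InfiniteGalois.mem_range_algebraMap_iff_fixed (k := K) (K := AlgebraicClosure ℚ) ω).2
    fun f => h (f.restrictScalars ℚ) (f.commutes α)
  obtain ⟨w, hw⟩ := h1
  exact ⟨w, hw⟩

private theorem Xj_trans {N : ℕ} (hN : Module.finrank ℚ K = N) (hodd : Odd N) (hN1 : 1 < N) {α : K} {a : ℚ}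
    (hα : α ^ N = algebraMap ℚ K a) (hα0 : α ≠ 0) (hgen : IntermediateField.adjoin ℚ {α} = ⊤)
    {ζ : AlgebraicClosure ℚ} (hζ : IsPrimitiveRoot ζ N) (σ₀ : K →ₐ[ℚ] AlgebraicClosure ℚ) :
    ∀ i : ℤ, ∃ g : AlgebraicClosure ℚ ≃ₐ[ℚ] AlgebraicClosure ℚ, g ζ = ζ ∧ g (σ₀ α) = ζ ^ i * σ₀ α := by
  have hN0 : 0 < N := by omega
  have hNz : NeZero N := ⟨hN0.ne'⟩
  have hx0 : σ₀ α ≠ 0 := fun h => hα0 ((map_eq_zero σ₀).1 h)
  have hζ0 : ζ ≠ 0 := hζ.ne_zero hN0.ne'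
  obtain ⟨hexp, hsur⟩ := Xj_surj hN hN0 hα hα0 hgen hζ σ₀
  obtain ⟨I, hI⟩ : ∃ I : AddSubgroup ℤ, ∀ i, i ∈ I ↔
      ∃ g : AlgebraicClosure ℚ ≃ₐ[ℚ] AlgebraicClosure ℚ, g ζ = ζ ∧ g (σ₀ α) = ζ ^ i * σ₀ α := by
    refine ⟨{
      carrier := {i | ∃ g : AlgebraicClosure ℚ ≃ₐ[ℚ] AlgebraicClosure ℚ,
        g ζ = ζ ∧ g (σ₀ α) = ζ ^ i * σ₀ α}
      zero_mem' := ⟨1, rfl, by rw [zpow_zero, one_mul]; rfl⟩
      add_mem' := ?_
      neg_mem' := ?_ }, fun i => Iff.rfl⟩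
    · rintro i j ⟨g, hg, hg'⟩ ⟨h, hh, hh'⟩
      refine ⟨g * h, ?_, ?_⟩
      · change g (h ζ) = ζ
        rw [hh, hg]
      · change g (h (σ₀ α)) = _
        rw [hh', map_mul, map_zpow₀, hg, hg', zpow_add₀ hζ0]
        ring
    · rintro i ⟨g, hg, hg'⟩
      refine ⟨g.symm, (AlgEquiv.symm_apply_eq g).2 hg.symm, (AlgEquiv.symm_apply_eq g).2 ?_⟩
      rw [map_mul, map_zpow₀, hg, hg', ← mul_assoc, ← zpow_add₀ hζ0, neg_add_cancel, zpow_zero, one_mul]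
  have hNI : (N : ℤ) ∈ I := (hI _).2 ⟨1, rfl, by rw [zpow_natCast, hζ.pow_eq_one, one_mul]; rfl⟩
  obtain ⟨c, hc⟩ := Int.subgroup_cyclic I
  have hdvd : ∀ i, i ∈ I ↔ c ∣ i := by
    intro i
    rw [hc, AddSubgroup.mem_closure_singleton]
    constructor
    · rintro ⟨n, rfl⟩
      exact ⟨n, by rw [smul_eq_mul, mul_comm]⟩
    · rintro ⟨n, rfl⟩
      exact ⟨n, by rw [smul_eq_mul, mul_comm]⟩
  by_cases hc1 : c.natAbs = 1
  · intro i
    refine (hI i).1 ((hdvd i).2 ?_)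
    rw [← Int.natAbs_dvd, hc1]
    exact one_dvd _
  exfalso
  obtain ⟨p, hp, hpc⟩ := Nat.exists_prime_and_dvd hc1
  have hpc' : (p : ℤ) ∣ c := Int.natCast_dvd.2 hpc
  have hpN : p ∣ N := Int.natCast_dvd_natCast.1 (hpc'.trans ((hdvd _).1 hNI))
  obtain ⟨d, hd⟩ := hpN
  have hω : IsPrimitiveRoot (ζ ^ d) p := hζ.pow hN0 (by rw [hd, mul_comm])
  have hβ0 : (σ₀ α) ^ d ≠ 0 := pow_ne_zero _ hx0
  have hfix : ∀ u : AlgebraicClosure ℚ ≃ₐ[ℚ] AlgebraicClosure ℚ, u ζ = ζ →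
      u ((σ₀ α) ^ d) = (σ₀ α) ^ d := by
    intro u hu
    obtain ⟨i, -, hi⟩ := hexp (u • σ₀)
    have hi' : u (σ₀ α) = ζ ^ i * σ₀ α := hi
    have h1 : (i : ℤ) ∈ I := (hI _).2 ⟨u, hu, by rw [zpow_natCast]; exact hi'⟩
    have h2 : p ∣ i := Int.natCast_dvd_natCast.1 (hpc'.trans ((hdvd _).1 h1))
    obtain ⟨k, hk⟩ := h2
    have h3 : (ζ ^ i) ^ d = 1 := by
      rw [← pow_mul, hk]
      have h4 : p * k * d = N * k := by rw [hd]; ring
      rw [h4, pow_mul, hζ.pow_eq_one, one_pow]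
    rw [map_pow, hi', mul_pow, h3, one_mul]
  -- an automorphism which multiplies the root by `ζ`
  obtain ⟨σ₁, hσ₁⟩ := hsur 1 hN1
  obtain ⟨h, hh⟩ := trans_closure σ₀ σ₁
  have hhx : h (σ₀ α) = ζ * σ₀ α := by
    have h1 : (h • σ₀) α = ζ ^ 1 * σ₀ α := by rw [hh, hσ₁]
    rw [pow_one] at h1
    exact h1
  have hpow : ∀ g : AlgebraicClosure ℚ ≃ₐ[ℚ] AlgebraicClosure ℚ, ∃ i : ℕ, g ζ = ζ ^ i := by
    intro g
    have h1 : (g ζ) ^ N = 1 := by rw [← map_pow, hζ.pow_eq_one, map_one]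
    obtain ⟨i, -, hi⟩ := hζ.eq_pow_of_pow_eq_one h1
    exact ⟨i, hi.symm⟩
  obtain ⟨w, hw⟩ := Xj_fix (α := α) σ₀ (ω := ζ ^ d) (by
    intro g hg
    obtain ⟨i, hi⟩ := hpow g
    obtain ⟨j, hj⟩ := hpow h
    have h1 : g (h ζ) = h (g ζ) := by
      rw [hj, hi, map_pow, map_pow, hi, hj, ← pow_mul, ← pow_mul, mul_comm]
    have h2 := hfix ((h * g)⁻¹ * (g * h)) (by
      have h3 : (g * h) ζ = (h * g) ζ := h1
      have h4 : ((h * g)⁻¹ * (g * h)) ζ = (h * g)⁻¹ ((g * h) ζ) := rfl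
      have h5 : (h * g)⁻¹ ((h * g) ζ) = ((h * g)⁻¹ * (h * g)) ζ := rfl
      rw [h4, h3, h5, inv_mul_cancel]
      rfl)
    have h3 : (g * h) ((σ₀ α) ^ d) = (h * g) ((σ₀ α) ^ d) := by
      have h4 : (h * g) (((h * g)⁻¹ * (g * h)) ((σ₀ α) ^ d)) =
        ((h * g) * ((h * g)⁻¹ * (g * h))) ((σ₀ α) ^ d) := rfl
      rw [h2, mul_inv_cancel_left] at h4
      exact h4.symm
    have h4 : g (h ((σ₀ α) ^ d)) = h (g ((σ₀ α) ^ d)) := h3
    rw [map_pow g (σ₀ α) d, hg, map_pow h (σ₀ α) d, hhx, mul_pow, map_mul, map_pow g (σ₀ α) d, hg] at h4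
    exact mul_right_cancel₀ hβ0 h4)
  have hw' : IsPrimitiveRoot w p := by
    refine IsPrimitiveRoot.of_map_of_injective (f := (σ₀ : K →* AlgebraicClosure ℚ)) ?_ σ₀.toRingHom.injective
    change IsPrimitiveRoot (σ₀ w) p
    rw [hw]
    exact hω
  have h1 := Xj_deg hp hw'
  rw [hN] at h1
  have hpodd : Odd p := hodd.of_dvd_nat ⟨d, hd⟩
  obtain ⟨k, hk⟩ := hpodd
  have h2 : 2 ∣ p - 1 := ⟨k, by omega⟩
  have h3 := h2.trans h1
  rw [← even_iff_two_dvd] at h3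
  exact (Nat.not_even_iff_odd.2 hodd) h3

theorem semiK_radical (hodd : Odd (Module.finrank ℚ K)) (α : K) (a : ℚ)
    (hα : α ^ Module.finrank ℚ K = algebraMap ℚ K a)
    (hgen : IntermediateField.adjoin ℚ {α} = ⊤) : SemiK K := by
  obtain ⟨N, hN⟩ : ∃ N, Module.finrank ℚ K = N := ⟨_, rfl⟩
  rw [hN] at hodd hα
  have hcardH : Nat.card (K →ₐ[ℚ] AlgebraicClosure ℚ) = N := by
    rw [Nat.card_eq_fintype_card, Ts_card, hN]
  have hoddH : Odd (Nat.card (K →ₐ[ℚ] AlgebraicClosure ℚ)) := by rw [hcardH]; exact hodd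
  unfold SemiK
  rcases Nat.lt_or_ge 1 N with hN1 | hN1
  · have hN0 : 0 < N := by omega
    have hNz : NeZero N := ⟨hN0.ne'⟩
    have hα0 : α ≠ 0 := by
      rintro rfl
      rw [IntermediateField.adjoin_zero] at hgen
      have h1 : Module.finrank ℚ (⊥ : IntermediateField ℚ K) = N := by
        rw [hgen, IntermediateField.finrank_top', hN]
      rw [IntermediateField.finrank_bot] at h1
      omega
    have hNΩ : NeZero (N : AlgebraicClosure ℚ) := ⟨by exact_mod_cast hN0.ne'⟩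
    obtain ⟨ζ, hζ⟩ := HasEnoughRootsOfUnity.exists_primitiveRoot (AlgebraicClosure ℚ) N
    have hne : Nonempty (K →ₐ[ℚ] AlgebraicClosure ℚ) := by
      rw [← Fintype.card_pos_iff, Ts_card, hN]
      exact hN0
    obtain ⟨σ₀⟩ := hne
    have hx0 : σ₀ α ≠ 0 := fun h => hα0 ((map_eq_zero σ₀).1 h)
    obtain ⟨hexp, hsur⟩ := Xj_surj hN hN0 hα hα0 hgen hζ σ₀
    have htr := Xj_trans hN hodd hN1 hα hα0 hgen hζ σ₀
    obtain ⟨A, hA⟩ : ∃ A : Subgroup (AlgebraicClosure ℚ ≃ₐ[ℚ] AlgebraicClosure ℚ),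
        ∀ g, g ∈ A ↔ g ζ = ζ := by
      refine ⟨{
        carrier := {g | g ζ = ζ}
        one_mem' := rfl
        mul_mem' := ?_
        inv_mem' := ?_ }, fun g => Iff.rfl⟩
      · intro g h hg hh
        change g (h ζ) = ζ
        change g ζ = ζ at hg
        change h ζ = ζ at hh
        rw [hh, hg]
      · intro g hg
        change g.symm ζ = ζ
        change g ζ = ζ at hg
        exact (AlgEquiv.symm_apply_eq g).2 hg.symm
    refine semi_normal hoddH (A := A) ?_ ⟨?_, ?_⟩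
    · refine ⟨fun n hn g => ?_⟩
      rw [hA] at hn ⊢
      have h1 : (g.symm ζ) ^ N = 1 := by rw [← map_pow, hζ.pow_eq_one, map_one]
      obtain ⟨i, -, hi⟩ := hζ.eq_pow_of_pow_eq_one h1
      change g (n (g.symm ζ)) = ζ
      rw [← hi, map_pow n, hn, hi, AlgEquiv.apply_symm_apply]
    · intro g hg h hh σ
      rw [hA] at hg hh
      obtain ⟨i, -, hi⟩ := hexp σ
      obtain ⟨k, -, hk⟩ := hexp (g • σ₀)
      obtain ⟨l, -, hl⟩ := hexp (h • σ₀)
      have hk' : g (σ₀ α) = ζ ^ k * σ₀ α := hk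
      have hl' : h (σ₀ α) = ζ ^ l * σ₀ α := hl
      apply Xj_inj hgen
      change g (h (σ α)) = h (g (σ α))
      simp only [hi, map_mul, map_pow, hg, hh, hk', hl']
      ring
    · intro σ τ
      obtain ⟨i, -, hi⟩ := hexp σ
      obtain ⟨j, -, hj⟩ := hexp τ
      obtain ⟨g, hg, hg'⟩ := htr ((j : ℤ) - i)
      refine ⟨g, (hA g).2 hg, Xj_inj hgen _ _ ?_⟩
      change g (σ α) = τ α
      have hζ0 : ζ ≠ 0 := hζ.ne_zero hN0.ne'
      rw [hi, hj, map_mul, map_pow, hg, hg', zpow_sub₀ hζ0, zpow_natCast, zpow_natCast, ← mul_assoc,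
        mul_div_cancel₀ _ (pow_ne_zero _ hζ0)]
  · have hs : Subsingleton (K →ₐ[ℚ] AlgebraicClosure ℚ) := by
      rw [← Finite.card_le_one_iff_subsingleton, hcardH]
      exact hN1
    exact semi_normal hoddH (A := ⊤) inferInstance
      ⟨fun _ _ _ _ _ => Subsingleton.elim _ _, fun s t => ⟨1, trivial, Subsingleton.elim _ _⟩⟩

end H88D8.SS
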