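import Pool.Agent.H88.SS.Kt

/-!
Definitions for the criteria of semisimplicity (project MP_78d38b_SS); no row. `G` acts on a finite set `H`,
`V = (H → ZMod 2)`.
-/

set_option autoImplicit false
set_option linter.unusedSectionVars false
open scoped Classical

open H90T8

namespace H88D8.SS

section

variable {G : Type*} (H : Type*) [Group G] [MulAction G H]

/-- The translation by an element of the group. -/
def trs (g : G) : (H → ZMod 2) →ₗ[ZMod 2] (H → ZMod 2) where
  toFun u := fun s => u (g • s)
  map_add' _ _ := rfl
  map_smul' _ _ := rfl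

theorem trs_apply (g : G) (u : H → ZMod 2) (s : H) : trs H g u s = u (g • s) := rfl

theorem trs_mul (g h : G) (u : H → ZMod 2) : trs H (g * h) u = trs H h (trs H g u) := by
  funext s
  rw [trs_apply, trs_apply, trs_apply, mul_smul]

theorem trs_one (u : H → ZMod 2) : trs H (1 : G) u = u := by
  funext s
  rw [trs_apply, one_smul]

theorem trs_inv (g : G) (u : H → ZMod 2) : trs H g⁻¹ (trs H g u) = u := by
  rw [← trs_mul, mul_inv_cancel, trs_one]

theorem trs_inv' (g : G) (u : H → ZMod 2) : trs H g (trs H g⁻¹ u) = u := by
  rw [← trs_mul, inv_mul_cancel, trs_one]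

/-- The elements of the subgroup commute on `H` and the subgroup acts transitively. -/
structure AbTr (A : Subgroup G) : Prop where
  comm : ∀ a ∈ A, ∀ b ∈ A, ∀ s : H, a • b • s = b • a • s
  trans : ∀ s t : H, ∃ a ∈ A, a • s = t

/-- The span of the translations by the elements of the subgroup. -/
def TA (A : Subgroup G) : Submodule (ZMod 2) (Module.End (ZMod 2) (H → ZMod 2)) :=
  Submodule.span (ZMod 2) {T | ∃ a ∈ A, T = trs H a}

/-- The subspace is stable under the group. -/
def StabV (G : Type*) {H : Type*} [Group G] [MulAction G H] (U : Submodule (ZMod 2) (H → ZMod 2)) : Prop :=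
  ∀ g : G, ∀ u ∈ U, (fun s => u (g • s)) ∈ U

end

end H88D8.SS
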